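import Pool.Agent.MPe9218d.Core

set_option autoImplicit false

namespace Pool.Agent.H372R3.GD

open Pool.Agent.MPe9218d

/-- Lists of positive integers at most `m`, all `ok`, with gap condition `d`, and sum `n`. -/
def LSet (ok : ℕ → Prop) (d : ℕ → ℕ) (m n : ℕ) : Set (List ℕ) :=
  {l | (∀ e ∈ l, 1 ≤ e ∧ e ≤ m ∧ ok e) ∧ l.IsChain (fun e e' => e' + d e ≤ e) ∧ l.sum = n}

section
variable {ok : ℕ → Prop} {d : ℕ → ℕ}

theorem chain_pairwise (hd : ∀ e, 1 ≤ d e) {l : List ℕ}
    (h : l.IsChain (fun e e' => e' + d e ≤ e)) : l.Pairwise (· > ·) := by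
  have h1 : l.IsChain (· > ·) := h.imp (fun a b hab => by have := hd a; show b < a; omega)
  exact h1.pairwise

theorem finite_LSet (hd : ∀ e, 1 ≤ d e) (m n : ℕ) : (LSet ok d m n).Finite := by
  refine (finite_partitions n).subset ?_
  rintro l ⟨h1, h2, h3⟩
  exact ⟨(chain_pairwise hd h2).imp (fun h => le_of_lt h), fun e he => (h1 e he).1, h3⟩

theorem LSet_zero (n : ℕ) : LSet ok d 0 n = if n = 0 then {[]} else ∅ := by
  ext l
  constructor
  · rintro ⟨h1, h2, h3⟩
    have hl : l = [] := by
      rcases l with _ | ⟨e, l⟩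
      · rfl
      · have := h1 e (by simp); omega
    subst hl
    have : n = 0 := by simpa using h3.symm
    simp [this]
  · intro h
    split_ifs at h with hn
    · rw [Set.mem_singleton_iff] at h
      subst h
      exact ⟨by simp, by simp, by simp [hn]⟩
    · exact absurd h (Set.notMem_empty _)

theorem chain_bound (hd : ∀ e, 1 ≤ d e) {x : ℕ} {l : List ℕ}
    (h : (x :: l).IsChain (fun e e' => e' + d e ≤ e)) : ∀ e ∈ l, e + d x ≤ x := by
  rcases l with _ | ⟨y, l⟩
  · simp
  · rw [List.isChain_cons_cons] at h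
    have hp := chain_pairwise hd h.2
    rw [List.pairwise_cons] at hp
    intro e he
    rcases List.mem_cons.mp he with rfl | he
    · exact h.1
    · have := hp.1 e he
      omega

theorem LSet_succ_ok (hd : ∀ e, 1 ≤ d e) (m n : ℕ) (hok : ok (m + 1)) (hn : m + 1 ≤ n) :
    LSet ok d (m + 1) n = LSet ok d m n ∪
      (fun l => (m + 1) :: l) '' LSet ok d (m + 1 - d (m + 1)) (n - (m + 1)) := by
  ext l
  constructor
  · rintro ⟨h1, h2, h3⟩
    rcases l with _ | ⟨x, l⟩
    · left; exact ⟨by simp, by simp, h3⟩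
    · by_cases hx : x = m + 1
      · right
        subst hx
        have hb := chain_bound hd h2
        refine ⟨l, ⟨?_, ?_, ?_⟩, rfl⟩
        · intro e he
          have h4 := h1 e (List.mem_cons_of_mem _ he)
          have h5 := hb e he
          exact ⟨h4.1, by omega, h4.2.2⟩
        · exact h2.of_cons
        · simp at h3; omega
      · left
        have hx' := h1 x (by simp)
        have hb := chain_bound hd h2
        refine ⟨?_, h2, h3⟩
        intro e he
        have h4 := h1 e he
        refine ⟨h4.1, ?_, h4.2.2⟩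
        rcases List.mem_cons.mp he with rfl | he
        · omega
        · have := hb e he
          omega
  · rintro (⟨h1, h2, h3⟩ | ⟨l, ⟨h1, h2, h3⟩, rfl⟩)
    · exact ⟨fun e he => ⟨(h1 e he).1, by have := (h1 e he).2.1; omega, (h1 e he).2.2⟩, h2, h3⟩
    · refine ⟨?_, ?_, ?_⟩
      · intro e he
        rcases List.mem_cons.mp he with rfl | he
        · exact ⟨by omega, le_rfl, hok⟩
        · have h4 := h1 e he
          exact ⟨h4.1, by have := hd (m + 1); omega, h4.2.2⟩
      · rcases l with _ | ⟨y, l⟩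
        · simp
        · rw [List.isChain_cons_cons]
          refine ⟨?_, h2⟩
          have h4 := h1 y (by simp)
          omega
      · simp; omega

theorem LSet_succ_not (hd : ∀ e, 1 ≤ d e) (m n : ℕ) (hok : ¬ (ok (m + 1) ∧ m + 1 ≤ n)) :
    LSet ok d (m + 1) n = LSet ok d m n := by
  ext l
  constructor
  · rintro ⟨h1, h2, h3⟩
    rcases l with _ | ⟨x, l⟩
    · exact ⟨by simp, by simp, h3⟩
    · have hb := chain_bound hd h2
      have hx := h1 x (by simp)
      have hxm : x ≠ m + 1 := by
        rintro rfl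
        apply hok
        refine ⟨hx.2.2, ?_⟩
        simp at h3; omega
      refine ⟨?_, h2, h3⟩
      intro e he
      have h4 := h1 e he
      refine ⟨h4.1, ?_, h4.2.2⟩
      rcases List.mem_cons.mp he with rfl | he
      · omega
      · have := hb e he
        omega
  · rintro ⟨h1, h2, h3⟩
    exact ⟨fun e he => ⟨(h1 e he).1, by have := (h1 e he).2.1; omega, (h1 e he).2.2⟩, h2, h3⟩

theorem ncard_zero (n : ℕ) : (LSet ok d 0 n).ncard = if n = 0 then 1 else 0 := by
  rw [LSet_zero]
  split_ifs <;> simp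

theorem ncard_succ [DecidablePred ok] (hd : ∀ e, 1 ≤ d e) (m n : ℕ) :
    (LSet ok d (m + 1) n).ncard = (LSet ok d m n).ncard +
      if ok (m + 1) ∧ m + 1 ≤ n then
        (LSet ok d (m + 1 - d (m + 1)) (n - (m + 1))).ncard else 0 := by
  split_ifs with h
  · have hdisj : Disjoint (LSet ok d m n)
        ((fun l => (m + 1) :: l) '' LSet ok d (m + 1 - d (m + 1)) (n - (m + 1))) := by
      rw [Set.disjoint_left]
      rintro l ⟨h1, _, _⟩ ⟨l', _, rfl⟩
      have := (h1 (m + 1) (by simp)).2.1
      omega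
    have hinj : Function.Injective (fun l : List ℕ => (m + 1) :: l) := by
      intro a b hab; simpa using hab
    rw [LSet_succ_ok hd m n h.1 h.2, Set.ncard_union_eq hdisj (finite_LSet hd _ _)
      ((finite_LSet hd _ _).image _), Set.ncard_image_of_injective _ hinj]
  · rw [LSet_succ_not hd m n h, add_zero]

/-- parts are at most the sum -/
theorem LSet_large {m m' n : ℕ} (h : n ≤ m) (h' : n ≤ m') : LSet ok d m n = LSet ok d m' n := by
  have key : ∀ m m' : ℕ, n ≤ m' → LSet ok d m n ⊆ LSet ok d m' n := by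
    rintro m m' hm' l ⟨h1, h2, h3⟩
    refine ⟨fun e he => ⟨(h1 e he).1, ?_, (h1 e he).2.2⟩, h2, h3⟩
    have := List.single_le_sum (l := l) (fun x _ => Nat.zero_le x) e he
    omega
  exact Set.Subset.antisymm (key _ _ h') (key _ _ h)

/-- capping the gaps -/
theorem LSet_cap {m n N : ℕ} (hm : m ≤ N) :
    LSet ok d m n = LSet ok (fun e => min (d e) (N + 1)) m n := by
  ext l
  constructor
  · rintro ⟨h1, h2, h3⟩
    refine ⟨h1, ?_, h3⟩
    exact h2.imp (fun a b hab => by
      have : min (d a) (N + 1) ≤ d a := min_le_left _ _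
      show b + min (d a) (N + 1) ≤ a
      omega)
  · rintro ⟨h1, h2, h3⟩
    refine ⟨h1, ?_, h3⟩
    have h4 : l.IsChain (fun e e' => e' + min (d e) (N + 1) ≤ e ∧ e ≤ m) := by
      have : ∀ l : List ℕ, (∀ e ∈ l, e ≤ m) →
          l.IsChain (fun e e' => e' + min (d e) (N + 1) ≤ e) →
          l.IsChain (fun e e' => e' + min (d e) (N + 1) ≤ e ∧ e ≤ m) := by
        intro l
        induction l with
        | nil => intro _ _; simp
        | cons x l ih =>
          intro h5 h6
          rcases l with _ | ⟨y, l⟩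
          · simp
          · rw [List.isChain_cons_cons] at h6 ⊢
            exact ⟨⟨h6.1, h5 x (by simp)⟩, ih (fun e he => h5 e (List.mem_cons_of_mem _ he)) h6.2⟩
      exact this l (fun e he => (h1 e he).2.1) h2
    exact h4.imp (fun a b hab => by
      obtain ⟨h5, h6⟩ := hab
      show b + d a ≤ a
      rcases le_total (d a) (N + 1) with h7 | h7
      · rw [min_eq_left h7] at h5; exact h5
      · rw [min_eq_right h7] at h5; omega)

end

/-- computable count, `f` is fuel -/
def cnt (ok : ℕ → Bool) (d : ℕ → ℕ) : ℕ → ℕ → ℕ → ℕ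
  | 0, _, n => if n = 0 then 1 else 0
  | _ + 1, 0, n => if n = 0 then 1 else 0
  | f + 1, m + 1, n => cnt ok d f m n +
      if ok (m + 1) && decide (m + 1 ≤ n) then cnt ok d f (m + 1 - d (m + 1)) (n - (m + 1)) else 0

theorem cnt_eq (ok : ℕ → Bool) (d : ℕ → ℕ) (hd : ∀ e, 1 ≤ d e) :
    ∀ f m n, m ≤ f → (LSet (fun e => ok e = true) d m n).ncard = cnt ok d f m n := by
  intro f
  induction f with
  | zero =>
    intro m n hm
    have : m = 0 := by omega
    subst this
    rw [ncard_zero, cnt]
  | succ f ih =>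
    intro m n hm
    rcases m with _ | m
    · rw [ncard_zero, cnt]
    · rw [ncard_succ hd, cnt, ih m n (by omega), ih _ _ (by have := hd (m + 1); omega)]
      simp

end Pool.Agent.H372R3.GD
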