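import Mathlib

set_option autoImplicit false

namespace Pool.Agent.H372R3.GD

section algebra
variable {R : Type} [CommRing R] (q : R)

/-- the recurrence with parameter `q^(2j)` -/
def Rec (j : ℕ) (g : ℕ → R) : Prop :=
  ∀ k, g (k + 2) = (1 + q ^ (2 * (k + 1))) * g (k + 1) + q ^ (2 * j + 2 * (k + 1) + 1) * g k

theorem Rec.unique {j : ℕ} {g h : ℕ → R} (hg : Rec q j g) (hh : Rec q j h)
    (h0 : g 0 = h 0) (h1 : g 1 = h 1) : ∀ k, g k = h k := by
  intro k
  induction k using Nat.strong_induction_on with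
  | _ k ih =>
    rcases k with _ | _ | k
    · exact h0
    · exact h1
    · rw [hg k, hh k, ih (k + 1) (by omega), ih k (by omega)]

theorem Rec.unique' {j : ℕ} {g h : ℕ → R} (hg : Rec q j g) (hh : Rec q j h)
    (h1 : g 1 = h 1) (h2 : g 2 = h 2) : ∀ k, g (k + 1) = h (k + 1) := by
  intro k
  induction k using Nat.strong_induction_on with
  | _ k ih =>
    rcases k with _ | _ | k
    · exact h1
    · exact h2
    · rw [show k + 1 + 1 + 1 = (k + 1) + 2 by ring, hg (k + 1), hh (k + 1), ih (k + 1) (by omega),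
        ih k (by omega)]

/-- two step recursion -/
def seq (j : ℕ) (x y : R) : ℕ → R
  | 0 => x
  | 1 => y
  | k + 2 => (1 + q ^ (2 * (k + 1))) * seq j x y (k + 1) +
      q ^ (2 * j + 2 * (k + 1) + 1) * seq j x y k

theorem seq_rec (j : ℕ) (x y : R) : Rec q j (seq q j x y) := fun k => by rw [seq]

/-- the operator raising `j` (index shifted: value at `k + 1`) -/
theorem raise_rec {j : ℕ} {g h : ℕ → R} (hg : Rec q j g)
    (hh : ∀ k, h (k + 1) = g (k + 1) + q ^ (2 * j + 2 * (k + 1) + 1) * g k) :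
    ∀ k, h (k + 3) = (1 + q ^ (2 * (k + 2))) * h (k + 2) +
      q ^ (2 * (j + 1) + 2 * (k + 2) + 1) * h (k + 1) := by
  intro k
  have e1 := hh (k + 2)
  have e2 := hh (k + 1)
  have e3 := hh k
  have r1 := hg (k + 1)
  have r2 := hg k
  rw [show k + 2 + 1 = k + 3 by ring] at e1
  rw [show k + 1 + 1 = k + 2 by ring] at e2
  rw [show k + 1 + 2 = k + 3 by ring, show k + 1 + 1 = k + 2 by ring] at r1
  rw [e1, e2, e3, r1, r2]
  ring

theorem raise_eq {j : ℕ} {g h e : ℕ → R} {c : R} (hg : Rec q j g) (he : Rec q (j + 1) e)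
    (hh : ∀ k, h (k + 1) = g (k + 1) + q ^ (2 * j + 2 * (k + 1) + 1) * g k)
    (h1 : h 1 = c * e 1) (h2 : h 2 = c * e 2) : ∀ k, h (k + 1) = c * e (k + 1) := by
  have hr := raise_rec q hg hh
  intro k
  induction k using Nat.strong_induction_on with
  | _ k ih =>
    rcases k with _ | _ | k
    · exact h1
    · exact h2
    · rw [show k + 1 + 1 + 1 = k + 3 by ring, hr k]
      have e1 := ih (k + 1) (by omega)
      have e2 := ih k (by omega)
      have e3 := he (k + 1)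
      rw [show k + 1 + 1 = k + 2 by ring] at e1
      rw [show k + 1 + 2 = k + 3 by ring, show k + 1 + 1 = k + 2 by ring] at e3
      rw [e1, e2, e3]
      ring

/-- the two basic solutions -/
def Gs (j : ℕ) : ℕ → R := seq q j 1 1
def Es (j : ℕ) : ℕ → R := seq q j 0 1

theorem Gs_zero (j : ℕ) : Gs q j 0 = 1 := by rw [Gs, seq]
theorem Gs_one (j : ℕ) : Gs q j 1 = 1 := by rw [Gs, seq]
theorem Es_zero (j : ℕ) : Es q j 0 = 0 := by rw [Es, seq]
theorem Es_one (j : ℕ) : Es q j 1 = 1 := by rw [Es, seq]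
theorem Gs_rec (j : ℕ) : Rec q j (Gs q j) := seq_rec q j 1 1
theorem Es_rec (j : ℕ) : Rec q j (Es q j) := seq_rec q j 0 1

theorem G_raise (j k : ℕ) : Gs q j (k + 1) + q ^ (2 * j + 2 * (k + 1) + 1) * Gs q j k =
    (1 + q ^ (2 * j + 3)) * Es q (j + 1) (k + 1) := by
  refine raise_eq q (h := fun k => Gs q j k + q ^ (2 * j + 2 * k + 1) * Gs q j (k - 1))
    (Gs_rec q j) (Es_rec q (j + 1)) (fun k => by simp) ?_ ?_ k
  · simp only [Gs_one, Es_one, Nat.sub_self, Gs_zero]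
    ring
  · have r1 := Gs_rec q j 0
    have r2 := Es_rec q (j + 1) 0
    simp only [zero_add] at r1 r2
    show Gs q j 2 + q ^ (2 * j + 2 * 2 + 1) * Gs q j 1 = (1 + q ^ (2 * j + 3)) * Es q (j + 1) 2
    rw [r1, r2, Gs_zero, Gs_one, Es_zero, Es_one]
    ring

theorem E_raise (j k : ℕ) : Es q j (k + 1) + q ^ (2 * j + 2 * (k + 1) + 1) * Es q j k =
    Gs q (j + 1) (k + 1) := by
  have h := raise_eq q (c := 1) (h := fun k => Es q j k + q ^ (2 * j + 2 * k + 1) * Es q j (k - 1))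
    (Es_rec q j) (Gs_rec q (j + 1)) (fun k => by simp) ?_ ?_ k
  · simpa using h
  · simp only [Gs_one, Es_one, Nat.sub_self, Es_zero]
    ring
  · have r1 := Es_rec q j 0
    have r2 := Gs_rec q (j + 1) 0
    simp only [zero_add] at r1 r2
    show Es q j 2 + q ^ (2 * j + 2 * 2 + 1) * Es q j 1 = 1 * Gs q (j + 1) 2
    rw [r1, r2, Gs_zero, Gs_one, Es_zero, Es_one]
    ring

theorem step_dvd (j k : ℕ) :
    q ^ (2 * k + 3) ∣ Gs q j (k + 1) - (1 + q ^ (2 * j + 3)) * Gs q (j + 2) (k + 1) := by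
  have h1 := G_raise q j k
  have h2 := E_raise q (j + 1) k
  have e : Gs q j (k + 1) - (1 + q ^ (2 * j + 3)) * Gs q (j + 2) (k + 1) =
      q ^ (2 * k + 3) * (- (q ^ (2 * j) * Gs q j k) -
        (1 + q ^ (2 * j + 3)) * (q ^ (2 * j + 2) * Es q (j + 1) k)) := by
    rw [show j + 2 = j + 1 + 1 by ring, ← h2]
    have h3 : Gs q j (k + 1) = (1 + q ^ (2 * j + 3)) * Es q (j + 1) (k + 1) -
        q ^ (2 * j + 2 * (k + 1) + 1) * Gs q j k := by rw [← h1]; ring
    rw [h3]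
    ring
  rw [e]
  exact Dvd.intro _ rfl

theorem iter_dvd (k N : ℕ) :
    q ^ (2 * k + 3) ∣ Gs q 0 (k + 1) -
      (∏ i ∈ Finset.range N, (1 + q ^ (4 * i + 3))) * Gs q (2 * N) (k + 1) := by
  induction N with
  | zero => simp
  | succ N ih =>
    have h := step_dvd q (2 * N) k
    have h2 : q ^ (2 * k + 3) ∣ (∏ i ∈ Finset.range N, (1 + q ^ (4 * i + 3))) *
        (Gs q (2 * N) (k + 1) - (1 + q ^ (2 * (2 * N) + 3)) * Gs q (2 * N + 2) (k + 1)) :=
      Dvd.dvd.mul_left h _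
    have h3 := dvd_add ih h2
    rw [Finset.prod_range_succ]
    convert h3 using 1
    rw [show 2 * (N + 1) = 2 * N + 2 by ring, show 2 * (2 * N) = 4 * N by ring]
    ring

theorem even_dvd (j k : ℕ) :
    q ^ (2 * j + 3) ∣ Gs q j (k + 1) - ∏ i ∈ Finset.range k, (1 + q ^ (2 * (i + 1))) := by
  induction k with
  | zero => simp [Gs_one]
  | succ k ih =>
    have r := Gs_rec q j k
    rw [show k + 1 + 1 = k + 2 by ring, r, Finset.prod_range_succ]
    have h2 : q ^ (2 * j + 3) ∣ (1 + q ^ (2 * (k + 1))) * (Gs q j (k + 1) -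
        ∏ i ∈ Finset.range k, (1 + q ^ (2 * (i + 1)))) := Dvd.dvd.mul_left ih _
    have h3 : q ^ (2 * j + 3) ∣ q ^ (2 * j + 2 * (k + 1) + 1) * Gs q j k := by
      refine Dvd.dvd.mul_right ?_ _
      exact pow_dvd_pow _ (by omega)
    convert dvd_add h2 h3 using 1
    ring

/-- the limit product -/
theorem main_dvd (N : ℕ) :
    q ^ (4 * N + 3) ∣ Gs q 0 (2 * N + 1) -
      (∏ i ∈ Finset.range N, (1 + q ^ (4 * i + 3))) *
        ∏ i ∈ Finset.range (2 * N), (1 + q ^ (2 * (i + 1))) := by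
  have h1 := iter_dvd q (2 * N) N
  have h2 := even_dvd q (2 * N) (2 * N)
  rw [show 2 * (2 * N) + 3 = 4 * N + 3 by ring] at h1 h2
  have h3 : q ^ (4 * N + 3) ∣ (∏ i ∈ Finset.range N, (1 + q ^ (4 * i + 3))) *
      (Gs q (2 * N) (2 * N + 1) - ∏ i ∈ Finset.range (2 * N), (1 + q ^ (2 * (i + 1)))) :=
    Dvd.dvd.mul_left h2 _
  convert dvd_add h1 h3 using 1
  ring

end algebra

end Pool.Agent.H372R3.GD
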