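import Pool.Agent.H372R3.GD1
import Pool.Agent.H372R3.GD2

set_option autoImplicit false

namespace Pool.Agent.H372R3.GD

open Pool.Agent.MPe9218d

section gf
variable {ok : ℕ → Prop} {d : ℕ → ℕ}

/-- generating function of the lists with parts at most `m` -/
noncomputable def gf (ok : ℕ → Prop) (d : ℕ → ℕ) (m : ℕ) : PowerSeries ℤ :=
  PowerSeries.mk fun n => ((LSet ok d m n).ncard : ℤ)

theorem gf_zero : gf ok d 0 = 1 := by
  ext n
  rw [gf, PowerSeries.coeff_mk, ncard_zero, PowerSeries.coeff_one]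
  split_ifs <;> simp

theorem gf_ok (hd : ∀ e, 1 ≤ d e) {m : ℕ} (h : ok (m + 1)) :
    gf ok d (m + 1) = gf ok d m + PowerSeries.X ^ (m + 1) * gf ok d (m + 1 - d (m + 1)) := by
  classical
  ext n
  rw [map_add, PowerSeries.coeff_X_pow_mul', gf, gf, gf, PowerSeries.coeff_mk,
    PowerSeries.coeff_mk, ncard_succ hd]
  by_cases hn : m + 1 ≤ n
  · rw [if_pos ⟨h, hn⟩, if_pos hn, PowerSeries.coeff_mk]; push_cast; ring
  · rw [if_neg (fun h => hn h.2), if_neg hn]; simp

theorem gf_not (hd : ∀ e, 1 ≤ d e) {m : ℕ} (h : ¬ ok (m + 1)) :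
    gf ok d (m + 1) = gf ok d m := by
  classical
  ext n
  rw [gf, gf, PowerSeries.coeff_mk, PowerSeries.coeff_mk, ncard_succ hd,
    if_neg (fun h' => h h'.1)]
  simp

end gf

/-- residue in `{1,2,3,4}` -/
def res (e : ℕ) : ℕ := if e % 4 = 0 then 4 else e % 4

def okA (e : ℕ) : Prop := e % 4 ≠ 1
def okB (e : ℕ) : Prop := e ≠ 1

theorem ASet_eq (n : ℕ) : ASet (a 4) 3 4 n = LSet okA (fun _ => 1) n n := by
  ext l
  constructor
  · rintro ⟨⟨h1, h2, h3⟩, h4, h5⟩
    refine ⟨?_, ?_, h3⟩
    · intro e he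
      refine ⟨h2 e he, ?_, ?_⟩
      · have := List.single_le_sum (l := l) (fun x _ => Nat.zero_le x) e he
        omega
      · obtain ⟨i, hi1, hi2, hi⟩ := h5 e he
        have hi' : e % 4 = (a 4 i) % 4 := hi
        show e % 4 ≠ 1
        interval_cases i <;> simp [a] at hi' <;> omega
    · have h6 : l.Pairwise (· ≠ ·) := h4
      have h7 : l.Pairwise (fun e e' => e' + 1 ≤ e) :=
        (h1.and h6).imp (fun {x y} h => by
          have h8 := h.1
          have h9 := h.2
          show y + 1 ≤ x
          have : y ≤ x := h8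
          omega)
      exact h7.isChain
  · rintro ⟨h1, h2, h3⟩
    have hp := chain_pairwise (d := fun _ => 1) (fun _ => le_rfl) h2
    refine ⟨⟨hp.imp (fun h => le_of_lt h), fun e he => (h1 e he).1, h3⟩, ?_, ?_⟩
    · exact hp.imp (fun {x y} h => (ne_of_gt h))
    · intro e he
      have h4 : e % 4 ≠ 1 := (h1 e he).2.2
      have h5 : e % 4 < 4 := Nat.mod_lt _ (by norm_num)
      have h6 : e % 4 = 0 ∨ e % 4 = 2 ∨ e % 4 = 3 := by omega
      rcases h6 with h6 | h6 | h6
      · exact ⟨3, by norm_num, le_rfl, by show e % 4 = (a 4 3) % 4; simp [a, h6]⟩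
      · exact ⟨2, by norm_num, by norm_num, by show e % 4 = (a 4 2) % 4; simp [a, h6]⟩
      · exact ⟨1, by norm_num, by norm_num, by show e % 4 = (a 4 1) % 4; simp [a, h6]⟩

theorem C_eq : C 4 3 = {1} := by
  ext m
  constructor
  · rintro ⟨h1, h2⟩
    rw [Set.mem_singleton_iff]
    by_contra hm
    unfold A at h2
    rw [ASet_eq, Set.ncard_eq_zero (finite_LSet (fun _ => le_rfl) _ _)] at h2
    by_cases h4 : m % 4 = 1
    · have : [m - 2, 2] ∈ LSet okA (fun _ => 1) m m := by
        refine ⟨?_, ?_, by simp; omega⟩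
        · intro e he
          simp only [List.mem_cons, List.not_mem_nil, or_false] at he
          rcases he with rfl | rfl
          · exact ⟨by omega, by omega, by show (m - 2) % 4 ≠ 1; omega⟩
          · exact ⟨by omega, by omega, by show 2 % 4 ≠ 1; norm_num⟩
        · simp; omega
      rw [h2] at this
      exact this
    · have : [m] ∈ LSet okA (fun _ => 1) m m := by
        refine ⟨?_, by simp, by simp⟩
        intro e he
        simp only [List.mem_cons, List.not_mem_nil, or_false] at he
        subst he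
        exact ⟨h1, le_rfl, h4⟩
      rw [h2] at this
      exact this
  · intro h
    rw [Set.mem_singleton_iff] at h
    subst h
    refine ⟨le_rfl, ?_⟩
    unfold A
    rw [ASet_eq, Set.ncard_eq_zero (finite_LSet (fun _ => le_rfl) _ _)]
    rw [Set.eq_empty_iff_forall_notMem]
    rintro l ⟨h1, _, h3⟩
    rcases l with _ | ⟨e, l⟩
    · simp at h3
    · have h4 := h1 e (by simp)
      have h5 : e = 1 := by omega
      subst h5
      exact h4.2.2 rfl

theorem step_iff (b : ℕ → ℕ) (e e' : ℕ) : Step b 4 e e' ↔ e' + b (res e) ≤ e := by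
  have h4 : e % 4 < 4 := Nat.mod_lt _ (by norm_num)
  constructor
  · intro h
    refine h (res e) ?_ ?_ ?_
    · unfold res; split_ifs <;> omega
    · unfold res; split_ifs <;> omega
    · show e % 4 = res e % 4
      unfold res; split_ifs <;> omega
  · intro h j h1 h2 h3
    have h3' : e % 4 = j % 4 := h3
    have : j = res e := by
      unfold res
      split_ifs <;> omega
    rw [this]
    exact h

theorem BSet_eq (b : ℕ → ℕ) (hb : ∀ j, 1 ≤ j → j ≤ 4 → 1 ≤ b j) (n : ℕ) :
    BSet b 4 (C 4 3) n = LSet okB (fun e => b (res e)) n n := by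
  have hd : ∀ e, 1 ≤ b (res e) := fun e => by
    have h4 : e % 4 < 4 := Nat.mod_lt _ (by norm_num)
    apply hb
    · unfold res; split_ifs <;> omega
    · unfold res; split_ifs <;> omega
  ext l
  constructor
  · rintro ⟨⟨h1, h2, h3⟩, h4, h5⟩
    refine ⟨?_, ?_, h3⟩
    · intro e he
      refine ⟨h2 e he, ?_, ?_⟩
      · have := List.single_le_sum (l := l) (fun x _ => Nat.zero_le x) e he
        omega
      · have := h4 e he
        rw [C_eq, Set.mem_singleton_iff] at this
        exact this
    · exact h5.imp (fun x y h => (step_iff b x y).mp h)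
  · rintro ⟨h1, h2, h3⟩
    have hp := chain_pairwise hd h2
    refine ⟨⟨hp.imp (fun h => le_of_lt h), fun e he => (h1 e he).1, h3⟩, ?_, ?_⟩
    · intro e he
      rw [C_eq, Set.mem_singleton_iff]
      exact (h1 e he).2.2
    · exact h2.imp (fun x y h => (step_iff b x y).mpr h)

end Pool.Agent.H372R3.GD
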