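import Pool.Agent.H372R3.GD3

set_option autoImplicit false

namespace Pool.Agent.H372R3.GD

open Pool.Agent.MPe9218d PowerSeries

/-! ### The product side -/

theorem AF_prod (N : ℕ) : gf okA (fun _ => 1) (4 * N) =
    (∏ i ∈ Finset.range N, (1 + (X : PowerSeries ℤ) ^ (4 * i + 3))) *
        ∏ i ∈ Finset.range (2 * N), (1 + (X : PowerSeries ℤ) ^ (2 * (i + 1))) := by
  have hd : ∀ e : ℕ, 1 ≤ (fun _ : ℕ => 1) e := fun _ => le_rfl
  induction N with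
  | zero => simp [gf_zero]
  | succ N ih =>
    have h1 : gf okA (fun _ => 1) (4 * N + 1) = gf okA (fun _ => 1) (4 * N) :=
      gf_not hd (by show ¬ ((4 * N + 1) % 4 ≠ 1); omega)
    have h2 : gf okA (fun _ => 1) (4 * N + 2) = _ :=
      gf_ok hd (m := 4 * N + 1) (by show (4 * N + 1 + 1) % 4 ≠ 1; omega)
    have h3 : gf okA (fun _ => 1) (4 * N + 3) = _ :=
      gf_ok hd (m := 4 * N + 2) (by show (4 * N + 2 + 1) % 4 ≠ 1; omega)
    have h4 : gf okA (fun _ => 1) (4 * N + 4) = _ :=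
      gf_ok hd (m := 4 * N + 3) (by show (4 * N + 3 + 1) % 4 ≠ 1; omega)
    simp only [Nat.add_sub_cancel] at h2 h3 h4
    rw [show 4 * (N + 1) = 4 * N + 4 by ring, h4, h3, h2, h1, ih, Finset.prod_range_succ,
      show 2 * (N + 1) = 2 * N + 1 + 1 by ring, Finset.prod_range_succ, Finset.prod_range_succ]
    ring

/-! ### The difference side -/

theorem res_odd (b : ℕ → ℕ) (x y : ℕ) (h1 : b 1 = x) (h3 : b 3 = x) (k : ℕ) :
    b (res (2 * k + 1)) = x := by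
  unfold res
  rw [if_neg (by omega)]
  have : (2 * k + 1) % 4 = 1 ∨ (2 * k + 1) % 4 = 3 := by omega
  rcases this with h | h <;> rw [h] <;> assumption

theorem res_even (b : ℕ → ℕ) (y : ℕ) (h2 : b 2 = y) (h4 : b 4 = y) (k : ℕ) :
    b (res (2 * k)) = y := by
  unfold res
  split_ifs with h
  · exact h4
  · have : (2 * k) % 4 = 2 := by omega
    rw [this]; exact h2

theorem res_pos {b : ℕ → ℕ} (hb : ∀ j, 1 ≤ j → j ≤ 4 → 1 ≤ b j) : ∀ e, 1 ≤ b (res e) := fun e => by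
  have h4 : e % 4 < 4 := Nat.mod_lt _ (by norm_num)
  apply hb
  · unfold res; split_ifs <;> omega
  · unfold res; split_ifs <;> omega

/-- the sequence `1, gf 1, gf 3, gf 5, ...` -/
noncomputable def sq (d : ℕ → ℕ) : ℕ → PowerSeries ℤ
  | 0 => 1
  | k + 1 => gf okB d (2 * k + 1)

theorem gf_one_B {d : ℕ → ℕ} (hd : ∀ e, 1 ≤ d e) : gf okB d 1 = 1 := by
  have h1 : gf okB d (0 + 1) = gf okB d 0 := gf_not hd (by show ¬ (0 + 1 ≠ 1); simp)
  rw [gf_zero] at h1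
  exact h1

theorem sq_one {d : ℕ → ℕ} (hd : ∀ e, 1 ≤ d e) : sq d 1 = 1 := gf_one_B hd

/-- gaps 4 (odd), 1 (even) -/
theorem rec_new {d : ℕ → ℕ} (hd : ∀ e, 1 ≤ d e) (h4 : ∀ k, d (2 * k + 1) = 4)
    (h1 : ∀ k, d (2 * k) = 1) : Rec (X : PowerSeries ℤ) 0 (sq d) := by
  intro k
  have e1 : gf okB d (2 * k + 2) = _ :=
    gf_ok hd (m := 2 * k + 1) (by show 2 * k + 1 + 1 ≠ 1; omega)
  have e2 : gf okB d (2 * k + 3) = _ :=
    gf_ok hd (m := 2 * k + 2) (by show 2 * k + 2 + 1 ≠ 1; omega)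
  have d1 : d (2 * k + 1 + 1) = 1 := h1 (k + 1)
  have d2 : d (2 * k + 2 + 1) = 4 := h4 (k + 1)
  rw [d1] at e1
  rw [d2, e1] at e2
  have e3 : gf okB d (2 * k + 2 + 1 - 4) = sq d k := by
    rcases k with _ | k
    · show gf okB d 0 = 1
      exact gf_zero
    · rw [show 2 * (k + 1) + 2 + 1 - 4 = 2 * k + 1 by omega, sq]
  rw [e3] at e2
  show gf okB d (2 * (k + 1) + 1) = _
  rw [show 2 * (k + 1) + 1 = 2 * k + 3 by ring, e2, show 2 * k + 1 + 1 - 1 = 2 * k + 1 by omega]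
  show _ = (1 + X ^ (2 * (k + 1))) * gf okB d (2 * k + 1) + X ^ (2 * 0 + 2 * (k + 1) + 1) * sq d k
  ring

/-- gaps 3 (odd), 2 (even) -/
theorem rec_old {d : ℕ → ℕ} (hd : ∀ e, 1 ≤ d e) (h3 : ∀ k, d (2 * k + 1) = 3)
    (h2 : ∀ k, d (2 * k) = 2) : Rec (X : PowerSeries ℤ) 0 (sq d) := by
  have ev : ∀ k, gf okB d (2 * k + 2) =
      gf okB d (2 * k + 1) + X ^ (2 * k + 2) * gf okB d (2 * k) := by
    intro k
    have e1 : gf okB d (2 * k + 2) = _ :=
      gf_ok hd (m := 2 * k + 1) (by show 2 * k + 1 + 1 ≠ 1; omega)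
    have d1 : d (2 * k + 1 + 1) = 2 := h2 (k + 1)
    rw [d1, show 2 * k + 1 + 1 - 2 = 2 * k by omega] at e1
    exact e1
  have od : ∀ k, gf okB d (2 * k + 3) =
      gf okB d (2 * k + 2) + X ^ (2 * k + 3) * gf okB d (2 * k) := by
    intro k
    have e1 : gf okB d (2 * k + 3) = _ :=
      gf_ok hd (m := 2 * k + 2) (by show 2 * k + 2 + 1 ≠ 1; omega)
    have d1 : d (2 * k + 2 + 1) = 3 := h3 (k + 1)
    rw [d1, show 2 * k + 2 + 1 - 3 = 2 * k by omega] at e1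
    exact e1
  intro k
  show gf okB d (2 * (k + 1) + 1) =
    (1 + X ^ (2 * (k + 1))) * gf okB d (2 * k + 1) + X ^ (2 * 0 + 2 * (k + 1) + 1) * sq d k
  rw [show 2 * (k + 1) + 1 = 2 * k + 3 by ring, od k, ev k]
  rcases k with _ | k
  · show gf okB d 1 + X ^ 2 * gf okB d 0 + X ^ 3 * gf okB d 0 =
      (1 + X ^ 2) * gf okB d 1 + X ^ 3 * 1
    rw [gf_one_B hd, gf_zero]
    ring
  · rw [sq]
    have e1 := od k
    have e2 := ev k
    rw [show 2 * (k + 1) = 2 * k + 2 by ring, show 2 * k + 2 + 1 = 2 * k + 3 by ring, e1, e2]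
    ring

theorem sq_eq {d : ℕ → ℕ} (hd : ∀ e, 1 ≤ d e) (h : Rec (X : PowerSeries ℤ) 0 (sq d)) (k : ℕ) :
    sq d k = Gs X 0 k :=
  Rec.unique X h (Gs_rec X 0) (by rw [Gs_zero, sq]) (by rw [Gs_one, sq_one hd]) k

theorem identity_of_rec {b : ℕ → ℕ} (hb : ∀ j, 1 ≤ j → j ≤ 4 → 1 ≤ b j)
    (h : Rec (X : PowerSeries ℤ) 0 (sq fun e => b (res e))) : Identity 4 3 b := by
  intro n _
  unfold A B0
  rw [ASet_eq, BSet_eq b hb]
  have hd := res_pos hb
  have hk := sq_eq hd h (2 * n + 1)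
  have hm := main_dvd (X : PowerSeries ℤ) n
  rw [← hk, ← AF_prod n, PowerSeries.X_pow_dvd_iff] at hm
  have h1 := hm n (by omega)
  rw [map_sub, sub_eq_zero, sq, gf, gf, PowerSeries.coeff_mk, PowerSeries.coeff_mk] at h1
  have h2 : LSet okA (fun _ => 1) n n = LSet okA (fun _ => 1) (4 * n) n :=
    LSet_large le_rfl (by omega)
  have h3 : LSet okB (fun e => b (res e)) n n =
      LSet okB (fun e => b (res e)) (2 * (2 * n) + 1) n :=
    LSet_large le_rfl (by omega)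
  rw [h2, h3]
  exact_mod_cast h1.symm

theorem identity_new {b : ℕ → ℕ} (h1 : b 1 = 4) (h2 : b 2 = 1) (h3 : b 3 = 4) (h4 : b 4 = 1) :
    Identity 4 3 b := by
  have hb : ∀ j, 1 ≤ j → j ≤ 4 → 1 ≤ b j := by
    intro j hj1 hj2
    interval_cases j <;> omega
  exact identity_of_rec hb (rec_new (res_pos hb) (res_odd b 4 1 h1 h3) (res_even b 1 h2 h4))

theorem identity_old {b : ℕ → ℕ} (h1 : b 1 = 3) (h2 : b 2 = 2) (h3 : b 3 = 3) (h4 : b 4 = 2) :
    Identity 4 3 b := by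
  have hb : ∀ j, 1 ≤ j → j ≤ 4 → 1 ≤ b j := by
    intro j hj1 hj2
    interval_cases j <;> omega
  exact identity_of_rec hb (rec_old (res_pos hb) (res_odd b 3 2 h1 h3) (res_even b 2 h2 h4))

end Pool.Agent.H372R3.GD
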