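import Pool.Agent.H372R3.GD4

set_option autoImplicit false

namespace Pool.Agent.H372R3.GD

open Pool.Agent.MPe9218d

def okA' (e : ℕ) : Bool := e % 4 != 1
def okB' (e : ℕ) : Bool := e != 1

/-- gap function from four numbers -/
def dq (b1 b2 b3 b4 e : ℕ) : ℕ :=
  if e % 4 = 0 then b4 else if e % 4 = 1 then b1 else if e % 4 = 2 then b2 else b3

def check : ℕ → ℕ → ℕ → ℕ → ℕ → Bool
  | 0, _, _, _, _ => true
  | N + 1, b1, b2, b3, b4 => check N b1 b2 b3 b4 &&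
      (cnt okA' (fun _ => 1) (N + 1) (N + 1) (N + 1) ==
        cnt okB' (dq b1 b2 b3 b4) (N + 1) (N + 1) (N + 1))

theorem A_cnt (n : ℕ) : A (a 4) 3 4 n = cnt okA' (fun _ => 1) n n n := by
  unfold A
  rw [ASet_eq, ← cnt_eq okA' (fun _ => 1) (fun _ => le_rfl) n n n le_rfl]
  congr 2
  funext e
  simp [okA, okA']

theorem B_cnt {b : ℕ → ℕ} (hb : ∀ j, 1 ≤ j → j ≤ 4 → 1 ≤ b j) {n N : ℕ} (hn : n ≤ N) :
    B0 b 4 (C 4 3) n = cnt okB' (dq (min (b 1) (N + 1)) (min (b 2) (N + 1)) (min (b 3) (N + 1))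
      (min (b 4) (N + 1))) n n n := by
  unfold B0
  have hd : ∀ e, 1 ≤ dq (min (b 1) (N + 1)) (min (b 2) (N + 1)) (min (b 3) (N + 1))
      (min (b 4) (N + 1)) e := by
    intro e
    have := hb 1 (by norm_num) (by norm_num)
    have := hb 2 (by norm_num) (by norm_num)
    have := hb 3 (by norm_num) (by norm_num)
    have := hb 4 (by norm_num) (by norm_num)
    unfold dq
    split_ifs <;> omega
  rw [BSet_eq b hb, LSet_cap hn, ← cnt_eq okB' _ hd n n n le_rfl]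
  congr 2
  · funext e
    simp [okB, okB']
  · funext e
    have h4 : e % 4 < 4 := Nat.mod_lt _ (by norm_num)
    unfold dq res
    have h5 : e % 4 = 0 ∨ e % 4 = 1 ∨ e % 4 = 2 ∨ e % 4 = 3 := by omega
    rcases h5 with h5 | h5 | h5 | h5 <;> simp [h5]

theorem check_of_identity {b : ℕ → ℕ} (hb : ∀ j, 1 ≤ j → j ≤ 4 → 1 ≤ b j)
    (h : Identity 4 3 b) (N K : ℕ) (hK : K ≤ N) :
    check K (min (b 1) (N + 1)) (min (b 2) (N + 1)) (min (b 3) (N + 1)) (min (b 4) (N + 1))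
      = true := by
  induction K with
  | zero => rfl
  | succ K ih =>
    rw [check, ih (by omega), Bool.true_and, beq_iff_eq, ← A_cnt, ← B_cnt hb hK]
    exact h (K + 1) (by omega)

set_option maxRecDepth 100000 in
theorem stage1 : ∀ b1 < 8, ∀ b2 < 8, ∀ b3 < 8, ∀ b4 < 8,
    check 7 (b1 + 1) (b2 + 1) (b3 + 1) (b4 + 1) = true → b4 < 2 := by
  decide +kernel

set_option maxRecDepth 100000 in
theorem stage2' : ∀ b1 < 11, ∀ b2 < 11, ∀ b3 < 11, ∀ b4 < 2,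
    (!(check 10 (b1 + 1) (b2 + 1) (b3 + 1) (b4 + 1)) || (decide (b2 < 2) && decide (b3 < 4)))
      = true := by
  decide +kernel

theorem stage2 (b1 : ℕ) (h1 : b1 < 11) (b2 : ℕ) (h2 : b2 < 11) (b3 : ℕ) (h3 : b3 < 11)
    (b4 : ℕ) (h4 : b4 < 2) :
    check 10 (b1 + 1) (b2 + 1) (b3 + 1) (b4 + 1) = true → b2 < 2 ∧ b3 < 4 := by
  intro h
  have := stage2' b1 h1 b2 h2 b3 h3 b4 h4
  rw [h] at this
  simpa using this

set_option maxRecDepth 100000 in
theorem stage3' : ∀ b1 < 20, ∀ b2 < 2, ∀ b3 < 4, ∀ b4 < 2,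
    (!(check 19 (b1 + 1) (b2 + 1) (b3 + 1) (b4 + 1)) ||
      ((decide (b1 = 2) && decide (b2 = 1) && decide (b3 = 2) && decide (b4 = 1)) ||
      (decide (b1 = 3) && decide (b2 = 0) && decide (b3 = 3) && decide (b4 = 0)))) = true := by
  decide +kernel

theorem stage3 (b1 : ℕ) (h1 : b1 < 20) (b2 : ℕ) (h2 : b2 < 2) (b3 : ℕ) (h3 : b3 < 4)
    (b4 : ℕ) (h4 : b4 < 2) :
    check 19 (b1 + 1) (b2 + 1) (b3 + 1) (b4 + 1) = true →
      (b1 = 2 ∧ b2 = 1 ∧ b3 = 2 ∧ b4 = 1) ∨ (b1 = 3 ∧ b2 = 0 ∧ b3 = 3 ∧ b4 = 0) := by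
  intro h
  have := stage3' b1 h1 b2 h2 b3 h3 b4 h4
  rw [h] at this
  simp only [Bool.not_true, Bool.false_or, Bool.or_eq_true, Bool.and_eq_true,
    decide_eq_true_eq] at this
  omega

theorem necessity {b : ℕ → ℕ} (hb : ∀ j, 1 ≤ j → j ≤ 4 → 1 ≤ b j) (h : Identity 4 3 b) :
    (b 1 = 3 ∧ b 2 = 2 ∧ b 3 = 3 ∧ b 4 = 2) ∨ (b 1 = 4 ∧ b 2 = 1 ∧ b 3 = 4 ∧ b 4 = 1) := by
  have p1 := hb 1 (by norm_num) (by norm_num)
  have p2 := hb 2 (by norm_num) (by norm_num)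
  have p3 := hb 3 (by norm_num) (by norm_num)
  have p4 := hb 4 (by norm_num) (by norm_num)
  have e1 := check_of_identity hb h 7 7 le_rfl
  have s1 := stage1 (min (b 1) 8 - 1) (by omega) (min (b 2) 8 - 1) (by omega)
    (min (b 3) 8 - 1) (by omega) (min (b 4) 8 - 1) (by omega)
  rw [Nat.sub_add_cancel (by omega), Nat.sub_add_cancel (by omega), Nat.sub_add_cancel (by omega),
    Nat.sub_add_cancel (by omega)] at s1
  have s1' := s1 e1
  have e2 := check_of_identity hb h 10 10 le_rfl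
  have s2 := stage2 (min (b 1) 11 - 1) (by omega) (min (b 2) 11 - 1) (by omega)
    (min (b 3) 11 - 1) (by omega) (min (b 4) 11 - 1) (by omega)
  rw [Nat.sub_add_cancel (by omega), Nat.sub_add_cancel (by omega), Nat.sub_add_cancel (by omega),
    Nat.sub_add_cancel (by omega)] at s2
  have s2' := s2 e2
  have e3 := check_of_identity hb h 19 19 le_rfl
  have s3 := stage3 (min (b 1) 20 - 1) (by omega) (min (b 2) 20 - 1) (by omega)
    (min (b 3) 20 - 1) (by omega) (min (b 4) 20 - 1) (by omega)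
  rw [Nat.sub_add_cancel (by omega), Nat.sub_add_cancel (by omega), Nat.sub_add_cancel (by omega),
    Nat.sub_add_cancel (by omega)] at s3
  have s3' := s3 e3
  omega

theorem main43 (b : ℕ → ℕ) (hb : ∀ j, 1 ≤ j → j ≤ 4 → 1 ≤ b j) :
    Identity 4 3 b ↔
      (b 1 = 3 ∧ b 2 = 2 ∧ b 3 = 3 ∧ b 4 = 2) ∨ (b 1 = 4 ∧ b 2 = 1 ∧ b 3 = 4 ∧ b 4 = 1) := by
  constructor
  · exact necessity hb
  · rintro (⟨h1, h2, h3, h4⟩ | ⟨h1, h2, h3, h4⟩)
    · exact identity_old h1 h2 h3 h4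
    · exact identity_new h1 h2 h3 h4

end Pool.Agent.H372R3.GD
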