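import Pool.Agent.H372R3.GD1

set_option autoImplicit false

namespace Pool.Agent.H372R3.GE

open Pool.Agent.MPe9218d Pool.Agent.H372R3.GD

/-- residue in `{1,...,M}` -/
def resM (M e : ℕ) : ℕ := if e % M = 0 then M else e % M

/-- allowed parts of the product side -/
def okA (M s e : ℕ) : Prop := ∃ i, 1 ≤ i ∧ i ≤ s ∧ e ≡ a M i [MOD M]

def okAb (M s e : ℕ) : Bool := (List.range s).any fun i => e % M == (M - 2 ^ i) % M

theorem okA_iff (M s e : ℕ) : okA M s e ↔ okAb M s e = true := by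
  unfold okA okAb
  rw [List.any_eq_true]
  constructor
  · rintro ⟨i, h1, h2, h3⟩
    refine ⟨i - 1, List.mem_range.mpr (by omega), ?_⟩
    rw [beq_iff_eq]
    exact h3
  · rintro ⟨i, h1, h2⟩
    rw [List.mem_range] at h1
    rw [beq_iff_eq] at h2
    refine ⟨i + 1, by omega, by omega, ?_⟩
    show e % M = (a M (i + 1)) % M
    unfold a
    rw [Nat.add_sub_cancel]
    exact h2

theorem ASet_eq (M s n : ℕ) : ASet (a M) s M n = LSet (okA M s) (fun _ => 1) n n := by
  ext l
  constructor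
  · rintro ⟨⟨h1, h2, h3⟩, h4, h5⟩
    refine ⟨?_, ?_, h3⟩
    · intro e he
      refine ⟨h2 e he, ?_, h5 e he⟩
      have := List.single_le_sum (l := l) (fun x _ => Nat.zero_le x) e he
      omega
    · have h6 : l.Pairwise (· ≠ ·) := h4
      have h7 : l.Pairwise (fun e e' => e' + 1 ≤ e) :=
        (h1.and h6).imp (fun {x y} h => by
          have h8 := h.1
          have h9 := h.2
          show y + 1 ≤ x
          have : y ≤ x := h8
          omega)
      exact h7.isChain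
  · rintro ⟨h1, h2, h3⟩
    have hp := chain_pairwise (d := fun _ => 1) (fun _ => le_rfl) h2
    refine ⟨⟨hp.imp (fun h => le_of_lt h), fun e he => (h1 e he).1, h3⟩, ?_, ?_⟩
    · exact hp.imp (fun {x y} h => (ne_of_gt h))
    · intro e he
      exact (h1 e he).2.2

theorem step_iff {M : ℕ} (hM : 1 ≤ M) (b : ℕ → ℕ) (e e' : ℕ) :
    Step b M e e' ↔ e' + b (resM M e) ≤ e := by
  have h4 : e % M < M := Nat.mod_lt _ hM
  constructor
  · intro h
    by_cases h0 : e % M = 0
    · have : resM M e = M := by unfold resM; rw [if_pos h0]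
      rw [this]
      exact h M hM le_rfl (by show e % M = M % M; rw [Nat.mod_self]; exact h0)
    · have : resM M e = e % M := by unfold resM; rw [if_neg h0]
      rw [this]
      exact h (e % M) (by omega) h4.le (by show e % M = e % M % M; rw [Nat.mod_mod])
  · intro h j h1 h2 h3
    have h3' : e % M = j % M := h3
    have : j = resM M e := by
      unfold resM
      by_cases hj : j = M
      · subst hj
        rw [Nat.mod_self] at h3'
        rw [if_pos h3']
      · rw [Nat.mod_eq_of_lt (by omega : j < M)] at h3'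
        rw [if_neg (by omega)]
        exact h3'.symm
    rw [this]
    exact h

theorem res_pos {M : ℕ} (hM : 1 ≤ M) {b : ℕ → ℕ} (hb : ∀ j, 1 ≤ j → j ≤ M → 1 ≤ b j) :
    ∀ e, 1 ≤ b (resM M e) := fun e => by
  have h4 : e % M < M := Nat.mod_lt _ hM
  unfold resM
  split_ifs with h
  · exact hb M hM le_rfl
  · exact hb _ (by omega) h4.le

theorem BSet_eq {M : ℕ} (hM : 1 ≤ M) (b : ℕ → ℕ) (hb : ∀ j, 1 ≤ j → j ≤ M → 1 ≤ b j)
    (S : Set ℕ) (n : ℕ) :
    BSet b M S n = LSet (fun e => e ∉ S) (fun e => b (resM M e)) n n := by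
  have hd := res_pos hM hb
  ext l
  constructor
  · rintro ⟨⟨h1, h2, h3⟩, h4, h5⟩
    refine ⟨?_, ?_, h3⟩
    · intro e he
      refine ⟨h2 e he, ?_, h4 e he⟩
      have := List.single_le_sum (l := l) (fun x _ => Nat.zero_le x) e he
      omega
    · exact h5.imp (fun x y h => (step_iff hM b x y).mp h)
  · rintro ⟨h1, h2, h3⟩
    have hp := chain_pairwise hd h2
    refine ⟨⟨hp.imp (fun h => le_of_lt h), fun e he => (h1 e he).1, h3⟩, ?_, ?_⟩
    · intro e he
      exact (h1 e he).2.2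
    · exact h2.imp (fun x y h => (step_iff hM b x y).mpr h)

theorem LSet_congr_ok {ok ok' : ℕ → Prop} {d : ℕ → ℕ} {m n : ℕ}
    (h : ∀ e, 1 ≤ e → e ≤ m → (ok e ↔ ok' e)) : LSet ok d m n = LSet ok' d m n := by
  ext l
  constructor
  · rintro ⟨h1, h2, h3⟩
    exact ⟨fun e he => ⟨(h1 e he).1, (h1 e he).2.1,
      (h e (h1 e he).1 (h1 e he).2.1).mp (h1 e he).2.2⟩, h2, h3⟩
  · rintro ⟨h1, h2, h3⟩
    exact ⟨fun e he => ⟨(h1 e he).1, (h1 e he).2.1,
      (h e (h1 e he).1 (h1 e he).2.1).mpr (h1 e he).2.2⟩, h2, h3⟩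

theorem LSet_mono {ok : ℕ → Prop} {d d' : ℕ → ℕ} {m n : ℕ} (h : ∀ e, d e ≤ d' e) :
    LSet ok d' m n ⊆ LSet ok d m n := by
  rintro l ⟨h1, h2, h3⟩
  exact ⟨h1, h2.imp (fun x y hxy => by have := h x; show y + d x ≤ x; omega), h3⟩

theorem cnt_mono {ok : ℕ → Bool} {d d' : ℕ → ℕ} (hd : ∀ e, 1 ≤ d e) (h : ∀ e, d e ≤ d' e)
    (n : ℕ) : cnt ok d' n n n ≤ cnt ok d n n n := by
  rw [← cnt_eq ok d hd n n n le_rfl, ← cnt_eq ok d' (fun e => (hd e).trans (h e)) n n n le_rfl]
  exact Set.ncard_le_ncard (LSet_mono h) (finite_LSet hd _ _)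

theorem A_cnt (M s n : ℕ) : A (a M) s M n = cnt (okAb M s) (fun _ => 1) n n n := by
  unfold A
  rw [ASet_eq, ← cnt_eq (okAb M s) (fun _ => 1) (fun _ => le_rfl) n n n le_rfl]
  congr 2
  funext e
  exact propext (okA_iff M s e)

end Pool.Agent.H372R3.GE
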