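import Pool.Agent.H372R3.GE2

set_option autoImplicit false
set_option maxRecDepth 1000000

namespace Pool.Agent.H372R3.GE

open Pool.Agent.MPe9218d Pool.Agent.H372R3.GD

def t_8_3 : Tree :=
    (.b 6 2 (.l 10) (.b 7 3 (.l 11) (.b 2 6 (.l 14) (.b 3 7 (.l 15) (.b 4 8 (.l 16) (.b 5 9 (.l 17)
    (.b 6 10 (.b 7 11 (.b 6 8 (.b 0 12 (.l 20) (.b 7 9 (.b 6 7 (.l 21) (.b 1 13 (.l 21) (.b 2 14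
    (.b 7 8 (.b 3 15 (.b 4 16 (.b 2 12 (.l 24) (.b 3 13 (.b 7 5 (.b 5 17 (.l 25) (.b 3 12 (.b 7 4
    (.b 4 14 (.l 26) (.l 27)) (.b 4 14 (.l 27) (.l 26))) (.b 7 4 (.b 4 14 (.l 27) (.l 26)) (.l
    26)))) (.b 5 17 (.b 3 12 (.b 4 14 (.b 5 15 (.b 4 13 (.b 5 14 (.b 0 20 (.l 28) (.b 3 9 (.b 1 21
    (.l 29) (.b 4 10 (.b 3 8 (.l 30) (.b 4 9 (.b 5 11 (.b 5 10 (.b 0 28 (.b 1 29 (.b 0 26 (.b 0 25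
    (.b 1 27 (.b 7 7 (.b 2 13 (.l 39) (.b 7 6 (.b 1 26 (.l 40) (.b 0 22 (.b 0 21 (.l 47) (.l 43))
    (.l 42))) (.b 1 26 (.b 0 22 (.b 1 23 (.b 0 21 (.l 43) (.b 1 22 (.l 44) (.l 47))) (.b 0 21 (.l
    47) (.l 43))) (.l 42)) (.l 40)))) (.b 2 13 (.b 1 26 (.b 0 22 (.b 1 23 (.b 0 21 (.l 43) (.b 1 22
    (.l 44) (.l 47))) (.b 0 21 (.l 47) (.l 43))) (.l 42)) (.l 40)) (.l 39))) (.b 7 7 (.b 2 13 (.b 7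
    6 (.b 0 22 (.b 0 21 (.l 47) (.l 43)) (.l 42)) (.l 40)) (.l 39)) (.l 39))) (.b 1 27 (.b 7 7 (.b
    2 13 (.b 7 6 (.b 1 26 (.l 40) (.l 42)) (.b 1 26 (.l 42) (.l 40))) (.l 39)) (.l 39)) (.l 39)))
    (.l 38)) (.l 37)) (.l 36)) (.l 32)) (.l 31)) (.l 31))) (.b 3 8 (.l 31) (.l 30)))) (.b 1 21 (.b
    4 10 (.b 4 9 (.b 1 19 (.b 5 11 (.l 31) (.b 1 18 (.b 1 15 (.l 35) (.b 0 28 (.b 0 26 (.b 0 25 (.b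
    7 7 (.b 2 13 (.l 39) (.b 7 6 (.l 40) (.b 0 22 (.b 0 21 (.b 3 11 (.l 43) (.b 5 13 (.b 5 12 (.l
    46) (.l 47)) (.l 45))) (.b 3 11 (.b 3 10 (.l 44) (.b 5 13 (.b 5 12 (.l 46) (.l 47)) (.l 45)))
    (.l 43))) (.l 42)))) (.b 2 13 (.b 0 22 (.b 0 21 (.b 3 11 (.l 43) (.b 5 13 (.b 5 12 (.l 46) (.l
    47)) (.l 45))) (.b 3 11 (.b 3 10 (.l 44) (.b 5 13 (.b 5 12 (.l 46) (.l 47)) (.l 45))) (.l 43)))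
    (.l 42)) (.l 39))) (.b 7 7 (.b 2 13 (.b 7 6 (.l 40) (.l 42)) (.l 39)) (.l 39))) (.l 38)) (.l
    36))) (.l 32))) (.b 5 11 (.b 5 10 (.b 0 28 (.b 0 26 (.b 0 25 (.b 7 7 (.b 2 13 (.l 39) (.b 7 6
    (.l 40) (.b 0 22 (.b 0 21 (.b 3 11 (.l 43) (.b 1 20 (.l 46) (.l 47))) (.b 3 11 (.b 3 10 (.l 44)
    (.b 1 20 (.l 46) (.l 47))) (.l 43))) (.l 42)))) (.b 2 13 (.b 0 22 (.b 0 21 (.b 3 11 (.l 43) (.b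
    1 20 (.l 46) (.l 47))) (.b 3 11 (.b 3 10 (.l 44) (.b 1 20 (.l 46) (.l 47))) (.l 43))) (.l 42))
    (.l 39))) (.b 7 7 (.b 2 13 (.b 7 6 (.l 40) (.l 42)) (.l 39)) (.l 39))) (.l 38)) (.l 36)) (.l
    32)) (.l 31))) (.b 1 19 (.b 5 11 (.b 5 10 (.b 1 18 (.l 32) (.b 0 28 (.b 0 26 (.b 0 25 (.b 7 7
    (.b 2 13 (.l 39) (.b 7 6 (.l 40) (.b 0 22 (.b 0 21 (.b 3 11 (.l 43) (.l 46)) (.b 3 11 (.b 3 10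
    (.l 44) (.l 46)) (.l 43))) (.l 42)))) (.b 2 13 (.b 0 22 (.b 0 21 (.b 3 11 (.l 43) (.l 46)) (.b
    3 11 (.b 3 10 (.l 44) (.l 46)) (.l 43))) (.l 42)) (.l 39))) (.b 7 7 (.b 2 13 (.b 7 6 (.l 40)
    (.l 42)) (.l 39)) (.l 39))) (.l 38)) (.l 36))) (.b 1 18 (.b 1 15 (.l 35) (.b 0 28 (.b 0 26 (.b
    0 25 (.b 7 7 (.b 2 13 (.l 39) (.b 7 6 (.l 40) (.b 0 22 (.b 0 21 (.b 3 11 (.l 43) (.l 46)) (.b 3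
    11 (.b 3 10 (.l 44) (.l 46)) (.l 43))) (.l 42)))) (.b 2 13 (.b 0 22 (.b 0 21 (.b 3 11 (.l 43)
    (.l 46)) (.b 3 11 (.b 3 10 (.l 44) (.l 46)) (.l 43))) (.l 42)) (.l 39))) (.b 7 7 (.b 2 13 (.b 7
    6 (.l 40) (.l 42)) (.l 39)) (.l 39))) (.l 38)) (.l 36))) (.l 32))) (.l 31)) (.l 31))) (.l 30))
    (.l 29)))) (.b 0 20 (.b 3 9 (.b 1 21 (.l 29) (.b 0 18 (.b 4 10 (.l 30) (.b 3 8 (.l 30) (.l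
    31))) (.b 4 10 (.b 3 8 (.l 30) (.l 31)) (.b 3 8 (.l 31) (.l 30))))) (.b 1 21 (.b 0 18 (.b 4 10
    (.l 30) (.b 1 19 (.b 0 17 (.b 1 18 (.b 0 14 (.l 34) (.b 1 15 (.l 35) (.b 7 7 (.b 2 13 (.l 39)
    (.b 7 6 (.l 40) (.b 3 11 (.l 43) (.b 4 12 (.b 4 11 (.l 47) (.l 45)) (.l 44))))) (.b 2 13 (.b 3
    11 (.l 43) (.b 4 12 (.b 4 11 (.l 47) (.l 45)) (.l 44))) (.l 39))))) (.l 32)) (.l 31)) (.l 31)))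
    (.b 4 10 (.b 4 9 (.b 1 19 (.b 1 18 (.b 1 15 (.l 35) (.b 7 7 (.b 2 13 (.l 39) (.b 7 6 (.l 40)
    (.b 3 11 (.l 43) (.b 0 19 (.l 47) (.l 45))))) (.b 2 13 (.b 3 11 (.l 43) (.b 0 19 (.l 47) (.l
    45))) (.l 39)))) (.l 32)) (.l 31)) (.l 31)) (.l 30))) (.l 29))) (.l 28))) (.l 27)) (.l 27)) (.l
    26)) (.l 26)) (.l 25))) (.b 7 5 (.b 5 17 (.b 7 4 (.b 4 14 (.b 5 15 (.b 4 13 (.b 5 14 (.b 0 20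
    (.l 28) (.b 1 21 (.b 4 10 (.b 4 9 (.b 1 19 (.b 5 11 (.l 31) (.b 1 18 (.b 1 15 (.l 35) (.b 0 28
    (.b 0 26 (.b 0 25 (.b 2 13 (.l 39) (.b 3 14 (.l 40) (.b 0 22 (.b 0 21 (.b 5 13 (.b 5 12 (.l 46)
    (.b 1 17 (.l 50) (.l 49))) (.l 45)) (.l 43)) (.l 42)))) (.b 2 13 (.b 3 14 (.l 40) (.l 42)) (.l
    39))) (.l 38)) (.l 36))) (.l 32))) (.b 5 11 (.b 5 10 (.b 0 28 (.b 0 26 (.b 0 25 (.b 2 13 (.l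
    39) (.b 3 14 (.l 40) (.b 0 22 (.b 0 21 (.b 1 20 (.l 46) (.l 49)) (.l 43)) (.l 42)))) (.b 2 13
    (.b 3 14 (.l 40) (.l 42)) (.l 39))) (.l 38)) (.l 36)) (.l 32)) (.l 31))) (.b 1 19 (.b 5 11 (.b
    5 10 (.b 1 18 (.l 32) (.b 0 28 (.b 0 26 (.b 0 25 (.b 2 13 (.l 39) (.b 3 14 (.l 40) (.b 0 22 (.b
    0 21 (.l 46) (.l 43)) (.l 42)))) (.b 2 13 (.b 3 14 (.l 40) (.l 42)) (.l 39))) (.l 38)) (.l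
    36))) (.b 1 18 (.b 1 15 (.l 35) (.b 0 28 (.b 0 26 (.b 0 25 (.b 2 13 (.l 39) (.b 3 14 (.l 40)
    (.b 0 22 (.b 0 21 (.l 46) (.l 43)) (.l 42)))) (.b 2 13 (.b 3 14 (.l 40) (.l 42)) (.l 39))) (.l
    38)) (.l 36))) (.l 32))) (.l 31)) (.l 31))) (.l 30)) (.l 29))) (.b 0 20 (.b 1 21 (.b 0 18 (.b 4
    10 (.l 30) (.b 1 19 (.b 0 17 (.b 1 18 (.b 0 14 (.l 34) (.b 1 15 (.l 35) (.b 2 13 (.l 39) (.b 3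
    14 (.l 40) (.b 4 12 (.b 4 11 (.b 0 16 (.b 1 17 (.b 0 15 (.l 49) (.b 1 16 (.l 50) (.l 52))) (.b
    0 15 (.l 52) (.l 49))) (.l 48)) (.l 45)) (.l 44)))))) (.l 32)) (.l 31)) (.l 31))) (.b 4 10 (.b
    4 9 (.b 1 19 (.b 1 18 (.b 1 15 (.l 35) (.b 2 13 (.l 39) (.b 3 14 (.l 40) (.b 0 19 (.l 48) (.l
    45))))) (.l 32)) (.l 31)) (.l 31)) (.l 30))) (.l 29)) (.l 28))) (.l 27)) (.l 27)) (.l 26)) (.l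
    26)) (.l 25)) (.l 25)))) (.b 2 12 (.b 3 13 (.b 7 5 (.b 2 11 (.l 25) (.b 5 17 (.l 25) (.b 3 12
    (.b 7 4 (.l 27) (.l 26)) (.l 26)))) (.b 2 11 (.b 5 17 (.l 25) (.l 26)) (.b 5 17 (.l 26) (.l
    25)))) (.b 7 5 (.b 2 11 (.b 5 17 (.l 25) (.l 26)) (.b 5 17 (.l 26) (.l 25))) (.b 2 11 (.b 5 17
    (.l 26) (.l 25)) (.l 25)))) (.l 24))) (.l 23)) (.l 22)) (.l 22)))) (.b 6 7 (.b 1 13 (.l 21) (.l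
    22)) (.b 1 13 (.l 22) (.l 21))))) (.b 0 12 (.b 7 9 (.b 1 13 (.l 21) (.b 2 14 (.b 0 10 (.b 7 8
    (.l 22) (.b 0 9 (.b 3 15 (.l 23) (.b 4 16 (.b 2 12 (.l 24) (.l 25)) (.b 2 12 (.b 2 11 (.b 5 17
    (.l 26) (.l 25)) (.l 25)) (.l 24)))) (.b 3 15 (.b 4 16 (.b 2 12 (.l 24) (.b 3 13 (.b 5 17 (.b 3
    12 (.b 4 14 (.b 5 15 (.b 4 13 (.b 5 14 (.l 28) (.b 3 9 (.b 1 21 (.l 29) (.b 4 10 (.l 30) (.b 3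
    8 (.l 30) (.l 31)))) (.b 1 21 (.b 4 10 (.l 30) (.b 1 19 (.b 1 18 (.l 34) (.l 32)) (.l 31))) (.l
    29)))) (.l 27)) (.l 27)) (.l 26)) (.l 26)) (.l 25)) (.l 25))) (.b 2 12 (.b 3 13 (.b 2 11 (.b 5
    17 (.l 25) (.l 26)) (.b 5 17 (.l 26) (.l 25))) (.b 2 11 (.b 5 17 (.l 26) (.l 25)) (.l 25))) (.l
    24))) (.l 23)))) (.b 7 8 (.b 3 15 (.b 4 16 (.b 2 12 (.l 24) (.b 3 13 (.b 7 5 (.b 5 17 (.l 25)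
    (.b 3 12 (.b 7 4 (.b 4 14 (.l 26) (.l 27)) (.b 4 14 (.l 27) (.l 26))) (.b 7 4 (.b 4 14 (.l 27)
    (.l 26)) (.l 26)))) (.b 5 17 (.b 3 12 (.b 4 14 (.b 5 15 (.b 4 13 (.b 5 14 (.l 28) (.b 3 9 (.b 1
    21 (.l 29) (.b 4 10 (.l 30) (.b 3 8 (.l 30) (.l 31)))) (.b 1 21 (.b 4 10 (.l 30) (.b 1 19 (.b 1
    18 (.l 34) (.l 32)) (.l 31))) (.l 29)))) (.l 27)) (.l 27)) (.l 26)) (.l 26)) (.l 25))) (.b 7 5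
    (.b 5 17 (.b 7 4 (.b 4 14 (.b 5 15 (.b 4 13 (.b 5 14 (.l 28) (.b 1 21 (.b 4 10 (.l 30) (.b 1 19
    (.b 1 18 (.l 34) (.l 32)) (.l 31))) (.l 29))) (.l 27)) (.l 27)) (.l 26)) (.l 26)) (.l 25)) (.l
    25)))) (.b 2 12 (.b 3 13 (.b 7 5 (.b 2 11 (.l 25) (.b 5 17 (.l 25) (.b 3 12 (.b 7 4 (.l 27) (.l
    26)) (.l 26)))) (.b 2 11 (.b 5 17 (.l 25) (.l 26)) (.b 5 17 (.l 26) (.l 25)))) (.b 7 5 (.b 2 11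
    (.b 5 17 (.l 25) (.l 26)) (.b 5 17 (.l 26) (.l 25))) (.b 2 11 (.b 5 17 (.l 26) (.l 25)) (.l
    25)))) (.l 24))) (.l 23)) (.l 22))) (.b 0 10 (.b 7 8 (.b 0 9 (.b 3 15 (.l 23) (.b 4 16 (.b 7 5
    (.b 5 17 (.b 7 4 (.b 0 6 (.b 4 14 (.l 26) (.b 5 15 (.b 0 5 (.b 5 14 (.l 28) (.b 0 4 (.l 28) (.b
    1 21 (.b 2 22 (.b 3 23 (.b 1 19 (.b 2 20 (.b 1 18 (.b 3 21 (.b 2 19 (.b 3 20 (.l 34) (.b 6 9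
    (.l 35) (.b 1 15 (.l 35) (.b 2 16 (.b 2 15 (.l 38) (.l 37)) (.l 36))))) (.l 33)) (.l 33)) (.l
    32)) (.l 32)) (.l 31)) (.l 31)) (.l 30)) (.l 29)))) (.l 27)) (.l 27))) (.b 4 14 (.b 5 15 (.b 4
    13 (.b 5 14 (.l 28) (.b 1 21 (.b 4 10 (.b 2 22 (.l 30) (.b 4 9 (.b 3 23 (.b 1 19 (.l 31) (.l
    32)) (.b 1 19 (.l 32) (.l 31))) (.b 3 23 (.b 1 19 (.l 32) (.l 31)) (.l 31)))) (.b 2 22 (.b 3 23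
    (.b 1 19 (.b 2 20 (.b 1 18 (.b 3 21 (.b 2 19 (.b 3 20 (.l 34) (.b 6 9 (.l 35) (.b 1 15 (.l 35)
    (.b 2 16 (.b 2 15 (.l 38) (.l 37)) (.l 36))))) (.l 33)) (.l 33)) (.l 32)) (.l 32)) (.l 31)) (.l
    31)) (.l 30))) (.l 29))) (.l 27)) (.l 27)) (.l 26))) (.b 0 6 (.b 4 14 (.b 4 13 (.b 5 15 (.b 0 5
    (.l 27) (.b 5 14 (.l 28) (.b 1 21 (.b 4 10 (.b 2 22 (.l 30) (.b 4 9 (.b 3 23 (.b 1 19 (.l 31)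
    (.l 32)) (.b 1 19 (.l 32) (.l 31))) (.b 3 23 (.b 1 19 (.l 32) (.l 31)) (.l 31)))) (.b 2 22 (.b
    3 23 (.b 1 19 (.b 2 20 (.b 1 18 (.b 3 21 (.b 2 19 (.b 3 20 (.l 34) (.b 6 9 (.l 35) (.b 1 15 (.l
    35) (.b 2 16 (.b 2 15 (.l 38) (.l 37)) (.l 36))))) (.l 33)) (.l 33)) (.l 32)) (.l 32)) (.l 31))
    (.l 31)) (.l 30))) (.l 29)))) (.b 0 5 (.b 0 4 (.l 28) (.b 1 21 (.b 4 10 (.b 2 22 (.l 30) (.b 4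
    9 (.b 3 23 (.b 1 19 (.l 31) (.l 32)) (.b 1 19 (.l 32) (.l 31))) (.b 3 23 (.b 1 19 (.l 32) (.l
    31)) (.l 31)))) (.b 2 22 (.b 3 23 (.b 1 19 (.b 2 20 (.b 1 18 (.b 3 21 (.b 2 19 (.b 3 20 (.l 34)
    (.b 6 9 (.l 35) (.b 1 15 (.l 35) (.b 2 16 (.b 2 15 (.l 38) (.l 37)) (.l 36))))) (.l 33)) (.l
    33)) (.l 32)) (.l 32)) (.l 31)) (.l 31)) (.l 30))) (.l 29))) (.l 27))) (.b 5 15 (.b 0 5 (.b 5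
    14 (.l 28) (.b 0 4 (.l 28) (.b 1 21 (.b 2 22 (.b 3 23 (.b 1 19 (.b 2 20 (.b 1 18 (.b 3 21 (.b 2
    19 (.b 3 20 (.l 34) (.b 6 9 (.l 35) (.b 1 15 (.l 35) (.b 2 16 (.b 2 15 (.l 38) (.l 37)) (.l
    36))))) (.l 33)) (.l 33)) (.l 32)) (.l 32)) (.l 31)) (.l 31)) (.l 30)) (.l 29)))) (.l 27)) (.l
    27))) (.l 26)) (.l 26))) (.l 25)) (.l 25)) (.l 24))) (.b 3 15 (.b 4 16 (.b 3 13 (.b 7 5 (.b 5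
    17 (.l 25) (.b 3 12 (.b 7 4 (.b 4 14 (.l 26) (.l 27)) (.b 4 14 (.l 27) (.l 26))) (.b 7 4 (.b 4
    14 (.l 27) (.l 26)) (.l 26)))) (.b 5 17 (.b 3 12 (.b 4 14 (.b 5 15 (.b 4 13 (.b 5 14 (.l 28)
    (.b 3 9 (.b 1 21 (.l 29) (.b 4 10 (.b 3 8 (.l 30) (.b 2 22 (.l 30) (.b 4 9 (.l 32) (.l 31))))
    (.b 3 8 (.b 2 22 (.l 30) (.l 31)) (.b 2 22 (.l 31) (.l 30))))) (.b 1 21 (.b 4 10 (.b 2 22 (.l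
    30) (.b 4 9 (.b 1 19 (.l 31) (.l 32)) (.b 1 19 (.l 32) (.l 31)))) (.b 2 22 (.b 1 19 (.b 2 20
    (.b 1 18 (.b 2 19 (.l 34) (.l 33)) (.l 32)) (.l 32)) (.l 31)) (.l 30))) (.l 29)))) (.l 27)) (.l
    27)) (.l 26)) (.l 26)) (.l 25))) (.b 7 5 (.b 5 17 (.b 7 4 (.b 4 14 (.b 5 15 (.b 4 13 (.b 5 14
    (.l 28) (.b 1 21 (.b 4 10 (.b 2 22 (.l 30) (.b 4 9 (.b 1 19 (.l 31) (.l 32)) (.b 1 19 (.l 32)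
    (.l 31)))) (.b 2 22 (.b 1 19 (.b 2 20 (.b 1 18 (.b 2 19 (.l 34) (.l 33)) (.l 32)) (.l 32)) (.l
    31)) (.l 30))) (.l 29))) (.l 27)) (.l 27)) (.l 26)) (.l 26)) (.l 25)) (.l 25))) (.l 24)) (.l
    23))) (.l 22)) (.l 22)))) (.b 1 13 (.b 2 14 (.b 0 10 (.b 1 11 (.b 0 9 (.l 23) (.b 3 15 (.l 23)
    (.b 4 16 (.b 2 12 (.l 24) (.b 1 10 (.l 24) (.l 25))) (.b 2 12 (.b 1 10 (.l 24) (.b 2 11 (.b 5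
    17 (.l 26) (.l 25)) (.l 25))) (.b 1 10 (.l 25) (.l 24)))))) (.b 0 9 (.b 3 15 (.l 23) (.b 4 16
    (.b 2 12 (.l 24) (.l 25)) (.b 2 12 (.b 2 11 (.b 5 17 (.l 26) (.l 25)) (.l 25)) (.l 24)))) (.b 3
    15 (.b 4 16 (.b 2 12 (.l 24) (.b 3 13 (.b 5 17 (.b 3 12 (.b 4 14 (.b 5 15 (.b 4 13 (.b 5 14 (.l
    28) (.b 3 9 (.l 29) (.b 4 10 (.l 30) (.l 34)))) (.l 27)) (.l 27)) (.l 26)) (.l 26)) (.l 25))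
    (.l 25))) (.b 2 12 (.b 3 13 (.b 2 11 (.b 5 17 (.l 25) (.l 26)) (.b 5 17 (.l 26) (.l 25))) (.b 2
    11 (.b 5 17 (.l 26) (.l 25)) (.l 25))) (.l 24))) (.l 23)))) (.l 22)) (.l 22)) (.l 21))) (.l
    20))) (.l 19)) (.l 18))))))))

theorem c_8_3 {b : ℕ → ℕ} (hb : ∀ j, 1 ≤ j → j ≤ 8 → 1 ≤ b j)
    (hId : Identity 8 3 b) :
    (List.range 8).map (bv 8 b) ∈ ([] : List (List ℕ)) :=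
  final (N := 52) (mask := 9007199254740176)
    (t := t_8_3) (by norm_num) hb hId (by decide +kernel) (by decide +kernel)
    (by decide +kernel)

end Pool.Agent.H372R3.GE
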