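import Pool.Agent.H372R3.GE2

set_option autoImplicit false
set_option maxRecDepth 1000000

namespace Pool.Agent.H372R3.GE

open Pool.Agent.MPe9218d Pool.Agent.H372R3.GD

def t_8_4 : Tree :=
    (.b 6 2 (.l 10) (.b 7 3 (.l 11) (.b 0 4 (.b 0 2 (.b 2 6 (.l 14) (.b 3 7 (.b 0 1 (.l 15) (.b 4 8
    (.b 5 9 (.l 17) (.b 3 5 (.l 17) (.b 4 6 (.b 6 10 (.b 4 5 (.b 7 11 (.b 4 4 (.b 6 8 (.b 7 9 (.b 6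
    7 (.b 1 13 (.l 21) (.b 6 6 (.b 2 14 (.b 7 8 (.b 4 2 (.l 22) (.b 7 7 (.b 6 4 (.b 2 12 (.l 24)
    (.b 7 5 (.b 6 3 (.b 5 17 (.l 25) (.b 7 4 (.l 26) (.l 27))) (.b 5 17 (.b 7 4 (.l 26) (.b 5 15
    (.b 5 14 (.b 1 21 (.b 5 13 (.l 29) (.l 30)) (.b 5 13 (.l 30) (.l 29))) (.l 28)) (.l 27))) (.l
    25))) (.b 6 3 (.b 5 17 (.b 5 15 (.b 5 14 (.b 1 21 (.l 29) (.b 5 13 (.l 29) (.l 30))) (.l 28))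
    (.l 27)) (.l 25)) (.l 25)))) (.b 2 12 (.b 7 5 (.b 2 11 (.b 5 17 (.l 25) (.b 7 4 (.l 26) (.b 2
    10 (.l 26) (.l 27)))) (.b 5 17 (.b 7 4 (.l 26) (.b 5 15 (.b 5 14 (.b 1 21 (.b 5 13 (.l 29) (.l
    30)) (.b 5 13 (.l 30) (.l 29))) (.l 28)) (.l 27))) (.l 25))) (.b 2 11 (.b 5 17 (.b 2 10 (.l 26)
    (.b 5 15 (.b 5 14 (.b 1 21 (.b 5 13 (.l 29) (.l 30)) (.b 5 13 (.l 30) (.l 29))) (.l 28)) (.l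
    27))) (.l 25)) (.l 25))) (.l 24))) (.l 23))) (.b 4 2 (.b 4 1 (.b 6 4 (.b 2 12 (.l 24) (.b 6 3
    (.b 5 17 (.b 5 15 (.b 5 14 (.b 1 21 (.b 5 13 (.l 29) (.l 30)) (.b 5 13 (.l 30) (.l 29))) (.l
    28)) (.l 27)) (.l 25)) (.l 25))) (.b 2 12 (.b 2 11 (.b 5 17 (.b 2 10 (.l 26) (.b 5 15 (.b 5 14
    (.b 1 21 (.b 5 13 (.l 30) (.l 29)) (.l 29)) (.l 28)) (.l 27))) (.l 25)) (.l 25)) (.l 24))) (.l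
    23)) (.l 22))) (.b 7 8 (.b 4 2 (.b 4 1 (.b 7 7 (.l 23) (.b 6 4 (.b 6 3 (.b 5 17 (.b 5 15 (.b 5
    14 (.b 1 21 (.b 5 13 (.l 29) (.l 30)) (.b 5 13 (.l 30) (.l 29))) (.l 28)) (.l 27)) (.l 25)) (.l
    25)) (.l 24))) (.b 7 7 (.b 6 4 (.b 7 5 (.b 6 3 (.b 5 17 (.l 25) (.b 7 4 (.l 26) (.l 27))) (.b 5
    17 (.b 7 4 (.l 26) (.b 5 15 (.b 5 14 (.b 1 21 (.b 5 13 (.l 29) (.l 30)) (.b 5 13 (.l 30) (.l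
    29))) (.l 28)) (.l 27))) (.l 25))) (.b 6 3 (.b 5 17 (.b 5 15 (.b 5 14 (.b 1 21 (.l 29) (.b 5 13
    (.l 29) (.l 30))) (.l 28)) (.l 27)) (.l 25)) (.l 25))) (.l 24)) (.l 23))) (.l 22)) (.l 22)))
    (.b 2 14 (.b 7 8 (.b 4 2 (.b 4 1 (.b 7 7 (.l 23) (.b 2 12 (.b 2 11 (.b 5 17 (.b 2 10 (.b 5 15
    (.b 5 14 (.b 2 8 (.b 1 21 (.b 2 7 (.b 5 13 (.l 29) (.b 1 19 (.b 1 18 (.b 3 6 (.l 32) (.b 1 17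
    (.b 1 15 (.b 1 14 (.l 37) (.l 36)) (.l 35)) (.l 33))) (.b 3 6 (.l 33) (.l 32))) (.l 31))) (.b 5
    13 (.b 1 19 (.b 5 11 (.l 31) (.b 1 18 (.b 3 6 (.l 32) (.b 1 17 (.b 1 15 (.l 35) (.l 36)) (.l
    33))) (.b 3 6 (.l 33) (.l 32)))) (.b 5 11 (.b 5 10 (.b 3 6 (.l 32) (.l 33)) (.b 3 6 (.l 33) (.l
    32))) (.l 31))) (.l 29))) (.b 2 7 (.b 5 13 (.b 5 11 (.b 5 10 (.b 3 6 (.l 32) (.b 1 29 (.b 1 27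
    (.l 40) (.l 39)) (.l 37))) (.b 3 6 (.l 36) (.l 32))) (.l 31)) (.l 29)) (.l 29))) (.l 28)) (.l
    28)) (.l 27)) (.l 26)) (.l 25)) (.l 25)) (.l 24))) (.b 7 7 (.b 2 12 (.b 7 5 (.b 2 11 (.b 5 17
    (.l 25) (.b 7 4 (.b 2 10 (.l 26) (.l 27)) (.b 2 10 (.l 27) (.l 26)))) (.b 5 17 (.b 7 4 (.b 5 15
    (.l 28) (.l 27)) (.l 26)) (.l 25))) (.b 2 11 (.b 5 17 (.b 2 10 (.b 5 15 (.b 5 14 (.b 2 8 (.b 1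
    21 (.b 2 7 (.l 29) (.b 5 13 (.l 29) (.b 1 19 (.b 1 18 (.b 3 6 (.l 32) (.l 33)) (.b 3 6 (.l 33)
    (.l 32))) (.l 31)))) (.b 2 7 (.b 5 13 (.l 29) (.l 31)) (.b 5 13 (.b 5 11 (.b 5 10 (.b 3 6 (.l
    32) (.l 33)) (.b 3 6 (.l 33) (.l 32))) (.l 31)) (.l 29)))) (.l 28)) (.l 28)) (.l 27)) (.l 26))
    (.l 25)) (.l 25))) (.l 24)) (.l 23))) (.l 22)) (.l 22)) (.l 22)))) (.b 1 13 (.b 2 14 (.b 7 8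
    (.b 4 2 (.b 1 11 (.b 4 1 (.l 23) (.b 7 7 (.l 23) (.b 2 12 (.b 1 10 (.l 24) (.b 2 11 (.b 5 17
    (.b 2 10 (.l 27) (.l 26)) (.l 25)) (.l 25))) (.b 1 10 (.b 5 17 (.b 1 9 (.l 26) (.l 25)) (.l
    25)) (.l 24))))) (.b 4 1 (.b 7 7 (.l 23) (.b 2 12 (.b 2 11 (.b 5 17 (.b 2 10 (.b 5 15 (.b 5 14
    (.b 2 8 (.b 2 7 (.b 5 13 (.l 29) (.b 3 6 (.l 32) (.b 1 12 (.l 38) (.l 39)))) (.b 5 13 (.b 5 11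
    (.l 31) (.b 3 6 (.l 32) (.l 35))) (.l 29))) (.l 28)) (.l 28)) (.l 27)) (.l 26)) (.l 25)) (.l
    25)) (.l 24))) (.b 7 7 (.b 2 12 (.b 7 5 (.b 2 11 (.b 5 17 (.l 25) (.b 7 4 (.b 2 10 (.l 26) (.l
    27)) (.b 2 10 (.l 27) (.l 26)))) (.b 5 17 (.b 7 4 (.b 5 15 (.l 28) (.l 27)) (.l 26)) (.l 25)))
    (.b 2 11 (.b 5 17 (.b 2 10 (.b 5 15 (.b 5 14 (.b 2 8 (.b 2 7 (.l 29) (.b 5 13 (.l 29) (.b 3 6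
    (.l 32) (.l 33)))) (.l 28)) (.l 28)) (.l 27)) (.l 26)) (.l 25)) (.l 25))) (.l 24)) (.l 23))))
    (.l 22)) (.l 22)) (.l 22)) (.l 21))) (.b 6 7 (.b 1 13 (.b 6 6 (.b 2 14 (.b 4 2 (.b 1 11 (.b 4 1
    (.l 23) (.b 2 12 (.b 6 4 (.l 24) (.b 1 10 (.l 24) (.b 2 11 (.b 5 17 (.b 2 10 (.l 26) (.l 27))
    (.l 25)) (.l 25)))) (.b 6 4 (.b 1 10 (.l 24) (.b 6 3 (.b 5 17 (.l 27) (.l 25)) (.l 25))) (.b 1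
    10 (.b 5 17 (.b 1 9 (.b 5 15 (.b 1 7 (.b 5 14 (.b 1 6 (.l 28) (.b 5 13 (.l 29) (.l 30))) (.b 1
    6 (.b 1 5 (.l 29) (.l 30)) (.l 28))) (.l 27)) (.l 27)) (.l 25)) (.l 25)) (.l 24))))) (.b 4 1
    (.b 6 4 (.b 2 12 (.l 24) (.b 6 3 (.b 5 17 (.b 5 15 (.b 5 14 (.b 5 13 (.l 29) (.l 30)) (.l 28))
    (.l 27)) (.l 25)) (.l 25))) (.b 2 12 (.b 2 11 (.b 5 17 (.b 2 10 (.l 26) (.b 5 15 (.b 5 14 (.b 5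
    13 (.l 30) (.l 29)) (.l 28)) (.l 27))) (.l 25)) (.l 25)) (.l 24))) (.l 23))) (.l 22)) (.l 22))
    (.l 22)) (.l 21)) (.l 21))) (.l 20)) (.l 20)) (.l 19)) (.l 19)) (.l 18)) (.l 18)))) (.l 16)))
    (.b 0 1 (.b 4 8 (.b 5 9 (.l 17) (.b 4 6 (.b 6 10 (.b 4 5 (.b 7 11 (.b 4 4 (.b 6 8 (.b 7 9 (.b 6
    7 (.b 1 13 (.l 21) (.b 6 6 (.b 2 14 (.b 7 8 (.b 4 2 (.l 22) (.b 3 15 (.b 7 7 (.b 6 4 (.b 2 12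
    (.l 24) (.b 3 13 (.b 7 5 (.b 6 3 (.b 5 17 (.l 25) (.b 3 12 (.b 7 4 (.l 26) (.b 3 11 (.l 28) (.l
    27))) (.b 7 4 (.l 27) (.l 26)))) (.b 5 17 (.b 3 12 (.b 7 4 (.l 26) (.b 5 15 (.b 3 11 (.l 27)
    (.b 5 14 (.b 1 21 (.b 5 13 (.l 29) (.l 30)) (.b 5 13 (.l 30) (.l 29))) (.l 28))) (.b 3 11 (.l
    28) (.l 27)))) (.b 7 4 (.b 5 15 (.b 5 14 (.b 1 21 (.b 5 13 (.l 29) (.l 30)) (.b 5 13 (.l 30)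
    (.l 29))) (.l 28)) (.l 27)) (.l 26))) (.l 25))) (.b 6 3 (.b 5 17 (.b 3 12 (.b 5 15 (.b 3 11 (.l
    27) (.b 5 14 (.b 1 21 (.b 5 13 (.l 29) (.l 30)) (.b 5 13 (.l 30) (.l 29))) (.l 28))) (.b 3 11
    (.l 28) (.l 27))) (.l 26)) (.l 25)) (.l 25))) (.b 7 5 (.b 6 3 (.b 5 17 (.b 7 4 (.b 5 15 (.b 5
    14 (.b 1 21 (.b 5 13 (.l 29) (.l 30)) (.b 5 13 (.l 30) (.l 29))) (.l 28)) (.l 27)) (.l 26)) (.l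
    25)) (.l 25)) (.l 25)))) (.b 2 12 (.b 3 13 (.b 7 5 (.b 2 11 (.b 5 17 (.l 25) (.b 3 12 (.b 7 4
    (.l 26) (.b 2 10 (.l 26) (.b 3 11 (.l 28) (.l 27)))) (.b 7 4 (.b 2 10 (.l 26) (.l 27)) (.b 2 10
    (.l 27) (.l 26))))) (.b 5 17 (.b 3 12 (.b 7 4 (.l 26) (.b 5 15 (.b 3 11 (.l 27) (.b 5 14 (.b 1
    21 (.b 5 13 (.l 29) (.l 30)) (.b 5 13 (.l 30) (.l 29))) (.l 28))) (.b 3 11 (.l 28) (.l 27))))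
    (.b 7 4 (.b 5 15 (.b 5 14 (.b 1 21 (.b 5 13 (.l 29) (.l 30)) (.b 5 13 (.l 30) (.l 29))) (.l
    28)) (.l 27)) (.l 26))) (.l 25))) (.b 2 11 (.b 5 17 (.b 3 12 (.b 2 10 (.l 26) (.b 5 15 (.b 3 11
    (.l 27) (.b 5 14 (.b 1 21 (.b 5 13 (.l 29) (.l 30)) (.b 5 13 (.l 30) (.l 29))) (.l 28))) (.b 3
    11 (.l 28) (.l 27)))) (.b 2 10 (.b 5 15 (.b 5 14 (.b 2 8 (.l 28) (.b 1 21 (.b 5 13 (.l 29) (.l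
    31)) (.b 5 13 (.l 31) (.l 29)))) (.b 2 8 (.b 1 21 (.b 2 7 (.l 29) (.l 31)) (.b 2 7 (.l 31) (.l
    29))) (.l 28))) (.l 27)) (.l 26))) (.l 25)) (.l 25))) (.b 7 5 (.b 2 11 (.b 5 17 (.b 7 4 (.b 2
    10 (.l 26) (.b 5 15 (.b 5 14 (.b 1 21 (.b 5 13 (.l 29) (.l 30)) (.b 5 13 (.l 30) (.l 29))) (.l
    28)) (.l 27))) (.b 2 10 (.b 5 15 (.b 5 14 (.b 2 8 (.l 28) (.b 1 21 (.b 5 13 (.l 29) (.l 31))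
    (.b 5 13 (.l 31) (.l 29)))) (.b 2 8 (.b 1 21 (.b 2 7 (.l 29) (.l 31)) (.b 2 7 (.l 31) (.l 29)))
    (.l 28))) (.l 27)) (.l 26))) (.l 25)) (.l 25)) (.l 25))) (.l 24))) (.l 23)) (.l 23))) (.b 4 2
    (.b 4 1 (.b 3 15 (.b 6 4 (.b 2 12 (.l 24) (.b 3 13 (.b 6 3 (.b 5 17 (.b 3 12 (.b 5 15 (.b 3 11
    (.b 5 14 (.b 3 9 (.b 1 21 (.b 5 13 (.l 29) (.l 30)) (.b 5 13 (.l 30) (.l 29))) (.b 1 21 (.b 5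
    13 (.l 30) (.l 29)) (.l 29))) (.l 28)) (.l 27)) (.l 27)) (.l 26)) (.l 25)) (.l 25)) (.l 25)))
    (.b 2 12 (.b 3 13 (.b 2 11 (.b 5 17 (.b 3 12 (.b 2 10 (.l 26) (.b 5 15 (.b 3 11 (.b 5 14 (.b 3
    9 (.b 1 21 (.b 5 13 (.l 29) (.l 30)) (.b 5 13 (.l 30) (.l 29))) (.b 1 21 (.b 5 13 (.l 30) (.l
    29)) (.l 29))) (.l 28)) (.l 27)) (.l 27))) (.b 2 10 (.l 27) (.l 26))) (.l 25)) (.l 25)) (.l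
    25)) (.l 24))) (.l 23)) (.l 23)) (.l 22))) (.b 7 8 (.b 4 2 (.b 4 1 (.b 3 15 (.b 7 7 (.l 23) (.b
    6 4 (.b 3 13 (.b 6 3 (.b 5 17 (.b 3 12 (.b 5 15 (.b 3 11 (.b 5 14 (.b 3 9 (.b 1 21 (.b 5 13 (.l
    29) (.l 30)) (.b 5 13 (.l 30) (.l 29))) (.b 1 21 (.b 5 13 (.l 30) (.l 29)) (.l 29))) (.l 28))
    (.l 27)) (.l 27)) (.l 26)) (.l 25)) (.l 25)) (.l 25)) (.l 24))) (.b 7 7 (.b 6 4 (.b 7 5 (.b 6 3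
    (.b 5 17 (.b 7 4 (.b 5 15 (.b 5 14 (.b 1 21 (.b 5 13 (.l 29) (.l 30)) (.b 5 13 (.l 30) (.l
    29))) (.l 28)) (.l 27)) (.l 26)) (.l 25)) (.l 25)) (.l 25)) (.l 24)) (.l 23))) (.b 3 15 (.b 7 7
    (.b 6 4 (.b 3 13 (.b 7 5 (.b 6 3 (.b 5 17 (.l 25) (.b 3 12 (.b 7 4 (.l 26) (.b 3 11 (.l 28) (.l
    27))) (.b 7 4 (.l 27) (.l 26)))) (.b 5 17 (.b 3 12 (.b 7 4 (.l 26) (.b 5 15 (.b 3 11 (.l 27)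
    (.b 5 14 (.b 1 21 (.b 5 13 (.l 29) (.l 30)) (.b 5 13 (.l 30) (.l 29))) (.l 28))) (.b 3 11 (.l
    28) (.l 27)))) (.b 7 4 (.b 5 15 (.b 5 14 (.b 1 21 (.b 5 13 (.l 29) (.l 30)) (.b 5 13 (.l 30)
    (.l 29))) (.l 28)) (.l 27)) (.l 26))) (.l 25))) (.b 6 3 (.b 5 17 (.b 3 12 (.b 5 15 (.b 3 11 (.l
    27) (.b 5 14 (.b 1 21 (.b 5 13 (.l 29) (.l 30)) (.b 5 13 (.l 30) (.l 29))) (.l 28))) (.b 3 11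
    (.l 28) (.l 27))) (.l 26)) (.l 25)) (.l 25))) (.b 7 5 (.b 6 3 (.b 5 17 (.b 7 4 (.b 5 15 (.b 5
    14 (.b 1 21 (.b 5 13 (.l 29) (.l 30)) (.b 5 13 (.l 30) (.l 29))) (.l 28)) (.l 27)) (.l 26)) (.l
    25)) (.l 25)) (.l 25))) (.l 24)) (.l 23)) (.l 23))) (.l 22)) (.l 22))) (.b 2 14 (.b 7 8 (.b 4 2
    (.b 4 1 (.b 3 15 (.b 7 7 (.l 23) (.b 2 12 (.b 3 13 (.b 2 11 (.b 5 17 (.b 3 12 (.b 2 10 (.b 5 15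
    (.b 3 11 (.b 5 14 (.b 2 8 (.b 1 21 (.b 3 9 (.b 2 7 (.b 5 13 (.l 29) (.b 3 8 (.b 1 19 (.b 1 18
    (.b 1 17 (.b 1 15 (.b 1 14 (.l 37) (.l 36)) (.l 35)) (.l 33)) (.l 32)) (.l 31)) (.l 30))) (.b 5
    13 (.b 3 8 (.b 1 19 (.b 5 11 (.l 31) (.b 1 18 (.b 1 17 (.l 33) (.l 39)) (.l 32))) (.b 5 11 (.b
    5 10 (.l 39) (.l 32)) (.l 31))) (.l 30)) (.l 29))) (.b 2 7 (.b 5 13 (.l 30) (.l 29)) (.l 29)))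
    (.b 3 9 (.b 2 7 (.b 5 13 (.b 3 8 (.b 5 11 (.b 5 10 (.b 1 29 (.l 39) (.l 37)) (.l 32)) (.l 31))
    (.l 30)) (.l 29)) (.l 29)) (.l 29))) (.l 28)) (.l 28)) (.l 27)) (.l 27)) (.l 26)) (.l 26)) (.l
    25)) (.l 25)) (.l 25)) (.l 24))) (.b 7 7 (.b 2 12 (.b 7 5 (.b 2 11 (.b 5 17 (.b 7 4 (.b 2 10
    (.b 5 15 (.b 5 14 (.b 2 8 (.b 1 21 (.b 2 7 (.b 5 13 (.l 29) (.l 31)) (.b 5 13 (.b 3 23 (.b 1 19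
    (.b 5 11 (.b 5 10 (.b 1 18 (.l 32) (.l 33)) (.b 1 18 (.b 1 17 (.b 3 21 (.l 34) (.l 33)) (.l
    33)) (.l 32))) (.l 31)) (.l 31)) (.l 31)) (.l 29))) (.b 2 7 (.b 5 13 (.l 31) (.l 29)) (.l 29)))
    (.l 28)) (.l 28)) (.l 27)) (.l 26)) (.l 26)) (.l 25)) (.l 25)) (.l 25)) (.l 24)) (.l 23))) (.b
    3 15 (.b 7 7 (.b 2 12 (.b 3 13 (.b 7 5 (.b 2 11 (.b 5 17 (.l 25) (.b 3 12 (.b 7 4 (.b 2 10 (.l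
    26) (.b 3 11 (.l 28) (.l 27))) (.b 2 10 (.b 3 11 (.l 28) (.l 27)) (.l 26))) (.b 7 4 (.b 2 10
    (.l 27) (.l 26)) (.l 26)))) (.b 5 17 (.b 3 12 (.b 7 4 (.b 5 15 (.b 3 11 (.l 27) (.l 28)) (.b 3
    11 (.l 28) (.l 27))) (.l 26)) (.l 26)) (.l 25))) (.b 2 11 (.b 5 17 (.b 3 12 (.b 2 10 (.b 5 15
    (.b 3 11 (.l 27) (.b 5 14 (.b 2 8 (.b 1 21 (.b 2 7 (.b 5 13 (.l 29) (.l 31)) (.b 5 13 (.b 1 19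
    (.b 5 11 (.b 5 10 (.b 1 18 (.l 32) (.l 33)) (.b 1 18 (.b 1 17 (.l 34) (.l 33)) (.l 32))) (.l
    31)) (.l 31)) (.l 29))) (.b 2 7 (.b 5 13 (.l 31) (.l 29)) (.l 29))) (.l 28)) (.l 28))) (.b 3 11
    (.l 28) (.l 27))) (.l 26)) (.l 26)) (.l 25)) (.l 25))) (.b 7 5 (.b 2 11 (.b 5 17 (.b 7 4 (.b 2
    10 (.b 5 15 (.b 5 14 (.b 2 8 (.b 1 21 (.b 2 7 (.b 5 13 (.l 29) (.l 31)) (.b 5 13 (.b 1 19 (.b 5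
    11 (.b 5 10 (.b 1 18 (.l 32) (.l 33)) (.b 1 18 (.b 1 17 (.l 34) (.l 33)) (.l 32))) (.l 31)) (.l
    31)) (.l 29))) (.b 2 7 (.b 5 13 (.l 31) (.l 29)) (.l 29))) (.l 28)) (.l 28)) (.l 27)) (.l 26))
    (.l 26)) (.l 25)) (.l 25)) (.l 25))) (.l 24)) (.l 23)) (.l 23))) (.l 22)) (.l 22)) (.l 22))))
    (.b 1 13 (.b 2 14 (.b 7 8 (.b 4 2 (.b 1 11 (.b 4 1 (.b 3 15 (.l 23) (.b 7 7 (.l 23) (.b 2 12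
    (.b 1 10 (.l 24) (.l 25)) (.b 1 10 (.l 25) (.l 24))))) (.b 3 15 (.b 7 7 (.l 23) (.b 2 12 (.b 1
    10 (.l 24) (.b 3 13 (.b 2 11 (.b 5 17 (.b 3 12 (.b 2 10 (.b 5 15 (.b 3 11 (.b 5 14 (.b 2 8 (.b
    3 9 (.b 2 7 (.b 5 13 (.l 29) (.b 3 8 (.l 38) (.l 30))) (.b 5 13 (.b 3 8 (.b 5 11 (.l 31) (.l
    33)) (.l 30)) (.l 29))) (.b 2 7 (.b 5 13 (.l 30) (.l 29)) (.l 29))) (.l 28)) (.l 28)) (.l 27))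
    (.l 27)) (.l 26)) (.l 26)) (.l 25)) (.l 25)) (.l 25))) (.b 1 10 (.b 3 13 (.b 5 17 (.b 1 9 (.l
    26) (.l 25)) (.l 25)) (.l 25)) (.l 24)))) (.b 7 7 (.b 2 12 (.b 1 10 (.l 24) (.b 7 5 (.b 2 11
    (.b 5 17 (.b 7 4 (.b 2 10 (.b 5 15 (.b 5 14 (.b 2 8 (.b 2 7 (.b 5 13 (.l 29) (.l 31)) (.b 5 13
    (.b 3 23 (.b 5 11 (.b 5 10 (.l 32) (.b 3 21 (.l 34) (.l 33))) (.l 31)) (.l 31)) (.l 29))) (.l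
    28)) (.l 28)) (.l 27)) (.l 26)) (.l 26)) (.l 25)) (.l 25)) (.l 25))) (.b 1 10 (.b 7 5 (.b 5 17
    (.b 1 9 (.l 26) (.l 25)) (.l 25)) (.l 25)) (.l 24))) (.l 23)))) (.b 4 1 (.b 3 15 (.b 7 7 (.l
    23) (.b 2 12 (.b 3 13 (.b 2 11 (.b 5 17 (.b 3 12 (.b 2 10 (.b 5 15 (.b 3 11 (.b 5 14 (.b 2 8
    (.b 3 9 (.b 2 7 (.b 5 13 (.l 29) (.b 3 8 (.b 1 12 (.l 38) (.l 45)) (.l 30))) (.b 5 13 (.b 3 8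
    (.b 5 11 (.l 31) (.l 33)) (.l 30)) (.l 29))) (.b 2 7 (.b 5 13 (.l 30) (.l 29)) (.l 29))) (.l
    28)) (.l 28)) (.l 27)) (.l 27)) (.l 26)) (.l 26)) (.l 25)) (.l 25)) (.l 25)) (.l 24))) (.b 7 7
    (.b 2 12 (.b 7 5 (.b 2 11 (.b 5 17 (.b 7 4 (.b 2 10 (.b 5 15 (.b 5 14 (.b 2 8 (.b 2 7 (.b 5 13
    (.l 29) (.l 31)) (.b 5 13 (.b 3 23 (.b 5 11 (.b 5 10 (.l 32) (.b 3 21 (.l 34) (.l 33))) (.l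
    31)) (.l 31)) (.l 29))) (.l 28)) (.l 28)) (.l 27)) (.l 26)) (.l 26)) (.l 25)) (.l 25)) (.l 25))
    (.l 24)) (.l 23))) (.b 3 15 (.b 7 7 (.b 2 12 (.b 3 13 (.b 7 5 (.b 2 11 (.b 5 17 (.l 25) (.b 3
    12 (.b 7 4 (.b 2 10 (.l 26) (.b 3 11 (.l 28) (.l 27))) (.b 2 10 (.b 3 11 (.l 28) (.l 27)) (.l
    26))) (.b 7 4 (.b 2 10 (.l 27) (.l 26)) (.l 26)))) (.b 5 17 (.b 3 12 (.b 7 4 (.b 5 15 (.b 3 11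
    (.l 27) (.l 28)) (.b 3 11 (.l 28) (.l 27))) (.l 26)) (.l 26)) (.l 25))) (.b 2 11 (.b 5 17 (.b 3
    12 (.b 2 10 (.b 5 15 (.b 3 11 (.l 27) (.b 5 14 (.b 2 8 (.b 2 7 (.b 5 13 (.l 29) (.l 31)) (.b 5
    13 (.b 5 11 (.b 5 10 (.l 32) (.l 34)) (.l 31)) (.l 29))) (.l 28)) (.l 28))) (.b 3 11 (.l 28)
    (.l 27))) (.l 26)) (.l 26)) (.l 25)) (.l 25))) (.b 7 5 (.b 2 11 (.b 5 17 (.b 7 4 (.b 2 10 (.b 5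
    15 (.b 5 14 (.b 2 8 (.b 2 7 (.b 5 13 (.l 29) (.l 31)) (.b 5 13 (.b 5 11 (.b 5 10 (.l 32) (.l
    34)) (.l 31)) (.l 29))) (.l 28)) (.l 28)) (.l 27)) (.l 26)) (.l 26)) (.l 25)) (.l 25)) (.l
    25))) (.l 24)) (.l 23)) (.l 23)))) (.l 22)) (.l 22)) (.l 22)) (.l 21))) (.b 6 7 (.b 1 13 (.b 6
    6 (.b 2 14 (.b 4 2 (.b 1 11 (.b 4 1 (.b 3 15 (.l 23) (.b 2 12 (.b 6 4 (.l 24) (.b 1 10 (.l 24)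
    (.l 25))) (.b 6 4 (.b 1 10 (.l 24) (.l 25)) (.b 1 10 (.l 25) (.l 24))))) (.b 3 15 (.b 2 12 (.b
    6 4 (.l 24) (.b 1 10 (.l 24) (.b 3 13 (.b 2 11 (.b 5 17 (.b 3 12 (.b 2 10 (.l 26) (.b 5 15 (.b
    3 11 (.b 5 14 (.b 3 9 (.b 5 13 (.l 29) (.l 30)) (.b 5 13 (.l 30) (.l 29))) (.l 28)) (.l 27))
    (.l 27))) (.b 2 10 (.l 27) (.l 26))) (.l 25)) (.l 25)) (.l 25)))) (.b 6 4 (.b 1 10 (.l 24) (.b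
    3 13 (.b 6 3 (.b 5 17 (.b 3 12 (.b 5 15 (.b 3 11 (.b 5 14 (.b 3 9 (.b 5 13 (.l 29) (.l 30)) (.b
    5 13 (.l 30) (.l 29))) (.l 28)) (.l 27)) (.l 27)) (.l 26)) (.l 25)) (.l 25)) (.l 25))) (.b 1 10
    (.b 3 13 (.b 5 17 (.b 1 9 (.b 3 12 (.b 5 15 (.b 1 7 (.b 3 11 (.l 27) (.b 5 14 (.b 1 6 (.l 28)
    (.b 5 13 (.l 29) (.l 30))) (.b 1 6 (.b 1 5 (.l 29) (.l 30)) (.l 28)))) (.b 3 11 (.b 5 14 (.b 3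
    9 (.l 29) (.b 5 13 (.l 29) (.l 30))) (.l 28)) (.l 27))) (.b 1 7 (.b 3 11 (.b 1 6 (.b 3 9 (.l
    29) (.b 1 5 (.l 29) (.l 30))) (.l 28)) (.l 27)) (.l 27))) (.l 26)) (.l 25)) (.l 25)) (.l 25))
    (.l 24)))) (.l 23))) (.b 4 1 (.b 3 15 (.b 6 4 (.b 2 12 (.l 24) (.b 3 13 (.b 6 3 (.b 5 17 (.b 3
    12 (.b 5 15 (.b 3 11 (.b 5 14 (.b 3 9 (.b 5 13 (.l 29) (.l 30)) (.b 5 13 (.l 30) (.l 29))) (.l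
    28)) (.l 27)) (.l 27)) (.l 26)) (.l 25)) (.l 25)) (.l 25))) (.b 2 12 (.b 3 13 (.b 2 11 (.b 5 17
    (.b 3 12 (.b 2 10 (.l 26) (.b 5 15 (.b 3 11 (.b 5 14 (.b 3 9 (.b 5 13 (.l 29) (.l 30)) (.b 5 13
    (.l 30) (.l 29))) (.l 28)) (.l 27)) (.l 27))) (.b 2 10 (.l 27) (.l 26))) (.l 25)) (.l 25)) (.l
    25)) (.l 24))) (.l 23)) (.l 23))) (.l 22)) (.l 22)) (.l 22)) (.l 21)) (.l 21))) (.l 20)) (.l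
    20)) (.l 19)) (.l 19)) (.l 18)) (.l 18))) (.l 16)) (.l 15)))) (.b 2 6 (.b 3 7 (.b 2 4 (.b 4 8
    (.l 16) (.b 2 3 (.l 17) (.b 5 9 (.l 17) (.b 3 5 (.l 17) (.l 18))))) (.b 4 8 (.b 5 9 (.l 17) (.b
    3 5 (.l 17) (.b 4 6 (.b 6 10 (.b 4 5 (.b 7 11 (.b 4 4 (.b 6 8 (.b 7 9 (.b 6 7 (.b 1 13 (.l 21)
    (.b 6 6 (.b 7 8 (.b 4 2 (.l 22) (.b 7 7 (.b 6 4 (.l 24) (.b 7 5 (.b 5 17 (.l 25) (.b 7 4 (.l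
    26) (.l 27))) (.b 5 17 (.b 5 15 (.b 5 14 (.b 0 3 (.b 1 21 (.b 5 13 (.l 29) (.b 2 5 (.b 1 19 (.l
    31) (.b 3 6 (.l 33) (.l 32))) (.b 1 19 (.b 1 18 (.b 3 6 (.l 32) (.b 1 17 (.b 1 15 (.b 1 14 (.b
    4 3 (.l 37) (.b 6 5 (.l 39) (.b 7 6 (.l 40) (.l 43)))) (.l 36)) (.l 35)) (.l 33))) (.b 3 6 (.l
    33) (.l 32))) (.l 31)))) (.b 5 13 (.b 2 5 (.b 5 11 (.l 31) (.b 3 6 (.l 35) (.l 32))) (.b 5 11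
    (.b 5 10 (.b 3 6 (.l 32) (.b 1 29 (.b 4 3 (.b 1 27 (.b 6 5 (.b 7 6 (.b 1 26 (.b 1 25 (.b 1 23
    (.l 43) (.l 47)) (.l 41)) (.l 40)) (.l 40)) (.l 39)) (.l 39)) (.l 37)) (.l 37))) (.b 3 6 (.l
    36) (.l 32))) (.l 31))) (.l 29))) (.b 1 21 (.b 5 13 (.b 1 19 (.b 2 5 (.l 31) (.b 5 11 (.l 31)
    (.b 1 18 (.b 3 6 (.l 32) (.b 1 17 (.l 33) (.l 35))) (.b 3 6 (.l 35) (.l 32))))) (.b 2 5 (.b 5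
    11 (.l 31) (.b 3 6 (.l 35) (.l 32))) (.b 5 11 (.b 5 10 (.b 3 6 (.l 32) (.b 4 3 (.b 6 5 (.b 7 6
    (.l 43) (.l 40)) (.l 39)) (.l 37))) (.b 3 6 (.l 36) (.l 32))) (.l 31)))) (.l 29)) (.l 29))) (.l
    28)) (.l 27)) (.l 25)))) (.l 23))) (.b 4 2 (.b 4 1 (.b 6 4 (.l 24) (.b 5 17 (.l 26) (.l 25)))
    (.l 23)) (.l 22))) (.b 7 8 (.b 4 2 (.b 4 1 (.b 7 7 (.l 23) (.b 5 17 (.b 5 15 (.b 5 14 (.b 0 3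
    (.b 1 21 (.b 5 13 (.l 29) (.b 2 5 (.b 1 19 (.l 31) (.b 3 6 (.l 33) (.l 32))) (.b 1 19 (.b 1 18
    (.b 3 6 (.l 32) (.b 1 17 (.b 1 15 (.b 1 14 (.l 37) (.l 36)) (.l 35)) (.l 33))) (.b 3 6 (.l 33)
    (.l 32))) (.l 31)))) (.b 5 13 (.b 2 5 (.b 5 11 (.l 31) (.b 3 6 (.l 35) (.l 32))) (.b 5 11 (.b 5
    10 (.b 3 6 (.l 32) (.b 1 29 (.l 38) (.l 37))) (.b 3 6 (.l 36) (.l 32))) (.l 31))) (.l 29))) (.b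
    1 21 (.b 5 13 (.b 1 19 (.b 2 5 (.l 31) (.b 5 11 (.l 31) (.b 1 18 (.b 3 6 (.l 32) (.b 1 17 (.l
    33) (.l 35))) (.b 3 6 (.l 35) (.l 32))))) (.b 2 5 (.b 5 11 (.l 31) (.b 3 6 (.l 35) (.l 32)))
    (.b 5 11 (.b 5 10 (.b 3 6 (.l 32) (.l 38)) (.b 3 6 (.l 36) (.l 32))) (.l 31)))) (.l 29)) (.l
    29))) (.l 28)) (.l 27)) (.l 25))) (.b 7 7 (.b 7 5 (.b 5 17 (.l 25) (.b 7 4 (.l 26) (.l 27)))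
    (.b 5 17 (.b 5 15 (.b 5 14 (.b 0 3 (.b 1 21 (.b 5 13 (.l 29) (.b 2 5 (.b 1 19 (.l 31) (.b 3 6
    (.l 33) (.l 32))) (.b 1 19 (.b 1 18 (.b 3 6 (.l 32) (.b 1 17 (.b 1 15 (.b 1 14 (.l 37) (.l 36))
    (.l 35)) (.l 33))) (.b 3 6 (.l 33) (.l 32))) (.l 31)))) (.b 5 13 (.b 2 5 (.b 5 11 (.l 31) (.b 3
    6 (.l 35) (.l 32))) (.b 5 11 (.b 5 10 (.b 3 6 (.l 32) (.b 1 29 (.l 38) (.l 37))) (.b 3 6 (.l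
    36) (.l 32))) (.l 31))) (.l 29))) (.b 1 21 (.b 5 13 (.b 1 19 (.b 2 5 (.l 31) (.b 5 11 (.l 31)
    (.b 1 18 (.b 3 6 (.l 32) (.b 1 17 (.l 33) (.l 35))) (.b 3 6 (.l 35) (.l 32))))) (.b 2 5 (.b 5
    11 (.l 31) (.b 3 6 (.l 35) (.l 32))) (.b 5 11 (.b 5 10 (.b 3 6 (.l 32) (.l 38)) (.b 3 6 (.l 36)
    (.l 32))) (.l 31)))) (.l 29)) (.l 29))) (.l 28)) (.l 27)) (.l 25))) (.l 23))) (.l 22)) (.l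
    22)))) (.b 1 13 (.b 7 8 (.b 4 2 (.b 1 11 (.b 4 1 (.l 23) (.b 7 7 (.l 23) (.b 1 10 (.l 24) (.b 5
    17 (.l 27) (.l 25))))) (.b 4 1 (.b 7 7 (.l 23) (.b 5 17 (.b 5 15 (.b 5 14 (.b 0 3 (.b 5 13 (.l
    29) (.b 2 5 (.l 31) (.b 3 6 (.l 32) (.l 37)))) (.b 5 13 (.b 2 5 (.l 31) (.b 5 11 (.l 31) (.b 3
    6 (.l 32) (.l 33)))) (.l 29))) (.l 28)) (.l 27)) (.l 25))) (.b 7 7 (.b 7 5 (.b 5 17 (.l 25) (.b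
    7 4 (.l 26) (.l 27))) (.b 5 17 (.b 5 15 (.b 5 14 (.b 0 3 (.b 5 13 (.l 29) (.b 2 5 (.l 31) (.b 3
    6 (.l 32) (.l 37)))) (.b 5 13 (.b 2 5 (.l 31) (.b 5 11 (.l 31) (.b 3 6 (.l 32) (.l 33)))) (.l
    29))) (.l 28)) (.l 27)) (.l 25))) (.l 23)))) (.l 22)) (.l 22)) (.l 21))) (.b 6 7 (.b 1 13 (.b 6
    6 (.b 4 2 (.b 1 11 (.b 4 1 (.l 23) (.b 6 4 (.l 24) (.b 1 10 (.l 24) (.b 5 17 (.l 26) (.l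
    25))))) (.b 4 1 (.b 6 4 (.l 24) (.b 5 17 (.l 26) (.l 25))) (.l 23))) (.l 22)) (.l 22)) (.l 21))
    (.l 21))) (.l 20)) (.l 20)) (.l 19)) (.l 19)) (.l 18)) (.l 18)))) (.l 16))) (.l 15)) (.l 14)))
    (.l 12))))

theorem c_8_4 {b : ℕ → ℕ} (hb : ∀ j, 1 ≤ j → j ≤ 8 → 1 ≤ b j)
    (hId : Identity 8 4 b) :
    (List.range 8).map (bv 8 b) ∈ ([] : List (List ℕ)) :=
  final (N := 47) (mask := 281474976710096)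
    (t := t_8_4) (by norm_num) hb hId (by decide +kernel) (by decide +kernel)
    (by decide +kernel)

end Pool.Agent.H372R3.GE
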