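import Pool.Agent.H372R3.GE2

set_option autoImplicit false
set_option maxRecDepth 1000000

namespace Pool.Agent.H372R3.GE

open Pool.Agent.MPe9218d Pool.Agent.H372R3.GD

def t_9_1 : Tree :=
    (.b 8 9 (.l 25) (.b 7 17 (.l 33) (.b 8 18 (.l 34) (.b 7 26 (.l 42) (.b 8 27 (.b 7 35 (.l 51)
    (.b 6 43 (.l 59) (.b 7 44 (.l 60) (.b 6 52 (.l 68) (.b 8 19 (.b 7 53 (.l 69) (.b 6 61 (.l 77)
    (.b 7 62 (.b 6 70 (.l 86) (.b 5 78 (.l 94) (.b 6 79 (.l 95) (.b 5 87 (.l 103) (.b 7 54 (.b 6 88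
    (.l 104) (.b 5 96 (.l 112) (.b 6 97 (.b 5 105 (.l 121) (.b 5 114 (.l 130) (.b 4 122 (.l 138)
    (.b 5 123 (.l 139) (.b 6 89 (.l 139) (.l 140)))))) (.l 113)))) (.b 6 88 (.b 5 96 (.l 112) (.b 5
    105 (.l 121) (.b 6 80 (.l 130) (.b 5 114 (.l 130) (.b 4 122 (.l 138) (.l 139)))))) (.l
    104))))))) (.l 78)))) (.b 7 53 (.b 6 61 (.l 77) (.b 6 70 (.l 86) (.b 5 78 (.l 94) (.b 7 45 (.l
    95) (.b 6 79 (.l 95) (.b 5 87 (.l 103) (.b 6 88 (.l 104) (.b 5 96 (.l 112) (.b 6 97 (.b 5 105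
    (.l 121) (.b 8 20 (.b 5 114 (.l 130) (.l 131)) (.l 122))) (.l 113)))))))))) (.l 69))))))) (.l
    43))))))

theorem c_9_1 {b : ℕ → ℕ} (hb : ∀ j, 1 ≤ j → j ≤ 9 → 1 ≤ b j)
    (hId : Identity 9 1 b) :
    (List.range 9).map (bv 9 b) ∈ ([] : List (List ℕ)) :=
  final (N := 140) (mask := 2132969785613926657947814333893680772022528)
    (t := t_9_1) (by norm_num) hb hId (by decide +kernel) (by decide +kernel)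
    (by decide +kernel)

def t_9_2 : Tree :=
    (.b 8 1 (.l 15) (.b 6 8 (.l 22) (.b 7 9 (.l 23) (.b 8 10 (.b 8 9 (.b 5 16 (.l 30) (.b 6 17 (.l
    31) (.b 8 2 (.b 7 18 (.l 32) (.l 33)) (.b 7 18 (.b 7 17 (.b 4 24 (.l 38) (.b 5 25 (.l 39) (.b 7
    10 (.b 6 26 (.l 40) (.l 41)) (.b 6 26 (.b 6 25 (.b 4 33 (.l 47) (.b 6 18 (.b 5 34 (.l 48) (.b 8
    3 (.b 3 41 (.l 55) (.b 4 42 (.l 56) (.b 5 43 (.b 7 11 (.l 57) (.b 5 42 (.b 2 49 (.l 63) (.b 3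
    50 (.l 64) (.b 4 51 (.l 65) (.b 5 35 (.l 65) (.b 2 58 (.l 72) (.b 3 59 (.l 73) (.b 4 60 (.b 7
    12 (.l 75) (.l 74)) (.l 74)))))))) (.l 58))) (.b 7 11 (.l 58) (.l 57))))) (.l 49))) (.b 5 34
    (.b 8 3 (.b 5 33 (.l 49) (.b 3 41 (.l 55) (.b 4 42 (.l 56) (.b 7 11 (.l 57) (.b 2 49 (.l 63)
    (.b 3 50 (.l 64) (.b 6 19 (.l 65) (.b 4 51 (.l 65) (.b 2 58 (.l 72) (.b 3 59 (.l 73) (.b 4 60
    (.b 7 12 (.l 75) (.l 74)) (.l 74)))))))))))) (.b 5 33 (.b 3 41 (.l 55) (.b 5 26 (.l 56) (.b 4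
    42 (.l 56) (.b 7 11 (.l 57) (.b 2 49 (.l 63) (.b 3 50 (.l 64) (.b 6 19 (.l 65) (.b 4 51 (.l 65)
    (.b 8 4 (.b 2 58 (.l 72) (.b 5 27 (.l 73) (.b 3 59 (.l 73) (.b 4 60 (.b 7 12 (.l 74) (.b 4 59
    (.b 1 66 (.l 80) (.b 2 67 (.l 81) (.b 3 68 (.b 6 20 (.l 82) (.b 4 52 (.l 82) (.b 3 67 (.b 1 75
    (.l 89) (.b 2 76 (.l 90) (.b 3 60 (.l 90) (.b 5 28 (.l 90) (.l 92))))) (.l 83)))) (.b 6 20 (.b
    4 52 (.l 82) (.l 83)) (.b 4 52 (.l 83) (.l 82)))))) (.l 75))) (.b 7 12 (.l 75) (.l 74)))))) (.l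
    66)))))))))) (.l 49))) (.l 48)))) (.l 41)) (.l 40))))) (.l 33)) (.l 32))))) (.l 25)) (.l
    24)))))

theorem c_9_2 {b : ℕ → ℕ} (hb : ∀ j, 1 ≤ j → j ≤ 9 → 1 ≤ b j)
    (hId : Identity 9 2 b) :
    (List.range 9).map (bv 9 b) ∈ ([] : List (List ℕ)) :=
  final (N := 92) (mask := 9901097712552923441687396736)
    (t := t_9_2) (by norm_num) hb hId (by decide +kernel) (by decide +kernel)
    (by decide +kernel)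

def t_9_3 : Tree :=
    (.b 7 2 (.l 12) (.b 8 3 (.l 13) (.b 3 7 (.l 17) (.b 4 8 (.l 18) (.b 5 9 (.l 19) (.b 6 10 (.l
    20) (.b 7 11 (.b 8 12 (.b 7 9 (.b 1 14 (.b 8 10 (.l 24) (.b 7 8 (.l 24) (.b 2 15 (.b 1 12 (.b 3
    16 (.l 26) (.b 1 11 (.l 27) (.b 4 17 (.l 27) (.b 2 13 (.l 27) (.b 5 18 (.l 29) (.l 28)))))) (.b
    3 16 (.b 4 17 (.l 27) (.b 2 13 (.l 27) (.b 3 14 (.b 5 18 (.l 28) (.b 3 13 (.b 6 19 (.l 30) (.l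
    29)) (.l 29))) (.b 5 18 (.l 29) (.l 28))))) (.l 26))) (.l 25)))) (.b 8 10 (.b 7 8 (.l 24) (.b 2
    15 (.b 8 9 (.l 25) (.b 3 16 (.b 4 17 (.l 27) (.b 2 13 (.l 27) (.b 3 14 (.b 5 18 (.l 28) (.b 3
    13 (.b 6 19 (.l 30) (.l 29)) (.l 29))) (.b 5 18 (.l 29) (.l 28))))) (.l 26))) (.b 8 9 (.b 3 16
    (.b 4 17 (.l 27) (.b 3 14 (.b 5 18 (.l 28) (.b 3 13 (.b 6 19 (.b 8 5 (.l 29) (.l 30)) (.b 8 5
    (.l 30) (.l 29))) (.b 6 19 (.b 8 5 (.l 30) (.l 29)) (.l 29)))) (.b 5 18 (.b 6 19 (.b 8 5 (.b 5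
    16 (.b 8 4 (.b 5 15 (.b 6 17 (.b 0 22 (.b 6 16 (.l 32) (.b 1 23 (.l 33) (.b 2 24 (.b 0 20 (.l
    34) (.b 5 11 (.b 4 26 (.b 5 10 (.b 2 22 (.l 36) (.l 37)) (.b 2 22 (.b 2 21 (.b 4 24 (.b 4 23
    (.l 41) (.l 39)) (.l 38)) (.l 37)) (.l 36))) (.b 5 10 (.b 2 22 (.b 2 21 (.l 38) (.l 37)) (.l
    36)) (.l 36))) (.l 35))) (.b 0 20 (.b 5 11 (.b 0 19 (.l 35) (.b 4 26 (.b 5 10 (.l 37) (.l 36))
    (.l 36))) (.b 0 19 (.l 36) (.l 35))) (.l 34))))) (.b 6 16 (.b 1 23 (.l 33) (.b 2 24 (.b 5 11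
    (.b 6 12 (.b 4 26 (.b 5 10 (.l 36) (.b 2 22 (.l 36) (.b 6 11 (.b 4 24 (.b 4 23 (.b 0 31 (.l 41)
    (.b 1 32 (.b 4 19 (.b 1 30 (.b 4 18 (.b 1 29 (.b 3 15 (.l 45) (.b 1 25 (.b 1 24 (.b 0 40 (.l
    50) (.b 2 23 (.l 57) (.l 53))) (.b 0 40 (.b 0 38 (.l 52) (.b 2 23 (.l 57) (.l 53))) (.l 50)))
    (.l 49))) (.b 3 15 (.l 49) (.l 45))) (.l 44)) (.l 44)) (.l 43)) (.l 42))) (.l 39)) (.l 38)) (.l
    37)))) (.b 5 10 (.b 2 22 (.l 36) (.b 6 11 (.l 38) (.l 37))) (.b 2 22 (.b 2 21 (.b 6 11 (.l 37)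
    (.l 38)) (.b 6 11 (.l 38) (.l 37))) (.l 36)))) (.b 4 26 (.b 5 10 (.b 2 22 (.l 36) (.l 37)) (.b
    2 22 (.b 2 21 (.b 4 24 (.b 4 23 (.b 2 17 (.l 41) (.b 0 31 (.l 41) (.b 1 32 (.b 4 19 (.b 1 30
    (.b 4 18 (.b 1 29 (.b 3 15 (.l 45) (.b 1 25 (.b 1 24 (.b 0 40 (.l 50) (.b 6 14 (.b 6 13 (.b 2
    19 (.l 58) (.l 57)) (.l 53)) (.l 52))) (.b 0 40 (.b 0 38 (.b 6 14 (.l 52) (.b 0 37 (.b 0 33 (.b
    2 19 (.l 57) (.l 58)) (.b 2 19 (.l 58) (.l 57))) (.l 53))) (.b 6 14 (.b 6 13 (.b 2 19 (.l 58)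
    (.l 57)) (.l 53)) (.l 52))) (.l 50))) (.l 49))) (.b 3 15 (.l 49) (.l 45))) (.l 44)) (.l 44))
    (.l 43)) (.l 42)))) (.l 39)) (.l 38)) (.l 37)) (.l 36))) (.b 5 10 (.b 2 22 (.b 2 21 (.l 38) (.l
    37)) (.l 36)) (.l 36)))) (.l 35)) (.l 34))) (.l 32))) (.l 31)) (.l 31)) (.l 30)) (.l 30)) (.l
    29)) (.l 29)) (.l 28)))) (.l 26)) (.l 25)))) (.b 7 8 (.b 2 15 (.b 3 16 (.b 4 17 (.l 27) (.b 2
    13 (.l 27) (.b 7 4 (.b 3 14 (.l 28) (.b 5 18 (.l 28) (.b 6 19 (.b 7 3 (.l 30) (.l 29)) (.l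
    29)))) (.b 3 14 (.b 5 18 (.l 28) (.b 3 13 (.b 6 19 (.l 30) (.l 29)) (.l 29))) (.b 5 18 (.l 29)
    (.l 28)))))) (.l 26)) (.l 25)) (.l 24)))) (.l 23)) (.l 22)) (.l 21))))))))

theorem c_9_3 {b : ℕ → ℕ} (hb : ∀ j, 1 ≤ j → j ≤ 9 → 1 ≤ b j)
    (hId : Identity 9 3 b) :
    (List.range 9).map (bv 9 b) ∈ ([] : List (List ℕ)) :=
  final (N := 58) (mask := 576460752303157664)
    (t := t_9_3) (by norm_num) hb hId (by decide +kernel) (by decide +kernel)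
    (by decide +kernel)

def t_9_4 : Tree :=
    (.b 5 4 (.l 6) (.b 6 5 (.l 7) (.b 7 6 (.b 8 7 (.l 9) (.b 0 8 (.l 10) (.b 1 9 (.l 11) (.b 2 10
    (.l 12) (.b 7 2 (.l 12) (.b 3 11 (.b 4 12 (.l 15) (.l 14)) (.l 13))))))) (.l 8))))

theorem c_9_4 {b : ℕ → ℕ} (hb : ∀ j, 1 ≤ j → j ≤ 9 → 1 ≤ b j)
    (hId : Identity 9 4 b) :
    (List.range 9).map (bv 9 b) ∈ ([] : List (List ℕ)) :=
  final (N := 15) (mask := 65506)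
    (t := t_9_4) (by norm_num) hb hId (by decide +kernel) (by decide +kernel)
    (by decide +kernel)

end Pool.Agent.H372R3.GE
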