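import Pool.Agent.H372R3.GE2

set_option autoImplicit false
set_option maxRecDepth 1000000

namespace Pool.Agent.H372R3.GE

open Pool.Agent.MPe9218d Pool.Agent.H372R3.GD

def t_10_1 : Tree :=
    (.b 9 10 (.l 28) (.b 8 19 (.l 37) (.b 9 20 (.l 38) (.b 8 29 (.l 47) (.b 9 30 (.b 8 39 (.l 57)
    (.b 7 48 (.l 66) (.b 8 49 (.l 67) (.b 7 58 (.l 76) (.b 9 21 (.b 8 59 (.l 77) (.b 7 68 (.l 86)
    (.b 8 69 (.b 7 78 (.l 96) (.b 6 87 (.l 105) (.b 7 88 (.l 106) (.b 6 97 (.l 115) (.b 8 60 (.b 7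
    98 (.l 116) (.b 6 107 (.l 125) (.b 7 108 (.b 6 117 (.l 135) (.b 6 127 (.l 145) (.b 5 136 (.l
    154) (.b 7 99 (.l 155) (.b 6 137 (.l 155) (.l 156)))))) (.l 126)))) (.b 7 98 (.b 6 107 (.l 125)
    (.b 6 117 (.l 135) (.b 7 89 (.l 145) (.b 6 127 (.l 145) (.b 5 136 (.l 154) (.l 155)))))) (.l
    116))))))) (.l 87)))) (.b 8 59 (.b 7 68 (.l 86) (.b 7 78 (.l 96) (.b 6 87 (.l 105) (.b 7 88 (.l
    106) (.b 8 50 (.l 106) (.b 6 97 (.l 115) (.b 7 98 (.l 116) (.b 6 107 (.l 125) (.b 7 108 (.b 6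
    117 (.l 135) (.b 9 22 (.b 6 127 (.l 145) (.l 146)) (.l 136))) (.l 126)))))))))) (.l 77)))))))
    (.l 48))))))

theorem c_10_1 {b : ℕ → ℕ} (hb : ∀ j, 1 ≤ j → j ≤ 10 → 1 ≤ b j)
    (hId : Identity 10 1 b) :
    (List.range 10).map (bv 10 b) ∈ ([] : List (List ℕ)) :=
  final (N := 156) (mask := 138399732663676268953720876769735057458126651904)
    (t := t_10_1) (by norm_num) hb hId (by decide +kernel) (by decide +kernel)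
    (by decide +kernel)

def t_10_2 : Tree :=
    (.b 9 1 (.l 17) (.b 7 9 (.l 25) (.b 8 10 (.l 26) (.b 9 11 (.b 9 10 (.b 6 18 (.l 34) (.b 7 19
    (.l 35) (.b 8 20 (.b 9 2 (.l 36) (.b 8 19 (.b 5 27 (.l 43) (.b 6 28 (.l 44) (.b 7 29 (.b 8 11
    (.l 45) (.b 7 28 (.b 5 37 (.l 53) (.b 6 38 (.b 7 20 (.l 54) (.b 6 37 (.b 9 3 (.l 55) (.b 4 46
    (.l 62) (.b 6 29 (.l 63) (.b 5 47 (.l 63) (.b 8 12 (.l 64) (.b 3 55 (.l 71) (.b 4 56 (.l 72)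
    (.b 7 21 (.l 73) (.b 5 57 (.l 73) (.b 9 4 (.b 3 65 (.l 81) (.b 4 66 (.l 82) (.b 6 30 (.l 82)
    (.b 8 13 (.b 5 67 (.l 83) (.l 84)) (.b 5 67 (.b 5 66 (.b 2 74 (.l 90) (.b 3 75 (.l 91) (.b 4 76
    (.b 7 22 (.l 92) (.b 5 58 (.l 92) (.b 4 75 (.b 2 84 (.l 100) (.b 3 85 (.l 101) (.b 4 67 (.l
    101) (.b 6 31 (.l 101) (.l 103))))) (.l 93)))) (.b 7 22 (.b 5 58 (.l 92) (.l 93)) (.b 5 58 (.l
    93) (.l 92)))))) (.l 84)) (.l 83)))))) (.l 74))))))))))) (.b 9 3 (.b 4 46 (.l 62) (.b 5 47 (.l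
    63) (.b 8 12 (.l 64) (.b 3 55 (.l 71) (.b 4 56 (.l 72) (.b 7 21 (.l 73) (.b 5 57 (.l 73) (.b 3
    65 (.l 81) (.b 4 66 (.l 82) (.b 8 13 (.b 5 67 (.l 84) (.l 83)) (.l 83))))))))))) (.l 55)))) (.b
    7 20 (.b 9 3 (.b 4 46 (.l 62) (.b 5 47 (.l 63) (.b 6 48 (.b 8 12 (.l 64) (.b 6 47 (.b 3 55 (.l
    71) (.b 4 56 (.l 72) (.b 5 57 (.l 73) (.b 6 39 (.l 73) (.b 3 65 (.l 81) (.b 4 66 (.l 82) (.b 8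
    13 (.b 5 67 (.l 84) (.l 83)) (.l 83)))))))) (.l 65))) (.b 8 12 (.l 65) (.l 64))))) (.l 55)) (.l
    54)))) (.l 46))) (.b 8 11 (.l 46) (.l 45))))) (.l 37))) (.b 9 2 (.l 37) (.l 36))))) (.l 28))
    (.l 27)))))

theorem c_10_2 {b : ℕ → ℕ} (hb : ∀ j, 1 ≤ j → j ≤ 10 → 1 ≤ b j)
    (hId : Identity 10 2 b) :
    (List.range 10).map (bv 10 b) ∈ ([] : List (List ℕ)) :=
  final (N := 103) (mask := 19011041548255897319567384249088)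
    (t := t_10_2) (by norm_num) hb hId (by decide +kernel) (by decide +kernel)
    (by decide +kernel)

def t_10_3 : Tree :=
    (.b 8 2 (.l 14) (.b 9 3 (.l 15) (.b 4 8 (.l 20) (.b 5 9 (.l 21) (.b 6 10 (.l 22) (.b 7 11 (.l
    23) (.b 8 12 (.b 9 13 (.b 8 10 (.b 9 11 (.b 8 9 (.l 27) (.b 9 10 (.b 2 16 (.l 28) (.b 3 17 (.l
    29) (.b 4 18 (.l 30) (.b 5 19 (.l 31) (.b 6 20 (.b 7 21 (.b 9 5 (.b 6 18 (.b 9 4 (.b 7 19 (.b 6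
    17 (.b 7 18 (.b 0 24 (.l 36) (.b 1 25 (.l 37) (.b 2 26 (.l 38) (.b 3 27 (.b 6 12 (.b 4 28 (.l
    40) (.b 5 29 (.b 3 25 (.b 7 13 (.l 41) (.b 6 11 (.l 41) (.l 42))) (.b 7 13 (.b 6 11 (.l 41) (.l
    42)) (.b 6 11 (.l 42) (.l 41)))) (.b 3 25 (.b 7 13 (.b 6 11 (.l 41) (.b 3 24 (.b 7 12 (.l 43)
    (.l 42)) (.l 42))) (.b 6 11 (.l 42) (.l 41))) (.b 7 13 (.b 6 11 (.l 42) (.l 41)) (.l 41)))))
    (.b 4 28 (.b 3 25 (.b 5 29 (.b 7 13 (.l 41) (.b 4 26 (.b 3 24 (.b 5 27 (.b 4 25 (.b 5 26 (.b 0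
    34 (.l 46) (.b 3 19 (.l 47) (.b 1 35 (.l 47) (.b 2 36 (.b 4 20 (.b 5 21 (.b 4 19 (.b 5 20 (.b 2
    34 (.b 2 33 (.b 0 44 (.b 2 28 (.l 56) (.b 1 45 (.b 6 14 (.b 0 42 (.l 58) (.b 7 15 (.b 6 13 (.b
    1 43 (.b 1 42 (.b 7 14 (.l 60) (.b 3 21 (.b 1 37 (.l 65) (.l 66)) (.b 1 37 (.l 66) (.l 65))))
    (.b 7 14 (.b 3 21 (.l 66) (.l 65)) (.l 60))) (.l 59)) (.l 59)) (.l 59))) (.b 0 42 (.b 7 15 (.b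
    0 41 (.b 1 43 (.b 1 42 (.b 7 14 (.l 60) (.b 0 36 (.l 64) (.b 3 21 (.b 1 37 (.l 65) (.l 66)) (.b
    1 37 (.l 66) (.l 65))))) (.b 7 14 (.b 0 36 (.l 64) (.b 3 21 (.l 66) (.l 65))) (.l 60))) (.l
    59)) (.l 59)) (.l 59)) (.l 58))) (.l 57))) (.b 2 28 (.b 1 45 (.b 2 27 (.l 57) (.b 6 14 (.b 7 15
    (.b 6 13 (.b 1 43 (.b 1 42 (.b 7 14 (.l 60) (.b 3 21 (.b 1 37 (.l 65) (.b 0 54 (.l 66) (.b 3 20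
    (.l 66) (.l 67)))) (.b 1 37 (.b 0 54 (.l 66) (.b 1 36 (.l 66) (.l 67))) (.l 65)))) (.b 7 14 (.b
    3 21 (.b 0 54 (.l 66) (.b 3 20 (.l 66) (.l 67))) (.l 65)) (.l 60))) (.l 59)) (.l 59)) (.l 59))
    (.l 58))) (.b 2 27 (.b 6 14 (.l 59) (.l 58)) (.l 57))) (.l 56))) (.l 51)) (.l 50)) (.l 50)) (.l
    49)) (.l 49)) (.l 48)) (.l 48))))) (.l 44)) (.l 43)) (.l 43)) (.l 42)) (.l 42))) (.b 7 13 (.b 4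
    26 (.b 3 24 (.b 7 12 (.l 42) (.l 43)) (.b 7 12 (.l 43) (.l 42))) (.b 3 24 (.b 7 12 (.l 43) (.l
    42)) (.l 42))) (.l 41))) (.b 5 29 (.b 7 13 (.b 4 26 (.b 7 12 (.b 5 27 (.b 4 25 (.b 5 26 (.b 0
    34 (.l 46) (.b 1 35 (.l 47) (.b 2 36 (.b 4 20 (.b 5 21 (.b 4 19 (.b 5 20 (.b 2 34 (.b 2 33 (.b
    0 44 (.b 2 28 (.l 56) (.b 1 45 (.b 6 14 (.b 0 42 (.l 58) (.b 6 13 (.b 1 43 (.b 3 26 (.b 1 42
    (.l 60) (.l 65)) (.b 1 42 (.b 1 37 (.l 66) (.l 65)) (.l 60))) (.l 59)) (.l 59))) (.b 0 42 (.b 0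
    41 (.b 1 43 (.b 3 26 (.b 1 42 (.l 60) (.b 0 36 (.l 64) (.l 65))) (.b 1 42 (.b 0 36 (.l 64) (.b
    1 37 (.l 66) (.l 65))) (.l 60))) (.l 59)) (.l 59)) (.l 58))) (.l 57))) (.b 2 28 (.b 1 45 (.b 2
    27 (.l 57) (.b 6 14 (.b 6 13 (.b 1 43 (.b 3 26 (.b 1 42 (.l 60) (.l 65)) (.b 1 42 (.b 1 37 (.b
    0 54 (.l 66) (.b 1 36 (.l 66) (.l 68))) (.l 65)) (.l 60))) (.l 59)) (.l 59)) (.l 58))) (.b 2 27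
    (.b 6 14 (.l 59) (.l 58)) (.l 57))) (.l 56))) (.l 51)) (.l 50)) (.l 50)) (.l 49)) (.l 49)) (.l
    48)) (.l 48)))) (.l 44)) (.l 43)) (.l 43)) (.l 42)) (.l 42)) (.l 41)) (.l 41))) (.l 40))) (.l
    39))))) (.b 0 24 (.b 1 25 (.l 37) (.b 2 26 (.l 38) (.b 0 22 (.l 38) (.b 3 27 (.b 6 12 (.b 4 28
    (.l 40) (.b 3 25 (.b 5 29 (.b 6 11 (.l 41) (.l 42)) (.b 6 11 (.l 42) (.l 41))) (.b 5 29 (.b 6
    11 (.l 42) (.l 41)) (.l 41)))) (.b 4 28 (.b 3 25 (.b 5 29 (.b 4 26 (.b 3 24 (.b 5 27 (.b 4 25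
    (.b 5 26 (.l 46) (.l 44)) (.l 43)) (.l 43)) (.l 42)) (.l 42)) (.l 41)) (.l 41)) (.l 40))) (.l
    39))))) (.l 36))) (.l 35)) (.l 35)) (.l 34)) (.l 34)) (.l 33)) (.l 33)) (.l 32)))))) (.b 2 16
    (.b 3 17 (.l 29) (.b 2 14 (.l 30) (.b 4 18 (.l 30) (.b 5 19 (.l 31) (.b 6 20 (.l 33) (.l
    32)))))) (.l 28)))) (.b 8 9 (.b 2 16 (.b 3 17 (.l 29) (.b 2 14 (.l 30) (.b 4 18 (.l 30) (.b 5
    19 (.l 31) (.b 8 4 (.b 6 20 (.l 32) (.b 7 21 (.b 8 3 (.l 34) (.l 33)) (.l 33))) (.b 6 20 (.l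
    33) (.l 32))))))) (.l 28)) (.l 27))) (.l 26)) (.l 25)) (.l 24))))))))

theorem c_10_3 {b : ℕ → ℕ} (hb : ∀ j, 1 ≤ j → j ≤ 10 → 1 ≤ b j)
    (hId : Identity 10 3 b) :
    (List.range 10).map (bv 10 b) ∈ ([] : List (List ℕ)) :=
  final (N := 68) (mask := 590295810358702490432)
    (t := t_10_3) (by norm_num) hb hId (by decide +kernel) (by decide +kernel)
    (by decide +kernel)

def t_10_4 : Tree :=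
    (.b 6 4 (.b 8 6 (.l 10) (.b 9 7 (.l 11) (.b 0 8 (.l 12) (.b 1 9 (.l 13) (.b 2 10 (.b 4 12 (.b 5
    13 (.b 2 6 (.b 7 15 (.b 2 4 (.b 8 16 (.l 20) (.b 4 8 (.l 20) (.b 2 3 (.b 5 9 (.l 21) (.b 9 17
    (.l 21) (.b 0 18 (.b 2 2 (.l 22) (.b 7 11 (.b 1 19 (.l 23) (.b 7 9 (.l 25) (.b 3 21 (.l 25) (.l
    26)))) (.b 1 19 (.b 3 21 (.l 26) (.l 25)) (.l 23)))) (.b 2 2 (.b 7 11 (.b 1 19 (.l 23) (.b 2 1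
    (.l 23) (.b 7 9 (.l 25) (.b 3 21 (.l 25) (.l 26))))) (.b 1 19 (.b 2 1 (.l 23) (.b 3 21 (.l 26)
    (.l 25))) (.b 2 1 (.b 3 21 (.l 26) (.l 25)) (.l 23)))) (.l 22))))) (.b 5 9 (.b 9 17 (.l 21) (.b
    0 18 (.b 7 11 (.l 23) (.b 1 19 (.l 23) (.b 5 7 (.l 23) (.b 3 21 (.l 26) (.l 25))))) (.l 22)))
    (.b 9 17 (.b 0 18 (.b 7 11 (.b 1 19 (.l 23) (.b 7 9 (.l 25) (.b 9 13 (.l 25) (.b 3 21 (.l 25)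
    (.l 26))))) (.b 1 19 (.b 9 13 (.b 3 21 (.l 25) (.l 26)) (.b 3 21 (.l 26) (.l 25))) (.l 23)))
    (.l 22)) (.l 21)))))) (.b 8 16 (.b 4 8 (.l 20) (.b 5 9 (.b 9 17 (.l 21) (.b 0 18 (.b 7 11 (.l
    23) (.b 1 19 (.l 23) (.b 5 7 (.l 23) (.b 8 12 (.l 24) (.b 3 21 (.l 26) (.l 25)))))) (.l 22)))
    (.b 9 17 (.b 0 18 (.b 7 11 (.b 1 19 (.l 23) (.b 8 12 (.l 24) (.b 7 9 (.l 25) (.b 9 13 (.l 25)
    (.b 3 21 (.l 25) (.l 26)))))) (.b 1 19 (.b 8 12 (.l 24) (.b 9 13 (.b 3 21 (.l 25) (.l 26)) (.b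
    3 21 (.l 26) (.l 25)))) (.l 23))) (.l 22)) (.l 21)))) (.b 4 8 (.b 5 9 (.b 9 17 (.l 21) (.b 4 6
    (.l 22) (.b 0 18 (.l 22) (.b 7 11 (.l 23) (.b 1 19 (.l 23) (.b 5 7 (.l 23) (.b 3 21 (.l 26) (.l
    25)))))))) (.b 9 17 (.b 4 6 (.l 22) (.b 0 18 (.l 22) (.b 7 11 (.b 1 19 (.l 23) (.b 7 9 (.l 25)
    (.b 9 13 (.l 25) (.b 3 21 (.l 25) (.l 26))))) (.b 1 19 (.b 9 13 (.b 3 21 (.l 25) (.l 26)) (.b 3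
    21 (.l 26) (.l 25))) (.l 23))))) (.l 21))) (.l 20)))) (.l 19)) (.l 18)) (.l 17)) (.l 16)) (.l
    14)))))) (.l 8))

theorem c_10_4 {b : ℕ → ℕ} (hb : ∀ j, 1 ≤ j → j ≤ 10 → 1 ≤ b j)
    (hId : Identity 10 4 b) :
    (List.range 10).map (bv 10 b) ∈ ([] : List (List ℕ)) :=
  final (N := 26) (mask := 134209348)
    (t := t_10_4) (by norm_num) hb hId (by decide +kernel) (by decide +kernel)
    (by decide +kernel)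

end Pool.Agent.H372R3.GE
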