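import Pool.Agent.H372R3.GE2

set_option autoImplicit false
set_option maxRecDepth 1000000

namespace Pool.Agent.H372R3.GE

open Pool.Agent.MPe9218d Pool.Agent.H372R3.GD

def t_11_1 : Tree :=
    (.b 10 11 (.l 31) (.b 9 21 (.l 41) (.b 10 22 (.l 42) (.b 9 32 (.l 52) (.b 10 33 (.b 9 43 (.l
    63) (.b 8 53 (.l 73) (.b 9 54 (.l 74) (.b 8 64 (.l 84) (.b 10 23 (.b 9 65 (.l 85) (.b 8 75 (.l
    95) (.b 9 76 (.b 8 86 (.l 106) (.b 7 96 (.l 116) (.b 8 97 (.l 117) (.b 7 107 (.l 127) (.b 9 66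
    (.b 8 108 (.l 128) (.b 7 118 (.l 138) (.b 8 119 (.b 7 129 (.l 149) (.b 7 140 (.l 160) (.b 6 150
    (.l 170) (.b 8 109 (.l 171) (.b 7 151 (.l 171) (.l 172)))))) (.l 139)))) (.b 8 108 (.b 7 118
    (.l 138) (.b 7 129 (.l 149) (.b 8 98 (.l 160) (.b 7 140 (.l 160) (.b 6 150 (.l 170) (.l
    171)))))) (.l 128))))))) (.l 96)))) (.b 9 65 (.b 8 75 (.l 95) (.b 8 86 (.l 106) (.b 7 96 (.l
    116) (.b 9 55 (.l 117) (.b 8 97 (.l 117) (.b 7 107 (.l 127) (.b 8 108 (.l 128) (.b 7 118 (.l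
    138) (.b 8 119 (.b 7 129 (.l 149) (.b 10 24 (.b 7 140 (.l 160) (.l 161)) (.l 150))) (.l
    139)))))))))) (.l 85))))))) (.l 53))))))

theorem c_11_1 {b : ℕ → ℕ} (hb : ∀ j, 1 ≤ j → j ≤ 11 → 1 ≤ b j)
    (hId : Identity 11 1 b) :
    (List.range 11).map (bv 11 b) ∈ ([] : List (List ℕ)) :=
  final (N := 172) (mask := 9024794029692297150141004931865044164492394615538688)
    (t := t_11_1) (by norm_num) hb hId (by decide +kernel) (by decide +kernel)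
    (by decide +kernel)

def t_11_2 : Tree :=
    (.b 10 1 (.l 19) (.b 8 10 (.l 28) (.b 9 11 (.l 29) (.b 10 12 (.b 10 11 (.b 7 20 (.l 38) (.b 8
    21 (.l 39) (.b 9 22 (.b 10 2 (.l 40) (.b 9 21 (.b 6 30 (.l 48) (.b 7 31 (.l 49) (.b 8 32 (.b 9
    12 (.l 50) (.b 8 31 (.b 6 41 (.l 59) (.b 8 22 (.b 7 42 (.l 60) (.b 10 3 (.b 5 51 (.l 69) (.b 6
    52 (.l 70) (.b 9 13 (.b 7 53 (.l 71) (.l 72)) (.b 7 53 (.b 7 52 (.b 4 61 (.l 79) (.b 5 62 (.l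
    80) (.b 7 43 (.l 81) (.b 6 63 (.l 81) (.b 4 72 (.l 90) (.b 5 73 (.l 91) (.b 6 74 (.b 9 14 (.l
    93) (.l 92)) (.l 92)))))))) (.l 72)) (.l 71))))) (.l 61))) (.b 7 42 (.b 7 41 (.b 10 3 (.l 61)
    (.b 5 51 (.l 69) (.b 7 32 (.l 70) (.b 6 52 (.l 70) (.b 9 13 (.l 71) (.b 4 61 (.l 79) (.b 5 62
    (.l 80) (.b 6 63 (.l 81) (.b 8 23 (.l 81) (.b 10 4 (.b 4 72 (.l 90) (.b 7 33 (.l 91) (.b 5 73
    (.l 91) (.b 6 74 (.b 9 14 (.l 92) (.b 6 73 (.b 3 82 (.l 100) (.b 4 83 (.l 101) (.b 8 24 (.b 6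
    64 (.l 102) (.b 5 84 (.l 102) (.l 103))) (.b 6 64 (.b 5 84 (.l 102) (.l 103)) (.b 5 84 (.b 5 83
    (.b 3 93 (.l 111) (.b 4 94 (.l 112) (.b 7 34 (.l 112) (.b 5 74 (.l 112) (.l 114))))) (.l 103))
    (.l 102)))))) (.l 93))) (.b 9 14 (.l 93) (.l 92)))))) (.l 82))))))))))) (.b 10 3 (.b 5 51 (.l
    69) (.b 6 52 (.l 70) (.b 9 13 (.l 71) (.b 4 61 (.l 79) (.b 5 62 (.l 80) (.b 6 63 (.l 81) (.b 8
    23 (.l 81) (.b 4 72 (.l 90) (.b 5 73 (.l 91) (.b 6 74 (.b 9 14 (.l 93) (.l 92)) (.l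
    92))))))))))) (.l 61))) (.l 60)))) (.l 51))) (.b 9 12 (.l 51) (.l 50))))) (.l 41))) (.b 10 2
    (.l 41) (.l 40))))) (.l 31)) (.l 30)))))

theorem c_11_2 {b : ℕ → ℕ} (hb : ∀ j, 1 ≤ j → j ≤ 11 → 1 ≤ b j)
    (hId : Identity 11 2 b) :
    (List.range 11).map (bv 11 b) ∈ ([] : List (List ℕ)) :=
  final (N := 114) (mask := 37639713278613788920101969568728576)
    (t := t_11_2) (by norm_num) hb hId (by decide +kernel) (by decide +kernel)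
    (by decide +kernel)

def t_11_3 : Tree :=
    (.b 9 2 (.l 16) (.b 10 3 (.l 17) (.b 5 9 (.l 23) (.b 6 10 (.l 24) (.b 7 11 (.l 25) (.b 8 12 (.l
    26) (.b 9 13 (.b 10 14 (.b 9 11 (.b 9 10 (.b 10 12 (.l 30) (.l 31)) (.b 10 12 (.b 10 11 (.b 3
    18 (.l 32) (.b 4 19 (.l 33) (.b 5 20 (.l 34) (.b 6 21 (.l 35) (.b 7 22 (.b 10 5 (.b 8 23 (.b 10
    4 (.b 7 20 (.b 8 21 (.b 7 19 (.b 8 20 (.b 1 27 (.l 41) (.b 2 28 (.l 42) (.b 3 29 (.l 43) (.b 4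
    30 (.l 44) (.b 5 31 (.b 7 13 (.l 45) (.b 8 14 (.b 6 32 (.b 8 13 (.b 5 29 (.b 6 30 (.b 5 28 (.b
    6 29 (.b 0 37 (.l 51) (.b 1 38 (.l 52) (.b 2 39 (.l 53) (.b 3 40 (.b 5 22 (.b 6 23 (.b 5 21 (.b
    4 41 (.l 55) (.b 3 38 (.b 6 22 (.l 57) (.l 56)) (.l 56))) (.b 4 41 (.b 3 38 (.b 6 22 (.b 4 39
    (.b 3 37 (.b 4 38 (.b 0 48 (.l 62) (.b 3 31 (.b 1 49 (.l 63) (.b 4 32 (.b 3 30 (.b 2 50 (.l 64)
    (.b 7 15 (.b 4 31 (.l 66) (.l 65)) (.l 65))) (.b 2 50 (.b 7 15 (.b 4 31 (.b 2 48 (.b 7 14 (.b 2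
    47 (.b 0 59 (.b 2 41 (.l 73) (.b 1 60 (.l 74) (.b 0 57 (.l 75) (.l 76)))) (.b 2 41 (.b 1 60 (.l
    74) (.b 2 40 (.l 74) (.l 76))) (.l 73))) (.l 67)) (.l 66)) (.l 66)) (.l 65)) (.l 65)) (.l 64)))
    (.b 3 30 (.b 2 50 (.l 65) (.l 64)) (.l 64)))) (.b 1 49 (.b 4 32 (.b 2 50 (.b 7 15 (.b 1 47 (.b
    4 31 (.l 65) (.b 2 48 (.b 1 46 (.b 7 14 (.l 66) (.b 2 47 (.b 1 40 (.l 72) (.b 0 59 (.b 2 41 (.l
    73) (.l 74)) (.b 2 41 (.l 74) (.l 73)))) (.l 67))) (.b 7 14 (.b 2 47 (.b 0 59 (.b 2 41 (.l 73)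
    (.l 74)) (.b 2 41 (.l 74) (.l 73))) (.l 67)) (.l 66))) (.b 1 46 (.b 7 14 (.l 67) (.l 66)) (.l
    66)))) (.b 4 31 (.b 2 48 (.b 7 14 (.b 2 47 (.b 0 59 (.b 2 41 (.l 73) (.l 74)) (.b 2 41 (.l 74)
    (.l 73))) (.l 67)) (.l 66)) (.l 66)) (.l 65))) (.b 1 47 (.b 4 31 (.b 2 48 (.b 1 46 (.b 2 47 (.b
    1 40 (.l 72) (.b 0 59 (.b 2 41 (.l 73) (.l 74)) (.b 2 41 (.l 74) (.l 73)))) (.l 67)) (.l 66))
    (.l 66)) (.l 65)) (.l 65))) (.l 64)) (.l 64)) (.l 63)))) (.l 58)) (.l 57)) (.l 57)) (.l 56))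
    (.l 56)) (.l 55))) (.b 5 21 (.b 4 41 (.l 56) (.l 55)) (.l 55))) (.l 54)) (.l 54))))) (.l 49))
    (.l 48)) (.l 48)) (.l 47)) (.l 47)) (.l 46)) (.l 46))) (.b 7 13 (.b 8 14 (.b 7 12 (.b 6 32 (.l
    46) (.l 47)) (.b 6 32 (.l 47) (.l 46))) (.b 7 12 (.b 6 32 (.l 47) (.l 46)) (.l 46))) (.l
    45))))))) (.l 40)) (.l 39)) (.l 39)) (.l 38)) (.l 38)) (.l 37)) (.l 37)) (.l 36)))))) (.l 31))
    (.l 30))) (.l 29)) (.l 28)) (.l 27))))))))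

theorem c_11_3 {b : ℕ → ℕ} (hb : ∀ j, 1 ≤ j → j ≤ 11 → 1 ≤ b j)
    (hId : Identity 11 3 b) :
    (List.range 11).map (bv 11 b) ∈ ([] : List (List ℕ)) :=
  final (N := 76) (mask := 151115727451820027479680)
    (t := t_11_3) (by norm_num) hb hId (by decide +kernel) (by decide +kernel)
    (by decide +kernel)

def t_11_4 : Tree :=
    (.b 7 4 (.b 9 6 (.l 12) (.b 10 7 (.l 13) (.b 1 9 (.l 15) (.b 2 10 (.l 16) (.b 3 11 (.b 5 13 (.b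
    6 14 (.b 3 7 (.b 8 16 (.l 22) (.b 5 9 (.b 9 17 (.l 23) (.b 3 5 (.l 23) (.b 6 10 (.b 10 18 (.l
    24) (.b 0 19 (.l 25) (.b 5 7 (.l 25) (.b 6 8 (.l 26) (.b 1 20 (.l 26) (.b 2 21 (.l 27) (.l
    29))))))) (.b 10 18 (.b 0 19 (.l 25) (.b 5 7 (.l 25) (.b 1 20 (.l 26) (.b 2 21 (.b 10 14 (.l
    28) (.l 29)) (.l 27))))) (.l 24))))) (.b 9 17 (.b 3 5 (.l 23) (.b 6 10 (.b 10 18 (.l 24) (.b 0
    19 (.l 25) (.b 6 8 (.b 1 20 (.l 26) (.b 6 7 (.l 27) (.b 2 21 (.l 27) (.b 9 13 (.l 27) (.l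
    29))))) (.b 1 20 (.b 2 21 (.l 27) (.b 9 13 (.l 27) (.l 29))) (.l 26))))) (.b 10 18 (.b 0 19 (.l
    25) (.b 1 20 (.b 2 21 (.b 9 13 (.l 27) (.b 10 14 (.l 28) (.l 29))) (.b 9 13 (.b 10 14 (.l 28)
    (.b 9 11 (.b 4 23 (.b 9 10 (.b 1 16 (.l 30) (.l 31)) (.b 1 16 (.l 31) (.l 30))) (.l 29)) (.l
    29))) (.l 27))) (.l 26))) (.l 24)))) (.b 3 5 (.b 6 10 (.b 3 4 (.l 24) (.b 10 18 (.l 24) (.b 0
    19 (.l 25) (.b 6 8 (.b 1 20 (.l 26) (.b 6 7 (.l 27) (.b 2 21 (.l 27) (.l 29)))) (.b 1 20 (.b 2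
    21 (.l 27) (.l 29)) (.l 26)))))) (.b 3 4 (.b 10 18 (.l 24) (.b 0 19 (.l 25) (.b 3 2 (.b 1 20
    (.l 26) (.b 3 1 (.b 2 21 (.l 27) (.l 29)) (.b 2 21 (.l 29) (.l 27)))) (.b 1 20 (.b 2 21 (.l 29)
    (.l 27)) (.l 26))))) (.b 10 18 (.b 0 19 (.l 25) (.b 1 20 (.b 2 21 (.b 10 14 (.l 28) (.l 29))
    (.l 27)) (.l 26))) (.l 24)))) (.l 23))))) (.l 21)) (.l 20)) (.l 19)) (.l 17)))))) (.l 10))

theorem c_11_4 {b : ℕ → ℕ} (hb : ∀ j, 1 ≤ j → j ≤ 11 → 1 ≤ b j)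
    (hId : Identity 11 4 b) :
    (List.range 11).map (bv 11 b) ∈ ([] : List (List ℕ)) :=
  final (N := 31) (mask := 4294932104)
    (t := t_11_4) (by norm_num) hb hId (by decide +kernel) (by decide +kernel)
    (by decide +kernel)

end Pool.Agent.H372R3.GE
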