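import Pool.Agent.H372R3.GE2

set_option autoImplicit false
set_option maxRecDepth 1000000

namespace Pool.Agent.H372R3.GE

open Pool.Agent.MPe9218d Pool.Agent.H372R3.GD

def t_1_1 : Tree :=
    (.b 0 1 .s (.l 3))

theorem c_1_1 {b : ℕ → ℕ} (hb : ∀ j, 1 ≤ j → j ≤ 1 → 1 ≤ b j)
    (hId : Identity 1 1 b) :
    (List.range 1).map (bv 1 b) ∈ ([[1]] : List (List ℕ)) :=
  final (N := 3) (mask := 14)
    (t := t_1_1) (by norm_num) hb hId (by decide +kernel) (by decide +kernel)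
    (by decide +kernel)

def t_2_1 : Tree :=
    (.b 1 2 (.l 4) (.b 0 3 (.l 5) (.b 1 4 (.l 6) (.b 0 5 (.l 7) (.b 1 6 (.b 0 7 (.b 1 5 (.l 13) (.b
    0 6 (.l 14) .s)) (.l 9)) (.l 8))))))

theorem c_2_1 {b : ℕ → ℕ} (hb : ∀ j, 1 ≤ j → j ≤ 2 → 1 ≤ b j)
    (hId : Identity 2 1 b) :
    (List.range 2).map (bv 2 b) ∈ ([[7, 6]] : List (List ℕ)) :=
  final (N := 14) (mask := 32762)
    (t := t_2_1) (by norm_num) hb hId (by decide +kernel) (by decide +kernel)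
    (by decide +kernel)

def t_2_2 : Tree :=
    (.b 0 1 (.b 1 2 (.b 1 1 .s (.l 5)) (.l 4)) (.l 3))

theorem c_2_2 {b : ℕ → ℕ} (hb : ∀ j, 1 ≤ j → j ≤ 2 → 1 ≤ b j)
    (hId : Identity 2 2 b) :
    (List.range 2).map (bv 2 b) ∈ ([[1, 1]] : List (List ℕ)) :=
  final (N := 5) (mask := 62)
    (t := t_2_2) (by norm_num) hb hId (by decide +kernel) (by decide +kernel)
    (by decide +kernel)

def t_3_1 : Tree :=
    (.b 2 3 (.l 7) (.b 1 5 (.l 9) (.b 2 6 (.l 10) (.b 1 8 (.l 12) (.b 2 9 (.b 1 11 (.l 15) (.b 0 13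
    (.l 17) (.b 1 14 (.l 18) (.b 0 16 (.l 20) (.b 1 17 (.b 2 7 (.l 21) (.b 0 19 (.l 23) (.b 0 22
    (.b 1 15 (.l 29) (.l 32)) (.l 26)))) (.b 2 7 (.b 0 19 (.l 23) (.b 1 20 (.b 0 22 (.b 1 18 (.l
    32) (.b 0 20 (.l 34) (.l 37))) (.l 26)) (.l 24))) (.l 21))))))) (.l 13))))))

theorem c_3_1 {b : ℕ → ℕ} (hb : ∀ j, 1 ≤ j → j ≤ 3 → 1 ≤ b j)
    (hId : Identity 3 1 b) :
    (List.range 3).map (bv 3 b) ∈ ([] : List (List ℕ)) :=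
  final (N := 37) (mask := 274877902244)
    (t := t_3_1) (by norm_num) hb hId (by decide +kernel) (by decide +kernel)
    (by decide +kernel)

def t_3_2 : Tree :=
    (.b 2 1 (.l 3) (.b 0 2 (.l 4) (.b 1 3 (.b 2 4 (.b 1 2 (.l 6) (.b 2 3 (.b 0 5 (.b 0 4 (.b 2 2
    (.l 8) (.b 0 3 (.l 9) .s)) (.b 2 2 .s (.l 8))) (.l 7)) (.l 7))) (.b 1 2 (.b 1 1 (.b 0 5 (.b 0 4
    (.b 0 3 (.b 2 7 (.l 9) (.l 10)) (.b 2 7 (.b 2 6 (.b 2 5 (.l 14) (.l 11)) (.l 10)) (.l 9))) (.l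
    8)) (.l 7)) (.l 7)) (.l 6))) (.l 5))))

theorem c_3_2 {b : ℕ → ℕ} (hb : ∀ j, 1 ≤ j → j ≤ 3 → 1 ≤ b j)
    (hId : Identity 3 2 b) :
    (List.range 3).map (bv 3 b) ∈ ([[4, 3, 3], [5, 3, 2]] : List (List ℕ)) :=
  final (N := 14) (mask := 32766)
    (t := t_3_2) (by norm_num) hb hId (by decide +kernel) (by decide +kernel)
    (by decide +kernel)

def t_4_1 : Tree :=
    (.b 3 4 (.l 10) (.b 2 7 (.l 13) (.b 3 8 (.l 14) (.b 2 11 (.l 17) (.b 3 12 (.b 2 15 (.l 21) (.b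
    1 18 (.l 24) (.b 2 19 (.l 25) (.b 1 22 (.l 28) (.b 3 9 (.b 2 23 (.l 29) (.b 1 26 (.l 32) (.b 2
    27 (.b 1 30 (.l 36) (.b 0 33 (.l 39) (.b 1 34 (.l 40) (.b 0 37 (.l 43) (.b 1 38 (.b 2 24 (.l
    44) (.b 0 41 (.l 47) (.b 0 45 (.l 51) (.b 0 49 (.b 1 35 (.l 55) (.l 59)) (.b 1 35 (.b 0 53 (.l
    59) (.l 60)) (.l 55)))))) (.b 2 24 (.b 0 41 (.l 47) (.b 1 42 (.b 0 45 (.l 51) (.b 0 49 (.b 1 39
    (.l 59) (.l 60)) (.l 55))) (.l 48))) (.l 44))))))) (.l 33)))) (.b 2 23 (.b 1 26 (.l 32) (.b 1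
    30 (.l 36) (.b 0 33 (.l 39) (.b 2 20 (.l 40) (.b 1 34 (.l 40) (.b 0 37 (.l 43) (.b 1 38 (.l 44)
    (.b 0 41 (.l 47) (.b 1 42 (.b 0 45 (.l 51) (.b 3 10 (.b 0 49 (.l 56) (.l 55)) (.l 52))) (.l
    48)))))))))) (.l 29))))))) (.l 18))))))

theorem c_4_1 {b : ℕ → ℕ} (hb : ∀ j, 1 ≤ j → j ≤ 4 → 1 ≤ b j)
    (hId : Identity 4 1 b) :
    (List.range 4).map (bv 4 b) ∈ ([] : List (List ℕ)) :=
  final (N := 60) (mask := 2305843004632255624)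
    (t := t_4_1) (by norm_num) hb hId (by decide +kernel) (by decide +kernel)
    (by decide +kernel)

def t_4_2 : Tree :=
    (.b 3 1 (.l 5) (.b 1 3 (.l 7) (.b 2 4 (.l 8) (.b 3 5 (.b 0 6 (.b 3 4 (.l 10) (.b 0 5 (.b 1 7
    (.l 11) (.b 2 8 (.b 2 7 (.b 0 3 (.l 13) (.l 14)) (.b 0 3 (.l 14) (.l 13))) (.l 12))) (.b 1 7
    (.b 1 6 (.b 2 8 (.l 12) (.l 13)) (.b 2 8 (.b 2 7 (.l 14) (.l 13)) (.l 12))) (.l 11)))) (.b 3 4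
    (.b 1 7 (.b 1 6 (.b 3 2 (.l 12) (.b 2 8 (.l 12) (.l 13))) (.b 3 2 (.b 2 8 (.l 12) (.l 13)) (.b
    2 8 (.b 2 7 (.b 0 10 (.l 14) (.b 2 5 (.b 0 14 (.b 3 3 (.b 0 13 (.l 19) (.l 21)) (.b 0 13 (.b 0
    11 (.l 25) (.l 21)) (.l 19))) (.l 18)) (.l 15))) (.l 13)) (.l 12)))) (.l 11)) (.l 10))) (.l
    9)))))

theorem c_4_2 {b : ℕ → ℕ} (hb : ∀ j, 1 ≤ j → j ≤ 4 → 1 ≤ b j)
    (hId : Identity 4 2 b) :
    (List.range 4).map (bv 4 b) ∈ ([] : List (List ℕ)) :=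
  final (N := 25) (mask := 67108844)
    (t := t_4_2) (by norm_num) hb hId (by decide +kernel) (by decide +kernel)
    (by decide +kernel)

end Pool.Agent.H372R3.GE
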