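import Pool.Agent.H372R3.GE2

set_option autoImplicit false
set_option maxRecDepth 1000000

namespace Pool.Agent.H372R3.GE

open Pool.Agent.MPe9218d Pool.Agent.H372R3.GD

def t_5_1 : Tree :=
    (.b 4 5 (.l 13) (.b 3 9 (.l 17) (.b 4 10 (.l 18) (.b 3 14 (.l 22) (.b 4 15 (.b 3 19 (.l 27) (.b
    2 23 (.l 31) (.b 3 24 (.l 32) (.b 2 28 (.l 36) (.b 3 29 (.b 4 11 (.l 37) (.b 2 33 (.l 41) (.b 2
    38 (.l 46) (.b 1 42 (.l 50) (.b 2 43 (.l 51) (.b 3 25 (.l 51) (.b 1 47 (.l 55) (.b 2 48 (.l 56)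
    (.b 1 52 (.l 60) (.b 2 53 (.b 1 57 (.l 65) (.b 4 12 (.b 1 62 (.l 70) (.l 71)) (.l 66))) (.l
    61))))))))))) (.b 4 11 (.b 2 33 (.l 41) (.b 3 34 (.b 2 38 (.l 46) (.b 1 42 (.l 50) (.b 2 43 (.l
    51) (.b 1 47 (.l 55) (.b 2 48 (.b 3 30 (.l 56) (.b 1 52 (.l 60) (.b 1 57 (.l 65) (.b 1 62 (.l
    70) (.b 2 44 (.l 70) (.b 0 66 (.l 74) (.l 75))))))) (.b 3 30 (.b 1 52 (.l 60) (.b 2 53 (.b 1 57
    (.l 65) (.b 1 62 (.l 70) (.b 0 66 (.l 74) (.b 2 49 (.l 75) (.b 1 67 (.l 75) (.l 76)))))) (.l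
    61))) (.l 56))))))) (.l 42))) (.l 37))))))) (.l 23))))))

theorem c_5_1 {b : ℕ → ℕ} (hb : ∀ j, 1 ≤ j → j ≤ 5 → 1 ≤ b j)
    (hId : Identity 5 1 b) :
    (List.range 5).map (bv 5 b) ∈ ([] : List (List ℕ)) :=
  final (N := 76) (mask := 151077643848890379428368)
    (t := t_5_1) (by norm_num) hb hId (by decide +kernel) (by decide +kernel)
    (by decide +kernel)

def t_5_2 : Tree :=
    (.b 4 1 (.l 7) (.b 2 4 (.l 10) (.b 3 5 (.l 11) (.b 4 6 (.b 4 5 (.b 1 8 (.l 14) (.b 2 9 (.l 15)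
    (.b 3 10 (.b 4 2 (.l 16) (.b 3 9 (.b 0 12 (.l 18) (.b 1 13 (.l 19) (.b 2 14 (.b 3 6 (.l 20) (.b
    2 13 (.b 0 17 (.l 23) (.b 2 10 (.b 1 18 (.b 1 17 (.b 4 3 (.l 25) (.b 0 22 (.b 1 14 (.l 28) (.b
    3 7 (.b 0 21 (.l 29) (.l 33)) (.b 0 21 (.b 0 18 (.l 32) (.l 33)) (.l 29)))) (.b 1 14 (.b 3 7
    (.b 0 27 (.l 33) (.b 4 4 (.b 0 32 (.l 38) (.l 39)) (.l 34))) (.l 29)) (.l 28)))) (.b 4 3 (.b 0
    22 (.b 3 7 (.b 0 21 (.l 29) (.l 33)) (.b 0 21 (.b 0 18 (.l 32) (.l 33)) (.l 29))) (.l 28)) (.l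
    25))) (.l 24)) (.l 24))) (.l 21))) (.b 3 6 (.l 21) (.l 20))))) (.l 17))) (.b 4 2 (.l 17) (.l
    16))))) (.l 13)) (.l 12)))))

theorem c_5_2 {b : ℕ → ℕ} (hb : ∀ j, 1 ≤ j → j ≤ 5 → 1 ≤ b j)
    (hId : Identity 5 2 b) :
    (List.range 5).map (bv 5 b) ∈ ([] : List (List ℕ)) :=
  final (N := 39) (mask := 1099511626648)
    (t := t_5_2) (by norm_num) hb hId (by decide +kernel) (by decide +kernel)
    (by decide +kernel)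

def t_5_3 : Tree :=
    (.b 3 2 (.b 4 3 (.l 5) (.b 0 4 (.l 6) (.b 1 5 (.b 2 6 (.b 1 3 (.b 2 4 (.b 1 2 (.l 10) (.b 4 8
    (.l 10) (.b 2 3 (.l 11) (.b 0 9 (.l 11) (.l 13))))) (.b 1 2 (.b 4 8 (.l 10) (.b 0 9 (.b 1 1 (.l
    11) (.l 13)) (.b 1 1 (.l 13) (.l 11)))) (.b 4 8 (.b 0 9 (.b 4 6 (.l 12) (.l 13)) (.l 11)) (.l
    10)))) (.l 9)) (.l 8)) (.l 7)))) (.l 4))

theorem c_5_3 {b : ℕ → ℕ} (hb : ∀ j, 1 ≤ j → j ≤ 5 → 1 ≤ b j)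
    (hId : Identity 5 3 b) :
    (List.range 5).map (bv 5 b) ∈ ([] : List (List ℕ)) :=
  final (N := 13) (mask := 16378)
    (t := t_5_3) (by norm_num) hb hId (by decide +kernel) (by decide +kernel)
    (by decide +kernel)

def t_6_1 : Tree :=
    (.b 5 6 (.l 16) (.b 4 11 (.l 21) (.b 5 12 (.l 22) (.b 4 17 (.l 27) (.b 5 18 (.b 4 23 (.l 33)
    (.b 3 28 (.l 38) (.b 4 29 (.l 39) (.b 3 34 (.l 44) (.b 4 35 (.b 5 13 (.l 45) (.b 3 40 (.l 50)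
    (.b 3 46 (.l 56) (.b 2 51 (.l 61) (.b 3 52 (.l 62) (.b 4 30 (.l 62) (.b 2 57 (.l 67) (.b 3 58
    (.l 68) (.b 2 63 (.l 73) (.b 3 64 (.b 2 69 (.l 79) (.b 5 14 (.b 2 75 (.l 85) (.l 86)) (.l 80)))
    (.l 74))))))))))) (.b 5 13 (.b 3 40 (.l 50) (.b 4 41 (.b 3 46 (.l 56) (.b 2 51 (.l 61) (.b 3 52
    (.l 62) (.b 2 57 (.l 67) (.b 3 58 (.b 4 36 (.l 68) (.b 2 63 (.l 73) (.b 2 69 (.l 79) (.b 3 53
    (.l 85) (.b 2 75 (.l 85) (.b 1 80 (.l 90) (.l 91))))))) (.b 4 36 (.b 2 63 (.l 73) (.b 3 64 (.b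
    2 69 (.l 79) (.b 2 75 (.l 85) (.b 1 80 (.l 90) (.b 3 59 (.l 91) (.b 2 81 (.l 91) (.l 92))))))
    (.l 74))) (.l 68))))))) (.l 51))) (.l 45))))))) (.l 28))))))

theorem c_6_1 {b : ℕ → ℕ} (hb : ∀ j, 1 ≤ j → j ≤ 6 → 1 ≤ b j)
    (hId : Identity 6 1 b) :
    (List.range 6).map (bv 6 b) ∈ ([] : List (List ℕ)) :=
  final (N := 92) (mask := 8645316375543930082847557664)
    (t := t_6_1) (by norm_num) hb hId (by decide +kernel) (by decide +kernel)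
    (by decide +kernel)

end Pool.Agent.H372R3.GE
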