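import Pool.Agent.H372R3.GE2

set_option autoImplicit false
set_option maxRecDepth 1000000

namespace Pool.Agent.H372R3.GE

open Pool.Agent.MPe9218d Pool.Agent.H372R3.GD

def t_6_2 : Tree :=
    (.b 5 1 (.l 9) (.b 3 5 (.l 13) (.b 4 6 (.l 14) (.b 5 7 (.b 5 6 (.b 2 10 (.l 18) (.b 3 11 (.l
    19) (.b 4 12 (.b 5 2 (.l 20) (.b 4 11 (.b 1 15 (.l 23) (.b 2 16 (.l 24) (.b 4 7 (.b 3 17 (.l
    25) (.l 26)) (.b 3 17 (.b 3 16 (.b 1 21 (.l 29) (.b 3 12 (.b 2 22 (.l 30) (.b 5 3 (.b 0 26 (.l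
    34) (.b 1 27 (.b 2 28 (.b 1 26 (.l 36) (.b 4 8 (.l 36) (.b 2 27 (.b 0 32 (.l 40) (.b 2 23 (.l
    41) (.l 42))) (.l 37)))) (.b 1 26 (.b 4 8 (.l 36) (.l 37)) (.b 4 8 (.l 37) (.l 36)))) (.l 35)))
    (.l 31))) (.b 2 22 (.b 5 3 (.b 2 21 (.l 31) (.b 0 26 (.l 34) (.b 1 27 (.b 1 26 (.l 36) (.b 4 8
    (.l 36) (.b 0 32 (.l 40) (.b 3 13 (.l 41) (.l 42))))) (.l 35)))) (.b 2 21 (.b 0 26 (.l 34) (.b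
    2 17 (.b 1 27 (.l 35) (.b 4 8 (.l 36) (.b 0 32 (.l 40) (.b 3 13 (.b 1 33 (.l 41) (.b 5 4 (.b 0
    38 (.l 46) (.b 4 9 (.b 1 39 (.l 47) (.l 48)) (.b 1 39 (.b 1 38 (.b 1 34 (.b 0 44 (.l 52) (.l
    53)) (.b 0 44 (.b 0 43 (.b 0 39 (.l 57) (.l 59)) (.l 53)) (.l 52))) (.l 48)) (.l 47)))) (.l
    42))) (.b 1 33 (.b 5 4 (.b 1 32 (.l 42) (.b 0 38 (.l 46) (.b 4 9 (.l 47) (.b 3 14 (.b 0 44 (.l
    52) (.l 53)) (.b 0 44 (.b 0 43 (.b 0 39 (.l 57) (.l 59)) (.l 53)) (.l 52)))))) (.b 1 32 (.b 1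
    28 (.l 46) (.b 0 38 (.l 46) (.b 4 9 (.l 47) (.b 3 14 (.b 0 44 (.l 52) (.l 53)) (.b 0 44 (.b 0
    43 (.b 1 29 (.l 57) (.b 0 39 (.l 57) (.l 58))) (.l 53)) (.l 52)))))) (.l 42))) (.l 41)))))) (.b
    1 27 (.b 1 26 (.l 36) (.b 4 8 (.l 36) (.b 0 32 (.l 40) (.b 3 13 (.l 41) (.b 5 4 (.l 42) (.b 0
    38 (.l 46) (.b 2 18 (.l 46) (.b 4 9 (.l 47) (.b 3 14 (.b 0 44 (.l 52) (.l 53)) (.b 0 44 (.b 0
    43 (.b 0 39 (.l 57) (.b 2 19 (.l 57) (.l 58))) (.l 53)) (.l 52))))))))))) (.l 35)))) (.l 31)))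
    (.l 30)))) (.l 26)) (.l 25))))) (.l 21))) (.b 5 2 (.l 21) (.l 20))))) (.l 16)) (.l 15)))))

theorem c_6_2 {b : ℕ → ℕ} (hb : ∀ j, 1 ≤ j → j ≤ 6 → 1 ≤ b j)
    (hId : Identity 6 2 b) :
    (List.range 6).map (bv 6 b) ∈ ([] : List (List ℕ)) :=
  final (N := 59) (mask := 1152921504589794864)
    (t := t_6_2) (by norm_num) hb hId (by decide +kernel) (by decide +kernel)
    (by decide +kernel)

end Pool.Agent.H372R3.GE
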