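import Pool.Agent.H372R3.GE2

set_option autoImplicit false
set_option maxRecDepth 1000000

namespace Pool.Agent.H372R3.GE

open Pool.Agent.MPe9218d Pool.Agent.H372R3.GD

def t_6_3 : Tree :=
    (.b 4 2 (.l 6) (.b 5 3 (.l 7) (.b 0 4 (.l 8) (.b 1 5 (.l 9) (.b 2 6 (.b 3 7 (.b 2 4 (.b 4 8 (.l
    12) (.b 2 3 (.b 5 9 (.l 13) (.b 3 5 (.l 13) (.b 0 10 (.b 2 2 (.b 1 11 (.b 2 1 (.l 16) (.l 15))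
    (.l 15)) (.l 14)) (.l 14)))) (.b 5 9 (.b 3 5 (.l 13) (.l 14)) (.b 3 5 (.b 0 10 (.b 3 4 (.b 1 11
    (.b 3 3 (.b 3 2 (.b 0 8 (.b 3 1 (.b 0 7 (.b 1 9 (.l 17) (.b 0 6 (.b 4 14 (.b 5 15 (.b 0 5 (.l
    19) (.b 4 12 (.b 4 11 (.b 5 13 (.l 21) (.l 22)) (.b 5 13 (.l 22) (.l 21))) (.l 20))) (.b 0 5
    (.b 4 12 (.b 4 11 (.l 22) (.l 21)) (.l 20)) (.l 19))) (.l 18)) (.l 18))) (.b 1 9 (.b 1 8 (.b 4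
    14 (.b 5 15 (.b 1 7 (.l 19) (.b 4 12 (.b 4 11 (.b 5 13 (.l 21) (.l 22)) (.b 5 13 (.l 22) (.l
    21))) (.l 20))) (.b 1 7 (.b 1 6 (.b 4 12 (.l 20) (.l 21)) (.b 4 12 (.b 4 11 (.l 22) (.l 21))
    (.l 20))) (.l 19))) (.l 18)) (.l 18)) (.l 17))) (.b 0 7 (.b 1 9 (.b 0 6 (.b 1 8 (.b 4 14 (.l
    18) (.b 5 15 (.b 1 7 (.b 0 5 (.l 19) (.b 1 6 (.l 21) (.l 20))) (.b 0 5 (.l 20) (.l 19))) (.b 1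
    7 (.b 0 5 (.b 1 6 (.l 21) (.l 20)) (.l 19)) (.l 19)))) (.b 4 14 (.b 5 15 (.b 0 5 (.b 4 12 (.b 4
    11 (.b 5 13 (.b 4 10 (.b 5 12 (.b 4 9 (.b 5 11 (.l 23) (.l 29)) (.b 5 11 (.b 5 10 (.l 24) (.l
    29)) (.l 23))) (.l 22)) (.l 22)) (.l 21)) (.l 21)) (.l 20)) (.l 19)) (.l 19)) (.l 18))) (.b 1 8
    (.b 4 14 (.b 5 15 (.b 1 7 (.b 1 6 (.b 4 12 (.l 20) (.l 21)) (.b 4 12 (.b 4 11 (.b 5 13 (.b 4 10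
    (.b 5 12 (.b 4 9 (.b 5 11 (.l 23) (.l 29)) (.b 5 11 (.b 5 10 (.l 24) (.l 29)) (.l 23))) (.l
    22)) (.l 22)) (.l 21)) (.l 21)) (.l 20))) (.l 19)) (.l 19)) (.l 18)) (.l 18))) (.l 17)) (.l
    17))) (.l 16)) (.l 16)) (.l 15)) (.l 15)) (.l 14)) (.l 14)) (.l 13))))) (.b 4 8 (.b 5 9 (.b 3 5
    (.l 13) (.b 4 6 (.b 0 10 (.b 1 11 (.b 4 5 (.b 5 7 (.l 15) (.b 4 4 (.b 0 8 (.b 0 7 (.b 1 9 (.b 4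
    3 (.l 17) (.b 0 6 (.b 1 8 (.l 18) (.b 0 5 (.b 2 5 (.l 23) (.b 3 6 (.l 24) (.b 5 8 (.l 32) (.l
    26)))) (.l 19))) (.b 1 8 (.b 1 7 (.b 1 6 (.l 20) (.b 2 5 (.l 23) (.b 3 6 (.l 24) (.b 5 8 (.l
    32) (.l 26))))) (.l 19)) (.l 18)))) (.b 4 3 (.b 0 6 (.b 0 5 (.b 2 5 (.l 23) (.b 3 6 (.l 24) (.b
    5 8 (.b 1 10 (.l 32) (.l 28)) (.l 26)))) (.l 19)) (.l 18)) (.l 17))) (.b 1 9 (.b 4 3 (.b 1 8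
    (.b 1 7 (.b 1 6 (.l 20) (.b 2 5 (.l 23) (.b 3 6 (.l 24) (.b 5 8 (.l 32) (.l 26))))) (.l 19))
    (.l 18)) (.l 17)) (.l 17))) (.l 16)) (.l 16))) (.b 5 7 (.b 0 8 (.b 5 6 (.b 0 7 (.b 5 5 (.b 1 9
    (.l 17) (.b 0 6 (.b 5 4 (.l 18) (.b 0 5 (.b 2 5 (.l 23) (.b 3 6 (.l 24) (.b 1 10 (.l 34) (.l
    28)))) (.l 19))) (.b 5 4 (.l 19) (.l 18)))) (.b 1 9 (.b 0 6 (.b 1 8 (.l 18) (.b 0 5 (.b 2 5 (.l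
    23) (.b 3 6 (.l 24) (.l 37))) (.l 19))) (.b 1 8 (.b 1 7 (.b 1 6 (.l 20) (.b 2 5 (.l 23) (.b 3 6
    (.l 24) .s))) (.l 19)) (.l 18))) (.l 17))) (.b 5 5 (.b 1 9 (.b 5 4 (.b 1 8 (.l 18) (.l 19)) (.b
    1 8 (.b 1 7 (.b 1 6 (.l 20) (.b 2 5 (.l 23) (.b 3 6 (.l 24) .s))) (.l 19)) (.l 18))) (.l 17))
    (.l 17))) (.l 16)) (.l 16)) (.l 15))) (.b 4 5 (.b 5 7 (.b 4 4 (.b 0 8 (.b 5 6 (.l 16) (.b 0 7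
    (.b 4 3 (.b 0 6 (.b 0 5 (.b 1 17 (.b 2 5 (.b 1 15 (.l 23) (.b 3 6 (.l 28) (.l 24))) (.b 1 15
    (.b 1 14 (.b 3 6 (.l 24) (.b 1 13 (.b 1 12 (.l 28) (.l 26)) (.l 25))) (.b 3 6 (.l 25) (.l 24)))
    (.l 23))) (.l 21)) (.l 19)) (.l 18)) (.l 17)) (.l 17))) (.b 5 6 (.b 5 5 (.b 4 3 (.b 5 4 (.l 19)
    (.l 18)) (.l 17)) (.l 17)) (.l 16))) (.b 0 8 (.b 5 6 (.b 0 7 (.b 5 5 (.b 0 6 (.b 5 4 (.l 18)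
    (.b 0 5 (.b 1 17 (.b 2 5 (.b 1 15 (.l 23) (.b 3 6 (.l 28) (.l 24))) (.b 1 15 (.b 1 14 (.b 3 6
    (.l 24) (.b 1 13 (.b 1 12 (.l 28) (.l 26)) (.l 25))) (.b 3 6 (.l 25) (.l 24))) (.l 23))) (.l
    21)) (.l 19))) (.b 5 4 (.l 19) (.l 18))) (.l 17)) (.l 17)) (.l 16)) (.l 16))) (.l 15)) (.l
    15))) (.l 14)) (.l 14))) (.b 3 5 (.b 4 6 (.b 0 10 (.b 3 4 (.l 14) (.b 1 11 (.b 4 5 (.b 4 4 (.b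
    0 8 (.b 0 7 (.b 1 9 (.b 4 3 (.l 17) (.b 0 6 (.b 1 8 (.l 18) (.b 5 15 (.b 0 5 (.b 5 13 (.b 5 12
    (.b 2 5 (.b 5 11 (.l 23) (.l 25)) (.b 5 11 (.b 5 10 (.l 24) (.l 29)) (.l 23))) (.l 22)) (.l
    21)) (.l 19)) (.l 19))) (.b 1 8 (.b 5 15 (.b 1 7 (.b 1 6 (.l 20) (.b 5 13 (.b 5 12 (.b 2 5 (.b
    5 11 (.l 23) (.l 25)) (.b 5 11 (.b 5 10 (.l 24) (.l 29)) (.l 23))) (.l 22)) (.l 21))) (.l 19))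
    (.l 19)) (.l 18)))) (.b 4 3 (.b 0 6 (.b 5 15 (.b 0 5 (.b 5 13 (.b 5 12 (.b 2 5 (.b 5 11 (.l 23)
    (.l 25)) (.b 5 11 (.b 5 10 (.l 24) (.b 1 10 (.l 29) (.l 28))) (.l 23))) (.l 22)) (.l 21)) (.l
    19)) (.l 19)) (.l 18)) (.l 17))) (.b 1 9 (.b 4 3 (.b 1 8 (.b 5 15 (.b 1 7 (.b 1 6 (.l 20) (.b 5
    13 (.b 5 12 (.b 2 5 (.b 5 11 (.l 23) (.l 25)) (.b 5 11 (.b 5 10 (.l 24) (.l 29)) (.l 23))) (.l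
    22)) (.l 21))) (.l 19)) (.l 19)) (.l 18)) (.l 17)) (.l 17))) (.l 16)) (.l 16)) (.l 15)) (.l
    15))) (.b 3 4 (.b 1 11 (.b 4 5 (.b 3 3 (.l 15) (.l 16)) (.b 3 3 (.l 16) (.l 15))) (.b 4 5 (.b 3
    3 (.b 4 4 (.b 3 2 (.b 3 1 (.b 4 3 (.l 18) (.l 17)) (.l 17)) (.l 16)) (.l 16)) (.l 15)) (.l
    15))) (.l 14))) (.b 0 10 (.b 3 4 (.b 1 11 (.b 3 3 (.b 3 2 (.b 0 8 (.b 3 1 (.b 0 7 (.b 1 9 (.l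
    17) (.b 0 6 (.b 5 15 (.b 0 5 (.l 19) (.b 5 13 (.b 5 12 (.b 2 5 (.b 5 11 (.l 23) (.b 4 7 (.l 25)
    (.b 1 10 (.l 29) (.l 28)))) (.b 5 11 (.b 5 10 (.l 24) (.b 4 7 (.l 28) (.l 25))) (.l 23))) (.l
    22)) (.l 21))) (.b 0 5 (.l 21) (.l 19))) (.l 18))) (.b 1 9 (.b 1 8 (.b 5 15 (.b 1 7 (.l 19) (.b
    5 13 (.b 5 12 (.b 2 5 (.b 5 11 (.l 23) (.b 4 7 (.l 25) (.l 29))) (.b 5 11 (.b 5 10 (.l 24) (.b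
    4 7 (.l 28) (.l 25))) (.l 23))) (.l 22)) (.l 21))) (.b 1 7 (.b 1 6 (.l 20) (.l 21)) (.l 19)))
    (.l 18)) (.l 17))) (.b 0 7 (.b 1 9 (.b 0 6 (.b 1 8 (.l 18) (.b 5 15 (.b 0 5 (.b 5 13 (.b 5 12
    (.b 2 5 (.b 5 11 (.l 23) (.b 4 7 (.l 25) (.l 29))) (.b 5 11 (.b 5 10 (.l 24) (.b 4 7 (.l 28)
    (.l 25))) (.l 23))) (.l 22)) (.l 21)) (.l 19)) (.l 19))) (.b 1 8 (.b 5 15 (.b 1 7 (.b 1 6 (.l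
    20) (.b 5 13 (.b 5 12 (.b 2 5 (.b 5 11 (.l 23) (.b 4 7 (.l 25) (.l 29))) (.b 5 11 (.b 5 10 (.l
    24) (.b 4 7 (.l 28) (.l 25))) (.l 23))) (.l 22)) (.l 21))) (.l 19)) (.l 19)) (.l 18))) (.l 17))
    (.l 17))) (.l 16)) (.l 16)) (.l 15)) (.l 15)) (.l 14)) (.l 14))) (.l 13))) (.l 12))) (.l 11))
    (.l 10))))))

theorem c_6_3 {b : ℕ → ℕ} (hb : ∀ j, 1 ≤ j → j ≤ 6 → 1 ≤ b j)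
    (hId : Identity 6 3 b) :
    (List.range 6).map (bv 6 b) ∈ ([[7, 7, 6, 7, 6, 6], [8, 7, 6, 7, 6, 5]] : List (List ℕ)) :=
  final (N := 37) (mask := 274877906932)
    (t := t_6_3) (by norm_num) hb hId (by decide +kernel) (by decide +kernel)
    (by decide +kernel)

end Pool.Agent.H372R3.GE
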