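import Pool.Agent.H372R3.GE2

set_option autoImplicit false
set_option maxRecDepth 1000000

namespace Pool.Agent.H372R3.GE

open Pool.Agent.MPe9218d Pool.Agent.H372R3.GD

def t_7_1 : Tree :=
    (.b 6 7 (.l 19) (.b 5 13 (.l 25) (.b 6 14 (.l 26) (.b 5 20 (.l 32) (.b 6 21 (.b 5 27 (.l 39)
    (.b 4 33 (.l 45) (.b 5 34 (.l 46) (.b 4 40 (.l 52) (.b 6 15 (.b 5 41 (.l 53) (.b 4 47 (.l 59)
    (.b 5 48 (.b 4 54 (.l 66) (.b 3 60 (.l 72) (.b 4 61 (.l 73) (.b 3 67 (.l 79) (.b 5 42 (.b 4 68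
    (.l 80) (.b 3 74 (.l 86) (.b 4 75 (.b 3 81 (.l 93) (.b 3 88 (.l 100) (.b 2 94 (.l 106) (.b 4 69
    (.l 107) (.b 3 95 (.l 107) (.l 108)))))) (.l 87)))) (.b 4 68 (.b 3 74 (.l 86) (.b 3 81 (.l 93)
    (.b 4 62 (.l 100) (.b 3 88 (.l 100) (.b 2 94 (.l 106) (.l 107)))))) (.l 80))))))) (.l 60))))
    (.b 5 41 (.b 4 47 (.l 59) (.b 4 54 (.l 66) (.b 3 60 (.l 72) (.b 4 61 (.l 73) (.b 5 35 (.l 73)
    (.b 3 67 (.l 79) (.b 4 68 (.l 80) (.b 3 74 (.l 86) (.b 4 75 (.b 3 81 (.l 93) (.b 6 16 (.b 3 88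
    (.l 100) (.l 101)) (.l 94))) (.l 87)))))))))) (.l 53))))))) (.l 33))))))

theorem c_7_1 {b : ℕ → ℕ} (hb : ∀ j, 1 ≤ j → j ≤ 7 → 1 ≤ b j)
    (hId : Identity 7 1 b) :
    (List.range 7).map (bv 7 b) ∈ ([] : List (List ℕ)) :=
  final (N := 108) (mask := 526374444118390580322455109771328)
    (t := t_7_1) (by norm_num) hb hId (by decide +kernel) (by decide +kernel)
    (by decide +kernel)

def t_7_2 : Tree :=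
    (.b 6 1 (.l 11) (.b 4 6 (.l 16) (.b 5 7 (.l 17) (.b 6 8 (.b 6 7 (.b 3 12 (.l 22) (.b 4 13 (.l
    23) (.b 5 14 (.b 6 2 (.l 24) (.b 5 13 (.b 2 18 (.l 28) (.b 3 19 (.l 29) (.b 4 20 (.b 5 8 (.l
    30) (.b 4 19 (.b 2 25 (.l 35) (.b 3 26 (.b 4 14 (.l 36) (.b 3 25 (.b 6 3 (.l 37) (.b 1 31 (.l
    41) (.b 2 32 (.l 42) (.b 3 20 (.l 42) (.b 5 9 (.l 43) (.b 0 37 (.l 47) (.b 1 38 (.l 48) (.b 4
    15 (.l 49) (.b 2 39 (.l 49) (.b 6 4 (.b 0 44 (.l 54) (.b 1 45 (.b 3 21 (.l 55) (.b 5 10 (.b 2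
    46 (.l 56) (.b 1 44 (.l 56) (.l 57))) (.b 2 46 (.b 1 44 (.l 56) (.b 2 45 (.b 0 51 (.l 61) (.b 4
    16 (.b 2 40 (.l 62) (.b 0 58 (.l 68) (.b 3 22 (.l 68) (.l 70)))) (.b 2 40 (.b 0 58 (.l 68) (.b
    3 22 (.l 68) (.l 70))) (.l 62)))) (.l 57))) (.b 1 44 (.l 57) (.l 56))))) (.b 3 21 (.b 5 10 (.b
    2 46 (.l 56) (.l 57)) (.b 2 46 (.b 2 45 (.b 0 51 (.l 61) (.b 4 16 (.b 1 52 (.b 2 40 (.l 62) (.b
    1 51 (.b 1 46 (.l 68) (.b 0 58 (.l 68) (.l 70))) (.l 63))) (.b 2 40 (.l 63) (.l 62))) (.b 1 52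
    (.b 2 40 (.b 1 51 (.b 1 46 (.l 68) (.b 0 58 (.l 68) (.l 70))) (.l 63)) (.l 62)) (.l 62)))) (.l
    57)) (.l 56))) (.l 55)))) (.l 50))))))))))) (.b 6 3 (.b 1 31 (.l 41) (.b 2 32 (.l 42) (.b 5 9
    (.l 43) (.b 0 37 (.l 47) (.b 1 38 (.l 48) (.b 4 15 (.l 49) (.b 2 39 (.l 49) (.b 0 44 (.l 54)
    (.b 1 45 (.b 5 10 (.b 2 46 (.b 1 44 (.l 56) (.l 57)) (.b 1 44 (.l 57) (.l 56))) (.b 2 46 (.b 1
    44 (.l 57) (.l 56)) (.l 56))) (.l 55)))))))))) (.l 37)))) (.b 4 14 (.b 6 3 (.b 1 31 (.l 41) (.b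
    2 32 (.l 42) (.b 5 9 (.b 3 33 (.l 43) (.l 44)) (.b 3 33 (.b 3 32 (.b 0 37 (.l 47) (.b 1 38 (.l
    48) (.b 2 39 (.l 49) (.b 3 27 (.l 49) (.b 0 44 (.l 54) (.b 1 45 (.b 5 10 (.b 2 46 (.b 1 44 (.l
    56) (.l 57)) (.b 1 44 (.l 57) (.l 56))) (.b 2 46 (.b 1 44 (.l 57) (.l 56)) (.l 56))) (.l
    55))))))) (.l 44)) (.l 43))))) (.l 37)) (.l 36)))) (.l 31))) (.b 5 8 (.l 31) (.l 30))))) (.l
    25))) (.b 6 2 (.l 25) (.l 24))))) (.l 19)) (.l 18)))))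

theorem c_7_2 {b : ℕ → ℕ} (hb : ∀ j, 1 ≤ j → j ≤ 7 → 1 ≤ b j)
    (hId : Identity 7 2 b) :
    (List.range 7).map (bv 7 b) ∈ ([] : List (List ℕ)) :=
  final (N := 70) (mask := 2361183241399651154016)
    (t := t_7_2) (by norm_num) hb hId (by decide +kernel) (by decide +kernel)
    (by decide +kernel)

end Pool.Agent.H372R3.GE
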