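import Pool.Agent.H372R3.GE2

set_option autoImplicit false
set_option maxRecDepth 1000000

namespace Pool.Agent.H372R3.GE

open Pool.Agent.MPe9218d Pool.Agent.H372R3.GD

def t_7_3 : Tree :=
    (.b 5 2 (.l 8) (.b 6 3 (.l 9) (.b 1 5 (.l 11) (.b 2 6 (.l 12) (.b 3 7 (.b 4 8 (.l 14) (.b 5 9
    (.b 3 5 (.l 15) (.b 6 10 (.b 0 11 (.b 5 7 (.l 17) (.b 1 12 (.b 6 8 (.b 0 9 (.b 6 7 (.b 2 13 (.l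
    19) (.b 1 10 (.b 0 8 (.l 20) (.b 4 15 (.b 1 9 (.b 6 5 (.l 21) (.l 22)) (.b 6 5 (.b 6 4 (.b 4 13
    (.b 4 12 (.b 2 20 (.b 4 10 (.l 26) (.b 2 18 (.b 3 6 (.l 28) (.b 2 17 (.l 29) (.b 5 8 (.l 30)
    (.l 31)))) (.b 3 6 (.b 5 8 (.l 30) (.l 31)) (.l 28)))) (.b 4 10 (.b 4 9 (.l 27) (.b 3 6 (.b 5 8
    (.l 30) (.l 31)) (.l 28))) (.l 26))) (.l 24)) (.l 23)) (.l 22)) (.l 21))) (.b 1 9 (.b 6 5 (.b 6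
    4 (.b 1 7 (.b 1 6 (.b 2 20 (.b 4 22 (.b 2 18 (.b 3 6 (.l 28) (.b 2 17 (.l 29) (.b 4 20 (.b 5 8
    (.l 30) (.l 31)) (.b 5 8 (.l 31) (.l 30))))) (.b 3 6 (.b 4 20 (.b 5 8 (.l 30) (.l 31)) (.b 5 8
    (.l 31) (.l 30))) (.l 28))) (.b 2 18 (.b 3 6 (.b 2 17 (.l 29) (.b 5 8 (.l 31) (.l 30))) (.l
    28)) (.l 28))) (.l 26)) (.l 24)) (.l 23)) (.l 22)) (.l 21)) (.l 21)))) (.b 0 8 (.b 4 15 (.b 6 5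
    (.b 0 6 (.b 6 4 (.l 22) (.b 0 5 (.b 4 13 (.l 23) (.b 0 4 (.b 0 3 (.l 25) (.b 2 20 (.l 27) (.l
    26))) (.l 24))) (.b 4 13 (.b 4 12 (.b 2 20 (.b 4 10 (.l 26) (.b 2 18 (.b 3 6 (.l 28) (.b 2 17
    (.l 29) (.b 5 8 (.l 30) (.l 31)))) (.b 3 6 (.b 5 8 (.l 30) (.l 31)) (.l 28)))) (.b 4 10 (.b 4 9
    (.l 27) (.b 3 6 (.b 5 8 (.l 30) (.l 31)) (.l 28))) (.l 26))) (.l 24)) (.l 23)))) (.b 6 4 (.b 4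
    13 (.b 4 12 (.b 2 20 (.b 4 10 (.l 26) (.b 2 18 (.b 3 6 (.l 28) (.b 2 17 (.l 29) (.b 5 8 (.l 30)
    (.l 31)))) (.b 3 6 (.b 5 8 (.l 30) (.l 31)) (.l 28)))) (.b 4 10 (.b 4 9 (.l 27) (.b 3 6 (.b 5 8
    (.l 30) (.l 31)) (.l 28))) (.l 26))) (.l 24)) (.l 23)) (.l 22))) (.l 21)) (.l 21)) (.l 20))))
    (.b 2 13 (.b 1 10 (.b 0 8 (.l 20) (.b 4 15 (.b 2 11 (.b 1 9 (.l 21) (.b 2 10 (.b 4 13 (.b 4 12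
    (.b 2 8 (.l 24) (.b 4 10 (.l 26) (.b 3 6 (.l 28) (.l 29)))) (.b 2 8 (.b 2 7 (.l 25) (.b 3 6 (.l
    28) (.l 29))) (.l 24))) (.l 23)) (.l 22))) (.b 1 9 (.l 22) (.l 21))) (.b 2 11 (.b 1 9 (.b 2 10
    (.b 1 7 (.b 1 6 (.b 2 8 (.l 24) (.b 4 22 (.b 3 6 (.l 28) (.l 29)) (.b 3 6 (.l 29) (.l 28))))
    (.b 2 8 (.b 2 7 (.l 25) (.b 4 22 (.b 3 6 (.l 28) (.l 29)) (.b 3 6 (.l 29) (.l 28)))) (.l 24)))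
    (.l 23)) (.l 22)) (.l 21)) (.l 21)))) (.b 0 8 (.b 4 15 (.b 2 11 (.b 2 10 (.b 0 6 (.l 22) (.b 4
    13 (.b 4 12 (.b 2 8 (.l 24) (.b 4 10 (.l 26) (.b 3 6 (.l 28) (.l 29)))) (.b 2 8 (.b 2 7 (.l 25)
    (.b 3 6 (.l 28) (.l 29))) (.l 24))) (.l 23))) (.b 0 6 (.b 0 5 (.b 4 13 (.l 23) (.b 0 4 (.b 0 3
    (.l 25) (.l 27)) (.l 24))) (.b 4 13 (.b 4 12 (.b 4 10 (.l 26) (.b 3 6 (.l 28) (.l 29))) (.l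
    24)) (.l 23))) (.l 22))) (.l 21)) (.l 21)) (.l 20))) (.l 19))) (.b 6 7 (.b 2 13 (.b 1 10 (.b 4
    15 (.b 2 11 (.b 1 9 (.l 21) (.b 6 5 (.l 21) (.b 2 10 (.b 4 13 (.b 4 12 (.b 2 8 (.l 24) (.b 4 10
    (.l 26) (.b 3 6 (.l 28) (.l 29)))) (.b 2 8 (.b 2 7 (.l 25) (.b 3 6 (.l 28) (.l 29))) (.l 24)))
    (.l 23)) (.l 22)))) (.b 1 9 (.b 6 5 (.l 21) (.l 22)) (.b 6 5 (.b 6 4 (.b 4 13 (.b 4 12 (.b 4 10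
    (.l 26) (.b 3 6 (.l 28) (.l 29))) (.l 24)) (.l 23)) (.l 22)) (.l 21)))) (.b 2 11 (.b 1 9 (.b 6
    5 (.l 21) (.b 2 10 (.b 1 7 (.b 1 6 (.b 2 8 (.l 24) (.b 4 22 (.b 3 6 (.l 28) (.l 29)) (.b 3 6
    (.l 29) (.l 28)))) (.b 2 8 (.b 2 7 (.l 25) (.b 4 22 (.b 3 6 (.l 28) (.l 29)) (.b 3 6 (.l 29)
    (.l 28)))) (.l 24))) (.l 23)) (.l 22))) (.b 6 5 (.b 2 10 (.b 6 4 (.l 22) (.l 23)) (.b 6 4 (.l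
    23) (.l 22))) (.l 21))) (.b 1 9 (.b 6 5 (.b 6 4 (.b 1 7 (.b 1 6 (.b 4 22 (.b 3 6 (.l 28) (.l
    29)) (.b 3 6 (.l 29) (.l 28))) (.l 24)) (.l 23)) (.l 22)) (.l 21)) (.l 21)))) (.l 20)) (.l 19))
    (.l 19))) (.l 18)) (.l 18))) (.b 5 7 (.b 1 12 (.b 6 8 (.b 5 6 (.l 18) (.b 6 7 (.b 2 13 (.b 1 10
    (.b 4 15 (.b 2 11 (.b 1 9 (.l 21) (.b 6 5 (.l 21) (.b 2 10 (.b 4 13 (.b 0 18 (.b 4 12 (.b 2 8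
    (.l 24) (.b 4 10 (.b 0 16 (.l 26) (.b 4 9 (.b 3 6 (.l 28) (.b 6 6 (.l 34) (.b 2 9 (.l 37) (.b 0
    17 (.l 39) (.l 52))))) (.l 27))) (.b 0 16 (.b 0 15 (.b 3 6 (.l 28) (.b 0 13 (.l 29) (.b 6 6 (.l
    34) (.b 2 9 (.l 37) (.b 4 11 (.l 39) (.b 0 14 (.l 42) .s)))))) (.l 27)) (.l 26)))) (.b 2 8 (.b
    2 7 (.l 25) (.b 0 16 (.b 0 15 (.b 3 6 (.l 28) (.b 0 13 (.l 29) (.b 6 6 (.l 34) (.l 37)))) (.l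
    27)) (.l 26))) (.l 24))) (.b 4 12 (.b 2 8 (.b 2 7 (.l 25) (.b 4 10 (.b 4 9 (.b 3 6 (.l 28) (.b
    0 25 (.b 0 23 (.b 6 6 (.b 0 22 (.l 34) (.l 36)) (.b 0 22 (.b 0 20 (.b 0 19 (.l 37) (.l 43)) (.l
    36)) (.l 34))) (.l 33)) (.l 31))) (.l 27)) (.l 26))) (.l 24)) (.l 24))) (.l 23)) (.l 22)))) (.b
    1 9 (.b 6 5 (.l 21) (.l 22)) (.b 6 5 (.b 6 4 (.b 4 13 (.b 4 12 (.b 0 18 (.b 4 10 (.b 0 16 (.l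
    26) (.b 4 9 (.b 3 6 (.l 28) (.b 2 12 (.l 34) (.b 0 17 (.l 39) (.l 52)))) (.l 27))) (.b 0 16 (.b
    0 15 (.b 3 6 (.l 28) (.b 0 13 (.l 29) (.b 2 12 (.l 34) (.b 4 11 (.l 39) (.b 0 14 (.l 42) (.l
    46)))))) (.l 27)) (.l 26))) (.l 24)) (.l 24)) (.l 23)) (.l 22)) (.l 21)))) (.b 2 11 (.b 1 9 (.b
    6 5 (.l 21) (.b 2 10 (.b 1 7 (.b 1 6 (.b 0 18 (.b 2 8 (.l 24) (.b 0 16 (.b 0 15 (.b 4 22 (.b 3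
    6 (.l 28) (.b 0 13 (.l 29) (.b 4 20 (.b 4 19 (.b 4 17 (.b 6 6 (.b 4 16 (.l 34) (.b 2 9 (.l 37)
    (.l 40))) (.b 4 16 (.b 2 9 (.l 37) (.l 40)) (.l 34))) (.l 33)) (.l 31)) (.l 30)))) (.b 3 6 (.b
    0 13 (.l 29) (.l 30)) (.l 28))) (.l 27)) (.l 26))) (.b 2 8 (.b 2 7 (.l 25) (.l 26)) (.l 24)))
    (.b 0 18 (.b 2 8 (.b 2 7 (.l 25) (.b 0 16 (.b 0 15 (.b 4 22 (.b 3 6 (.l 28) (.b 0 13 (.l 29)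
    (.b 4 20 (.b 4 19 (.b 4 17 (.b 6 6 (.b 4 16 (.l 34) (.l 37)) (.b 4 16 (.l 37) (.l 34))) (.l
    33)) (.l 31)) (.l 30)))) (.b 3 6 (.b 0 13 (.l 29) (.l 30)) (.l 28))) (.l 27)) (.l 26))) (.l
    24)) (.l 24))) (.l 23)) (.l 22))) (.b 6 5 (.b 2 10 (.b 6 4 (.l 22) (.l 23)) (.b 6 4 (.l 23) (.l
    22))) (.l 21))) (.b 1 9 (.b 6 5 (.b 6 4 (.b 1 7 (.b 1 6 (.b 0 18 (.b 0 16 (.b 0 15 (.b 4 22 (.b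
    3 6 (.l 28) (.b 0 13 (.l 29) (.b 4 20 (.b 4 19 (.b 4 17 (.b 4 16 (.b 2 12 (.l 34) (.l 40)) (.b
    2 12 (.l 40) (.l 34))) (.l 33)) (.l 31)) (.l 30)))) (.b 3 6 (.b 0 13 (.l 29) (.l 30)) (.l 28)))
    (.l 27)) (.l 26)) (.l 24)) (.l 24)) (.l 23)) (.l 22)) (.l 21)) (.l 21)))) (.l 20)) (.l 19)) (.l
    19))) (.b 5 6 (.l 19) (.l 18))) (.b 6 8 (.b 5 6 (.b 6 7 (.b 2 13 (.b 5 4 (.b 5 3 (.b 4 15 (.b 2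
    11 (.l 21) (.b 6 5 (.l 21) (.l 22))) (.b 2 11 (.b 6 5 (.l 21) (.b 2 10 (.l 23) (.l 22))) (.b 6
    5 (.b 6 4 (.l 23) (.l 22)) (.l 21)))) (.b 4 15 (.b 2 11 (.b 6 5 (.l 21) (.b 2 10 (.b 4 13 (.b 0
    18 (.b 4 12 (.b 2 8 (.l 24) (.b 1 19 (.b 4 10 (.b 0 16 (.l 26) (.b 4 9 (.b 1 17 (.b 1 16 (.b 3
    6 (.l 28) (.b 1 14 (.b 1 13 (.b 6 6 (.l 34) (.l 37)) (.l 31)) (.l 30))) (.b 3 6 (.l 30) (.l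
    28))) (.l 27)) (.l 27))) (.b 0 16 (.b 0 15 (.b 1 17 (.b 1 16 (.b 3 6 (.l 28) (.b 0 13 (.l 29)
    (.b 1 14 (.b 1 13 (.b 6 6 (.l 34) (.l 37)) (.l 31)) (.l 30)))) (.b 3 6 (.b 0 13 (.l 29) (.l
    30)) (.l 28))) (.l 27)) (.l 27)) (.l 26))) (.l 25))) (.b 2 8 (.b 1 19 (.b 2 7 (.l 25) (.b 0 16
    (.b 0 15 (.b 1 17 (.b 1 16 (.b 3 6 (.l 28) (.b 0 13 (.l 29) (.b 1 14 (.b 1 13 (.b 6 6 (.l 34)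
    (.l 37)) (.l 31)) (.l 30)))) (.b 3 6 (.b 0 13 (.l 29) (.l 30)) (.l 28))) (.l 27)) (.l 27)) (.l
    26))) (.b 2 7 (.b 0 16 (.l 27) (.l 26)) (.l 25))) (.l 24))) (.b 4 12 (.b 2 8 (.b 1 19 (.b 2 7
    (.l 25) (.b 4 10 (.b 4 9 (.b 1 17 (.b 1 16 (.b 3 6 (.l 28) (.b 1 14 (.b 1 13 (.b 0 25 (.b 0 23
    (.b 6 6 (.b 0 22 (.l 34) (.l 36)) (.b 0 22 (.b 0 20 (.l 37) (.l 36)) (.l 34))) (.l 33)) (.l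
    31)) (.l 31)) (.l 30))) (.b 3 6 (.l 30) (.l 28))) (.l 27)) (.l 27)) (.l 26))) (.b 2 7 (.b 4 10
    (.l 27) (.l 26)) (.l 25))) (.l 24)) (.l 24))) (.l 23)) (.l 22))) (.b 6 5 (.b 6 4 (.b 4 13 (.b 4
    12 (.b 0 18 (.b 1 19 (.b 4 10 (.b 0 16 (.l 26) (.b 4 9 (.b 1 17 (.b 1 16 (.b 3 6 (.l 28) (.b 1
    14 (.b 1 13 (.b 2 12 (.l 34) (.l 37)) (.l 31)) (.l 30))) (.b 3 6 (.l 30) (.l 28))) (.l 27)) (.l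
    27))) (.b 0 16 (.b 0 15 (.b 1 17 (.b 1 16 (.b 3 6 (.l 28) (.b 0 13 (.l 29) (.b 1 14 (.b 1 13
    (.b 2 12 (.l 34) (.l 37)) (.l 31)) (.l 30)))) (.b 3 6 (.b 0 13 (.l 29) (.l 30)) (.l 28))) (.l
    27)) (.l 27)) (.l 26))) (.l 25)) (.l 24)) (.l 24)) (.l 23)) (.l 22)) (.l 21))) (.b 2 11 (.b 6 5
    (.b 2 10 (.b 6 4 (.l 22) (.l 23)) (.b 6 4 (.l 23) (.l 22))) (.l 21)) (.l 21)))) (.l 20)) (.l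
    19)) (.l 19)) (.l 18)) (.l 18))) (.l 17))) (.l 16))) (.b 3 5 (.b 6 10 (.b 3 4 (.l 16) (.b 0 11
    (.b 1 12 (.b 6 8 (.b 0 9 (.b 6 7 (.b 2 13 (.l 19) (.b 1 10 (.b 0 8 (.l 20) (.b 4 15 (.b 1 9 (.b
    6 5 (.l 21) (.l 22)) (.b 6 5 (.b 5 16 (.b 6 4 (.b 4 13 (.b 5 14 (.b 4 12 (.b 5 13 (.b 2 20 (.b
    4 10 (.l 26) (.b 5 11 (.b 5 10 (.b 2 18 (.l 28) (.l 31)) (.b 2 18 (.b 2 17 (.l 29) (.l 31)) (.l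
    28))) (.l 27))) (.b 4 10 (.b 4 9 (.b 5 11 (.l 27) (.l 28)) (.b 5 11 (.b 5 10 (.l 31) (.l 28))
    (.l 27))) (.l 26))) (.l 25)) (.l 24)) (.l 24)) (.l 23)) (.l 22)) (.l 22)) (.l 21))) (.b 1 9 (.b
    6 5 (.b 5 16 (.b 6 4 (.b 1 7 (.b 5 14 (.b 1 6 (.b 5 13 (.b 2 20 (.b 5 11 (.b 5 10 (.b 4 22 (.b
    2 18 (.l 28) (.b 4 20 (.l 31) (.l 30))) (.b 2 18 (.b 2 17 (.l 29) (.l 30)) (.l 28))) (.b 4 22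
    (.b 2 18 (.b 2 17 (.l 29) (.b 4 20 (.l 31) (.l 30))) (.l 28)) (.l 28))) (.l 27)) (.l 26)) (.l
    25)) (.l 24)) (.l 24)) (.l 23)) (.l 22)) (.l 22)) (.l 21)) (.l 21)))) (.b 0 8 (.b 4 15 (.b 6 5
    (.b 0 6 (.b 5 16 (.b 6 4 (.l 22) (.b 0 5 (.b 4 13 (.l 23) (.b 5 14 (.b 0 4 (.b 5 13 (.b 0 3 (.l
    25) (.b 2 20 (.b 5 11 (.l 27) (.b 2 18 (.l 29) (.l 28))) (.l 26))) (.b 0 3 (.b 2 20 (.b 0 2 (.l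
    26) (.b 2 18 (.l 29) (.l 28))) (.b 0 2 (.b 0 1 (.l 27) (.l 28)) (.l 26))) (.l 25))) (.l 24))
    (.l 24))) (.b 4 13 (.b 5 14 (.b 4 12 (.b 5 13 (.b 2 20 (.b 4 10 (.l 26) (.b 5 11 (.b 5 10 (.b 2
    18 (.l 28) (.l 31)) (.b 2 18 (.b 2 17 (.l 29) (.l 31)) (.l 28))) (.l 27))) (.b 4 10 (.b 4 9 (.b
    5 11 (.l 27) (.l 28)) (.b 5 11 (.b 5 10 (.l 31) (.l 28)) (.l 27))) (.l 26))) (.l 25)) (.l 24))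
    (.l 24)) (.l 23)))) (.b 6 4 (.b 0 5 (.b 4 13 (.l 23) (.l 24)) (.b 4 13 (.l 24) (.l 23))) (.l
    22))) (.b 5 16 (.b 6 4 (.b 4 13 (.b 5 14 (.b 4 12 (.b 5 13 (.b 2 20 (.b 4 10 (.l 26) (.b 5 11
    (.b 5 10 (.b 2 18 (.l 28) (.l 31)) (.b 2 18 (.b 2 17 (.l 29) (.l 31)) (.l 28))) (.l 27))) (.b 4
    10 (.b 4 9 (.b 5 11 (.l 27) (.l 28)) (.b 5 11 (.b 5 10 (.l 31) (.l 28)) (.l 27))) (.l 26))) (.l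
    25)) (.l 24)) (.l 24)) (.l 23)) (.l 22)) (.l 22))) (.l 21)) (.l 21)) (.l 20)))) (.b 2 13 (.b 1
    10 (.b 0 8 (.l 20) (.b 4 15 (.b 2 11 (.b 1 9 (.l 21) (.b 2 10 (.b 5 16 (.b 4 13 (.b 5 14 (.b 4
    12 (.b 2 8 (.l 24) (.b 5 13 (.b 4 10 (.l 26) (.b 5 11 (.b 5 10 (.l 28) (.l 29)) (.l 27))) (.l
    25))) (.b 2 8 (.b 2 7 (.b 5 13 (.l 25) (.l 27)) (.b 5 13 (.b 5 11 (.b 5 10 (.l 28) (.l 29)) (.l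
    27)) (.l 25))) (.l 24))) (.b 4 12 (.b 2 8 (.b 2 7 (.b 4 10 (.l 26) (.l 27)) (.l 25)) (.l 24))
    (.l 24))) (.l 23)) (.l 22)) (.l 22))) (.b 1 9 (.l 22) (.l 21))) (.b 2 11 (.b 1 9 (.b 2 10 (.b 5
    16 (.b 1 7 (.b 5 14 (.b 1 6 (.b 2 8 (.l 24) (.b 5 13 (.b 5 11 (.b 5 10 (.b 4 22 (.l 28) (.l
    29)) (.b 4 22 (.l 29) (.l 28))) (.l 27)) (.l 25))) (.b 2 8 (.b 2 7 (.b 5 13 (.l 25) (.l 27))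
    (.b 5 13 (.b 5 11 (.b 5 10 (.b 4 22 (.l 28) (.l 29)) (.b 4 22 (.l 29) (.l 28))) (.l 27)) (.l
    25))) (.l 24))) (.b 1 6 (.b 2 8 (.b 2 7 (.l 27) (.l 25)) (.l 24)) (.l 24))) (.l 23)) (.l 22))
    (.l 22)) (.l 21)) (.l 21)))) (.b 0 8 (.b 4 15 (.b 2 11 (.b 2 10 (.b 0 6 (.b 5 16 (.l 22) (.b 0
    5 (.b 4 13 (.l 23) (.b 0 4 (.b 2 8 (.b 2 7 (.b 0 3 (.l 25) (.l 29)) (.b 0 3 (.b 0 2 (.l 26) (.l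
    29)) (.l 25))) (.l 24)) (.l 24))) (.b 4 13 (.b 4 12 (.b 2 8 (.b 2 7 (.b 4 10 (.l 26) (.l 27))
    (.l 25)) (.l 24)) (.l 24)) (.l 23)))) (.b 5 16 (.b 4 13 (.b 5 14 (.b 4 12 (.b 2 8 (.l 24) (.b 5
    13 (.b 4 10 (.l 26) (.b 5 11 (.b 5 10 (.l 28) (.l 29)) (.l 27))) (.l 25))) (.b 2 8 (.b 2 7 (.b
    5 13 (.l 25) (.l 27)) (.b 5 13 (.b 5 11 (.b 5 10 (.l 28) (.l 29)) (.l 27)) (.l 25))) (.l 24)))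
    (.b 4 12 (.b 2 8 (.b 2 7 (.b 4 10 (.l 26) (.l 27)) (.l 25)) (.l 24)) (.l 24))) (.l 23)) (.l
    22))) (.b 0 6 (.b 5 16 (.b 0 5 (.b 4 13 (.l 23) (.b 5 14 (.b 0 4 (.b 5 13 (.b 0 3 (.l 25) (.b 5
    11 (.l 27) (.l 29))) (.b 0 3 (.b 0 2 (.l 26) (.l 29)) (.l 25))) (.l 24)) (.l 24))) (.b 4 13 (.b
    5 14 (.b 4 12 (.b 5 13 (.b 4 10 (.l 26) (.b 5 11 (.b 5 10 (.l 28) (.l 29)) (.l 27))) (.l 25))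
    (.l 24)) (.l 24)) (.l 23))) (.l 22)) (.l 22))) (.l 21)) (.l 21)) (.l 20))) (.l 19))) (.b 6 7
    (.b 2 13 (.b 1 10 (.b 4 15 (.b 2 11 (.b 1 9 (.l 21) (.b 6 5 (.l 21) (.b 2 10 (.b 5 16 (.b 4 13
    (.b 5 14 (.b 4 12 (.b 2 8 (.l 24) (.b 5 13 (.b 4 10 (.l 26) (.b 5 11 (.b 5 10 (.l 28) (.l 29))
    (.l 27))) (.l 25))) (.b 2 8 (.b 2 7 (.b 5 13 (.l 25) (.l 27)) (.b 5 13 (.b 5 11 (.b 5 10 (.l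
    28) (.l 29)) (.l 27)) (.l 25))) (.l 24))) (.b 4 12 (.b 2 8 (.b 2 7 (.b 4 10 (.l 26) (.l 27))
    (.l 25)) (.l 24)) (.l 24))) (.l 23)) (.l 22)) (.l 22)))) (.b 1 9 (.b 6 5 (.l 21) (.l 22)) (.b 6
    5 (.b 5 16 (.b 6 4 (.b 4 13 (.b 5 14 (.b 4 12 (.b 5 13 (.b 4 10 (.l 26) (.b 5 11 (.b 5 10 (.l
    28) (.l 29)) (.l 27))) (.l 25)) (.l 24)) (.l 24)) (.l 23)) (.l 22)) (.l 22)) (.l 21)))) (.b 2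
    11 (.b 1 9 (.b 6 5 (.l 21) (.b 2 10 (.b 5 16 (.b 1 7 (.b 5 14 (.b 1 6 (.b 2 8 (.l 24) (.b 5 13
    (.b 5 11 (.b 5 10 (.b 4 22 (.l 28) (.l 29)) (.b 4 22 (.l 29) (.l 28))) (.l 27)) (.l 25))) (.b 2
    8 (.b 2 7 (.b 5 13 (.l 25) (.l 27)) (.b 5 13 (.b 5 11 (.b 5 10 (.b 4 22 (.l 28) (.l 29)) (.b 4
    22 (.l 29) (.l 28))) (.l 27)) (.l 25))) (.l 24))) (.b 1 6 (.b 2 8 (.b 2 7 (.l 27) (.l 25)) (.l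
    24)) (.l 24))) (.l 23)) (.l 22)) (.l 22))) (.b 6 5 (.b 2 10 (.b 5 16 (.b 6 4 (.l 22) (.l 23))
    (.b 6 4 (.l 23) (.l 22))) (.b 5 16 (.b 6 4 (.l 23) (.l 22)) (.l 22))) (.l 21))) (.b 1 9 (.b 6 5
    (.b 5 16 (.b 6 4 (.b 1 7 (.b 5 14 (.b 1 6 (.b 5 13 (.b 5 11 (.b 5 10 (.b 4 22 (.l 28) (.l 29))
    (.b 4 22 (.l 29) (.l 28))) (.l 27)) (.l 25)) (.l 24)) (.l 24)) (.l 23)) (.l 22)) (.l 22)) (.l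
    21)) (.l 21)))) (.l 20)) (.l 19)) (.l 19))) (.l 18)) (.l 18)) (.l 17))) (.b 3 4 (.b 0 11 (.b 1
    12 (.b 3 2 (.b 3 1 (.b 0 9 (.b 2 13 (.l 19) (.b 1 10 (.b 0 8 (.l 20) (.b 4 15 (.b 1 9 (.l 22)
    (.l 21)) (.l 21))) (.b 0 8 (.l 21) (.l 20)))) (.b 2 13 (.b 1 10 (.b 4 15 (.b 2 11 (.b 1 9 (.l
    21) (.b 2 10 (.b 5 16 (.b 4 13 (.b 6 17 (.b 5 14 (.b 4 12 (.b 2 8 (.l 24) (.b 6 15 (.b 5 13 (.b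
    4 10 (.b 6 14 (.l 26) (.b 4 9 (.b 5 11 (.l 27) (.l 28)) (.b 5 11 (.b 5 10 (.b 0 10 (.l 32) (.l
    34)) (.l 28)) (.l 27)))) (.b 6 14 (.b 5 11 (.b 6 12 (.b 5 10 (.l 28) (.b 6 11 (.l 29) (.b 0 10
    (.l 32) (.l 34)))) (.b 5 10 (.b 0 10 (.l 32) (.l 34)) (.l 28))) (.l 27)) (.l 26))) (.l 25)) (.l
    25))) (.b 2 8 (.b 6 15 (.b 2 7 (.b 5 13 (.l 25) (.b 6 14 (.l 27) (.l 26))) (.b 5 13 (.b 6 14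
    (.b 5 11 (.b 6 12 (.b 5 10 (.l 28) (.b 6 11 (.l 29) (.b 0 10 (.l 32) (.l 34)))) (.b 5 10 (.b 0
    10 (.l 32) (.l 34)) (.l 28))) (.l 27)) (.l 26)) (.l 25))) (.b 2 7 (.b 5 13 (.l 26) (.l 25)) (.l
    25))) (.l 24))) (.b 4 12 (.b 2 8 (.b 6 15 (.b 2 7 (.b 4 10 (.b 6 14 (.l 26) (.b 4 9 (.l 28) (.l
    27))) (.b 6 14 (.l 27) (.l 26))) (.l 25)) (.l 25)) (.l 24)) (.l 24))) (.l 23)) (.l 23)) (.l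
    22)) (.l 22))) (.b 1 9 (.l 22) (.l 21))) (.b 2 11 (.b 1 9 (.b 2 10 (.b 5 16 (.b 1 7 (.b 6 17
    (.b 5 14 (.b 1 6 (.b 2 8 (.l 24) (.b 6 15 (.b 5 13 (.b 6 14 (.b 5 11 (.b 6 12 (.b 5 10 (.b 4 22
    (.l 28) (.b 6 11 (.l 29) (.l 30))) (.b 4 22 (.b 6 11 (.l 29) (.b 4 20 (.b 4 19 (.b 0 10 (.l 32)
    (.b 4 17 (.b 4 16 (.l 34) (.l 35)) (.l 33))) (.l 31)) (.l 30))) (.l 28))) (.b 5 10 (.b 4 22 (.b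
    4 20 (.b 4 19 (.b 0 10 (.l 32) (.b 4 17 (.b 4 16 (.l 34) (.l 35)) (.l 33))) (.l 31)) (.l 30))
    (.l 28)) (.l 28))) (.l 27)) (.l 26)) (.l 25)) (.l 25))) (.b 2 8 (.b 6 15 (.b 2 7 (.b 5 13 (.l
    25) (.b 6 14 (.l 27) (.l 26))) (.b 5 13 (.b 6 14 (.b 5 11 (.b 6 12 (.b 5 10 (.b 4 22 (.l 28)
    (.b 6 11 (.l 29) (.l 30))) (.b 4 22 (.b 6 11 (.l 29) (.b 4 20 (.b 4 19 (.b 0 10 (.l 32) (.b 4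
    17 (.b 4 16 (.l 34) (.l 35)) (.l 33))) (.l 31)) (.l 30))) (.l 28))) (.b 5 10 (.b 4 22 (.b 4 20
    (.b 4 19 (.b 0 10 (.l 32) (.b 4 17 (.b 4 16 (.l 34) (.l 35)) (.l 33))) (.l 31)) (.l 30)) (.l
    28)) (.l 28))) (.l 27)) (.l 26)) (.l 25))) (.b 2 7 (.b 5 13 (.l 26) (.l 25)) (.l 25))) (.l
    24))) (.b 1 6 (.b 2 8 (.b 6 15 (.b 2 7 (.b 6 14 (.l 27) (.l 26)) (.l 25)) (.l 25)) (.l 24)) (.l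
    24))) (.l 23)) (.l 23)) (.l 22)) (.l 22)) (.l 21)) (.l 21))) (.l 20)) (.l 19))) (.b 0 9 (.b 2
    13 (.b 1 10 (.b 0 8 (.l 20) (.b 4 15 (.b 2 11 (.b 1 9 (.l 21) (.b 2 10 (.b 5 16 (.b 4 13 (.b 6
    17 (.b 5 14 (.b 4 12 (.b 2 8 (.l 24) (.b 6 15 (.b 5 13 (.b 4 10 (.b 6 14 (.l 26) (.b 4 9 (.b 5
    11 (.l 27) (.l 28)) (.b 5 11 (.b 5 10 (.l 32) (.l 28)) (.l 27)))) (.b 6 14 (.b 5 11 (.b 6 12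
    (.b 5 10 (.l 28) (.b 6 11 (.l 29) (.l 32))) (.b 5 10 (.l 32) (.l 28))) (.l 27)) (.l 26))) (.l
    25)) (.l 25))) (.b 2 8 (.b 6 15 (.b 2 7 (.b 5 13 (.l 25) (.b 6 14 (.l 27) (.l 26))) (.b 5 13
    (.b 6 14 (.b 5 11 (.b 6 12 (.b 5 10 (.l 28) (.b 6 11 (.l 29) (.l 32))) (.b 5 10 (.l 32) (.l
    28))) (.l 27)) (.l 26)) (.l 25))) (.b 2 7 (.b 5 13 (.l 26) (.l 25)) (.l 25))) (.l 24))) (.b 4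
    12 (.b 2 8 (.b 6 15 (.b 2 7 (.b 4 10 (.b 6 14 (.l 26) (.b 4 9 (.l 28) (.l 27))) (.b 6 14 (.l
    27) (.l 26))) (.l 25)) (.l 25)) (.l 24)) (.l 24))) (.l 23)) (.l 23)) (.l 22)) (.l 22))) (.b 1 9
    (.l 22) (.l 21))) (.b 2 11 (.b 1 9 (.b 2 10 (.b 5 16 (.b 1 7 (.b 6 17 (.b 5 14 (.b 1 6 (.b 2 8
    (.l 24) (.b 6 15 (.b 5 13 (.b 6 14 (.b 5 11 (.b 6 12 (.b 5 10 (.b 4 22 (.l 28) (.b 6 11 (.l 29)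
    (.l 30))) (.b 4 22 (.b 6 11 (.l 29) (.b 4 20 (.b 4 19 (.l 32) (.l 31)) (.l 30))) (.l 28))) (.b
    5 10 (.b 4 22 (.b 4 20 (.b 4 19 (.l 32) (.l 31)) (.l 30)) (.l 28)) (.l 28))) (.l 27)) (.l 26))
    (.l 25)) (.l 25))) (.b 2 8 (.b 6 15 (.b 2 7 (.b 5 13 (.l 25) (.b 6 14 (.l 27) (.l 26))) (.b 5
    13 (.b 6 14 (.b 5 11 (.b 6 12 (.b 5 10 (.b 4 22 (.l 28) (.b 6 11 (.l 29) (.l 30))) (.b 4 22 (.b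
    6 11 (.l 29) (.b 4 20 (.b 4 19 (.l 32) (.l 31)) (.l 30))) (.l 28))) (.b 5 10 (.b 4 22 (.b 4 20
    (.b 4 19 (.l 32) (.l 31)) (.l 30)) (.l 28)) (.l 28))) (.l 27)) (.l 26)) (.l 25))) (.b 2 7 (.b 5
    13 (.l 26) (.l 25)) (.l 25))) (.l 24))) (.b 1 6 (.b 2 8 (.b 6 15 (.b 2 7 (.b 6 14 (.l 27) (.l
    26)) (.l 25)) (.l 25)) (.l 24)) (.l 24))) (.l 23)) (.l 23)) (.l 22)) (.l 22)) (.l 21)) (.l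
    21)))) (.b 0 8 (.b 4 15 (.b 2 11 (.b 2 10 (.b 0 6 (.b 5 16 (.l 22) (.b 0 5 (.b 4 13 (.b 6 17
    (.l 23) (.b 0 4 (.b 4 12 (.b 2 8 (.l 24) (.l 25)) (.b 2 8 (.b 2 7 (.b 0 3 (.b 0 2 (.b 0 1 (.l
    27) (.l 28)) (.l 26)) (.l 25)) (.l 25)) (.l 24))) (.b 4 12 (.b 2 8 (.l 25) (.l 24)) (.l 24))))
    (.b 6 17 (.b 0 4 (.b 2 8 (.b 6 15 (.b 2 7 (.b 0 3 (.l 25) (.b 6 14 (.b 6 12 (.b 5 23 (.l 29)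
    (.b 6 11 (.l 29) (.l 30))) (.l 28)) (.l 26))) (.b 0 3 (.b 6 14 (.b 0 2 (.l 26) (.b 6 12 (.b 5
    23 (.l 29) (.b 6 11 (.l 29) (.l 30))) (.l 28))) (.b 0 2 (.b 0 1 (.l 27) (.l 28)) (.l 26))) (.l
    25))) (.b 2 7 (.b 0 3 (.b 0 2 (.b 0 1 (.l 27) (.l 28)) (.l 26)) (.l 25)) (.l 25))) (.l 24)) (.l
    24)) (.l 23))) (.b 4 13 (.b 6 17 (.b 4 12 (.b 2 8 (.b 6 15 (.b 2 7 (.b 4 10 (.b 6 14 (.l 26)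
    (.b 4 9 (.l 28) (.l 27))) (.b 6 14 (.l 27) (.l 26))) (.l 25)) (.l 25)) (.l 24)) (.l 24)) (.l
    23)) (.l 23)))) (.b 5 16 (.b 4 13 (.b 6 17 (.b 5 14 (.b 4 12 (.b 2 8 (.l 24) (.b 6 15 (.b 5 13
    (.b 4 10 (.b 6 14 (.l 26) (.b 4 9 (.b 5 11 (.l 27) (.l 28)) (.b 5 11 (.b 5 10 (.l 32) (.l 28))
    (.l 27)))) (.b 6 14 (.b 5 11 (.b 6 12 (.b 5 10 (.l 28) (.b 6 11 (.l 29) (.l 32))) (.b 5 10 (.l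
    32) (.l 28))) (.l 27)) (.l 26))) (.l 25)) (.l 25))) (.b 2 8 (.b 6 15 (.b 2 7 (.b 5 13 (.l 25)
    (.b 6 14 (.l 27) (.l 26))) (.b 5 13 (.b 6 14 (.b 5 11 (.b 6 12 (.b 5 10 (.l 28) (.b 6 11 (.l
    29) (.l 32))) (.b 5 10 (.l 32) (.l 28))) (.l 27)) (.l 26)) (.l 25))) (.b 2 7 (.b 5 13 (.l 26)
    (.l 25)) (.l 25))) (.l 24))) (.b 4 12 (.b 2 8 (.b 6 15 (.b 2 7 (.b 4 10 (.b 6 14 (.l 26) (.b 4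
    9 (.l 28) (.l 27))) (.b 6 14 (.l 27) (.l 26))) (.l 25)) (.l 25)) (.l 24)) (.l 24))) (.l 23))
    (.l 23)) (.l 22))) (.b 0 6 (.b 5 16 (.b 0 5 (.b 4 13 (.b 6 17 (.l 23) (.b 5 14 (.b 0 4 (.b 4 12
    (.l 24) (.b 5 13 (.b 0 3 (.b 0 2 (.b 0 1 (.l 27) (.b 5 11 (.l 27) (.l 28))) (.l 26)) (.l 25))
    (.l 25))) (.b 4 12 (.l 25) (.l 24))) (.b 0 4 (.b 4 12 (.l 25) (.l 24)) (.l 24)))) (.b 6 17 (.b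
    5 14 (.b 0 4 (.b 5 13 (.b 6 15 (.b 0 3 (.l 25) (.b 6 14 (.b 5 11 (.l 27) (.b 6 12 (.l 29) (.l
    28))) (.l 26))) (.b 0 3 (.b 0 2 (.b 0 1 (.l 27) (.b 5 11 (.l 27) (.l 28))) (.l 26)) (.l 25)))
    (.b 6 15 (.b 0 3 (.b 6 14 (.b 0 2 (.l 26) (.b 6 12 (.l 29) (.l 28))) (.b 0 2 (.b 0 1 (.l 27)
    (.l 28)) (.l 26))) (.l 25)) (.l 25))) (.l 24)) (.l 24)) (.l 23))) (.b 4 13 (.b 6 17 (.b 5 14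
    (.b 4 12 (.b 6 15 (.b 5 13 (.b 4 10 (.b 6 14 (.l 26) (.b 4 9 (.b 5 11 (.l 27) (.l 28)) (.b 5 11
    (.b 5 10 (.l 32) (.l 28)) (.l 27)))) (.b 6 14 (.b 5 11 (.b 6 12 (.b 5 10 (.l 28) (.b 6 11 (.l
    29) (.l 32))) (.b 5 10 (.l 32) (.l 28))) (.l 27)) (.l 26))) (.l 25)) (.l 25)) (.l 24)) (.l 24))
    (.l 23)) (.l 23))) (.l 22)) (.l 22))) (.l 21)) (.l 21)) (.l 20))) (.l 19)) (.l 19))) (.l 18))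
    (.l 18)) (.l 17)) (.l 16))) (.l 15)))) (.l 13))))))

theorem c_7_3 {b : ℕ → ℕ} (hb : ∀ j, 1 ≤ j → j ≤ 7 → 1 ≤ b j)
    (hId : Identity 7 3 b) :
    (List.range 7).map (bv 7 b) ∈ ([[15, 10, 10, 7, 12, 7, 7]] : List (List ℕ)) :=
  final (N := 52) (mask := 9007199254740840)
    (t := t_7_3) (by norm_num) hb hId (by decide +kernel) (by decide +kernel)
    (by decide +kernel)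

end Pool.Agent.H372R3.GE
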