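import Pool.Agent.H372R3.GE2

set_option autoImplicit false
set_option maxRecDepth 1000000

namespace Pool.Agent.H372R3.GE

open Pool.Agent.MPe9218d Pool.Agent.H372R3.GD

def t_8_1 : Tree :=
    (.b 7 8 (.l 22) (.b 6 15 (.l 29) (.b 7 16 (.l 30) (.b 6 23 (.l 37) (.b 7 24 (.b 6 31 (.l 45)
    (.b 5 38 (.l 52) (.b 6 39 (.l 53) (.b 5 46 (.l 60) (.b 6 47 (.b 7 17 (.l 61) (.b 5 54 (.l 68)
    (.b 5 62 (.l 76) (.b 4 69 (.l 83) (.b 6 40 (.l 84) (.b 5 70 (.l 84) (.b 4 77 (.l 91) (.b 5 78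
    (.l 92) (.b 4 85 (.l 99) (.b 5 86 (.b 4 93 (.l 107) (.b 7 18 (.b 4 101 (.l 115) (.l 116)) (.l
    108))) (.l 100))))))))))) (.b 7 17 (.b 5 54 (.l 68) (.b 6 55 (.b 5 62 (.l 76) (.b 4 69 (.l 83)
    (.b 5 70 (.l 84) (.b 4 77 (.l 91) (.b 6 48 (.b 5 78 (.l 92) (.b 4 85 (.l 99) (.b 5 86 (.b 4 93
    (.l 107) (.b 4 101 (.l 115) (.b 3 108 (.l 122) (.b 5 79 (.l 123) (.b 4 109 (.l 123) (.l
    124)))))) (.l 100)))) (.b 5 78 (.b 4 85 (.l 99) (.b 4 93 (.l 107) (.b 5 71 (.l 115) (.b 4 101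
    (.l 115) (.b 3 108 (.l 122) (.l 123)))))) (.l 92))))))) (.l 69))) (.l 61))))))) (.l 38))))))

theorem c_8_1 {b : ℕ → ℕ} (hb : ∀ j, 1 ≤ j → j ≤ 8 → 1 ≤ b j)
    (hId : Identity 8 1 b) :
    (List.range 8).map (bv 8 b) ∈ ([] : List (List ℕ)) :=
  final (N := 124) (mask := 33194048387386180095970789626650591360)
    (t := t_8_1) (by norm_num) hb hId (by decide +kernel) (by decide +kernel)
    (by decide +kernel)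

def t_8_2 : Tree :=
    (.b 7 1 (.l 13) (.b 5 7 (.l 19) (.b 6 8 (.l 20) (.b 7 9 (.b 7 8 (.b 4 14 (.l 26) (.b 5 15 (.l
    27) (.b 6 16 (.b 7 2 (.l 28) (.b 6 15 (.b 3 21 (.l 33) (.b 4 22 (.l 34) (.b 6 9 (.b 5 23 (.l
    35) (.l 36)) (.b 5 23 (.b 5 22 (.b 3 29 (.l 41) (.b 5 16 (.b 4 30 (.l 42) (.b 7 3 (.b 2 36 (.l
    48) (.b 3 37 (.l 49) (.b 4 38 (.b 6 10 (.l 50) (.b 4 37 (.b 1 43 (.l 55) (.b 2 44 (.l 56) (.b 3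
    45 (.l 57) (.b 4 31 (.l 57) (.b 1 51 (.l 63) (.b 2 52 (.l 64) (.b 3 53 (.b 6 11 (.l 66) (.l
    65)) (.l 65)))))))) (.l 51))) (.b 6 10 (.l 51) (.l 50))))) (.l 43))) (.b 4 30 (.b 4 29 (.b 7 3
    (.l 43) (.b 2 36 (.l 48) (.b 4 23 (.l 49) (.b 3 37 (.l 49) (.b 6 10 (.l 50) (.b 1 43 (.l 55)
    (.b 2 44 (.l 56) (.b 5 17 (.l 57) (.b 3 45 (.l 57) (.b 7 4 (.b 1 51 (.l 63) (.b 4 24 (.l 64)
    (.b 2 52 (.l 64) (.b 3 53 (.b 6 11 (.l 65) (.b 3 52 (.b 0 58 (.l 70) (.b 1 59 (.l 71) (.b 3 46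
    (.b 2 60 (.l 72) (.b 5 18 (.l 72) (.l 73))) (.b 2 60 (.b 5 18 (.l 72) (.b 2 59 (.b 0 66 (.l 78)
    (.b 1 67 (.b 4 25 (.l 79) (.b 2 53 (.l 79) (.b 1 66 (.l 80) (.l 81)))) (.b 4 25 (.b 2 53 (.l
    79) (.l 81)) (.b 2 53 (.l 81) (.l 79))))) (.l 73))) (.b 5 18 (.l 73) (.l 72)))))) (.l 66))) (.b
    6 11 (.l 66) (.l 65)))))) (.l 58))))))))))) (.b 7 3 (.b 2 36 (.l 48) (.b 3 37 (.l 49) (.b 6 10
    (.l 50) (.b 1 43 (.l 55) (.b 2 44 (.l 56) (.b 5 17 (.l 57) (.b 3 45 (.l 57) (.b 1 51 (.l 63)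
    (.b 2 52 (.l 64) (.b 3 53 (.b 6 11 (.l 66) (.l 65)) (.l 65))))))))))) (.l 43))) (.l 42)))) (.l
    36)) (.l 35))))) (.l 29))) (.b 7 2 (.l 29) (.l 28))))) (.l 22)) (.l 21)))))

theorem c_8_2 {b : ℕ → ℕ} (hb : ∀ j, 1 ≤ j → j ≤ 8 → 1 ≤ b j)
    (hId : Identity 8 2 b) :
    (List.range 8).map (bv 8 b) ∈ ([] : List (List ℕ)) :=
  final (N := 81) (mask := 4835703206116118966100160)
    (t := t_8_2) (by norm_num) hb hId (by decide +kernel) (by decide +kernel)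
    (by decide +kernel)

end Pool.Agent.H372R3.GE
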