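import Pool.Agent.H372R3.GD5
import Pool.Agent.H372R3.GE3
import Pool.Agent.H372R3.GE4
import Pool.Agent.H372R3.GE5
import Pool.Agent.H372R3.GE6
import Pool.Agent.H372R3.GE7
import Pool.Agent.H372R3.GE8
import Pool.Agent.H372R3.GE9
import Pool.Agent.H372R3.GE10
import Pool.Agent.H372R3.GE11
import Pool.Agent.H372R3.GE13
import Pool.Agent.H372R3.GE14
import Pool.Agent.H372R3.GE15

set_option autoImplicit false

namespace Pool.Agent.H372R3.GE

open Pool.Agent.MPe9218d Pool.Agent.H372R3.GD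

theorem list11 (M s : ℕ) (b : ℕ → ℕ) (hs : 1 ≤ s) (hsM : 2 ^ (s - 1) ≤ M) (hM : M ≤ 11)
    (hb : ∀ j, 1 ≤ j → j ≤ M → 1 ≤ b j) (h : Identity M s b) :
    (M = 1 ∧ s = 1 ∧ b 1 = 1) ∨
    (M = 2 ∧ s = 1 ∧ b 1 = 6 ∧ b 2 = 7) ∨
    (M = 2 ∧ s = 2 ∧ b 1 = 1 ∧ b 2 = 1) ∨
    (M = 3 ∧ s = 2 ∧ b 1 = 3 ∧ b 2 = 3 ∧ b 3 = 4) ∨
    (M = 3 ∧ s = 2 ∧ b 1 = 3 ∧ b 2 = 2 ∧ b 3 = 5) ∨
    (M = 4 ∧ s = 3 ∧ b 1 = 3 ∧ b 2 = 2 ∧ b 3 = 3 ∧ b 4 = 2) ∨
    (M = 4 ∧ s = 3 ∧ b 1 = 4 ∧ b 2 = 1 ∧ b 3 = 4 ∧ b 4 = 1) ∨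
    (M = 6 ∧ s = 3 ∧ b 1 = 7 ∧ b 2 = 6 ∧ b 3 = 7 ∧ b 4 = 6 ∧ b 5 = 6 ∧ b 6 = 7) ∨
    (M = 6 ∧ s = 3 ∧ b 1 = 7 ∧ b 2 = 6 ∧ b 3 = 7 ∧ b 4 = 6 ∧ b 5 = 5 ∧ b 6 = 8) ∨
    (M = 7 ∧ s = 3 ∧ b 1 = 10 ∧ b 2 = 10 ∧ b 3 = 7 ∧ b 4 = 12 ∧ b 5 = 7 ∧ b 6 = 7 ∧ b 7 = 15) := by
  have hs4 : s ≤ 4 := by
    by_contra hcon
    have h1 : 2 ^ 4 ≤ 2 ^ (s - 1) := Nat.pow_le_pow_right (by norm_num) (by omega)
    norm_num at h1
    omega
  have hM1 : 1 ≤ M := le_trans Nat.one_le_two_pow hsM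
  interval_cases M <;> interval_cases s <;> norm_num at hsM
  all_goals clear hM hM1 hs hs4
  · have := c_1_1 hb h
    clear h hb
    simp [List.range_succ, bv, resM, INF] at this
    norm_num
    omega
  · have := c_2_1 hb h
    clear h hb
    simp [List.range_succ, bv, resM, INF] at this
    norm_num
    omega
  · have := c_2_2 hb h
    clear h hb
    simp [List.range_succ, bv, resM, INF] at this
    norm_num
    omega
  · have := c_3_1 hb h
    simp at this
  · have := c_3_2 hb h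
    clear h hb
    simp [List.range_succ, bv, resM, INF] at this
    norm_num
    omega
  · have := c_4_1 hb h
    simp at this
  · have := c_4_2 hb h
    simp at this
  · have := (Pool.Agent.H372R3.GD.main43 b hb).1 h
    clear h hb
    norm_num
    omega
  · have := c_5_1 hb h
    simp at this
  · have := c_5_2 hb h
    simp at this
  · have := c_5_3 hb h
    simp at this
  · have := c_6_1 hb h
    simp at this
  · have := c_6_2 hb h
    simp at this
  · have := c_6_3 hb h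
    clear h hb
    simp [List.range_succ, bv, resM, INF] at this
    norm_num
    omega
  · have := c_7_1 hb h
    simp at this
  · have := c_7_2 hb h
    simp at this
  · have := c_7_3 hb h
    clear h hb
    simp [List.range_succ, bv, resM, INF] at this
    norm_num
    omega
  · have := c_8_1 hb h
    simp at this
  · have := c_8_2 hb h
    simp at this
  · have := c_8_3 hb h
    simp at this
  · have := c_8_4 hb h
    simp at this
  · have := c_9_1 hb h
    simp at this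
  · have := c_9_2 hb h
    simp at this
  · have := c_9_3 hb h
    simp at this
  · have := c_9_4 hb h
    simp at this
  · have := c_10_1 hb h
    simp at this
  · have := c_10_2 hb h
    simp at this
  · have := c_10_3 hb h
    simp at this
  · have := c_10_4 hb h
    simp at this
  · have := c_11_1 hb h
    simp at this
  · have := c_11_2 hb h
    simp at this
  · have := c_11_3 hb h
    simp at this
  · have := c_11_4 hb h
    simp at this

end Pool.Agent.H372R3.GE
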