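import Pool.Agent.H372R3.GE1

set_option autoImplicit false

namespace Pool.Agent.H372R3.GE

open Pool.Agent.MPe9218d Pool.Agent.H372R3.GD

/-- certificates: `s` solution reached, `l n` contradiction at `n`, `b j g t u` case split
`b_j ≤ g` or `b_j ≥ g + 1` -/
inductive Tree
  | s : Tree
  | l : ℕ → Tree
  | b : ℕ → ℕ → Tree → Tree → Tree

def INF : ℕ := 1000000

def dl (M : ℕ) (xs : List ℕ) (e : ℕ) : ℕ := xs.getD (e % M) 1

def ck (M s N mask : ℕ) (sols : List (List ℕ)) : Tree → List ℕ → List ℕ → Bool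
  | .s, lo, hi => (lo == hi) && sols.elem lo
  | .l n, lo, hi => Nat.ble n N && Nat.ble 1 n &&
      (Nat.blt (cnt (okAb M s) (fun _ => 1) n n n) (cnt (fun e => mask.testBit e) (dl M hi) n n n) ||
       Nat.blt (cnt (fun e => mask.testBit e) (dl M lo) n n n) (cnt (okAb M s) (fun _ => 1) n n n))
  | .b j g t u, lo, hi => Nat.blt j M && (ck M s N mask sols t lo (hi.set j g) &&
      ck M s N mask sols u (lo.set j (g + 1)) hi)

def ckC (M s mask : ℕ) : ℕ → Bool
  | 0 => true
  | N + 1 => ckC M s mask N &&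
      (mask.testBit (N + 1) == !(cnt (okAb M s) (fun _ => 1) (N + 1) (N + 1) (N + 1) == 0))

theorem ckC_sound {M s mask : ℕ} : ∀ {N : ℕ}, ckC M s mask N = true → ∀ e, 1 ≤ e → e ≤ N →
    (e ∉ C M s ↔ mask.testBit e = true) := by
  intro N
  induction N with
  | zero => intro _ e h1 h2; omega
  | succ N ih =>
    intro h e h1 h2
    rw [ckC, Bool.and_eq_true, beq_iff_eq] at h
    by_cases he : e = N + 1
    · subst he
      rw [h.2]
      unfold C
      rw [Set.mem_ofPred_eq, A_cnt]
      simp
    · exact ih h.1 e h1 (by omega)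

theorem getD_set (xs : List ℕ) (j g r : ℕ) (hj : j < xs.length) :
    (xs.set j g).getD r 1 = if r = j then g else xs.getD r 1 := by
  rw [List.getD_eq_getElem?_getD, List.getD_eq_getElem?_getD, List.getElem?_set]
  by_cases h : r = j
  · subst h
    simp [hj]
  · rw [if_neg h, if_neg (fun h' => h h'.symm)]

/-- the capped values, indexed by residue -/
def bv (M : ℕ) (b : ℕ → ℕ) (r : ℕ) : ℕ := min (b (resM M r)) INF

theorem resM_mod {M : ℕ} (e : ℕ) : resM M (e % M) = resM M e := by
  unfold resM
  rw [Nat.mod_mod]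

theorem B_cnt {M s N mask : ℕ} (hM : 1 ≤ M) {b : ℕ → ℕ} (hb : ∀ j, 1 ≤ j → j ≤ M → 1 ≤ b j)
    (hN : N < INF) (hC : ∀ e, 1 ≤ e → e ≤ N → (e ∉ C M s ↔ mask.testBit e = true)) {n : ℕ}
    (hn : n ≤ N) : B0 b M (C M s) n =
      cnt (fun e => mask.testBit e) (fun e => bv M b (e % M)) n n n := by
  unfold B0
  have hd : ∀ e, 1 ≤ bv M b (e % M) := by
    intro e
    have h1 := res_pos hM hb (e % M)
    unfold bv INF
    omega
  rw [BSet_eq hM b hb, LSet_cap (N := INF - 1) (by omega),
    LSet_congr_ok (ok' := fun e => mask.testBit e = true) (fun e h1 h2 => hC e h1 (by omega)),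
    ← cnt_eq _ _ hd n n n le_rfl]
  congr 2
  funext e
  unfold bv
  rw [resM_mod]
  rfl

theorem sound {M s N mask : ℕ} {sols : List (List ℕ)} (hM : 1 ≤ M) {b : ℕ → ℕ}
    (hb : ∀ j, 1 ≤ j → j ≤ M → 1 ≤ b j) (hId : Identity M s b)
    (hN : N < INF) (hC : ∀ e, 1 ≤ e → e ≤ N → (e ∉ C M s ↔ mask.testBit e = true)) :
    ∀ (t : Tree) (lo hi : List ℕ), ck M s N mask sols t lo hi = true → lo.length = M →
      hi.length = M → (∀ r, r < M → 1 ≤ lo.getD r 1) →
      (∀ r, r < M → lo.getD r 1 ≤ bv M b r ∧ bv M b r ≤ hi.getD r 1) →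
      (List.range M).map (bv M b) ∈ sols := by
  intro t
  induction t with
  | s =>
    intro lo hi h hlo hhi _ hbd
    rw [ck, Bool.and_eq_true, beq_iff_eq, List.elem_iff] at h
    obtain ⟨h1, h2⟩ := h
    have : (List.range M).map (bv M b) = lo := by
      apply List.ext_getElem
      · simp [hlo]
      · intro i h3 h4
        have h5 := hbd i (by omega)
        rw [← h1, List.getD_eq_getElem _ _ h4] at h5
        simp only [List.getElem_map, List.getElem_range]
        omega
    rw [this]
    exact h2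
  | l n =>
    intro lo hi h hlo hhi hpos hbd
    exfalso
    rw [ck] at h
    simp only [Bool.and_eq_true, Bool.or_eq_true, Nat.ble_eq, Nat.blt_eq] at h
    obtain ⟨⟨h1, h2⟩, h3⟩ := h
    have hA := hId n h2
    rw [A_cnt, B_cnt hM hb hN hC h1] at hA
    have hlt : ∀ e, e % M < M := fun e => Nat.mod_lt _ hM
    have m1 : cnt (fun e => mask.testBit e) (dl M hi) n n n ≤
        cnt (fun e => mask.testBit e) (fun e => bv M b (e % M)) n n n := by
      refine cnt_mono (fun e => ?_) (fun e => (hbd _ (hlt e)).2) n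
      have := hbd _ (hlt e)
      have := hpos _ (hlt e)
      omega
    have m2 : cnt (fun e => mask.testBit e) (fun e => bv M b (e % M)) n n n ≤
        cnt (fun e => mask.testBit e) (dl M lo) n n n :=
      cnt_mono (fun e => hpos _ (hlt e)) (fun e => (hbd _ (hlt e)).1) n
    omega
  | b j g t u iht ihu =>
    intro lo hi h hlo hhi hpos hbd
    rw [ck] at h
    simp only [Bool.and_eq_true, Nat.blt_eq] at h
    obtain ⟨h1, h2, h3⟩ := h
    by_cases hg : bv M b j ≤ g
    · refine iht lo (hi.set j g) h2 hlo (by simpa using hhi) hpos (fun r hr => ?_)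
      rw [getD_set _ _ _ _ (by omega)]
      refine ⟨(hbd r hr).1, ?_⟩
      split_ifs with hrj
      · rw [hrj]; exact hg
      · exact (hbd r hr).2
    · refine ihu (lo.set j (g + 1)) hi h3 (by simpa using hlo) hhi (fun r hr => ?_)
        (fun r hr => ?_)
      · rw [getD_set _ _ _ _ (by omega)]
        split_ifs with hrj
        · omega
        · exact hpos r hr
      · rw [getD_set _ _ _ _ (by omega)]
        refine ⟨?_, (hbd r hr).2⟩
        split_ifs with hrj
        · rw [hrj]; omega
        · exact (hbd r hr).1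

theorem getD_replicate (M x r : ℕ) (hr : r < M) : (List.replicate M x).getD r 1 = x := by
  rw [List.getD_eq_getElem _ _ (by simpa using hr)]
  simp

theorem final {M s N mask : ℕ} {sols : List (List ℕ)} {t : Tree} (hM : 1 ≤ M) {b : ℕ → ℕ}
    (hb : ∀ j, 1 ≤ j → j ≤ M → 1 ≤ b j) (hId : Identity M s b)
    (hN : Nat.blt N INF = true) (hC : ckC M s mask N = true)
    (ht : ck M s N mask sols t (List.replicate M 1) (List.replicate M INF) = true) :
    (List.range M).map (bv M b) ∈ sols := by
  refine sound hM hb hId (by simpa [Nat.blt_eq] using hN) (ckC_sound hC) t _ _ ht (by simp)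
    (by simp) (fun r hr => ?_) (fun r hr => ?_)
  · rw [getD_replicate _ _ _ hr]
  · rw [getD_replicate _ _ _ hr, getD_replicate _ _ _ hr]
    have := res_pos hM hb r
    unfold bv
    constructor
    · exact le_min this (by norm_num [INF])
    · exact min_le_right _ _

end Pool.Agent.H372R3.GE
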