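import Pool.Agent.H372R3.GE2
import Pool.Agent.H372R3.GD3

set_option autoImplicit false

namespace Pool.Agent.H372R3.GE

open Pool.Agent.MPe9218d Pool.Agent.H372R3.GD PowerSeries

/-! ### The two solutions for `M = 6` -/

section
variable {ok : ℕ → Prop} {d d' : ℕ → ℕ}

theorem gf_step (hd : ∀ e, 1 ≤ d e) (m g : ℕ) (hg : d (m + 1) = g) (h : ok (m + 1)) :
    gf ok d (m + 1) = gf ok d m + X ^ (m + 1) * gf ok d (m + 1 - g) := by
  rw [← hg]; exact gf_ok hd h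

/-- generating functions agree at all arguments not congruent to 5 mod 6 -/
theorem six_aux (hd : ∀ e, 1 ≤ d e) (hd' : ∀ e, 1 ≤ d' e)
    (hok : ∀ e, 1 ≤ e → (ok e ↔ e ≠ 1 ∧ e ≠ 3))
    (h1 : ∀ k, d (6 * k + 1) = 7) (h2 : ∀ k, d (6 * k + 2) = 6) (h3 : ∀ k, d (6 * k + 3) = 7)
    (h4 : ∀ k, d (6 * k + 4) = 6) (h5 : ∀ k, d (6 * k + 5) = 6) (h6 : ∀ k, d (6 * k + 6) = 7)
    (g1 : ∀ k, d' (6 * k + 1) = 7) (g2 : ∀ k, d' (6 * k + 2) = 6) (g3 : ∀ k, d' (6 * k + 3) = 7)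
    (g4 : ∀ k, d' (6 * k + 4) = 6) (g5 : ∀ k, d' (6 * k + 5) = 5)
    (g6 : ∀ k, d' (6 * k + 6) = 8) (k : ℕ) :
    gf ok d (6 * k - 2) = gf ok d' (6 * k - 2) ∧
    gf ok d (6 * k) = gf ok d' (6 * k) ∧ gf ok d (6 * k + 1) = gf ok d' (6 * k + 1) ∧
    gf ok d (6 * k + 2) = gf ok d' (6 * k + 2) ∧ gf ok d (6 * k + 3) = gf ok d' (6 * k + 3) ∧
    gf ok d (6 * k + 4) = gf ok d' (6 * k + 4) := by
  have o1 : ¬ ok 1 := by rw [hok 1 le_rfl]; simp
  have o3 : ¬ ok 3 := by rw [hok 3 (by norm_num)]; simp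
  induction k with
  | zero =>
    have a1 : gf ok d 1 = gf ok d 0 := gf_not hd o1
    have b1 : gf ok d' 1 = gf ok d' 0 := gf_not hd' o1
    have a2 := gf_step hd 1 6 (h2 0) ((hok 2 (by norm_num)).mpr ⟨by norm_num, by norm_num⟩)
    have b2 := gf_step hd' 1 6 (g2 0) ((hok 2 (by norm_num)).mpr ⟨by norm_num, by norm_num⟩)
    have a3 : gf ok d 3 = gf ok d 2 := gf_not hd o3
    have b3 : gf ok d' 3 = gf ok d' 2 := gf_not hd' o3
    have a4 := gf_step hd 3 6 (h4 0) ((hok 4 (by norm_num)).mpr ⟨by norm_num, by norm_num⟩)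
    have b4 := gf_step hd' 3 6 (g4 0) ((hok 4 (by norm_num)).mpr ⟨by norm_num, by norm_num⟩)
    norm_num at a2 b2 a4 b4
    simp only [Nat.mul_zero, zero_add, Nat.zero_sub]
    rw [a4, b4, a3, b3, a2, b2, a1, b1, gf_zero, gf_zero]
    simp
  | succ k ih =>
    obtain ⟨i9, i0, i1, i2, i3, i4⟩ := ih
    have a5 := gf_step hd (6 * k + 4) 6 (h5 k) ((hok _ (by omega)).mpr ⟨by omega, by omega⟩)
    have b5 := gf_step hd' (6 * k + 4) 5 (g5 k) ((hok _ (by omega)).mpr ⟨by omega, by omega⟩)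
    have a6 := gf_step hd (6 * k + 5) 7 (h6 k) ((hok _ (by omega)).mpr ⟨by omega, by omega⟩)
    have b6 := gf_step hd' (6 * k + 5) 8 (g6 k) ((hok _ (by omega)).mpr ⟨by omega, by omega⟩)
    have a7 := gf_step hd (6 * k + 6) 7 (h1 (k + 1)) ((hok _ (by omega)).mpr ⟨by omega, by omega⟩)
    have b7 := gf_step hd' (6 * k + 6) 7 (g1 (k + 1)) ((hok _ (by omega)).mpr ⟨by omega, by omega⟩)
    have a8 := gf_step hd (6 * k + 7) 6 (h2 (k + 1)) ((hok _ (by omega)).mpr ⟨by omega, by omega⟩)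
    have b8 := gf_step hd' (6 * k + 7) 6 (g2 (k + 1)) ((hok _ (by omega)).mpr ⟨by omega, by omega⟩)
    have a9 := gf_step hd (6 * k + 8) 7 (h3 (k + 1)) ((hok _ (by omega)).mpr ⟨by omega, by omega⟩)
    have b9 := gf_step hd' (6 * k + 8) 7 (g3 (k + 1)) ((hok _ (by omega)).mpr ⟨by omega, by omega⟩)
    have a10 := gf_step hd (6 * k + 9) 6 (h4 (k + 1)) ((hok _ (by omega)).mpr ⟨by omega, by omega⟩)
    have b10 := gf_step hd' (6 * k + 9) 6 (g4 (k + 1)) ((hok _ (by omega)).mpr ⟨by omega, by omega⟩)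
    rw [show 6 * k + 4 + 1 - 6 = 6 * k - 1 by omega, show 6 * k + 4 + 1 = 6 * k + 5 by ring] at a5
    rw [show 6 * k + 4 + 1 - 5 = 6 * k by omega, show 6 * k + 4 + 1 = 6 * k + 5 by ring] at b5
    rw [show 6 * k + 5 + 1 - 7 = 6 * k - 1 by omega, show 6 * k + 5 + 1 = 6 * k + 6 by ring] at a6
    rw [show 6 * k + 5 + 1 - 8 = 6 * k - 2 by omega, show 6 * k + 5 + 1 = 6 * k + 6 by ring] at b6
    rw [show 6 * k + 6 + 1 - 7 = 6 * k by omega, show 6 * k + 6 + 1 = 6 * k + 7 by ring] at a7 b7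
    rw [show 6 * k + 7 + 1 - 6 = 6 * k + 2 by omega, show 6 * k + 7 + 1 = 6 * k + 8 by ring]
      at a8 b8
    rw [show 6 * k + 8 + 1 - 7 = 6 * k + 2 by omega, show 6 * k + 8 + 1 = 6 * k + 9 by ring]
      at a9 b9
    rw [show 6 * k + 9 + 1 - 6 = 6 * k + 4 by omega, show 6 * k + 9 + 1 = 6 * k + 10 by ring]
      at a10 b10
    have key : gf ok d (6 * k + 6) = gf ok d' (6 * k + 6) := by
      rw [a6, b6, a5, b5, i4, ← i0, ← i9]
      rcases k with _ | k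
      · simp only [Nat.mul_zero, Nat.zero_sub, gf_zero]
      · have c1 := gf_step hd (6 * k + 5) 7 (h6 k) ((hok _ (by omega)).mpr ⟨by omega, by omega⟩)
        have c2 := gf_step hd (6 * k + 4) 6 (h5 k) ((hok _ (by omega)).mpr ⟨by omega, by omega⟩)
        rw [show 6 * k + 5 + 1 - 7 = 6 * k - 1 by omega,
          show 6 * k + 5 + 1 = 6 * (k + 1) by ring] at c1
        rw [show 6 * k + 4 + 1 - 6 = 6 * k - 1 by omega,
          show 6 * k + 4 + 1 = 6 * k + 5 by ring] at c2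
        rw [show 6 * (k + 1) - 1 = 6 * k + 5 by omega, show 6 * (k + 1) - 2 = 6 * k + 4 by omega,
          c1, c2]
        ring
    have e1 : gf ok d (6 * k + 7) = gf ok d' (6 * k + 7) := by rw [a7, b7, key, i0]
    have e2 : gf ok d (6 * k + 8) = gf ok d' (6 * k + 8) := by rw [a8, b8, e1, i2]
    have e3 : gf ok d (6 * k + 9) = gf ok d' (6 * k + 9) := by rw [a9, b9, e2, i2]
    have e4 : gf ok d (6 * k + 10) = gf ok d' (6 * k + 10) := by rw [a10, b10, e3, i4]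
    refine ⟨?_, ?_, ?_, ?_, ?_, ?_⟩
    · rw [show 6 * (k + 1) - 2 = 6 * k + 4 by omega]; exact i4
    · exact key
    · exact e1
    · exact e2
    · exact e3
    · exact e4

end

end Pool.Agent.H372R3.GE
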