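import Pool.Agent.H372R3.GF1

set_option autoImplicit false

namespace Pool.Agent.H372R3.GE

open Pool.Agent.MPe9218d Pool.Agent.H372R3.GD

theorem C63 (e : ℕ) (he : 1 ≤ e) : e ∉ C 6 3 ↔ e ≠ 1 ∧ e ≠ 3 := by
  have hmem : e ∉ C 6 3 ↔ cnt (okAb 6 3) (fun _ => 1) e e e ≠ 0 := by
    unfold C
    rw [Set.mem_ofPred_eq, A_cnt]
    simp [he]
  constructor
  · intro h
    rw [hmem] at h
    constructor
    · rintro rfl
      exact h (by decide +kernel)
    · rintro rfl
      exact h (by decide +kernel)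
  · rintro ⟨h1, h3⟩ hC
    have h0 := hC.2
    unfold A at h0
    rw [ASet_eq, Set.ncard_eq_zero (finite_LSet (fun _ => le_rfl) _ _)] at h0
    have r1 : ∀ x, x % 6 = 5 → okA 6 3 x := fun x hx =>
      ⟨1, by norm_num, by norm_num, by show x % 6 = (a 6 1) % 6; simp [a, hx]⟩
    have r2 : ∀ x, x % 6 = 4 → okA 6 3 x := fun x hx =>
      ⟨2, by norm_num, by norm_num, by show x % 6 = (a 6 2) % 6; simp [a, hx]⟩
    have r3 : ∀ x, x % 6 = 2 → okA 6 3 x := fun x hx =>
      ⟨3, by norm_num, by norm_num, by show x % 6 = (a 6 3) % 6; simp [a, hx]⟩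
    have one : ∀ x, x = e → okA 6 3 x → False := by
      rintro x rfl hx
      have : [x] ∈ LSet (okA 6 3) (fun _ => 1) x x := by
        refine ⟨?_, by simp, by simp⟩
        intro y hy
        simp only [List.mem_cons, List.not_mem_nil, or_false] at hy
        subst hy
        exact ⟨he, le_rfl, hx⟩
      rw [h0] at this
      exact this
    have two : ∀ x y, x + y = e → y < x → 1 ≤ y → okA 6 3 x → okA 6 3 y → False := by
      intro x y hxy hlt hy1 hx hy
      have : [x, y] ∈ LSet (okA 6 3) (fun _ => 1) e e := by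
        refine ⟨?_, ?_, by simpa using hxy⟩
        · intro z hz
          simp only [List.mem_cons, List.not_mem_nil, or_false] at hz
          rcases hz with rfl | rfl
          · exact ⟨by omega, by omega, hx⟩
          · exact ⟨hy1, by omega, hy⟩
        · simp; omega
      rw [h0] at this
      exact this
    have hm : e % 6 < 6 := Nat.mod_lt _ (by norm_num)
    have hcase : e % 6 = 0 ∨ e % 6 = 1 ∨ e % 6 = 2 ∨ e % 6 = 3 ∨ e % 6 = 4 ∨ e % 6 = 5 := by omega
    rcases hcase with h | h | h | h | h | h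
    · exact two (e - 2) 2 (by omega) (by omega) (by norm_num) (r2 _ (by omega)) (r3 _ (by norm_num))
    · exact two (e - 2) 2 (by omega) (by omega) (by norm_num) (r1 _ (by omega)) (r3 _ (by norm_num))
    · exact one e rfl (r3 _ h)
    · exact two (e - 4) 4 (by omega) (by omega) (by norm_num) (r1 _ (by omega)) (r2 _ (by norm_num))
    · exact one e rfl (r2 _ h)
    · exact one e rfl (r1 _ h)

theorem res_val (b : ℕ → ℕ) (k j : ℕ) (hj : 1 ≤ j) (hj6 : j ≤ 6) : b (resM 6 (6 * k + j)) = b j := by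
  unfold resM
  by_cases h : j = 6
  · subst h
    rw [if_pos (by omega)]
  · rw [if_neg (by omega), show (6 * k + j) % 6 = j by omega]

theorem six_eq (b b' : ℕ → ℕ)
    (hb : b 1 = 7 ∧ b 2 = 6 ∧ b 3 = 7 ∧ b 4 = 6 ∧ b 5 = 6 ∧ b 6 = 7)
    (hb' : b' 1 = 7 ∧ b' 2 = 6 ∧ b' 3 = 7 ∧ b' 4 = 6 ∧ b' 5 = 5 ∧ b' 6 = 8) (n : ℕ) :
    B0 b 6 (C 6 3) n = B0 b' 6 (C 6 3) n := by
  obtain ⟨p1, p2, p3, p4, p5, p6⟩ := hb
  obtain ⟨q1, q2, q3, q4, q5, q6⟩ := hb'
  have hbp : ∀ j, 1 ≤ j → j ≤ 6 → 1 ≤ b j := by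
    intro j h1 h2; interval_cases j <;> omega
  have hbp' : ∀ j, 1 ≤ j → j ≤ 6 → 1 ≤ b' j := by
    intro j h1 h2; interval_cases j <;> omega
  unfold B0
  rw [BSet_eq (by norm_num) b hbp, BSet_eq (by norm_num) b' hbp']
  have h := (six_aux (ok := fun e => e ∉ C 6 3) (d := fun e => b (resM 6 e))
    (d' := fun e => b' (resM 6 e)) (res_pos (by norm_num) hbp) (res_pos (by norm_num) hbp') C63
    (fun k => (res_val b k 1 (by norm_num) (by norm_num)).trans p1)
    (fun k => (res_val b k 2 (by norm_num) (by norm_num)).trans p2)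
    (fun k => (res_val b k 3 (by norm_num) (by norm_num)).trans p3)
    (fun k => (res_val b k 4 (by norm_num) (by norm_num)).trans p4)
    (fun k => (res_val b k 5 (by norm_num) (by norm_num)).trans p5)
    (fun k => (res_val b k 6 (by norm_num) (by norm_num)).trans p6)
    (fun k => (res_val b' k 1 (by norm_num) (by norm_num)).trans q1)
    (fun k => (res_val b' k 2 (by norm_num) (by norm_num)).trans q2)
    (fun k => (res_val b' k 3 (by norm_num) (by norm_num)).trans q3)
    (fun k => (res_val b' k 4 (by norm_num) (by norm_num)).trans q4)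
    (fun k => (res_val b' k 5 (by norm_num) (by norm_num)).trans q5)
    (fun k => (res_val b' k 6 (by norm_num) (by norm_num)).trans q6) n).2.1
  have h2 := congrArg (PowerSeries.coeff n) h
  rw [gf, gf, PowerSeries.coeff_mk, PowerSeries.coeff_mk] at h2
  rw [LSet_large (m' := 6 * n) le_rfl (by omega), LSet_large (m' := 6 * n) le_rfl (by omega)]
  exact_mod_cast h2

end Pool.Agent.H372R3.GE
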