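import Pool.Agent.H372R3.MW1

/-!
# Sums of two continued fractions with partial quotients at most four

An approximate form of Hall's theorem: every `x` in `[2m, 8m]`, where `4m(1+m) = 1`, is
approximated by sums of two finite continued fractions with partial quotients in `{1,2,3,4}` and
arbitrarily large denominators.
-/

namespace H372R3.MD

open H372R3.MW

/-- all letters are between 1 and 4 -/
def Ok (w : List ℤ) : Prop := ∀ a ∈ w, 1 ≤ a ∧ a ≤ 4

theorem Ok.append {w v : List ℤ} (hw : Ok w) (hv : Ok v) : Ok (w ++ v) := by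
  intro a ha
  rw [List.mem_append] at ha
  rcases ha with ha | ha
  · exact hw a ha
  · exact hv a ha

theorem Ok.snoc {w : List ℤ} (hw : Ok w) {a : ℤ} (h1 : 1 ≤ a) (h4 : a ≤ 4) : Ok (w ++ [a]) :=
  hw.append (by intro b hb; rw [List.mem_singleton] at hb; subst hb; exact ⟨h1, h4⟩)

theorem M_snoc (w : List ℤ) (a : ℤ) : M (w ++ [a]) 0 0 = M w 0 0 * a + M w 0 1 ∧
    M (w ++ [a]) 0 1 = M w 0 0 ∧ M (w ++ [a]) 1 0 = M w 1 0 * a + M w 1 1 ∧
    M (w ++ [a]) 1 1 = M w 1 0 := by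
  rw [M_append]
  have : M [a] = mat a := by simp [M]
  rw [this]
  simp [mat, Matrix.mul_apply, Fin.sum_univ_two]

theorem M_facts (w : List ℤ) (hw : Ok w) : 1 ≤ M w 0 0 ∧ 0 ≤ M w 0 1 ∧ M w 0 1 ≤ M w 0 0 ∧
    0 ≤ M w 1 0 ∧ M w 1 0 ≤ M w 0 0 ∧ 0 ≤ M w 1 1 ∧ (w.length : ℤ) ≤ M w 0 0 ∧
    (w ≠ [] → 1 ≤ M w 0 1) ∧ (w ≠ [] → M w 1 1 ≤ M w 0 1) ∧
    (M w 0 0 * M w 1 1 - M w 0 1 * M w 1 0 = 1 ∨
      M w 0 0 * M w 1 1 - M w 0 1 * M w 1 0 = -1) := by
  induction w using List.reverseRecOn with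
  | nil => simp [M]
  | append_singleton l a ih =>
    have hl : Ok l := fun b hb => hw b (by simp [hb])
    obtain ⟨h1, h2, h3, h4, h5, h6, h7, h8, h10, h9⟩ := ih hl
    obtain ⟨ha1, ha4⟩ := hw a (by simp)
    obtain ⟨e1, e2, e3, e4⟩ := M_snoc l a
    rw [e1, e2, e3, e4]
    have k1 : M l 0 0 ≤ M l 0 0 * a := by nlinarith
    have k2 : M l 1 0 * a ≤ M l 0 0 * a := by nlinarith
    have k3 : 0 ≤ M l 1 0 * a := by nlinarith
    refine ⟨by linarith, by linarith, by linarith, by linarith, ?_, h4, ?_, ?_, ?_, ?_⟩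
    · rcases eq_or_ne l [] with h | h
      · subst h
        simp [M]
        linarith
      · have := h10 h
        linarith
    · rw [List.length_append, List.length_singleton]
      push_cast
      rcases eq_or_ne l [] with h | h
      · subst h
        simp [M]
        linarith
      · have := h8 h
        linarith
    · intro _; exact h1
    · intro _; exact h5
    · rcases h9 with h | h
      · right; linear_combination -h
      · left; linear_combination -h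

/-- value of the continued fraction `[0; w, 1/z]` -/
noncomputable def val (w : List ℤ) (z : ℝ) : ℝ :=
  ((M w 1 0 : ℝ) + z * M w 1 1) / ((M w 0 0 : ℝ) + z * M w 0 1)

theorem val_sub (w : List ℤ) (hw : Ok w) (z z' : ℝ) (hz : 0 ≤ z) (hz' : 0 ≤ z') :
    |val w z - val w z'| =
      |z - z'| / (((M w 0 0 : ℝ) + z * M w 0 1) * ((M w 0 0 : ℝ) + z' * M w 0 1)) := by
  obtain ⟨h1, h2, h3, h4, h5, h6, h7, h8, h10, h9⟩ := M_facts w hw
  have h1' : (1 : ℝ) ≤ M w 0 0 := by exact_mod_cast h1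
  have h2' : (0 : ℝ) ≤ M w 0 1 := by exact_mod_cast h2
  have p1 : 0 < (M w 0 0 : ℝ) + z * M w 0 1 := by nlinarith
  have p2 : 0 < (M w 0 0 : ℝ) + z' * M w 0 1 := by nlinarith
  have e : val w z - val w z' = ((M w 0 0 * M w 1 1 - M w 0 1 * M w 1 0 : ℤ) : ℝ) * (z - z') /
      (((M w 0 0 : ℝ) + z * M w 0 1) * ((M w 0 0 : ℝ) + z' * M w 0 1)) := by
    unfold val
    rw [div_sub_div _ _ p1.ne' p2.ne']
    push_cast
    congr 1
    ring
  rw [e, abs_div, abs_mul, abs_of_pos (mul_pos p1 p2)]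
  congr 1
  rcases h9 with h | h <;> rw [h] <;> simp

theorem val_snoc (w : List ℤ) (hw : Ok w) (a : ℤ) (ha : 1 ≤ a) (z : ℝ) (hz : 0 ≤ z) :
    val (w ++ [a]) z = val w (1 / (a + z)) := by
  obtain ⟨h1, h2, h3, h4, h5, h6, h7, h8, h10, h9⟩ := M_facts w hw
  have h1' : (1 : ℝ) ≤ M w 0 0 := by exact_mod_cast h1
  have h2' : (0 : ℝ) ≤ M w 0 1 := by exact_mod_cast h2
  have ha' : (1 : ℝ) ≤ a := by exact_mod_cast ha
  obtain ⟨e1, e2, e3, e4⟩ := M_snoc w a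
  unfold val
  rw [e1, e2, e3, e4]
  push_cast
  have p0 : 0 < (a : ℝ) + z := by linarith
  have p1 : 0 < (M w 0 0 : ℝ) * a + M w 0 1 + z * M w 0 0 := by nlinarith
  have p2 : 0 < (M w 0 0 : ℝ) + 1 / (a + z) * M w 0 1 := by positivity
  rw [div_eq_div_iff p1.ne' p2.ne']
  field_simp
  ring

/-- monotone or antitone -/
theorem val_mono (w : List ℤ) (hw : Ok w) :
    (∀ z z' : ℝ, 0 ≤ z → z ≤ z' → val w z ≤ val w z') ∨
    (∀ z z' : ℝ, 0 ≤ z → z ≤ z' → val w z' ≤ val w z) := by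
  obtain ⟨h1, h2, h3, h4, h5, h6, h7, h8, h10, h9⟩ := M_facts w hw
  have h1' : (1 : ℝ) ≤ M w 0 0 := by exact_mod_cast h1
  have h2' : (0 : ℝ) ≤ M w 0 1 := by exact_mod_cast h2
  have key : ∀ z z' : ℝ, 0 ≤ z → 0 ≤ z' → val w z' - val w z =
      ((M w 0 0 * M w 1 1 - M w 0 1 * M w 1 0 : ℤ) : ℝ) * (z' - z) /
      (((M w 0 0 : ℝ) + z' * M w 0 1) * ((M w 0 0 : ℝ) + z * M w 0 1)) := by
    intro z z' hz hz'
    have p1 : 0 < (M w 0 0 : ℝ) + z * M w 0 1 := by nlinarith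
    have p2 : 0 < (M w 0 0 : ℝ) + z' * M w 0 1 := by nlinarith
    unfold val
    rw [div_sub_div _ _ p2.ne' p1.ne']
    push_cast
    congr 1
    ring
  rcases h9 with h | h
  · left
    intro z z' hz hzz
    have p1 : 0 < (M w 0 0 : ℝ) + z * M w 0 1 := by nlinarith
    have p2 : 0 < (M w 0 0 : ℝ) + z' * M w 0 1 := by nlinarith
    have := key z z' hz (hz.trans hzz)
    rw [h] at this
    have h0 : 0 ≤ val w z' - val w z := by
      rw [this]
      apply div_nonneg _ (mul_pos p2 p1).le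
      push_cast
      linarith
    linarith
  · right
    intro z z' hz hzz
    have p1 : 0 < (M w 0 0 : ℝ) + z * M w 0 1 := by nlinarith
    have p2 : 0 < (M w 0 0 : ℝ) + z' * M w 0 1 := by nlinarith
    have := key z z' hz (hz.trans hzz)
    rw [h] at this
    have h0 : val w z' - val w z ≤ 0 := by
      rw [this]
      apply div_nonpos_of_nonpos_of_nonneg _ (mul_pos p2 p1).le
      push_cast
      linarith
    linarith

/-- splitting lemma, purely about reals -/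
theorem split_real (v0 v1 v2 v3 x y c d : ℝ)
    (hv : (v0 ≤ v1 ∧ v1 ≤ v2 ∧ v2 ≤ v3) ∨ (v3 ≤ v2 ∧ v2 ≤ v1 ∧ v1 ≤ v0))
    (hy : y ∈ Set.uIcc v0 v3) (hx : x - y ∈ Set.Icc c d) (hg : |v2 - v1| ≤ d - c) :
    ∃ y', x - y' ∈ Set.Icc c d ∧ (y' ∈ Set.uIcc v0 v1 ∨ y' ∈ Set.uIcc v2 v3) := by
  rw [Set.mem_Icc] at hx
  obtain ⟨hx1, hx2⟩ := hx
  rcases hv with ⟨a1, a2, a3⟩ | ⟨a1, a2, a3⟩
  · rw [Set.uIcc_of_le (a1.trans (a2.trans a3)), Set.mem_Icc] at hy
    rw [abs_of_nonneg (by linarith)] at hg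
    rcases le_or_gt y v1 with h1 | h1
    · exact ⟨y, ⟨hx1, hx2⟩, Or.inl (by rw [Set.uIcc_of_le a1]; exact ⟨hy.1, h1⟩)⟩
    rcases le_or_gt v2 y with h2 | h2
    · exact ⟨y, ⟨hx1, hx2⟩, Or.inr (by rw [Set.uIcc_of_le a3]; exact ⟨h2, hy.2⟩)⟩
    rcases le_or_gt (x - v1) d with h3 | h3
    · exact ⟨v1, ⟨by linarith, h3⟩, Or.inl (by rw [Set.uIcc_of_le a1]; exact ⟨a1, le_rfl⟩)⟩
    · exact ⟨v2, ⟨by linarith, by linarith⟩,
        Or.inr (by rw [Set.uIcc_of_le a3]; exact ⟨le_rfl, a3⟩)⟩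
  · rw [Set.uIcc_of_ge (a1.trans (a2.trans a3)), Set.mem_Icc] at hy
    rw [abs_of_nonpos (by linarith)] at hg
    rcases le_or_gt y v2 with h1 | h1
    · exact ⟨y, ⟨hx1, hx2⟩, Or.inr (by rw [Set.uIcc_of_ge a1]; exact ⟨hy.1, h1⟩)⟩
    rcases le_or_gt v1 y with h2 | h2
    · exact ⟨y, ⟨hx1, hx2⟩, Or.inl (by rw [Set.uIcc_of_ge a3]; exact ⟨h2, hy.2⟩)⟩
    rcases le_or_gt (x - v2) d with h3 | h3
    · exact ⟨v2, ⟨by linarith, h3⟩, Or.inr (by rw [Set.uIcc_of_ge a1]; exact ⟨a1, le_rfl⟩)⟩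
    · exact ⟨v1, ⟨by linarith, by linarith⟩,
        Or.inl (by rw [Set.uIcc_of_ge a3]; exact ⟨le_rfl, a3⟩)⟩

variable {m : ℝ}

/-- the size of the interval of the node `(w, a)` -/
noncomputable def siz (m : ℝ) (w : List ℤ) (a : ℤ) : ℝ := |val w m - val w (1 / (a + m))|

/-- the gap of the node `(w, a)` -/
noncomputable def gap (m : ℝ) (w : List ℤ) (a : ℤ) : ℝ :=
  |val w (1 / (a + 4 * m)) - val w (1 / (a + 1 + m))|

theorem m_bounds (hm0 : 0 < m) (hm : 4 * m * (1 + m) = 1) : 1 / 5 < m ∧ m < 21 / 100 := by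
  constructor <;> nlinarith

theorem gap_eq (hm0 : 0 < m) (hm : 4 * m * (1 + m) = 1) (w : List ℤ) (hw : Ok w) (a : ℤ)
    (ha : 1 ≤ a) : gap m w a =
      (1 - 3 * m) / (((M w 0 0 : ℝ) * (a + 4 * m) + M w 0 1) *
        ((M w 0 0 : ℝ) * (a + 1 + m) + M w 0 1)) := by
  obtain ⟨b1, b2⟩ := m_bounds hm0 hm
  obtain ⟨h1, h2, h3, h4, h5, h6, h7, h8, h10, h9⟩ := M_facts w hw
  have h1' : (1 : ℝ) ≤ M w 0 0 := by exact_mod_cast h1
  have h2' : (0 : ℝ) ≤ M w 0 1 := by exact_mod_cast h2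
  have ha' : (1 : ℝ) ≤ a := by exact_mod_cast ha
  have p1 : 0 < (a : ℝ) + 4 * m := by linarith
  have p2 : 0 < (a : ℝ) + 1 + m := by linarith
  unfold gap
  rw [val_sub w hw _ _ (by positivity) (by positivity)]
  have e1 : (1 : ℝ) / (a + 4 * m) - 1 / (a + 1 + m) = (1 - 3 * m) / ((a + 4 * m) * (a + 1 + m)) := by
    field_simp
    ring
  rw [e1, abs_of_nonneg (div_nonneg (by linarith) (by positivity))]
  field_simp

theorem siz_eq (hm0 : 0 < m) (hm : 4 * m * (1 + m) = 1) (w : List ℤ) (hw : Ok w) (a : ℤ)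
    (ha : 1 ≤ a) (ha4 : a ≤ 4) : siz m w a =
      (1 - m * (a + m)) / (((M w 0 0 : ℝ) + m * M w 0 1) *
        ((M w 0 0 : ℝ) * (a + m) + M w 0 1)) := by
  obtain ⟨b1, b2⟩ := m_bounds hm0 hm
  obtain ⟨h1, h2, h3, h4, h5, h6, h7, h8, h10, h9⟩ := M_facts w hw
  have h1' : (1 : ℝ) ≤ M w 0 0 := by exact_mod_cast h1
  have h2' : (0 : ℝ) ≤ M w 0 1 := by exact_mod_cast h2
  have ha' : (1 : ℝ) ≤ a := by exact_mod_cast ha
  have ha4' : (a : ℝ) ≤ 4 := by exact_mod_cast ha4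
  have p1 : 0 < (a : ℝ) + m := by linarith
  unfold siz
  rw [val_sub w hw _ _ (by positivity) (by positivity)]
  have e1 : m - 1 / ((a : ℝ) + m) = - ((1 - m * (a + m)) / (a + m)) := by
    field_simp
    ring
  rw [e1, abs_neg, abs_of_nonneg (div_nonneg (by nlinarith) (by positivity))]
  field_simp

theorem gap_le_left (hm0 : 0 < m) (hm : 4 * m * (1 + m) = 1) (w : List ℤ) (hw : Ok w) (a : ℤ)
    (ha : 1 ≤ a) (ha3 : a ≤ 3) : gap m w a ≤ siz m w (a + 1) := by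
  obtain ⟨b1, b2⟩ := m_bounds hm0 hm
  obtain ⟨h1, h2, h3, h4, h5, h6, h7, h8, h10, h9⟩ := M_facts w hw
  have h1' : (1 : ℝ) ≤ M w 0 0 := by exact_mod_cast h1
  have h2' : (0 : ℝ) ≤ M w 0 1 := by exact_mod_cast h2
  have ha' : (1 : ℝ) ≤ a := by exact_mod_cast ha
  rw [gap_eq hm0 hm w hw a ha, siz_eq hm0 hm w hw (a + 1) (by linarith) (by linarith)]
  push_cast
  set q : ℝ := ((M w 0 0 : ℤ) : ℝ)
  set q1 : ℝ := ((M w 0 1 : ℤ) : ℝ)
  have key : (1 - 3 * m) * (q + m * q1) ≤ (1 - m * (a + 1 + m)) * (q * (a + 4 * m) + q1) := by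
    have c1 : (1 - 3 * m) ≤ (1 - m * (a + 1 + m)) * (a + 4 * m) := by
      interval_cases a <;> push_cast <;> nlinarith
    have c2 : (1 - 3 * m) * m ≤ 1 - m * (a + 1 + m) := by
      interval_cases a <;> push_cast <;> nlinarith
    nlinarith [mul_le_mul_of_nonneg_left c1 (by linarith : (0:ℝ) ≤ q),
      mul_le_mul_of_nonneg_left c2 h2']
  have p1 : 0 < q * (a + 4 * m) + q1 := by nlinarith
  have p2 : 0 < q * (a + 1 + m) + q1 := by nlinarith
  have p3 : 0 < q + m * q1 := by nlinarith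
  rw [div_le_div_iff₀ (mul_pos p1 p2) (mul_pos p3 p2)]
  have := mul_le_mul_of_nonneg_right key p2.le
  linarith

theorem four_m (hm0 : 0 < m) (hm : 4 * m * (1 + m) = 1) : 1 / ((1 : ℤ) + m : ℝ) = 4 * m := by
  rw [div_eq_iff (by push_cast; linarith)]
  push_cast
  linarith

theorem siz_four (hm0 : 0 < m) (hm : 4 * m * (1 + m) = 1) (w : List ℤ) (hw : Ok w) :
    siz m (w ++ [4]) 1 = siz m w 4 := by
  unfold siz
  rw [four_m hm0 hm, val_snoc w hw 4 (by norm_num) _ hm0.le,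
    val_snoc w hw 4 (by norm_num) _ (by linarith), abs_sub_comm]
  congr 3
  rw [div_eq_iff (by push_cast; linarith)]
  push_cast
  linarith

theorem siz_right (hm0 : 0 < m) (hm : 4 * m * (1 + m) = 1) (w : List ℤ) (hw : Ok w) (a : ℤ)
    (ha : 1 ≤ a) : siz m (w ++ [a]) 1 =
      3 * m / (((M w 0 0 : ℝ) * (a + m) + M w 0 1) * ((M w 0 0 : ℝ) * (a + 4 * m) + M w 0 1)) := by
  obtain ⟨h1, h2, h3, h4, h5, h6, h7, h8, h10, h9⟩ := M_facts w hw
  have h1' : (1 : ℝ) ≤ M w 0 0 := by exact_mod_cast h1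
  have h2' : (0 : ℝ) ≤ M w 0 1 := by exact_mod_cast h2
  have ha' : (1 : ℝ) ≤ a := by exact_mod_cast ha
  unfold siz
  rw [four_m hm0 hm, val_snoc w hw a ha _ hm0.le, val_snoc w hw a ha _ (by linarith),
    val_sub w hw _ _ (by positivity) (by positivity)]
  have p1 : 0 < (a : ℝ) + 4 * m := by linarith
  have p2 : 0 < (a : ℝ) + m := by linarith
  have e1 : (1 : ℝ) / (a + m) - 1 / (a + 4 * m) = (3 * m) / ((a + m) * (a + 4 * m)) := by
    field_simp
    ring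
  rw [e1, abs_of_nonneg (div_nonneg (by linarith) (by positivity))]
  field_simp

theorem gap_le_right (hm0 : 0 < m) (hm : 4 * m * (1 + m) = 1) (w : List ℤ) (hw : Ok w) (a : ℤ)
    (ha : 1 ≤ a) : gap m w a ≤ siz m (w ++ [a]) 1 := by
  obtain ⟨b1, b2⟩ := m_bounds hm0 hm
  obtain ⟨h1, h2, h3, h4, h5, h6, h7, h8, h10, h9⟩ := M_facts w hw
  have h1' : (1 : ℝ) ≤ M w 0 0 := by exact_mod_cast h1
  have h2' : (0 : ℝ) ≤ M w 0 1 := by exact_mod_cast h2
  have ha' : (1 : ℝ) ≤ a := by exact_mod_cast ha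
  rw [gap_eq hm0 hm w hw a ha, siz_right hm0 hm w hw a ha]
  set q : ℝ := ((M w 0 0 : ℤ) : ℝ)
  set q1 : ℝ := ((M w 0 1 : ℤ) : ℝ)
  have p1 : 0 < q * (a + 4 * m) + q1 := by nlinarith
  have p2 : 0 < q * (a + 1 + m) + q1 := by nlinarith
  have p3 : 0 < q * (a + m) + q1 := by nlinarith
  have key : (1 - 3 * m) * (q * (a + m) + q1) ≤ 3 * m * (q * (a + 1 + m) + q1) := by nlinarith
  rw [div_le_div_iff₀ (mul_pos p1 p2) (mul_pos p3 p1)]
  have := mul_le_mul_of_nonneg_right key p1.le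
  linarith

theorem gap_mono_left (hm0 : 0 < m) (hm : 4 * m * (1 + m) = 1) (w : List ℤ) (hw : Ok w) (a : ℤ)
    (ha : 1 ≤ a) : gap m w (a + 1) ≤ gap m w a := by
  obtain ⟨b1, b2⟩ := m_bounds hm0 hm
  obtain ⟨h1, h2, h3, h4, h5, h6, h7, h8, h10, h9⟩ := M_facts w hw
  have h1' : (1 : ℝ) ≤ M w 0 0 := by exact_mod_cast h1
  have h2' : (0 : ℝ) ≤ M w 0 1 := by exact_mod_cast h2
  have ha' : (1 : ℝ) ≤ a := by exact_mod_cast ha
  rw [gap_eq hm0 hm w hw a ha, gap_eq hm0 hm w hw (a + 1) (by linarith)]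
  push_cast
  set q : ℝ := ((M w 0 0 : ℤ) : ℝ)
  set q1 : ℝ := ((M w 0 1 : ℤ) : ℝ)
  have p1 : 0 < q * (a + 4 * m) + q1 := by nlinarith
  have p2 : 0 < q * (a + 1 + m) + q1 := by nlinarith
  apply div_le_div_of_nonneg_left (by linarith) (mul_pos p1 p2)
  apply mul_le_mul <;> nlinarith

/-- appending the letter `b ≥ a` and restarting -/
theorem gap_mono_right (hm0 : 0 < m) (hm : 4 * m * (1 + m) = 1) (w : List ℤ) (hw : Ok w) (a b : ℤ)
    (ha : 1 ≤ a) (hab : a ≤ b) (hb : b ≤ 4) : gap m (w ++ [b]) 1 ≤ gap m w a := by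
  obtain ⟨b1, b2⟩ := m_bounds hm0 hm
  obtain ⟨h1, h2, h3, h4, h5, h6, h7, h8, h10, h9⟩ := M_facts w hw
  have h1' : (1 : ℝ) ≤ M w 0 0 := by exact_mod_cast h1
  have h2' : (0 : ℝ) ≤ M w 0 1 := by exact_mod_cast h2
  have h3' : (M w 0 1 : ℝ) ≤ M w 0 0 := by exact_mod_cast h3
  have ha' : (1 : ℝ) ≤ a := by exact_mod_cast ha
  have hab' : (a : ℝ) ≤ b := by exact_mod_cast hab
  have hwb : Ok (w ++ [b]) := hw.snoc (by linarith) hb
  rw [gap_eq hm0 hm w hw a ha, gap_eq hm0 hm (w ++ [b]) hwb 1 le_rfl]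
  obtain ⟨e1, e2, e3, e4⟩ := M_snoc w b
  rw [e1, e2]
  push_cast
  set q : ℝ := ((M w 0 0 : ℤ) : ℝ)
  set q1 : ℝ := ((M w 0 1 : ℤ) : ℝ)
  have p1 : 0 < q * (a + 4 * m) + q1 := by nlinarith
  have p2 : 0 < q * (a + 1 + m) + q1 := by nlinarith
  have hqb : q * a ≤ q * b := mul_le_mul_of_nonneg_left hab' (by linarith)
  have hqb1 : q ≤ q * b := by nlinarith
  apply div_le_div_of_nonneg_left (by linarith) (mul_pos p1 p2)
  apply mul_le_mul
  · have : 0 ≤ m * (q * b + q1 - q) := mul_nonneg hm0.le (by linarith)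
    nlinarith
  · have : 0 ≤ m * (q * b + q1 - q) := mul_nonneg hm0.le (by linarith)
    nlinarith
  · exact p2.le
  · nlinarith

/-- one step of the algorithm -/
theorem child (hm0 : 0 < m) (hm : 4 * m * (1 + m) = 1) (w : List ℤ) (hw : Ok w) (a : ℤ)
    (ha : 1 ≤ a) (ha3 : a ≤ 3) (x y c d : ℝ)
    (hy : y ∈ Set.uIcc (val w m) (val w (1 / (a + m)))) (hx : x - y ∈ Set.Icc c d)
    (hg : gap m w a ≤ d - c) :
    ∃ (w' : List ℤ) (a' : ℤ) (y' : ℝ), Ok w' ∧ 1 ≤ a' ∧ a' ≤ 3 ∧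
      y' ∈ Set.uIcc (val w' m) (val w' (1 / (a' + m))) ∧ x - y' ∈ Set.Icc c d ∧
      gap m w a ≤ siz m w' a' ∧ gap m w' a' ≤ gap m w a ∧
      ((w' = w ∧ a' = a + 1) ∨ (w'.length = w.length + 1)) := by
  obtain ⟨b1, b2⟩ := m_bounds hm0 hm
  have ha' : (1 : ℝ) ≤ a := by exact_mod_cast ha
  have ha3' : (a : ℝ) ≤ 3 := by exact_mod_cast ha3
  have o1 : m ≤ 1 / ((a : ℝ) + 1 + m) := by
    rw [le_div_iff₀ (by linarith)]
    nlinarith
  have o2 : 1 / ((a : ℝ) + 1 + m) ≤ 1 / (a + 4 * m) :=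
    one_div_le_one_div_of_le (by linarith) (by linarith)
  have o3 : 1 / ((a : ℝ) + 4 * m) ≤ 1 / (a + m) :=
    one_div_le_one_div_of_le (by linarith) (by linarith)
  have hv : (val w m ≤ val w (1 / (a + 1 + m)) ∧ val w (1 / (a + 1 + m)) ≤ val w (1 / (a + 4 * m)) ∧
      val w (1 / (a + 4 * m)) ≤ val w (1 / (a + m))) ∨
      (val w (1 / (a + m)) ≤ val w (1 / (a + 4 * m)) ∧
      val w (1 / (a + 4 * m)) ≤ val w (1 / (a + 1 + m)) ∧ val w (1 / (a + 1 + m)) ≤ val w m) := by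
    rcases val_mono w hw with h | h
    · left
      exact ⟨h _ _ hm0.le o1, h _ _ (hm0.le.trans o1) o2, h _ _ (hm0.le.trans (o1.trans o2)) o3⟩
    · right
      exact ⟨h _ _ (hm0.le.trans (o1.trans o2)) o3, h _ _ (hm0.le.trans o1) o2, h _ _ hm0.le o1⟩
  obtain ⟨y', hy', h⟩ := split_real _ _ _ _ x y c d hv hy hx hg
  rcases h with h | h
  · rcases eq_or_lt_of_le ha3 with h3 | h3
    · subst h3
      refine ⟨w ++ [4], 1, y', hw.snoc (by norm_num) (by norm_num), by norm_num, by norm_num, ?_,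
        hy', ?_, ?_, Or.inr (by simp)⟩
      · rw [four_m hm0 hm, val_snoc w hw 4 (by norm_num) _ hm0.le,
          val_snoc w hw 4 (by norm_num) _ (by linarith), Set.uIcc_comm]
        have e : 1 / (((4 : ℤ) : ℝ) + 4 * m) = m := by
          rw [div_eq_iff (by push_cast; linarith)]
          push_cast
          linarith
        rw [e]
        convert h using 4
        push_cast
        ring
      · rw [siz_four hm0 hm w hw]
        exact gap_le_left hm0 hm w hw 3 (by norm_num) (by norm_num)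
      · exact gap_mono_right hm0 hm w hw 3 4 (by norm_num) (by norm_num) (by norm_num)
    · refine ⟨w, a + 1, y', hw, by linarith, by linarith, ?_, hy', gap_le_left hm0 hm w hw a ha ha3,
        gap_mono_left hm0 hm w hw a ha, Or.inl ⟨rfl, rfl⟩⟩
      convert h using 4
      push_cast
      ring
  · refine ⟨w ++ [a], 1, y', hw.snoc ha (by linarith), by norm_num, by norm_num, ?_, hy',
      gap_le_right hm0 hm w hw a ha, gap_mono_right hm0 hm w hw a a ha le_rfl (by linarith),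
      Or.inr (by simp)⟩
    rw [four_m hm0 hm, val_snoc w hw a ha _ hm0.le, val_snoc w hw a ha _ (by linarith),
      Set.uIcc_comm]
    exact h

/-- measure of a node -/
def meas (L : ℕ) (w : List ℤ) (a : ℤ) : ℕ := 4 * (L + 1 - w.length) + (3 - a).toNat

theorem gap_small (hm0 : 0 < m) (hm : 4 * m * (1 + m) = 1) (w : List ℤ) (hw : Ok w) (a : ℤ)
    (ha : 1 ≤ a) (δ : ℝ) (hδ : 0 < δ) (L : ℕ) (hL : 1 / δ ≤ L) (hg : δ ≤ gap m w a) :
    w.length ≤ L := by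
  obtain ⟨b1, b2⟩ := m_bounds hm0 hm
  obtain ⟨h1, h2, h3, h4, h5, h6, h7, h8, h10, h9⟩ := M_facts w hw
  have h1' : (1 : ℝ) ≤ M w 0 0 := by exact_mod_cast h1
  have h2' : (0 : ℝ) ≤ M w 0 1 := by exact_mod_cast h2
  have h7' : (w.length : ℝ) ≤ M w 0 0 := by exact_mod_cast h7
  have ha' : (1 : ℝ) ≤ a := by exact_mod_cast ha
  rw [gap_eq hm0 hm w hw a ha] at hg
  set q : ℝ := ((M w 0 0 : ℤ) : ℝ)
  set q1 : ℝ := ((M w 0 1 : ℤ) : ℝ)
  have p1 : q ≤ q * (a + 4 * m) + q1 := by nlinarith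
  have p2 : 1 ≤ q * (a + 1 + m) + q1 := by nlinarith
  have p3 : q ≤ (q * (a + 4 * m) + q1) * (q * (a + 1 + m) + q1) := by nlinarith
  have p4 : (1 - 3 * m) / ((q * (a + 4 * m) + q1) * (q * (a + 1 + m) + q1)) ≤ 1 / q := by
    apply div_le_div₀ (by norm_num) (by linarith) (by linarith) p3
  have p5 : δ ≤ 1 / q := hg.trans p4
  have p6 : q ≤ 1 / δ := by
    rw [le_div_iff₀ (by linarith)] at p5
    rw [le_div_iff₀ hδ]
    linarith
  have : (w.length : ℝ) ≤ L := by linarith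
  exact_mod_cast this

theorem meas_lt (L : ℕ) (w w' : List ℤ) (a a' : ℤ) (ha3 : a ≤ 3) (ha' : 1 ≤ a')
    (hL : w.length ≤ L) (h : (w' = w ∧ a' = a + 1) ∨ (w'.length = w.length + 1)) (h3 : a' ≤ 3) :
    meas L w' a' < meas L w a := by
  unfold meas
  rcases h with ⟨h1, h2⟩ | h
  · subst h1
    subst h2
    omega
  · rw [h]
    omega

/-- the algorithm -/
theorem hall_aux (hm0 : 0 < m) (hm : 4 * m * (1 + m) = 1) (δ : ℝ) (hδ : 0 < δ) (L : ℕ)
    (hL : 1 / δ ≤ L) (x : ℝ) (n : ℕ) :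
    ∀ (w w' : List ℤ) (a a' : ℤ) (y : ℝ), Ok w → Ok w' → 1 ≤ a → a ≤ 3 → 1 ≤ a' → a' ≤ 3 →
      meas L w a + meas L w' a' ≤ n →
      y ∈ Set.uIcc (val w m) (val w (1 / (a + m))) →
      x - y ∈ Set.uIcc (val w' m) (val w' (1 / (a' + m))) →
      gap m w a ≤ siz m w' a' → gap m w' a' ≤ siz m w a →
      ∃ (v v' : List ℤ) (b b' : ℤ) (z : ℝ), Ok v ∧ Ok v' ∧ 1 ≤ b ∧ b ≤ 3 ∧ 1 ≤ b' ∧ b' ≤ 3 ∧
        z ∈ Set.uIcc (val v m) (val v (1 / (b + m))) ∧
        x - z ∈ Set.uIcc (val v' m) (val v' (1 / (b' + m))) ∧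
        gap m v b < δ ∧ gap m v' b' < δ := by
  induction n with
  | zero =>
    intro w w' a a' y hw hw' ha ha3 ha' ha3' hn hy hx hg hg'
    rcases lt_or_ge (gap m w a) δ with h1 | h1
    · rcases lt_or_ge (gap m w' a') δ with h2 | h2
      · exact ⟨w, w', a, a', y, hw, hw', ha, ha3, ha', ha3', hy, hx, h1, h2⟩
      · exfalso
        have := gap_small hm0 hm w' hw' a' ha' δ hδ L hL h2
        unfold meas at hn
        omega
    · exfalso
      have := gap_small hm0 hm w hw a ha δ hδ L hL h1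
      unfold meas at hn
      omega
  | succ n ih =>
    intro w w' a a' y hw hw' ha ha3 ha' ha3' hn hy hx hg hg'
    rcases lt_or_ge (max (gap m w a) (gap m w' a')) δ with h1 | h1
    · exact ⟨w, w', a, a', y, hw, hw', ha, ha3, ha', ha3', hy, hx,
        lt_of_le_of_lt (le_max_left _ _) h1, lt_of_le_of_lt (le_max_right _ _) h1⟩
    · rcases le_total (gap m w' a') (gap m w a) with h2 | h2
      · rw [max_eq_left h2] at h1
        have hlen := gap_small hm0 hm w hw a ha δ hδ L hL h1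
        have hsz : siz m w' a' = max (val w' m) (val w' (1 / (a' + m))) -
            min (val w' m) (val w' (1 / (a' + m))) := by
          unfold siz
          rw [max_sub_min_eq_abs, abs_sub_comm]
        have hx' : x - y ∈ Set.Icc (min (val w' m) (val w' (1 / (a' + m))))
            (max (val w' m) (val w' (1 / (a' + m)))) := hx
        obtain ⟨v, b, z, hv, hb, hb3, hz, hxz, k1, k2, k3⟩ :=
          child hm0 hm w hw a ha ha3 x y _ _ hy hx' (by rw [← hsz]; exact hg)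
        have hlt := meas_lt L w v a b ha3 hb hlen k3 hb3
        exact ih v w' b a' z hv hw' hb hb3 ha' ha3' (by omega) hz hxz (k2.trans hg) (h2.trans k1)
      · rw [max_eq_right h2] at h1
        have hlen := gap_small hm0 hm w' hw' a' ha' δ hδ L hL h1
        have hsz : siz m w a = max (val w m) (val w (1 / (a + m))) -
            min (val w m) (val w (1 / (a + m))) := by
          unfold siz
          rw [max_sub_min_eq_abs, abs_sub_comm]
        have hy' : x - (x - y) ∈ Set.Icc (min (val w m) (val w (1 / (a + m))))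
            (max (val w m) (val w (1 / (a + m)))) := by
          rw [sub_sub_cancel]; exact hy
        obtain ⟨v, b, z, hv, hb, hb3, hz, hxz, k1, k2, k3⟩ :=
          child hm0 hm w' hw' a' ha' ha3' x (x - y) _ _ hx hy' (by rw [← hsz]; exact hg')
        have hlt := meas_lt L w' v a' b ha3' hb hlen k3 hb3
        refine ih w v a b (x - z) hw hv ha ha3 hb hb3 (by omega) hxz ?_ (h2.trans k1) (k2.trans hg')
        rw [sub_sub_cancel]
        exact hz

theorem val_near (hm0 : 0 < m) (hm : 4 * m * (1 + m) = 1) (w : List ℤ) (hw : Ok w) (a : ℤ)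
    (ha : 1 ≤ a) (y : ℝ) (hy : y ∈ Set.uIcc (val w m) (val w (1 / (a + m)))) :
    |y - val w 0| ≤ 1 / (M w 0 0 : ℝ) ^ 2 := by
  obtain ⟨b1, b2⟩ := m_bounds hm0 hm
  obtain ⟨h1, h2, h3, h4, h5, h6, h7, h8, h10, h9⟩ := M_facts w hw
  have h1' : (1 : ℝ) ≤ M w 0 0 := by exact_mod_cast h1
  have h2' : (0 : ℝ) ≤ M w 0 1 := by exact_mod_cast h2
  have ha' : (1 : ℝ) ≤ a := by exact_mod_cast ha
  have key : ∀ z : ℝ, 0 ≤ z → z ≤ 1 → |val w z - val w 0| ≤ 1 / (M w 0 0 : ℝ) ^ 2 := by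
    intro z hz hz1
    rw [val_sub w hw z 0 hz le_rfl, sub_zero, abs_of_nonneg hz]
    have p1 : 0 ≤ z * (M w 0 1 : ℝ) := mul_nonneg hz h2'
    apply div_le_div₀ (by norm_num) hz1 (by positivity)
    nlinarith
  have k1 := key m hm0.le (by linarith)
  have k2 := key (1 / (a + m)) (by positivity) (by rw [div_le_one (by linarith)]; linarith)
  rw [abs_le] at k1 k2 ⊢
  rw [Set.mem_uIcc] at hy
  rcases hy with ⟨h, h'⟩ | ⟨h, h'⟩ <;> constructor <;> linarith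

theorem gap_big (hm0 : 0 < m) (hm : 4 * m * (1 + m) = 1) (w : List ℤ) (hw : Ok w) (a : ℤ)
    (ha : 1 ≤ a) (ha3 : a ≤ 3) (K : ℝ) (hK : 0 < K) (hg : gap m w a < 1 / (100 * K ^ 2)) :
    K < (M w 0 0 : ℝ) := by
  obtain ⟨b1, b2⟩ := m_bounds hm0 hm
  obtain ⟨h1, h2, h3, h4, h5, h6, h7, h8, h10, h9⟩ := M_facts w hw
  have h1' : (1 : ℝ) ≤ M w 0 0 := by exact_mod_cast h1
  have h2' : (0 : ℝ) ≤ M w 0 1 := by exact_mod_cast h2
  have h3' : (M w 0 1 : ℝ) ≤ M w 0 0 := by exact_mod_cast h3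
  have ha' : (1 : ℝ) ≤ a := by exact_mod_cast ha
  have ha3' : (a : ℝ) ≤ 3 := by exact_mod_cast ha3
  rw [gap_eq hm0 hm w hw a ha] at hg
  set q : ℝ := ((M w 0 0 : ℤ) : ℝ)
  set q1 : ℝ := ((M w 0 1 : ℤ) : ℝ)
  by_contra hcon
  push Not at hcon
  have p1 : q * (a + 4 * m) + q1 ≤ 5 * q := by nlinarith
  have p2 : q * (a + 1 + m) + q1 ≤ 6 * q := by nlinarith
  have p0 : 0 < q * (a + 4 * m) + q1 := by nlinarith
  have p00 : 0 < q * (a + 1 + m) + q1 := by nlinarith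
  have p3 : (q * (a + 4 * m) + q1) * (q * (a + 1 + m) + q1) ≤ 30 * K ^ 2 := by
    calc (q * (a + 4 * m) + q1) * (q * (a + 1 + m) + q1) ≤ (5 * q) * (6 * q) :=
          mul_le_mul p1 p2 p00.le (by linarith)
      _ = 30 * q ^ 2 := by ring
      _ ≤ 30 * K ^ 2 := by nlinarith
  have p4 : (37 / 100) / (30 * K ^ 2) ≤ (1 - 3 * m) / ((q * (a + 4 * m) + q1) * (q * (a + 1 + m) + q1)) :=
    div_le_div₀ (by linarith) (by linarith) (mul_pos p0 p00) p3
  have p5 : (1 : ℝ) / (100 * K ^ 2) ≤ (37 / 100) / (30 * K ^ 2) := by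
    rw [div_le_div_iff₀ (by positivity) (by positivity)]
    nlinarith [sq_nonneg K]
  linarith

/-- approximate Hall theorem -/
theorem hall (hm0 : 0 < m) (hm : 4 * m * (1 + m) = 1) (x : ℝ) (hx1 : 2 * m ≤ x) (hx2 : x ≤ 8 * m)
    (K : ℝ) (hK : 0 < K) :
    ∃ w w' : List ℤ, Ok w ∧ Ok w' ∧ K < (M w 0 0 : ℝ) ∧ K < (M w' 0 0 : ℝ) ∧
      |val w 0 + val w' 0 - x| ≤ 1 / (M w 0 0 : ℝ) ^ 2 + 1 / (M w' 0 0 : ℝ) ^ 2 := by
  obtain ⟨b1, b2⟩ := m_bounds hm0 hm
  have hδ : 0 < 1 / (100 * K ^ 2) := by positivity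
  obtain ⟨L, hL⟩ := exists_nat_ge (1 / (1 / (100 * K ^ 2)))
  have hnil : Ok [] := by intro a ha; simp at ha
  have hval : ∀ z : ℝ, val [] z = z := by intro z; simp [val, M]
  have e1 : 1 / (((1 : ℤ) : ℝ) + m) = 4 * m := four_m hm0 hm
  have hgs : gap m [] 1 ≤ siz m [] 1 := by
    rw [gap_eq hm0 hm [] hnil 1 le_rfl, siz_eq hm0 hm [] hnil 1 le_rfl (by norm_num)]
    simp [M]
    rw [div_le_div_iff₀ (by positivity) (by positivity)]
    nlinarith
  obtain ⟨v, v', b, b', z, hv, hv', hb, hb3, hb', hb3', hz, hxz, g1, g2⟩ :=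
    hall_aux hm0 hm _ hδ L hL x (meas L [] 1 + meas L [] 1) [] [] 1 1 (x / 2) hnil hnil
      le_rfl (by norm_num) le_rfl (by norm_num) le_rfl
      (by rw [hval, hval, e1, Set.mem_uIcc]; left; constructor <;> linarith)
      (by rw [hval, hval, e1, Set.mem_uIcc]; left; constructor <;> linarith) hgs hgs
  refine ⟨v, v', hv, hv', gap_big hm0 hm v hv b hb hb3 K hK g1,
    gap_big hm0 hm v' hv' b' hb' hb3' K hK g2, ?_⟩
  have k1 := val_near hm0 hm v hv b hb z hz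
  have k2 := val_near hm0 hm v' hv' b' hb' (x - z) hxz
  rw [abs_le] at k1 k2 ⊢
  constructor <;> linarith

end H372R3.MD
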