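import Pool.Agent.H372R3.MD2

/-!
# Words modulo n and the minimal vector of the lattice of a word
-/

namespace H372R3.MD

open H372R3.MW

section reach

variable {n : ℕ} [NeZero n]

/-- action of a letter on pairs of residues -/
def act (c : ZMod n) : Equiv.Perm (ZMod n × ZMod n) where
  toFun v := (c * v.1 + v.2, v.1)
  invFun v := (v.2, v.1 - c * v.2)
  left_inv v := by ext <;> simp
  right_inv v := by ext <;> simp

/-- action of a word -/
def pw (n : ℕ) [NeZero n] (l : List ℤ) : Equiv.Perm (ZMod n × ZMod n) :=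
  (l.map (fun a : ℤ => act (n := n) (a : ZMod n))).prod

theorem pw_append (l l' : List ℤ) : pw n (l ++ l') = pw n l * pw n l' := by simp [pw]

theorem pw_R (l : List ℤ) : pw n l (1, 0) = (((R l).1 : ZMod n), ((R l).2 : ZMod n)) := by
  induction l with
  | nil => simp [pw, R]
  | cons a l ih =>
    have : pw n (a :: l) = act (n := n) (a : ZMod n) * pw n l := by simp [pw]
    rw [this, Equiv.Perm.mul_apply, ih]
    simp [act, R]

/-- representable permutations -/
def Rep (σ : Equiv.Perm (ZMod n × ZMod n)) : Prop := ∃ l, Ok l ∧ pw n l = σ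

theorem Rep.mul {σ τ : Equiv.Perm (ZMod n × ZMod n)} (h : Rep σ) (h' : Rep τ) : Rep (σ * τ) := by
  obtain ⟨l, h1, h2⟩ := h
  obtain ⟨l', h3, h4⟩ := h'
  exact ⟨l ++ l', h1.append h3, by rw [pw_append, h2, h4]⟩

theorem Rep.one : Rep (1 : Equiv.Perm (ZMod n × ZMod n)) :=
  ⟨[], by intro a ha; simp at ha, by simp [pw]⟩

theorem Rep.pow {σ : Equiv.Perm (ZMod n × ZMod n)} (h : Rep σ) (k : ℕ) : Rep (σ ^ k) := by
  induction k with
  | zero => rw [pow_zero]; exact Rep.one
  | succ k ih => rw [pow_succ]; exact ih.mul h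

theorem Rep.inv {σ : Equiv.Perm (ZMod n × ZMod n)} (h : Rep σ) : Rep σ⁻¹ := by
  classical
  have h1 : 0 < orderOf σ := orderOf_pos σ
  have h2 : σ⁻¹ = σ ^ (orderOf σ - 1) := by
    rw [inv_eq_iff_mul_eq_one, ← pow_succ', Nat.sub_add_cancel h1, pow_orderOf_eq_one]
  rw [h2]
  exact h.pow _

theorem rep_word (l : List ℤ) (hl : Ok l) : Rep (pw n l) := ⟨l, hl, rfl⟩

theorem rep_act (c : ZMod n) : Rep (act c) := by
  have h1 : Rep (act (n := n) 1) := by
    refine ⟨[1], ?_, ?_⟩
    · intro a ha; rw [List.mem_singleton] at ha; subst ha; norm_num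
    · simp [pw]
  have h2 : Rep (act (n := n) 2) := by
    refine ⟨[2], ?_, ?_⟩
    · intro a ha; rw [List.mem_singleton] at ha; subst ha; norm_num
    · simp [pw]
  have hT : Rep (act (n := n) 2 * (act 1)⁻¹) := h2.mul h1.inv
  have hTk : ∀ (k : ℕ) (v : ZMod n × ZMod n),
      (((act (n := n) 2 * (act 1)⁻¹) ^ k : Equiv.Perm (ZMod n × ZMod n))) v =
        (v.1 + k * v.2, v.2) := by
    intro k
    induction k with
    | zero => intro v; simp
    | succ k ih =>
      intro v
      rw [pow_succ', Equiv.Perm.mul_apply, ih, Equiv.Perm.mul_apply]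
      have : ((act (n := n) 1)⁻¹ : Equiv.Perm (ZMod n × ZMod n)) (v.1 + k * v.2, v.2)
          = (v.2, v.1 + k * v.2 - 1 * v.2) := rfl
      rw [this]
      show (2 * v.2 + (v.1 + k * v.2 - 1 * v.2), v.2) = _
      ext
      · push_cast; ring
      · rfl
  have h3 : act c = (act (n := n) 2 * (act 1)⁻¹) ^ (c - 1).val * act 1 := by
    ext v
    · rw [Equiv.Perm.mul_apply, hTk]
      show c * v.1 + v.2 = 1 * v.1 + v.2 + ((c - 1).val : ZMod n) * v.1
      rw [ZMod.natCast_val, ZMod.cast_id]
      ring
    · rw [Equiv.Perm.mul_apply, hTk]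
      rfl
  rw [h3]
  exact (hT.pow _).mul h1

end reach

/-- any primitive-looking pair of residues can be reached -/
theorem reach (n : ℕ) (hn : 1 ≤ n) (W : List ℤ) (hW : Ok W) (x y : ℤ) (hx : IsCoprime x (n : ℤ)) :
    ∃ P, Ok P ∧ (n : ℤ) ∣ (R (W ++ P)).1 - x ∧ (n : ℤ) ∣ (R (W ++ P)).2 - y := by
  have : NeZero n := ⟨by omega⟩
  obtain ⟨a, b, hab⟩ := hx
  have hinv : (a : ZMod n) * (x : ZMod n) = 1 := by
    have : ((a * x + b * n : ℤ) : ZMod n) = ((1 : ℤ) : ZMod n) := by rw [hab]
    push_cast at this
    simpa using this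
  obtain ⟨P, hP, h⟩ := ((rep_word (n := n) W hW).inv).mul
    (((rep_act (n := n) 0).mul (rep_act (((y : ZMod n) - 1) * (a : ZMod n)))).mul (rep_act (x : ZMod n)))
  refine ⟨P, hP, ?_⟩
  have h1 : pw n (W ++ P) (1, 0) = ((x : ZMod n), (y : ZMod n)) := by
    rw [pw_append, h, mul_inv_cancel_left]
    rw [Equiv.Perm.mul_apply, Equiv.Perm.mul_apply]
    have e1 : act (x : ZMod n) ((1 : ZMod n), (0 : ZMod n)) = ((x : ZMod n) * 1 + 0, 1) := rfl
    rw [e1]
    have e2 : act (((y : ZMod n) - 1) * (a : ZMod n)) ((x : ZMod n) * 1 + 0, (1 : ZMod n)) =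
      ((((y : ZMod n) - 1) * (a : ZMod n)) * ((x : ZMod n) * 1 + 0) + 1, (x : ZMod n) * 1 + 0) := rfl
    rw [e2]
    have e3 : ∀ u v : ZMod n, act (0 : ZMod n) (u, v) = (0 * u + v, u) := fun _ _ => rfl
    rw [e3]
    ext
    · simp
    · show (((y : ZMod n) - 1) * (a : ZMod n)) * ((x : ZMod n) * 1 + 0) + 1 = y
      linear_combination ((y : ZMod n) - 1) * hinv
  rw [pw_R, Prod.mk.injEq] at h1
  constructor
  · have := (ZMod.intCast_eq_intCast_iff_dvd_sub _ _ _).1 h1.1.symm
    exact this
  · have := (ZMod.intCast_eq_intCast_iff_dvd_sub _ _ _).1 h1.2.symm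
    exact this

/-- minimal vector, right half -/
theorem central (A : ℤ) (hA : 1 ≤ A) (wL wR : List ℤ) (hL : Ok wL) (hR : Ok wR) (α β : ℤ)
    (hx1 : (R wL).1 ≤ α * (R wL).2 + β * (R wL).1)
    (hx2 : α * (R wL).2 + β * (R wL).1 <
      A * ((R wL).1 * (R wR).1) + (R wL).1 * (R wR).2 + (R wL).2 * (R wR).1) :
    (R wL).1 * (R wR).1 ≤ (α * (R wL).2 + β * (R wL).1) *
        |α * (A * (R wR).1 + (R wR).2) - β * (R wR).1| ∨
    A * ((R wL).1 * (R wR).1) + (R wL).1 * (R wR).2 + (R wL).2 * (R wR).1 ≤
      6 * ((α * (R wL).2 + β * (R wL).1) *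
        |α * (A * (R wR).1 + (R wR).2) - β * (R wR).1|) := by
  obtain ⟨k1, k2, k3⟩ := R_nonneg wL (fun a ha => (hL a ha).1)
  obtain ⟨j1, j2, j3⟩ := R_nonneg wR (fun a ha => (hR a ha).1)
  generalize (R wL).1 = q at *
  generalize (R wL).2 = q' at *
  have eabs : |α * (A * (R wR).1 + (R wR).2) - β * (R wR).1| =
      |(β - A * α) * (R wR).1 - α * (R wR).2| := by
    rw [← abs_neg]; congr 1; ring
  have ex : α * q' + β * q = (β - A * α) * q + α * (A * q + q') := by ring
  have hq1 : q ≤ A * q + q' := by nlinarith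
  rw [eabs]
  rcases lt_or_ge (α * q' + β * q) (A * q + q') with h | h
  · left
    have hs := step q (A * q + q') (R wR).1 (R wR).2 (β - A * α) α (by linarith) (by linarith) j2 j1
      (by rw [← ex]; linarith) (by rw [← ex]; exact h)
    nlinarith [mul_le_mul hx1 hs (by linarith) (by linarith)]
  · right
    rcases wR with _ | ⟨a, l⟩
    · exfalso
      simp [R] at hx2
      nlinarith
    · have ha := hR a (by simp)
      have hl : Ok l := fun b hb => hR b (by simp [hb])
      have hc := chain 4 l hl (A * q + q') (a * (A * q + q') + q) (α - a * (β - A * α)) (β - A * α)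
        (by linarith) (by nlinarith [ha.1]) (by nlinarith [ha.2])
        (by have e : (α - a * (β - A * α)) * (A * q + q') + (β - A * α) * (a * (A * q + q') + q)
              = α * q' + β * q := by ring
            rw [e]; exact h)
        (by have e : (α - a * (β - A * α)) * (A * q + q') + (β - A * α) * (a * (A * q + q') + q)
              = α * q' + β * q := by ring
            rw [e]
            simp only [R] at hx2
            linarith)
      simp only [R]
      have e1 : (α - a * (β - A * α)) * (A * q + q') + (β - A * α) * (a * (A * q + q') + q)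
              = α * q' + β * q := by ring
      have e2 : (a * (A * q + q') + q) * (R l).1 + (A * q + q') * (R l).2 =
        A * (q * (a * (R l).1 + (R l).2)) + q * (R l).1 + q' * (a * (R l).1 + (R l).2) := by ring
      have e3 : |(α - a * (β - A * α)) * (R l).1 - (β - A * α) * (R l).2| =
        |(β - A * α) * (a * (R l).1 + (R l).2) - α * (R l).1| := by
        rw [← abs_neg]; congr 1; ring
      rw [e1, e2, e3] at hc
      linarith

/-- the residue version -/
theorem minvec (A : ℤ) (hA : 1 ≤ A) (wL wR : List ℤ) (hL : Ok wL) (hR : Ok wR) (N : ℤ)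
    (hN : N = A * ((R wL).1 * (R wR).1) + (R wL).1 * (R wR).2 + (R wL).2 * (R wR).1)
    (p x y : ℤ) (hx : N ∣ p * (R wL).1 - x) (hy : N ∣ p * (R wR).1 - y)
    (hx0 : x ≠ 0) (hy0 : y ≠ 0) (hxN : |x| < N) (hyN : |y| < N) :
    (R wL).1 * (R wR).1 ≤ |x| * |y| ∨ N ≤ 6 * (|x| * |y|) := by
  obtain ⟨k1, k2, k3⟩ := R_nonneg wL (fun a ha => (hL a ha).1)
  obtain ⟨j1, j2, j3⟩ := R_nonneg wR (fun a ha => (hR a ha).1)
  obtain ⟨s, hs⟩ := hx
  obtain ⟨t, ht⟩ := hy
  set q := (R wL).1 with hq
  set q' := (R wL).2 with hq'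
  set r := (R wR).1 with hr
  set r' := (R wR).2 with hr'
  -- coordinates
  have main : ∀ α β : ℤ, 0 < α * q' + β * q → α * q' + β * q < N →
      |α * (A * r + r') - β * r| < N →
      q * r ≤ (α * q' + β * q) * |α * (A * r + r') - β * r| ∨
      N ≤ 6 * ((α * q' + β * q) * |α * (A * r + r') - β * r|) := by
    intro α β h1 h2 h3
    rcases le_or_gt q (α * q' + β * q) with h4 | h4
    · rw [hN] at h2 ⊢
      exact central A hA wL wR hL hR α β h4 h2
    · have hst := step q' q (A * r + r') r α β k1 k2 (by nlinarith) (by linarith) (by linarith) h4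
      have hAr : r ≤ A * r + r' := by nlinarith
      have hD : r ≤ |α * (A * r + r') - β * r| := hAr.trans hst
      rcases le_or_gt 0 (α * (A * r + r') - β * r) with h5 | h5
      · rw [abs_of_nonneg h5] at hD h3 ⊢
        have e1 : α * (A * r + r') - β * r = α * r' + (α * A - β) * r := by ring
        have e2 : α * (A * q + q') - (α * A - β) * q = α * q' + β * q := by ring
        have := central A hA wR wL hR hL α (α * A - β) (by rw [← hr, ← hr', ← e1]; exact hD)
          (by rw [← hr, ← hr', ← hq, ← hq', ← e1]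
              have : A * (r * q) + r * q' + r' * q = N := by rw [hN]; ring
              rw [this]; exact h3)
        rw [← hr, ← hr', ← hq, ← hq', ← e1, e2, abs_of_pos h1] at this
        rcases this with h | h
        · left; linarith
        · right
          have e : A * (r * q) + r * q' + r' * q = N := by rw [hN]; ring
          rw [e] at h
          linarith
      · rw [abs_of_neg h5] at hD h3 ⊢
        have e1 : -(α * (A * r + r') - β * r) = (-α) * r' + (β - α * A) * r := by ring
        have e2 : (-α) * (A * q + q') - (β - α * A) * q = -(α * q' + β * q) := by ring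
        have := central A hA wR wL hR hL (-α) (β - α * A) (by rw [← hr, ← hr', ← e1]; exact hD)
          (by rw [← hr, ← hr', ← hq, ← hq', ← e1]
              have : A * (r * q) + r * q' + r' * q = N := by rw [hN]; ring
              rw [this]; exact h3)
        rw [← hr, ← hr', ← hq, ← hq', ← e1, e2, abs_neg, abs_of_pos h1] at this
        rcases this with h | h
        · left; linarith
        · right
          have e : A * (r * q) + r * q' + r' * q = N := by rw [hN]; ring
          rw [e] at h
          linarith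
  have ex : (-s * r + t * q) * q' + (p - s * (A * r + r') - t * q') * q = x := by
    have : x = p * q - N * s := by linarith
    rw [this, hN]; ring
  have ey : (-s * r + t * q) * (A * r + r') - (p - s * (A * r + r') - t * q') * r = -y := by
    have : y = p * r - N * t := by linarith
    rw [this, hN]; ring
  rcases lt_or_gt_of_ne hx0 with h | h
  · have := main (-(-s * r + t * q)) (-(p - s * (A * r + r') - t * q'))
      (by nlinarith) (by rw [abs_of_neg h] at hxN; nlinarith)
      (by have e : -(-s * r + t * q) * (A * r + r') - -(p - s * (A * r + r') - t * q') * r = y := by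
            linarith
          rw [e]; exact hyN)
    have e : -(-s * r + t * q) * (A * r + r') - -(p - s * (A * r + r') - t * q') * r = y := by
      linarith
    have e' : -(-s * r + t * q) * q' + -(p - s * (A * r + r') - t * q') * q = |x| := by
      rw [abs_of_neg h]; linarith
    rw [e, e'] at this
    exact this
  · have := main (-s * r + t * q) (p - s * (A * r + r') - t * q')
      (by rw [ex]; exact h) (by rw [ex, ← abs_of_pos h]; exact hxN)
      (by rw [ey, abs_neg]; exact hyN)
    rw [ex, ey, abs_neg] at this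
    rw [abs_of_pos h]
    exact this

end H372R3.MD
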