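import Pool.Agent.H372R3.MD3

/-!
# One stage of the construction
-/

namespace H372R3.MD

open H372R3.MW

theorem R_eq_M (l : List ℤ) : (R l).1 = M l 0 0 ∧ (R l).2 = M l 1 0 := M_R l

theorem val_append (W P : List ℤ) (hW : Ok W) (hP : Ok P) :
    M W 0 0 ≤ (R (W ++ P)).1 ∧
    |((R (W ++ P)).2 : ℝ) / (R (W ++ P)).1 - val W 0| ≤ 1 / (M W 0 0 : ℝ) ^ 2 := by
  obtain ⟨h1, h2, h3, h4, h5, h6, h7, h8, h10, h9⟩ := M_facts W hW
  obtain ⟨k1, k2, k3, k4, k5, k6, k7, k8, k10, k9⟩ := M_facts P hP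
  have e1 : (R (W ++ P)).1 = M W 0 0 * M P 0 0 + M W 0 1 * M P 1 0 := by
    rw [(R_eq_M _).1, M_append]; simp [Matrix.mul_apply, Fin.sum_univ_two]
  have e2 : (R (W ++ P)).2 = M W 1 0 * M P 0 0 + M W 1 1 * M P 1 0 := by
    rw [(R_eq_M _).2, M_append]; simp [Matrix.mul_apply, Fin.sum_univ_two]
  have h1' : (1 : ℝ) ≤ M W 0 0 := by exact_mod_cast h1
  have h2' : (0 : ℝ) ≤ M W 0 1 := by exact_mod_cast h2
  have k1' : (1 : ℝ) ≤ M P 0 0 := by exact_mod_cast k1
  have k4' : (0 : ℝ) ≤ M P 1 0 := by exact_mod_cast k4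
  have k5' : (M P 1 0 : ℝ) ≤ M P 0 0 := by exact_mod_cast k5
  constructor
  · rw [e1]
    nlinarith [mul_nonneg h2 k4]
  · set z : ℝ := (M P 1 0 : ℝ) / (M P 0 0 : ℝ) with hz
    have hz0 : 0 ≤ z := div_nonneg k4' (by linarith)
    have hz1 : z ≤ 1 := by rw [hz, div_le_one (by linarith)]; exact k5'
    have e3 : ((R (W ++ P)).2 : ℝ) / (R (W ++ P)).1 = val W z := by
      rw [e1, e2]
      unfold val
      push_cast
      have p1 : (0:ℝ) < M W 0 0 * M P 0 0 + M W 0 1 * M P 1 0 := by nlinarith [mul_nonneg h2' k4']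
      have p2 : (0:ℝ) < M W 0 0 + z * M W 0 1 := by nlinarith [mul_nonneg hz0 h2']
      rw [div_eq_div_iff p1.ne' p2.ne', hz]
      field_simp
    rw [e3, val_sub W hW z 0 hz0 le_rfl, sub_zero, abs_of_nonneg hz0]
    apply div_le_div₀ (by norm_num) hz1 (by positivity)
    nlinarith [mul_nonneg hz0 h2']

theorem coprime_R (l : List ℤ) (hl : Ok l) : IsCoprime (R l).1 (R l).2 := by
  obtain ⟨h1, h2, h3, h4, h5, h6, h7, h8, h10, h9⟩ := M_facts l hl
  rw [(R_eq_M l).1, (R_eq_M l).2]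
  rcases h9 with h | h
  · exact ⟨M l 1 1, -M l 0 1, by linarith⟩
  · exact ⟨-M l 1 1, M l 0 1, by linarith⟩

set_option maxHeartbeats 1000000 in
theorem stage (n : ℕ) (hn : 1 ≤ n) (g h : ℤ) (hg : IsCoprime g n) (hh : IsCoprime h n) (s : ℝ)
    (hs : 6 ≤ s) (ε K : ℝ) (hε : 0 < ε) (hK : 1 ≤ K) :
    ∃ (N : ℕ) (q r : ℤ), 1 ≤ q ∧ 1 ≤ r ∧ K * q ≤ N ∧ K * r ≤ N ∧ K ≤ N ∧ IsCoprime q (N : ℤ) ∧
      IsCoprime r (N : ℤ) ∧ (n : ℤ) ∣ q + N * g ∧ (n : ℤ) ∣ r + N * h ∧
      |(N : ℝ) / (q * r) - s| < ε ∧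
      (∀ p x y : ℤ, (N : ℤ) ∣ p * q - x → (N : ℤ) ∣ p * r - y → x ≠ 0 → y ≠ 0 → |x| < N → |y| < N →
        q * r ≤ |x| * |y| ∨ (N : ℤ) ≤ 6 * (|x| * |y|)) := by
  -- the constant m
  obtain ⟨m, hm0, hm⟩ : ∃ m : ℝ, 0 < m ∧ 4 * m * (1 + m) = 1 := by
    have h1 : (1 : ℝ) < Real.sqrt 2 := by
      rw [Real.lt_sqrt (by norm_num)]; norm_num
    have h2 : Real.sqrt 2 * Real.sqrt 2 = 2 := Real.mul_self_sqrt (by norm_num)
    exact ⟨(Real.sqrt 2 - 1) / 2, by linarith, by ring_nf; nlinarith⟩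
  obtain ⟨b1, b2⟩ := m_bounds hm0 hm
  set A : ℤ := ⌊s - 2 * m⌋ with hA
  have hA1 : (A : ℝ) ≤ s - 2 * m := Int.floor_le _
  have hA2 : s - 2 * m < A + 1 := Int.lt_floor_add_one _
  have hA5 : 1 ≤ A := by
    rw [hA, Int.le_floor]
    push_cast
    linarith
  set K' : ℝ := K + 4 / ε with hK'
  have hε4 : 0 < 4 / ε := by positivity
  have hK'0 : 0 < K' := by linarith
  obtain ⟨W, W', hW, hW', hq1, hr1, happ⟩ := hall hm0 hm (s - A) (by linarith) (by linarith) K' hK'0
  -- left padding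
  obtain ⟨P, hP, ⟨c1, hc1⟩, ⟨c2, hc2⟩⟩ := reach n hn W hW (-g) 0 hg.neg_left
  obtain ⟨f1, f2⟩ := val_append W P hW hP
  have hWP : Ok (W ++ P) := hW.append hP
  have hcop := coprime_R _ hWP
  obtain ⟨u2, u3, u4⟩ := R_nonneg (W ++ P) (fun a ha => (hWP a ha).1)
  have hWLdef : True := trivial
  generalize hwl : W ++ P = wL at *
  set q := (R wL).1 with hq
  set q' := (R wL).2 with hq'
  have hqn : IsCoprime q (n : ℤ) := by
    have : q = -g + n * c1 := by linarith
    rw [this]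
    exact hg.neg_left.add_mul_left_left c1
  obtain ⟨a, b, hab⟩ := hg
  obtain ⟨u, v, huv⟩ := hqn
  -- target on the right
  have hX1 : (-h * (u * q) + v * n) = -h + n * (v * (h + 1)) := by
    have : u * q = 1 - v * n := by linarith
    rw [this]; ring
  have hX2 : (-h * (u * q) + v * n) = 1 + q * (-(u * (h + 1))) := by
    have : v * n = 1 - u * q := by linarith
    rw [this]; ring
  have hcopX : IsCoprime (-h * (u * q) + v * n) (((n * q.toNat : ℕ)) : ℤ) := by
    push_cast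
    rw [Int.toNat_of_nonneg (by linarith)]
    apply IsCoprime.mul_right
    · rw [hX1]
      exact hh.neg_left.add_mul_left_left _
    · rw [hX2]
      exact isCoprime_one_left.add_mul_left_left _
  have hq0 : 1 ≤ q.toNat := by
    have : 1 ≤ q := u3
    omega
  obtain ⟨P', hP', ⟨d1, hd1⟩, ⟨d2, hd2⟩⟩ := reach (n * q.toNat) (Nat.one_le_iff_ne_zero.2
    (Nat.mul_ne_zero (by omega) (by omega))) W' hW' (-h * (u * q) + v * n) (A * h - a) hcopX
  obtain ⟨f3, f4⟩ := val_append W' P' hW' hP'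
  have hWP' : Ok (W' ++ P') := hW'.append hP'
  have hcop' := coprime_R _ hWP'
  obtain ⟨v2, v3, v4⟩ := R_nonneg (W' ++ P') (fun a ha => (hWP' a ha).1)
  generalize hwr : W' ++ P' = wR at *
  set r := (R wR).1 with hr
  set r' := (R wR).2 with hr'
  push_cast at hd1 hd2
  rw [Int.toNat_of_nonneg (by linarith)] at hd1 hd2
  -- congruences
  have hr_n : r = -h + n * (v * (h + 1) + q * d1) := by
    linear_combination hd1 + hX1
  have hr_q : r = 1 + q * (-(u * (h + 1)) + n * d1) := by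
    linear_combination hd1 + hX2
  have hr'_n : r' = A * h - a + n * (q * d2) := by linear_combination hd2
  have hq_n : q = -g + n * c1 := by linarith
  have hq'_n : q' = n * c2 := by linarith
  have hqr : IsCoprime q r := by
    rw [hr_q]
    exact isCoprime_one_right.add_mul_left_right _
  obtain ⟨N0, hN0⟩ : ∃ N0 : ℤ, N0 = A * (q * r) + q * r' + q' * r := ⟨_, rfl⟩
  have hqrpos : q * r ≤ N0 := by
    rw [hN0]
    have p1 : 0 < q * r := mul_pos (by linarith) (by linarith)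
    have p2 : 0 ≤ q * r' := mul_nonneg (by linarith) v2
    have p3 : 0 ≤ q' * r := mul_nonneg u2 (by linarith)
    nlinarith
  have hN0pos : 1 ≤ N0 := by
    have p1 : 0 < q * r := mul_pos (by linarith) (by linarith)
    linarith
  have hNc : ((N0.toNat : ℕ) : ℤ) = N0 := Int.toNat_of_nonneg (by linarith)
  have hNcR : ((N0.toNat : ℕ) : ℝ) = (N0 : ℝ) := by
    rw [← Int.cast_natCast, hNc]
  have hN1 : N0 = 1 + n * (-b - a * c1 + q * (A * (v * (h + 1) + q * d1) + q * d2) + c2 * r) := by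
    have e1 : N0 = q * (A * r + r') + q' * r := by rw [hN0]; ring
    have e2 : A * r + r' = -a + n * (A * (v * (h + 1) + q * d1) + q * d2) := by
      rw [hr'_n]
      linear_combination A * hr_n
    have e3 : N0 = -a * q + n * (q * (A * (v * (h + 1) + q * d1) + q * d2)) + n * (c2 * r) := by
      rw [e1, e2, hq'_n]; ring
    linear_combination e3 - a * hq_n + hab
  have hqR : (K' : ℝ) < q := lt_of_lt_of_le hq1 (by exact_mod_cast f1)
  have hrR : (K' : ℝ) < r := lt_of_lt_of_le hr1 (by exact_mod_cast f3)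
  have hqrR : (q : ℝ) * r ≤ N0 := by exact_mod_cast hqrpos
  have hKK' : K ≤ K' := by linarith
  have hKq : K * q ≤ N0 := by
    have : K * (q : ℝ) ≤ r * q := mul_le_mul_of_nonneg_right (by linarith) (by linarith)
    linarith
  have hKr : K * r ≤ N0 := by
    have : K * (r : ℝ) ≤ q * r := mul_le_mul_of_nonneg_right (by linarith) (by linarith)
    linarith
  have hKN : K ≤ N0 := by
    have h1 : (1 : ℝ) ≤ q := by linarith
    have : K * 1 ≤ K * (q : ℝ) := mul_le_mul_of_nonneg_left h1 (by linarith)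
    linarith
  refine ⟨N0.toNat, q, r, u3, v3, by rw [hNcR]; exact hKq, by rw [hNcR]; exact hKr,
    by rw [hNcR]; exact hKN, ?_, ?_, ?_, ?_, ?_, ?_⟩
  · rw [hNc, hN0]
    have : A * (q * r) + q * r' + q' * r = q' * r + q * (A * r + r') := by ring
    rw [this]
    exact (hcop.mul_right hqr).add_mul_left_right _
  · rw [hNc, hN0]
    have : A * (q * r) + q * r' + q' * r = q * r' + r * (A * q + q') := by ring
    rw [this]
    exact (hqr.symm.mul_right hcop').add_mul_left_right _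
  · rw [hNc]
    exact ⟨c1 + (-b - a * c1 + q * (A * (v * (h + 1) + q * d1) + q * d2) + c2 * r) * g, by
      linear_combination hq_n + g * hN1⟩
  · rw [hNc]
    exact ⟨(v * (h + 1) + q * d1) +
        (-b - a * c1 + q * (A * (v * (h + 1) + q * d1) + q * d2) + c2 * r) * h, by
      linear_combination hr_n + h * hN1⟩
  · rw [hNcR]
    have hq0' : (0 : ℝ) < q := by linarith
    have hr0' : (0 : ℝ) < r := by linarith
    have e1 : (N0 : ℝ) / (q * r) - s = ((q' : ℝ) / q - val W 0) + ((r' : ℝ) / r - val W' 0) +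
        (val W 0 + val W' 0 - (s - A)) := by
      have : (N0 : ℝ) / (q * r) = A + r' / r + q' / q := by
        rw [hN0]
        push_cast
        field_simp
      rw [this]; ring
    rw [e1]
    have hb1 : 1 / (M W 0 0 : ℝ) ^ 2 < 1 / K' ^ 2 := by
      apply one_div_lt_one_div_of_lt (by positivity)
      apply pow_lt_pow_left₀ hq1 hK'0.le (by norm_num)
    have hb2 : 1 / (M W' 0 0 : ℝ) ^ 2 < 1 / K' ^ 2 := by
      apply one_div_lt_one_div_of_lt (by positivity)
      apply pow_lt_pow_left₀ hr1 hK'0.le (by norm_num)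
    have hb3 : 4 * (1 / K' ^ 2) ≤ ε := by
      have t1 : 1 ≤ K' := by linarith
      have t2 : 4 / ε ≤ K' := by linarith
      rw [div_le_iff₀ hε] at t2
      rw [mul_one_div, div_le_iff₀ (by positivity)]
      have t3 : K' * ε ≤ K' * ε * K' := le_mul_of_one_le_right (by positivity) t1
      have t4 : ε * K' ^ 2 = K' * ε * K' := by ring
      rw [t4]
      linarith
    have := abs_add_three ((q' : ℝ) / q - val W 0) ((r' : ℝ) / r - val W' 0)
      (val W 0 + val W' 0 - (s - A))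
    linarith
  · intro p x y hx hy hx0 hy0 hxN hyN
    rw [hNc] at *
    exact minvec A hA5 wL wR hWP hWP' N0 hN0 p x y hx hy hx0 hy0 hxN hyN

end H372R3.MD
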