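import Pool.Agent.H372R3.MD1
import Pool.Agent.H372R3.MD4

/-!
# The multiplicative Dirichlet spectrum contains `[0, 1/6]` and is contained in `[0, 4/9]`
-/

namespace H372R3.MD

open Filter Topology

/-- `m_Q(ξ,ζ)` -/
noncomputable def mQ (ξ ζ Q : ℝ) : ℝ :=
  sInf {x : ℝ | ∃ q : ℤ, 1 ≤ q ∧ (q : ℝ) ≤ Q ∧ x = nn (q * ξ) * nn (q * ζ)}

/-- `L(ξ,ζ)` -/
noncomputable def LL (ξ ζ : ℝ) : ℝ := limsup (fun Q : ℝ => Q * mQ ξ ζ Q) atTop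

theorem set_bdd (ξ ζ Q : ℝ) :
    BddBelow {x : ℝ | ∃ q : ℤ, 1 ≤ q ∧ (q : ℝ) ≤ Q ∧ x = nn (q * ξ) * nn (q * ζ)} := by
  refine ⟨0, ?_⟩
  rintro x ⟨q, _, _, rfl⟩
  exact mul_nonneg (nn_nonneg _) (nn_nonneg _)

theorem mQ_le (ξ ζ Q : ℝ) (q : ℤ) (h1 : 1 ≤ q) (h2 : (q : ℝ) ≤ Q) :
    mQ ξ ζ Q ≤ nn (q * ξ) * nn (q * ζ) :=
  csInf_le (set_bdd ξ ζ Q) ⟨q, h1, h2, rfl⟩

theorem le_mQ (ξ ζ Q c : ℝ) (hQ : 1 ≤ Q)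
    (h : ∀ q : ℤ, 1 ≤ q → (q : ℝ) ≤ Q → c ≤ nn (q * ξ) * nn (q * ζ)) : c ≤ mQ ξ ζ Q := by
  apply le_csInf
  · exact ⟨_, 1, le_rfl, by simpa using hQ, rfl⟩
  · rintro x ⟨q, h1, h2, rfl⟩
    exact h q h1 h2

theorem mQ_nonneg (ξ ζ Q : ℝ) : 0 ≤ mQ ξ ζ Q := by
  apply Real.sInf_nonneg
  rintro x ⟨q, _, _, rfl⟩
  exact mul_nonneg (nn_nonneg _) (nn_nonneg _)

theorem f_upper (ξ ζ Q : ℝ) (hQ : 2 ≤ Q) : Q * mQ ξ ζ Q ≤ 4 / 9 := by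
  have h1 : 2 ≤ ⌊Q⌋₊ := by
    rw [Nat.le_floor_iff (by linarith)]
    exact_mod_cast hQ
  obtain ⟨q, hq1, hq2, hq3⟩ := upper ξ ζ ⌊Q⌋₊ h1
  have h2 : ((⌊Q⌋₊ : ℕ) : ℝ) ≤ Q := Nat.floor_le (by linarith)
  have h3 : Q ≤ (⌊Q⌋₊ : ℝ) + 1 := (Nat.lt_floor_add_one Q).le
  have h4 := mQ_le ξ ζ Q (q : ℤ) (by exact_mod_cast hq1) (by
    have : (q : ℝ) ≤ (⌊Q⌋₊ : ℝ) := by exact_mod_cast hq2
    push_cast
    linarith)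
  push_cast at h4
  have h5 := mQ_nonneg ξ ζ Q
  calc Q * mQ ξ ζ Q ≤ ((⌊Q⌋₊ : ℝ) + 1) * mQ ξ ζ Q := mul_le_mul_of_nonneg_right h3 h5
    _ ≤ ((⌊Q⌋₊ : ℝ) + 1) * (nn (q * ξ) * nn (q * ζ)) := mul_le_mul_of_nonneg_left h4 (by positivity)
    _ ≤ 4 / 9 := hq3

theorem f_cobdd (ξ ζ : ℝ) : IsCoboundedUnder (· ≤ ·) atTop (fun Q : ℝ => Q * mQ ξ ζ Q) := by
  apply Filter.isCoboundedUnder_le_of_eventually_le atTop (x := (0 : ℝ))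
  filter_upwards [eventually_ge_atTop (0 : ℝ)] with Q hQ
  exact mul_nonneg hQ (mQ_nonneg _ _ _)

theorem f_bdd (ξ ζ : ℝ) : IsBoundedUnder (· ≤ ·) atTop (fun Q : ℝ => Q * mQ ξ ζ Q) := by
  refine ⟨4 / 9, ?_⟩
  rw [eventually_map]
  filter_upwards [eventually_ge_atTop (2 : ℝ)] with Q hQ
  exact f_upper ξ ζ Q hQ

theorem LL_le (ξ ζ c : ℝ) (h : ∀ᶠ Q : ℝ in atTop, Q * mQ ξ ζ Q ≤ c) : LL ξ ζ ≤ c :=
  limsup_le_of_le (f_cobdd ξ ζ) h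

theorem le_LL (ξ ζ c : ℝ) (h : ∃ᶠ Q : ℝ in atTop, c ≤ Q * mQ ξ ζ Q) : c ≤ LL ξ ζ :=
  le_limsup_of_frequently_le h (f_bdd ξ ζ)

theorem LL_upper (ξ ζ : ℝ) : LL ξ ζ ≤ 4 / 9 := by
  apply LL_le
  filter_upwards [eventually_ge_atTop (2 : ℝ)] with Q hQ
  exact f_upper ξ ζ Q hQ

theorem LL_nonneg (ξ ζ : ℝ) : 0 ≤ LL ξ ζ := by
  apply le_LL
  apply Eventually.frequently
  filter_upwards [eventually_ge_atTop (0 : ℝ)] with Q hQ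
  exact mul_nonneg hQ (mQ_nonneg _ _ _)

theorem LL_zero : LL 0 0 = 0 := by
  apply le_antisymm _ (LL_nonneg 0 0)
  apply LL_le
  filter_upwards [eventually_ge_atTop (1 : ℝ)] with Q hQ
  have h1 := mQ_le 0 0 Q 1 le_rfl (by simpa using hQ)
  have h2 : nn (((1 : ℤ) : ℝ) * 0) = 0 := by simp [nn]
  rw [h2, zero_mul] at h1
  have h3 := mQ_nonneg 0 0 Q
  have h4 : mQ 0 0 Q = 0 := le_antisymm h1 h3
  rw [h4, mul_zero]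

/-- a rational pair -/
structure St where
  n : ℕ
  g : ℤ
  h : ℤ
  hn : 1 ≤ n
  hg : IsCoprime g (n : ℤ)
  hh : IsCoprime h (n : ℤ)

/-- relation between consecutive stages -/
def Rel (s : ℝ) (k : ℕ) (S S' : St) : Prop :=
  ∃ q r : ℤ, 1 ≤ q ∧ 1 ≤ r ∧ (2 * (S.n : ℝ) ^ 4 + k + 1) * q ≤ S'.n ∧
    (2 * (S.n : ℝ) ^ 4 + k + 1) * r ≤ S'.n ∧ (2 * (S.n : ℝ) ^ 4 + k + 1) ≤ S'.n ∧
    (S.n : ℤ) * S'.g = q + S'.n * S.g ∧ (S.n : ℤ) * S'.h = r + S'.n * S.h ∧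
    |(S'.n : ℝ) / (q * r) - s| < 1 / ((k : ℝ) + 1) ∧
    (∀ p x y : ℤ, ¬ (S'.n : ℤ) ∣ p → (S'.n : ℤ) ∣ p * S'.g - x → (S'.n : ℤ) ∣ p * S'.h - y →
      |x| < S'.n → |y| < S'.n → x ≠ 0 ∧ y ≠ 0 ∧
      (q * r ≤ |x| * |y| ∨ (S'.n : ℤ) ≤ 6 * (|x| * |y|)))

theorem exists_next (s : ℝ) (hs : 6 ≤ s) (k : ℕ) (S : St) : ∃ S', Rel s k S S' := by
  have hK : (1 : ℝ) ≤ 2 * (S.n : ℝ) ^ 4 + k + 1 := by
    have : (0 : ℝ) ≤ 2 * (S.n : ℝ) ^ 4 + k := by positivity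
    linarith
  obtain ⟨N, q, r, hq, hr, hKq, hKr, hKN, cq, cr, ⟨g', hg'⟩, ⟨h', hh'⟩, happ, hmin⟩ :=
    stage S.n S.hn S.g S.h S.hg S.hh s hs (1 / ((k : ℝ) + 1)) (2 * (S.n : ℝ) ^ 4 + k + 1)
      (by positivity) hK
  have hN : 1 ≤ N := by
    have : (1 : ℝ) ≤ N := le_trans hK hKN
    exact_mod_cast this
  have e1 : IsCoprime ((S.n : ℤ) * g') (N : ℤ) := by
    rw [← hg']; exact IsCoprime.add_mul_left_left cq S.g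
  have e2 : IsCoprime ((S.n : ℤ) * h') (N : ℤ) := by
    rw [← hh']; exact IsCoprime.add_mul_left_left cr S.h
  refine ⟨⟨N, g', h', hN, e1.of_mul_left_right, e2.of_mul_left_right⟩, q, r, hq, hr, hKq, hKr,
    hKN, hg'.symm, hh'.symm, happ, ?_⟩
  intro p x y hp hx hy hxN hyN
  dsimp only at hp hx hy hxN hyN ⊢
  have hx0 : x ≠ 0 := by
    rintro rfl
    rw [sub_zero] at hx
    exact hp (e1.of_mul_left_right.symm.dvd_of_dvd_mul_right hx)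
  have hy0 : y ≠ 0 := by
    rintro rfl
    rw [sub_zero] at hy
    exact hp (e2.of_mul_left_right.symm.dvd_of_dvd_mul_right hy)
  refine ⟨hx0, hy0, ?_⟩
  obtain ⟨a, b, hab⟩ := e1.of_mul_left_left
  obtain ⟨c1, hc1⟩ := hx
  obtain ⟨c2, hc2⟩ := hy
  apply hmin (p * a) x y _ _ hx0 hy0 hxN hyN
  · refine ⟨c1 - p * g' * b - p * a * S.g, ?_⟩
    linear_combination (p * a) * hg' + hc1 + (p * g') * hab
  · refine ⟨c2 - p * h' * b - p * a * S.h, ?_⟩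
    linear_combination (p * a) * hh' + hc2 + (p * h') * hab

end H372R3.MD
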