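import Pool.Agent.H372R3.MD5

/-!
# Passing to the limit: `1/s` belongs to the multiplicative Dirichlet spectrum for `s ≥ 6`
-/

namespace H372R3.MD

open Filter Topology

/-- reciprocal estimate -/
theorem recip_est (s N Qr δ : ℝ) (hs : 6 ≤ s) (hN : 0 < N) (hQ : 0 < Qr) (hδ0 : 0 < δ) (hδ : δ ≤ 1)
    (h : |N / Qr - s| < δ) : Qr / N ≤ 1 / s + δ ∧ 1 / s - δ ≤ Qr / N := by
  rw [abs_lt] at h
  obtain ⟨h1, h2⟩ := h
  set t := N / Qr with ht
  have ht0 : 0 < t := div_pos hN hQ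
  have e1 : Qr / N = 1 / t := by rw [ht]; field_simp
  rw [e1]
  have hs0 : 0 < s := by linarith
  have ht5 : 5 < t := by linarith
  constructor
  · rw [div_add' _ _ _ hs0.ne', div_le_div_iff₀ ht0 hs0]
    nlinarith [mul_pos hδ0 hs0, mul_pos hδ0 ht0, mul_pos (mul_pos hδ0 hs0) ht0,
      mul_nonneg hδ0.le (mul_nonneg (by linarith : (0:ℝ) ≤ s - 6) ht0.le)]
  · rw [div_sub' hs0.ne', div_le_div_iff₀ hs0 ht0]
    nlinarith [mul_pos hδ0 hs0, mul_pos hδ0 ht0, mul_pos (mul_pos hδ0 hs0) ht0,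
      mul_nonneg hδ0.le (mul_nonneg (by linarith : (0:ℝ) ≤ s - 6) ht0.le)]

theorem coord_upper (n N : ℕ) (g g' q : ℤ) (ξ : ℝ) (hn : 1 ≤ n) (hN : n ≤ N)
    (hg : (n : ℤ) * g' = q + N * g)
    (h1 : (g' : ℝ) / N ≤ ξ) (h2 : ξ ≤ (g' : ℝ) / N + 1 / (N : ℝ) ^ 4) (hq : 1 ≤ q) :
    nn ((n : ℤ) * ξ) ≤ (q : ℝ) / N + 1 / (N : ℝ) ^ 3 := by
  have hn0 : (1 : ℝ) ≤ n := by exact_mod_cast hn
  have hN0 : (n : ℝ) ≤ N := by exact_mod_cast hN
  have hNpos : (0 : ℝ) < N := by linarith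
  have hgR : (n : ℝ) * g' = q + N * g := by exact_mod_cast hg
  have hqR : (1 : ℝ) ≤ q := by exact_mod_cast hq
  refine (nn_le _ g).trans ?_
  push_cast
  have e1 : (n : ℝ) * ((g' : ℝ) / N) = q / N + g := by
    field_simp
    linarith
  have h3 : (n : ℝ) * ((g' : ℝ) / N) ≤ n * ξ := mul_le_mul_of_nonneg_left h1 (by linarith)
  have h4 : (n : ℝ) * ξ ≤ n * ((g' : ℝ) / N + 1 / (N : ℝ) ^ 4) :=
    mul_le_mul_of_nonneg_left h2 (by linarith)
  have h5 : (n : ℝ) * (1 / (N : ℝ) ^ 4) ≤ 1 / (N : ℝ) ^ 3 := by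
    calc (n : ℝ) * (1 / (N : ℝ) ^ 4) ≤ N * (1 / (N : ℝ) ^ 4) :=
          mul_le_mul_of_nonneg_right hN0 (by positivity)
      _ = 1 / (N : ℝ) ^ 3 := by field_simp
  have h6 : (0 : ℝ) ≤ q / N := by positivity
  rw [abs_of_nonneg (by linarith)]
  linarith

theorem coord_lower (N : ℕ) (g' p : ℤ) (ξ : ℝ) (hN : 2 ≤ N) (hp1 : 1 ≤ p) (hp2 : p < N)
    (h1 : (g' : ℝ) / N ≤ ξ) (h2 : ξ ≤ (g' : ℝ) / N + 1 / (N : ℝ) ^ 4) :
    ∃ x : ℤ, (N : ℤ) ∣ p * g' - x ∧ |x| < N ∧ (|x| : ℝ) / N - 1 / (N : ℝ) ^ 3 ≤ nn (p * ξ) := by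
  have hN0 : (2 : ℝ) ≤ N := by exact_mod_cast hN
  have hNpos : (0 : ℝ) < N := by linarith
  have hpR : (1 : ℝ) ≤ p := by exact_mod_cast hp1
  have hpN : (p : ℝ) ≤ N := by exact_mod_cast hp2.le
  refine ⟨p * g' - N * round (p * ξ), ⟨round (p * ξ), by ring⟩, ?_, ?_⟩
  all_goals
    have e1 : ((p * g' - N * round (p * ξ) : ℤ) : ℝ) / N =
        (p * ξ - round (p * ξ)) - p * (ξ - (g' : ℝ) / N) := by
      push_cast
      field_simp
      ring
    have h3 : 0 ≤ (p : ℝ) * (ξ - (g' : ℝ) / N) := mul_nonneg (by linarith) (by linarith)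
    have h4 : (p : ℝ) * (ξ - (g' : ℝ) / N) ≤ 1 / (N : ℝ) ^ 3 := by
      calc (p : ℝ) * (ξ - (g' : ℝ) / N) ≤ N * (1 / (N : ℝ) ^ 4) :=
            mul_le_mul hpN (by linarith) (by linarith) (by linarith)
        _ = 1 / (N : ℝ) ^ 3 := by field_simp
    have h5 : |((p * g' - N * round (p * ξ) : ℤ) : ℝ)| / N ≤ nn (p * ξ) + 1 / (N : ℝ) ^ 3 := by
      have : |((p * g' - N * round (p * ξ) : ℤ) : ℝ)| / N =
          |((p * g' - N * round (p * ξ) : ℤ) : ℝ) / N| := by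
        rw [abs_div, abs_of_pos hNpos]
      rw [this, e1]
      refine (abs_sub _ _).trans ?_
      rw [abs_of_nonneg h3]
      unfold nn
      linarith
  · have h6 := nn_le_half (p * ξ)
    have h7 : 1 / (N : ℝ) ^ 3 < 1 / 2 := by
      apply one_div_lt_one_div_of_lt (by norm_num)
      nlinarith [mul_pos hNpos hNpos, mul_pos (mul_pos hNpos hNpos) hNpos]
    have h8 : |((p * g' - N * round (p * ξ) : ℤ) : ℝ)| / N < 1 := by linarith
    rw [div_lt_one hNpos] at h8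
    exact_mod_cast h8
  · have h9 : ((|p * g' - N * round (p * ξ)| : ℤ) : ℝ) = |((p * g' - N * round (p * ξ) : ℤ) : ℝ)| :=
      Int.cast_abs
    linarith

/-- the sequence of rational pairs -/
theorem exists_seq (s : ℝ) (hs : 6 ≤ s) : ∃ S : ℕ → St, ∀ k, Rel s k (S k) (S (k + 1)) := by
  choose F hF using exists_next s hs
  refine ⟨fun k => Nat.rec ⟨1, 0, 0, le_rfl, isCoprime_one_right, isCoprime_one_right⟩
    (fun k T => F k T) k, fun k => ?_⟩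
  exact hF k _

theorem Rel.grow {s : ℝ} {k : ℕ} {S S' : St} (h : Rel s k S S') :
    2 * S.n ^ 4 + k + 1 ≤ S'.n := by
  obtain ⟨q, r, -, -, -, -, h5, -⟩ := h
  exact_mod_cast h5

theorem Rel.lt {s : ℝ} {k : ℕ} {S S' : St} (h : Rel s k S S') : S.n + k < S'.n := by
  have h1 := h.grow
  have h2 : S.n ≤ S.n ^ 4 := Nat.le_self_pow (by norm_num) _
  omega

/-- nesting for one coordinate -/
theorem nest_coord (n N : ℕ) (g g' q : ℤ) (hn : 1 ≤ n) (k : ℕ) (hN : 2 * n ^ 4 + k + 1 ≤ N)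
    (hq : 1 ≤ q) (hKq : (2 * (n : ℝ) ^ 4 + k + 1) * q ≤ N) (hg : (n : ℤ) * g' = q + N * g) :
    Set.Icc ((g' : ℝ) / N) ((g' : ℝ) / N + 1 / (N : ℝ) ^ 4) ⊆
      Set.Icc ((g : ℝ) / n) ((g : ℝ) / n + 1 / (n : ℝ) ^ 4) := by
  have hn0 : (1 : ℝ) ≤ n := by exact_mod_cast hn
  have hN0 : 2 * (n : ℝ) ^ 4 + k + 1 ≤ N := by exact_mod_cast hN
  have hn4 : (0 : ℝ) < (n : ℝ) ^ 4 := by positivity
  have hk0 : (0 : ℝ) ≤ k := Nat.cast_nonneg _
  have hNpos : (0 : ℝ) < N := by linarith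
  have hN1 : (1 : ℝ) ≤ N := by linarith
  have hgR : (n : ℝ) * g' = q + N * g := by exact_mod_cast hg
  have hqR : (1 : ℝ) ≤ q := by exact_mod_cast hq
  have hnpos : (0 : ℝ) < n := by linarith
  have e1 : (g' : ℝ) / N = g / n + q / (n * N) := by
    field_simp
    linarith
  have h0 : (0 : ℝ) ≤ q / (n * N) := by positivity
  have h1 : (q : ℝ) / (n * N) ≤ 1 / (2 * (n : ℝ) ^ 4) := by
    rw [div_le_div_iff₀ (by positivity) (by positivity)]
    have a1 : 2 * (n : ℝ) ^ 4 * q ≤ (2 * (n : ℝ) ^ 4 + k + 1) * q :=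
      mul_le_mul_of_nonneg_right (by linarith) (by linarith)
    have a2 : (1 : ℝ) * N ≤ n * N := mul_le_mul_of_nonneg_right hn0 hNpos.le
    linarith
  have h2 : 1 / (N : ℝ) ^ 4 ≤ 1 / (2 * (n : ℝ) ^ 4) := by
    apply one_div_le_one_div_of_le (by positivity)
    have a1 : (N : ℝ) ≤ (N : ℝ) ^ 4 := le_self_pow₀ hN1 (by norm_num)
    linarith
  have h3 : 1 / (2 * (n : ℝ) ^ 4) + 1 / (2 * (n : ℝ) ^ 4) = 1 / (n : ℝ) ^ 4 := by
    field_simp
    norm_num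
  apply Set.Icc_subset_Icc
  · linarith
  · linarith

/-- upper bound in the range between two consecutive denominators -/
theorem stage_upper (s : ℝ) (hs : 6 ≤ s) (k : ℕ) (S S' : St) (h : Rel s k S S') (ξ ζ : ℝ)
    (hξ : ξ ∈ Set.Icc ((S'.g : ℝ) / S'.n) ((S'.g : ℝ) / S'.n + 1 / (S'.n : ℝ) ^ 4))
    (hζ : ζ ∈ Set.Icc ((S'.h : ℝ) / S'.n) ((S'.h : ℝ) / S'.n + 1 / (S'.n : ℝ) ^ 4))
    (Q : ℝ) (hQ1 : (S.n : ℝ) ≤ Q) (hQ2 : Q ≤ S'.n) :
    Q * mQ ξ ζ Q ≤ 1 / s + 4 / ((k : ℝ) + 1) := by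
  have hlt := h.lt
  have hgrow := h.grow
  obtain ⟨q, r, hq, hr, hKq, hKr, hKN, hg, hh, happ, hmin⟩ := h
  have hSn := S.hn
  have u1 := coord_upper S.n S'.n S.g S'.g q ξ hSn (by omega) hg hξ.1 hξ.2 hq
  have u2 := coord_upper S.n S'.n S.h S'.h r ζ hSn (by omega) hh hζ.1 hζ.2 hr
  have m1 := mQ_le ξ ζ Q (S.n : ℤ) (by exact_mod_cast hSn) (by push_cast; exact hQ1)
  have hqR : (1 : ℝ) ≤ q := by exact_mod_cast hq
  have hrR : (1 : ℝ) ≤ r := by exact_mod_cast hr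
  have hnR : (1 : ℝ) ≤ S.n := by exact_mod_cast hSn
  have hn4 : (0 : ℝ) < (S.n : ℝ) ^ 4 := by positivity
  have hk0 : (0 : ℝ) ≤ k := Nat.cast_nonneg _
  have hNpos : (0 : ℝ) < S'.n := by linarith
  have hN1 : (k : ℝ) + 1 ≤ S'.n := by linarith
  have hNone : (1 : ℝ) ≤ S'.n := by linarith
  have hqN : (q : ℝ) ≤ S'.n := by
    have : 1 * (q : ℝ) ≤ (2 * (S.n : ℝ) ^ 4 + k + 1) * q :=
      mul_le_mul_of_nonneg_right (by linarith) (by linarith)
    linarith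
  have hrN : (r : ℝ) ≤ S'.n := by
    have : 1 * (r : ℝ) ≤ (2 * (S.n : ℝ) ^ 4 + k + 1) * r :=
      mul_le_mul_of_nonneg_right (by linarith) (by linarith)
    linarith
  obtain ⟨v1, -⟩ := recip_est s S'.n (q * r) (1 / ((k : ℝ) + 1)) hs hNpos (by positivity)
    (by positivity) (by
      rw [div_le_one (by positivity)]
      linarith) happ
  set N : ℝ := (S'.n : ℝ) with hNdef
  have m2 : mQ ξ ζ Q ≤ ((q : ℝ) / N + 1 / N ^ 3) * ((r : ℝ) / N + 1 / N ^ 3) :=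
    m1.trans (mul_le_mul u1 u2 (nn_nonneg _) (by positivity))
  have m3 : Q * mQ ξ ζ Q ≤ N * (((q : ℝ) / N + 1 / N ^ 3) * ((r : ℝ) / N + 1 / N ^ 3)) :=
    mul_le_mul hQ2 m2 (mQ_nonneg _ _ _) hNpos.le
  have m4 : N * (((q : ℝ) / N + 1 / N ^ 3) * ((r : ℝ) / N + 1 / N ^ 3)) =
      q * r / N + (q / N) / N ^ 2 + (r / N) / N ^ 2 + 1 / N ^ 5 := by
    field_simp
    ring
  have w1 : (q : ℝ) / N ≤ 1 := by rw [div_le_one hNpos]; exact hqN
  have w2 : (r : ℝ) / N ≤ 1 := by rw [div_le_one hNpos]; exact hrN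
  have w3 : 1 / N ^ 2 ≤ 1 / ((k : ℝ) + 1) := by
    apply one_div_le_one_div_of_le (by positivity)
    have : N ≤ N ^ 2 := le_self_pow₀ hNone (by norm_num)
    linarith
  have w4 : 1 / N ^ 5 ≤ 1 / ((k : ℝ) + 1) := by
    apply one_div_le_one_div_of_le (by positivity)
    have : N ≤ N ^ 5 := le_self_pow₀ hNone (by norm_num)
    linarith
  have w5 : (q : ℝ) / N / N ^ 2 ≤ 1 / N ^ 2 := by gcongr
  have w6 : (r : ℝ) / N / N ^ 2 ≤ 1 / N ^ 2 := by gcongr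
  have w7 : 4 / ((k : ℝ) + 1) = 1 / ((k : ℝ) + 1) + 1 / ((k : ℝ) + 1) + 1 / ((k : ℝ) + 1) +
      1 / ((k : ℝ) + 1) := by
    field_simp
    norm_num
  linarith

/-- lower bound just below a denominator -/
theorem stage_lower (s : ℝ) (hs : 6 ≤ s) (k : ℕ) (S S' : St) (h : Rel s k S S') (ξ ζ : ℝ)
    (hξ : ξ ∈ Set.Icc ((S'.g : ℝ) / S'.n) ((S'.g : ℝ) / S'.n + 1 / (S'.n : ℝ) ^ 4))
    (hζ : ζ ∈ Set.Icc ((S'.h : ℝ) / S'.n) ((S'.h : ℝ) / S'.n + 1 / (S'.n : ℝ) ^ 4)) :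
    1 / s - 4 / ((k : ℝ) + 1) ≤ ((S'.n : ℝ) - 1) * mQ ξ ζ ((S'.n : ℝ) - 1) := by
  have hlt := h.lt
  have hgrow := h.grow
  obtain ⟨q, r, hq, hr, hKq, hKr, hKN, hg, hh, happ, hmin⟩ := h
  have hSn := S.hn
  have hqR : (1 : ℝ) ≤ q := by exact_mod_cast hq
  have hrR : (1 : ℝ) ≤ r := by exact_mod_cast hr
  have hnR : (1 : ℝ) ≤ S.n := by exact_mod_cast hSn
  have hn4' : (1 : ℝ) ≤ (S.n : ℝ) ^ 4 := one_le_pow₀ hnR
  have hk0 : (0 : ℝ) ≤ k := Nat.cast_nonneg _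
  have hN1 : (k : ℝ) + 3 ≤ S'.n := by linarith
  have hNpos : (0 : ℝ) < S'.n := by linarith
  have hN2 : 2 ≤ S'.n := by
    have : ((2 : ℕ) : ℝ) ≤ S'.n := by push_cast; linarith
    exact_mod_cast this
  obtain ⟨-, v1⟩ := recip_est s S'.n (q * r) (1 / ((k : ℝ) + 1)) hs hNpos (by positivity)
    (by positivity) (by
      rw [div_le_one (by positivity)]
      linarith) happ
  -- the main estimate for every p
  have key : ∀ p : ℤ, 1 ≤ p → (p : ℝ) ≤ (S'.n : ℝ) - 1 →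
      (1 / s - 1 / ((k : ℝ) + 1)) / S'.n - 2 / (S'.n : ℝ) ^ 3 ≤ nn (p * ξ) * nn (p * ζ) := by
    intro p hp1 hp2
    have hpN : p < (S'.n : ℤ) := by
      have : (p : ℝ) < ((S'.n : ℤ) : ℝ) := by push_cast; linarith
      exact_mod_cast this
    obtain ⟨x, hx1, hx2, hx3⟩ := coord_lower S'.n S'.g p ξ hN2 hp1 hpN hξ.1 hξ.2
    obtain ⟨y, hy1, hy2, hy3⟩ := coord_lower S'.n S'.h p ζ hN2 hp1 hpN hζ.1 hζ.2
    have hnd : ¬ (S'.n : ℤ) ∣ p := fun hd => by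
      have := Int.le_of_dvd (by omega) hd
      omega
    obtain ⟨hx0, hy0, hor⟩ := hmin p x y hnd hx1 hy1 hx2 hy2
    have hax : (1 : ℝ) ≤ |(x : ℝ)| := by
      have := Int.one_le_abs hx0
      have h2 : (1 : ℝ) ≤ ((|x| : ℤ) : ℝ) := by exact_mod_cast this
      rwa [Int.cast_abs] at h2
    have hay : (1 : ℝ) ≤ |(y : ℝ)| := by
      have := Int.one_le_abs hy0
      have h2 : (1 : ℝ) ≤ ((|y| : ℤ) : ℝ) := by exact_mod_cast this
      rwa [Int.cast_abs] at h2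
    have hbx : |(x : ℝ)| ≤ S'.n := by
      have h2 : ((|x| : ℤ) : ℝ) ≤ ((S'.n : ℤ) : ℝ) := by exact_mod_cast hx2.le
      rw [Int.cast_abs] at h2
      exact_mod_cast h2
    have hby : |(y : ℝ)| ≤ S'.n := by
      have h2 : ((|y| : ℤ) : ℝ) ≤ ((S'.n : ℤ) : ℝ) := by exact_mod_cast hy2.le
      rw [Int.cast_abs] at h2
      exact_mod_cast h2
    set N : ℝ := (S'.n : ℝ) with hNdef
    set X : ℝ := |(x : ℝ)| with hX
    set Y : ℝ := |(y : ℝ)| with hY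
    have hXY : (1 / s - 1 / ((k : ℝ) + 1)) * N ≤ X * Y := by
      rcases hor with h1 | h1
      · have h2 : ((q * r : ℤ) : ℝ) ≤ ((|x| * |y| : ℤ) : ℝ) := by exact_mod_cast h1
        push_cast at h2
        have h3 : (1 / s - 1 / ((k : ℝ) + 1)) * N ≤ q * r := by
          have := mul_le_mul_of_nonneg_right v1 hNpos.le
          rwa [div_mul_cancel₀ _ hNpos.ne'] at this
        linarith
      · have h2 : (((S'.n : ℤ) : ℤ) : ℝ) ≤ ((6 * (|x| * |y|) : ℤ) : ℝ) := by exact_mod_cast h1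
        push_cast at h2
        have h3 : 1 / s ≤ 1 / 6 := one_div_le_one_div_of_le (by norm_num) hs
        have h4 : (0 : ℝ) ≤ 1 / ((k : ℝ) + 1) := by positivity
        have h5 : (1 / s - 1 / ((k : ℝ) + 1)) * N ≤ 1 / 6 * N :=
          mul_le_mul_of_nonneg_right (by linarith) hNpos.le
        linarith
    have hN3 : (0 : ℝ) < N ^ 3 := by positivity
    have p1 : 0 ≤ X / N - 1 / N ^ 3 := by
      have : 1 / N ^ 3 ≤ 1 / N := by
        apply one_div_le_one_div_of_le hNpos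
        exact le_self_pow₀ (by linarith) (by norm_num)
      have h2 : 1 / N ≤ X / N := by gcongr
      linarith
    have p2 : 0 ≤ Y / N - 1 / N ^ 3 := by
      have : 1 / N ^ 3 ≤ 1 / N := by
        apply one_div_le_one_div_of_le hNpos
        exact le_self_pow₀ (by linarith) (by norm_num)
      have h2 : 1 / N ≤ Y / N := by gcongr
      linarith
    have p3 : (X / N - 1 / N ^ 3) * (Y / N - 1 / N ^ 3) ≤ nn (p * ξ) * nn (p * ζ) :=
      mul_le_mul hx3 hy3 p2 (nn_nonneg _)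
    have p4 : X / N ≤ 1 := by rw [div_le_one hNpos]; exact hbx
    have p5 : Y / N ≤ 1 := by rw [div_le_one hNpos]; exact hby
    have p6 : (1 / s - 1 / ((k : ℝ) + 1)) / N ≤ X / N * (Y / N) := by
      rw [div_mul_div_comm, div_le_div_iff₀ hNpos (by positivity)]
      have := mul_le_mul_of_nonneg_right hXY hNpos.le
      linarith
    have p7 : (X / N - 1 / N ^ 3) * (Y / N - 1 / N ^ 3) =
        X / N * (Y / N) - (X / N) * (1 / N ^ 3) - (Y / N) * (1 / N ^ 3) + 1 / N ^ 3 * (1 / N ^ 3) := by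
      ring
    have p8 : (0 : ℝ) ≤ 1 / N ^ 3 := by positivity
    have p9 := mul_le_mul_of_nonneg_right p4 p8
    have p10 := mul_le_mul_of_nonneg_right p5 p8
    have p11 : 2 / N ^ 3 = 1 / N ^ 3 + 1 / N ^ 3 := by ring
    have p12 : 0 ≤ 1 / N ^ 3 * (1 / N ^ 3) := mul_nonneg p8 p8
    linarith
  have hlow := le_mQ ξ ζ ((S'.n : ℝ) - 1) _ (by linarith) key
  have hmul := mul_le_mul_of_nonneg_left hlow (by linarith : (0 : ℝ) ≤ (S'.n : ℝ) - 1)
  refine le_trans ?_ hmul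
  set N : ℝ := (S'.n : ℝ) with hNdef
  set c : ℝ := 1 / s - 1 / ((k : ℝ) + 1) with hc
  have hc1 : c ≤ 1 := by
    have h3 : 1 / s ≤ 1 / 6 := one_div_le_one_div_of_le (by norm_num) hs
    have h4 : (0 : ℝ) ≤ 1 / ((k : ℝ) + 1) := by positivity
    linarith
  have e1 : (N - 1) * (c / N - 2 / N ^ 3) = c - c / N - 2 / N ^ 2 + 2 / N ^ 3 := by
    field_simp
    ring
  rw [e1]
  have f1 : c / N ≤ 1 / N := by gcongr
  have f2 : 1 / N ≤ 1 / ((k : ℝ) + 1) := one_div_le_one_div_of_le (by positivity) (by linarith)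
  have f3 : 2 / N ^ 2 ≤ 1 / N := by
    rw [div_le_div_iff₀ (by positivity) hNpos]
    nlinarith
  have f4 : (0 : ℝ) ≤ 2 / N ^ 3 := by positivity
  have f7 : 4 / ((k : ℝ) + 1) = 1 / ((k : ℝ) + 1) + 1 / ((k : ℝ) + 1) + 1 / ((k : ℝ) + 1) +
      1 / ((k : ℝ) + 1) := by
    field_simp
    norm_num
  have f8 : (0 : ℝ) ≤ 1 / ((k : ℝ) + 1) := by positivity
  linarith

/-- for every `s ≥ 6` the number `1/s` belongs to the spectrum -/
theorem exists_pair (s : ℝ) (hs : 6 ≤ s) : ∃ ξ ζ : ℝ, LL ξ ζ = 1 / s := by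
  obtain ⟨S, hS⟩ := exists_seq s hs
  have hmono : StrictMono (fun k => (S k).n) := strictMono_nat_of_lt_succ fun k => by
    have := (hS k).lt
    omega
  have hge : ∀ k, k ≤ (S k).n := fun k => hmono.id_le k
  -- nested intervals
  have nest1 : Antitone fun k => Set.Icc (((S k).g : ℝ) / (S k).n)
      (((S k).g : ℝ) / (S k).n + 1 / ((S k).n : ℝ) ^ 4) := by
    apply antitone_nat_of_succ_le
    intro k
    have hgr := (hS k).grow
    obtain ⟨q, r, hq, hr, hKq, hKr, hKN, hg, hh, happ, hmin⟩ := hS k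
    exact nest_coord (S k).n (S (k + 1)).n (S k).g (S (k + 1)).g q (S k).hn k hgr hq hKq hg
  have nest2 : Antitone fun k => Set.Icc (((S k).h : ℝ) / (S k).n)
      (((S k).h : ℝ) / (S k).n + 1 / ((S k).n : ℝ) ^ 4) := by
    apply antitone_nat_of_succ_le
    intro k
    have hgr := (hS k).grow
    obtain ⟨q, r, hq, hr, hKq, hKr, hKN, hg, hh, happ, hmin⟩ := hS k
    exact nest_coord (S k).n (S (k + 1)).n (S k).h (S (k + 1)).h r (S k).hn k hgr hr hKr hh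
  have i1 := ciSup_mem_iInter_Icc_of_antitone_Icc nest1 (fun k => by
    have : (0 : ℝ) ≤ 1 / ((S k).n : ℝ) ^ 4 := by positivity
    linarith)
  have i2 := ciSup_mem_iInter_Icc_of_antitone_Icc nest2 (fun k => by
    have : (0 : ℝ) ≤ 1 / ((S k).n : ℝ) ^ 4 := by positivity
    linarith)
  rw [Set.mem_iInter] at i1 i2
  set ξ : ℝ := ⨆ k, ((S k).g : ℝ) / (S k).n with hξ
  set ζ : ℝ := ⨆ k, ((S k).h : ℝ) / (S k).n with hζ
  refine ⟨ξ, ζ, le_antisymm ?_ ?_⟩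
  · apply le_of_forall_pos_le_add
    intro η hη
    apply LL_le
    obtain ⟨k0, hk0⟩ := exists_nat_gt (4 / η)
    filter_upwards [eventually_ge_atTop ((S k0).n : ℝ)] with Q hQ
    classical
    have hex : ∃ j, Q < ((S j).n : ℝ) := by
      obtain ⟨j, hj⟩ := exists_nat_gt Q
      refine ⟨j, lt_of_lt_of_le hj ?_⟩
      exact_mod_cast hge j
    obtain ⟨j, hj1, hj2⟩ : ∃ j, Q < ((S j).n : ℝ) ∧ ∀ i < j, ¬ Q < ((S i).n : ℝ) :=
      ⟨Nat.find hex, Nat.find_spec hex, fun i hi => Nat.find_min hex hi⟩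
    have hk0j : k0 < j := by
      by_contra hcon
      push Not at hcon
      have h1 : (S j).n ≤ (S k0).n := hmono.monotone hcon
      have h2 : ((S j).n : ℝ) ≤ ((S k0).n : ℝ) := by exact_mod_cast h1
      linarith
    obtain ⟨k, rfl⟩ : ∃ k, j = k + 1 := ⟨j - 1, by omega⟩
    have h3 := hj2 k (Nat.lt_succ_self k)
    push Not at h3
    have h4 := stage_upper s hs k (S k) (S (k + 1)) (hS k) ξ ζ (i1 (k + 1)) (i2 (k + 1)) Q h3 hj1.le
    have h5 : 4 / ((k : ℝ) + 1) ≤ η := by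
      rw [div_lt_iff₀ hη] at hk0
      rw [div_le_iff₀ (by positivity)]
      have h6 : (k0 : ℝ) ≤ k := by exact_mod_cast (by omega : k0 ≤ k)
      nlinarith
    linarith
  · apply le_of_forall_pos_le_add
    intro η hη
    have : 1 / s - η ≤ LL ξ ζ := by
      apply le_LL
      rw [frequently_atTop]
      intro a
      obtain ⟨k, hk⟩ := exists_nat_gt (max (4 / η) (a + 1))
      have hk1 : 4 / η < k := lt_of_le_of_lt (le_max_left _ _) hk
      have hk2 : a + 1 < k := lt_of_le_of_lt (le_max_right _ _) hk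
      refine ⟨((S (k + 1)).n : ℝ) - 1, ?_, ?_⟩
      · have h1 : ((k + 1 : ℕ) : ℝ) ≤ (S (k + 1)).n := by exact_mod_cast hge (k + 1)
        push_cast at h1
        linarith
      · have h4 := stage_lower s hs k (S k) (S (k + 1)) (hS k) ξ ζ (i1 (k + 1)) (i2 (k + 1))
        have h5 : 4 / ((k : ℝ) + 1) ≤ η := by
          rw [div_lt_iff₀ hη] at hk1
          rw [div_le_iff₀ (by positivity)]
          nlinarith
        linarith
    linarith

end H372R3.MD
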