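import Mathlib

/-!
# Rationals with denominator `8^(2^k)` and bounded partial quotients

Chain lemma (best approximation law for finite continued fractions) and the folding
construction, giving for every `k` an integer `g` such that with `N = 8^(2^k)`:
`N ≤ 5 * x * |x * g - y * N|` for all integers `x, y` with `1 ≤ x < N`.
-/

namespace H372R3.MW

/-- first column of the continuant matrix product of a word -/
def R : List ℤ → ℤ × ℤ
  | [] => (1, 0)
  | a :: l => (a * (R l).1 + (R l).2, (R l).1)

theorem R_nonneg (l : List ℤ) (hl : ∀ a ∈ l, 1 ≤ a) : 0 ≤ (R l).2 ∧ 1 ≤ (R l).1 ∧ (R l).2 ≤ (R l).1 := by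
  induction l with
  | nil => simp [R]
  | cons a l ih =>
    have h1 : 1 ≤ a := hl a (by simp)
    obtain ⟨h2, h3, h4⟩ := ih (fun b hb => hl b (by simp [hb]))
    refine ⟨by simp [R]; linarith, by simp only [R]; nlinarith, by simp only [R]; nlinarith⟩

/-- Best approximation step. -/
theorem step (q q' r r' α β : ℤ) (hq : 0 ≤ q) (_hq : 1 ≤ q') (hr : 1 ≤ r)
    (hr' : 0 ≤ r') (hx1 : 1 ≤ α * q + β * q') (hx2 : α * q + β * q' < q') :
    r ≤ |α * r - β * r'| := by
  rcases le_or_gt β 0 with hβ | hβ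
  · -- β ≤ 0, so α ≥ 1
    have hα : 1 ≤ α := by
      by_contra h
      push Not at h
      have h1 : α ≤ 0 := by omega
      nlinarith [mul_nonneg (neg_nonneg.mpr h1) hq, mul_nonneg (neg_nonneg.mpr hβ) (by linarith : (0:ℤ) ≤ q')]
    refine le_trans ?_ (le_abs_self _)
    nlinarith [mul_nonneg (neg_nonneg.mpr hβ) hr', mul_nonneg (sub_nonneg.mpr hα) (by linarith : (0:ℤ) ≤ r)]
  · -- β ≥ 1, so α ≤ -1
    have hα : α ≤ -1 := by
      by_contra h
      push Not at h
      have h1 : 0 ≤ α := by omega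
      nlinarith [mul_nonneg h1 hq, mul_nonneg (by linarith : (0:ℤ) ≤ β - 1) (by linarith : (0:ℤ) ≤ q')]
    refine le_trans ?_ (neg_le_abs _)
    nlinarith [mul_nonneg (by linarith : (0:ℤ) ≤ β) hr', mul_nonneg (by linarith : (0:ℤ) ≤ -1 - α) (by linarith : (0:ℤ) ≤ r)]

/-- The chain lemma. -/
theorem chain (A : ℤ) (l : List ℤ) (hl : ∀ a ∈ l, 1 ≤ a ∧ a ≤ A) :
    ∀ q q' α β : ℤ, 1 ≤ q → q ≤ q' → q' ≤ (A + 1) * q →
      q ≤ α * q + β * q' → α * q + β * q' < q' * (R l).1 + q * (R l).2 →
      q' * (R l).1 + q * (R l).2 ≤ (A + 2) * (α * q + β * q') * |α * (R l).1 - β * (R l).2| := by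
  -- the case where x < q'
  have key : ∀ (l : List ℤ), (∀ a ∈ l, 1 ≤ a ∧ a ≤ A) → ∀ q q' α β : ℤ, 1 ≤ q → q ≤ q' →
      q' ≤ (A + 1) * q → q ≤ α * q + β * q' → α * q + β * q' < q' →
      q' * (R l).1 + q * (R l).2 ≤ (A + 2) * (α * q + β * q') * |α * (R l).1 - β * (R l).2| := by
    intro l hl q q' α β h1 h2 h3 h4 h5
    obtain ⟨k1, k2, k3⟩ := R_nonneg l (fun a ha => (hl a ha).1)
    have hs := step q q' (R l).1 (R l).2 α β (by linarith) (by linarith) k2 k1
      (by linarith) h5
    set r := (R l).1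
    set r' := (R l).2
    set D := |α * r - β * r'|
    set x := α * q + β * q'
    have e1 : q' * r + q * r' ≤ (A + 2) * q * r := by
      nlinarith [mul_nonneg (by linarith : (0:ℤ) ≤ q) (sub_nonneg.mpr k3),
        mul_nonneg (sub_nonneg.mpr h3) (by linarith : (0:ℤ) ≤ r)]
    have hA : 0 ≤ A + 2 := by
      by_contra h
      push Not at h
      nlinarith
    have e2 : q * r ≤ x * D := by
      have : q * r ≤ x * r := by nlinarith
      have : x * r ≤ x * D := by nlinarith
      linarith
    nlinarith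
  induction l with
  | nil =>
    intro q q' α β h1 h2 h3 h4 h5
    exact key [] (by simp) q q' α β h1 h2 h3 h4 (by simpa [R] using h5)
  | cons a l ih =>
    intro q q' α β h1 h2 h3 h4 h5
    rcases lt_or_ge (α * q + β * q') q' with h6 | h6
    · exact key (a :: l) hl q q' α β h1 h2 h3 h4 h6
    · have ha := hl a (by simp)
      have ih' := ih (fun b hb => hl b (by simp [hb])) q' (a * q' + q) (β - a * α) α
        (by linarith) (by nlinarith) (by nlinarith) (by ring_nf; ring_nf at h6; linarith)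
        (by simp only [R] at h5; nlinarith)
      simp only [R]
      have e1 : (β - a * α) * q' + α * (a * q' + q) = α * q + β * q' := by ring
      have e2 : (a * q' + q) * (R l).1 + q' * (R l).2
          = q' * (a * (R l).1 + (R l).2) + q * (R l).1 := by ring
      have e3 : |(β - a * α) * (R l).1 - α * (R l).2| = |α * (a * (R l).1 + (R l).2) - β * (R l).1| := by
        rw [← abs_neg]
        congr 1
        ring
      rw [e1, e2, e3] at ih'
      exact ih'

/-- The bounded-quotient property of `g / N`, in integer form. -/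
theorem chain_word (A a : ℤ) (l : List ℤ) (ha : 1 ≤ a ∧ a ≤ A) (hl : ∀ a ∈ l, 1 ≤ a ∧ a ≤ A)
    (x y : ℤ) (hx : 1 ≤ x) (hx2 : x < (R (a :: l)).1) :
    (R (a :: l)).1 ≤ (A + 2) * x * |x * (R (a :: l)).2 - y * (R (a :: l)).1| := by
  have h := chain A l hl 1 a (x - a * y) y le_rfl ha.1 (by linarith [ha.2]) (by ring_nf; linarith)
    (by simp only [R] at hx2; ring_nf; ring_nf at hx2; linarith)
  simp only [R]
  have e1 : (x - a * y) * 1 + y * a = x := by ring
  have e2 : a * (R l).1 + 1 * (R l).2 = a * (R l).1 + (R l).2 := by ring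
  have e3 : (x - a * y) * (R l).1 - y * (R l).2 = x * (R l).1 - y * (a * (R l).1 + (R l).2) := by ring
  rw [e1, e2, e3] at h
  exact h

/-! ### Folding -/

/-- the matrix of a letter -/
def mat (a : ℤ) : Matrix (Fin 2) (Fin 2) ℤ := !![a, 1; 1, 0]

/-- the matrix of a word -/
def M (l : List ℤ) : Matrix (Fin 2) (Fin 2) ℤ := (l.map mat).prod

theorem M_R (l : List ℤ) : (R l).1 = M l 0 0 ∧ (R l).2 = M l 1 0 := by
  induction l with
  | nil => simp [R, M]
  | cons a l ih =>
    obtain ⟨h1, h2⟩ := ih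
    have : M (a :: l) = mat a * M l := by simp [M]
    rw [this]
    simp [R, mat, Matrix.mul_apply, Fin.sum_univ_two, h1, h2]

theorem M_append (l l' : List ℤ) : M (l ++ l') = M l * M l' := by simp [M]

theorem M_reverse (l : List ℤ) : M l.reverse = (M l).transpose := by
  rw [M, M, Matrix.transpose_list_prod]
  congr 1
  rw [List.map_reverse, List.map_map]
  congr 1
  apply List.map_congr_left
  intro a _
  ext i j
  fin_cases i <;> fin_cases j <;> simp [mat, Matrix.transpose]

/-- the folded words -/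
def fold : ℕ → List ℤ
  | 0 => [1]
  | k + 1 => fold k ++ [3, 1] ++ (fold k).reverse

theorem fold_mem (k : ℕ) : ∀ a ∈ fold k, 1 ≤ a ∧ a ≤ 3 := by
  induction k with
  | zero => simp [fold]
  | succ k ih =>
    intro a ha
    simp only [fold, List.mem_append, List.mem_reverse, List.mem_cons, List.not_mem_nil, or_false] at ha
    rcases ha with (ha | ha | ha) | ha
    · exact ih a ha
    · subst ha; norm_num
    · subst ha; norm_num
    · exact ih a ha

theorem fold_val (k : ℕ) : M (2 :: (fold k ++ [2])) 0 0 = 8 ^ (2 ^ k) := by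
  induction k with
  | zero =>
    simp [M, fold, mat, Matrix.mul_apply, Fin.sum_univ_two]
  | succ k ih =>
    have h1 : M (2 :: (fold k ++ [2])) = M (2 :: fold k) * mat 2 := by
      rw [show (2 :: (fold k ++ [2]) : List ℤ) = (2 :: fold k) ++ [2] by simp, M_append]
      simp [M]
    have h2 : M (2 :: (fold (k+1) ++ [2])) = M (2 :: fold k) * (mat 3 * mat 1) * (M (2 :: fold k)).transpose := by
      rw [show (2 :: (fold (k+1) ++ [2]) : List ℤ) = (2 :: fold k) ++ [3, 1] ++ (2 :: fold k).reverse by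
        simp [fold], M_append, M_append, M_reverse]
      simp [M]
    rw [h2, pow_succ 2 k, pow_mul, ← ih, h1]
    generalize M (2 :: fold k) = B
    simp [mat, Matrix.mul_apply, Fin.sum_univ_two, Matrix.transpose_apply]
    ring

/-- For every `k` there is a multiplier `g` modulo `N = 8^(2^k)` with bounded quotients. -/
theorem exists_mult (k : ℕ) : ∃ g : ℤ, ∀ x y : ℤ, 1 ≤ x → x < 8 ^ (2 ^ k) →
    (8 : ℤ) ^ (2 ^ k) ≤ 5 * x * |x * g - y * 8 ^ (2 ^ k)| := by
  refine ⟨(R (2 :: (fold k ++ [2]))).2, fun x y hx hx2 => ?_⟩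
  have hN : (R (2 :: (fold k ++ [2]))).1 = 8 ^ (2 ^ k) := by
    rw [(M_R _).1, fold_val]
  have := chain_word 3 2 (fold k ++ [2]) (by norm_num) (by
    intro a ha
    rw [List.mem_append, List.mem_singleton] at ha
    rcases ha with ha | ha
    · exact fold_mem k a ha
    · subst ha; norm_num) x y hx (by rw [hN]; exact hx2)
  rw [hN] at this
  linarith

end H372R3.MW
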