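import Pool.Agent.H372R3.MW1

namespace H372R3.MW

/-- `(a/N, b/N)` is a good rational pair. -/
def Good (N a b : ℤ) : Prop :=
  ∀ q p r : ℤ, 1 ≤ q → q < N → N ≤ 5 * (|p * N + q * a| * |r * N + q * b|)

theorem good_of_mult (N g a t : ℤ) (hN : 2 ≤ N)
    (hg : ∀ x y : ℤ, 1 ≤ x → x < N → N ≤ 5 * x * |x * g - y * N|)
    (ha : IsCoprime a N) : Good N a (g * a + t * N) := by
  intro q p r hq1 hq2
  -- positive representative
  have pos : ∀ X y : ℤ, 1 ≤ X → ¬ (N ∣ X) → N ≤ 5 * (X * |X * g - y * N|) := by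
    intro X y hX hnd
    have h1 : 0 ≤ X % N := Int.emod_nonneg _ (by omega)
    have h2 : X % N < N := Int.emod_lt_of_pos _ (by omega)
    have h3 : X % N ≠ 0 := fun h => hnd (Int.dvd_of_emod_eq_zero h)
    have h4 : 1 ≤ X % N := by omega
    have h5 : X % N ≤ X := by
      have e1 := Int.emod_add_mul_ediv X N
      have e2 : 0 ≤ X / N := Int.ediv_nonneg (by omega) (by omega)
      have e3 : 0 ≤ N * (X / N) := mul_nonneg (by omega) e2
      linarith
    have h6 := hg (X % N) (y - (X / N) * g) h4 h2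
    have h7 : (X % N) * g - (y - (X / N) * g) * N = X * g - y * N := by
      have := Int.emod_add_mul_ediv X N
      have : X % N = X - N * (X / N) := by linarith
      rw [this]; ring
    rw [h7] at h6
    have h8 : 0 ≤ |X * g - y * N| := abs_nonneg _
    nlinarith
  have hnd : ¬ (N ∣ p * N + q * a) := by
    intro h
    have h1 : N ∣ q * a := (Int.dvd_add_right (Dvd.intro_left p rfl)).mp h
    have h2 : N ∣ q := ha.symm.dvd_of_dvd_mul_right h1
    have := Int.le_of_dvd (by omega) h2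
    omega
  have e : r * N + q * (g * a + t * N) = (p * N + q * a) * g - (p * g - r - q * t) * N := by ring
  rw [e]
  set X := p * N + q * a with hX
  have hX0 : X ≠ 0 := fun h => hnd (h ▸ dvd_zero _)
  rcases lt_or_gt_of_ne hX0 with h | h
  · have := pos (-X) (-(p * g - r - q * t)) (by omega) (by simpa using hnd)
    rw [abs_of_neg h]
    have e2 : |X * g - (p * g - r - q * t) * N| = |(-X) * g - (-(p * g - r - q * t)) * N| := by
      rw [← abs_neg]; congr 1; ring
    rw [e2]; exact this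
  · have := pos X (p * g - r - q * t) (by omega) hnd
    rw [abs_of_pos h]
    exact this

/-- Multiples of a small nonzero real come close to any real modulo one. -/
theorem multiples (φ z : ℝ) (hφ : φ ≠ 0) :
    ∃ (j : ℕ) (t : ℤ), (j : ℝ) ≤ 1 / |φ| ∧ |j * φ - z - t| ≤ |φ| := by
  have key : ∀ φ z : ℝ, 0 < φ → ∃ (j : ℕ) (t : ℤ), (j : ℝ) ≤ 1 / φ ∧ |j * φ - z - t| ≤ φ := by
    intro φ z hφ
    refine ⟨⌊Int.fract z / φ⌋₊, -⌊z⌋, ?_, ?_⟩
    · refine le_trans (Nat.floor_le (div_nonneg (Int.fract_nonneg z) hφ.le)) ?_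
      gcongr
      exact (Int.fract_lt_one z).le
    · have h1 := Nat.floor_le (div_nonneg (Int.fract_nonneg z) hφ.le)
      have h2 := Nat.lt_floor_add_one (Int.fract z / φ)
      have h3 : z = Int.fract z + ⌊z⌋ := (Int.fract_add_floor z).symm
      have e : (⌊Int.fract z / φ⌋₊ : ℝ) * φ - z - ((-⌊z⌋ : ℤ) : ℝ) = (⌊Int.fract z / φ⌋₊ : ℝ) * φ - Int.fract z := by
        push_cast
        linarith
      rw [e, abs_le]
      rw [le_div_iff₀ hφ] at h1
      rw [div_lt_iff₀ hφ] at h2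
      constructor <;> nlinarith
  rcases lt_or_gt_of_ne hφ with h | h
  · obtain ⟨j, t, h1, h2⟩ := key (-φ) (-z) (by linarith)
    refine ⟨j, -t, by rwa [abs_of_neg h], ?_⟩
    rw [abs_of_neg h, ← abs_neg]
    refine le_trans (le_of_eq ?_) h2
    congr 1
    push_cast
    ring
  · obtain ⟨j, t, h1, h2⟩ := key φ z h
    exact ⟨j, t, by rwa [abs_of_pos h], by rwa [abs_of_pos h]⟩

/-- Density of good rational pairs. -/
theorem good_dense (x y δ : ℝ) (hδ : 0 < δ) (n : ℕ) :
    ∃ N a b : ℤ, 2 ≤ N ∧ (n : ℤ) ≤ N ∧ Good N a b ∧ |(a : ℝ) / N - x| < δ ∧ |(b : ℝ) / N - y| < δ := by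
  -- choose Q
  obtain ⟨Q, hQ⟩ := exists_nat_gt (1 / δ)
  have hQ0 : 0 < Q := by
    rcases Nat.eq_zero_or_pos Q with h | h
    · subst h
      have : 0 < 1 / δ := by positivity
      simp at hQ
      linarith
    · exact h
  have hQR : (1:ℝ) ≤ Q := by exact_mod_cast hQ0
  -- the size bound
  set S : ℝ := 10 * Q * Q with hS
  obtain ⟨k, hk⟩ : ∃ k : ℕ, max (max (n:ℝ) (2 * Q + 1)) ((2 * S + 2) / δ) < k := exists_nat_gt _
  have hkN : (k : ℝ) ≤ ((8 ^ (2 ^ k) : ℤ) : ℝ) := by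
    have h1 : k < 2 ^ k := Nat.lt_two_pow_self
    have h2 : 2 ^ k < 8 ^ (2 ^ k) := Nat.lt_pow_self (by norm_num)
    have : k ≤ 8 ^ (2 ^ k) := by omega
    exact_mod_cast this
  obtain ⟨g, hg⟩ := exists_mult k
  set N : ℤ := 8 ^ (2 ^ k) with hN
  have hNk : max (max (n:ℝ) (2 * Q + 1)) ((2 * S + 2) / δ) < N := lt_of_lt_of_le hk hkN
  have hN1 : (n : ℝ) < N := lt_of_le_of_lt (le_trans (le_max_left _ _) (le_max_left _ _)) hNk
  have hN2 : 2 * (Q : ℝ) + 1 < N := lt_of_le_of_lt (le_trans (le_max_right _ _) (le_max_left _ _)) hNk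
  have hN3 : (2 * S + 2) / δ < N := lt_of_le_of_lt (le_max_right _ _) hNk
  have hNpos : (0 : ℝ) < N := by linarith
  have hN2' : 2 * (Q : ℤ) + 1 < N := by exact_mod_cast hN2
  have hN2'' : 2 ≤ N := by omega
  -- Dirichlet
  set θ : ℝ := 2 * g / N with hθ
  obtain ⟨P, q, hq1, hq2, hPq⟩ := Real.exists_int_int_abs_mul_sub_le θ hQ0
  set φ : ℝ := q * θ - P with hφ
  have hφN : φ * N = ((2 * q) * g - P * N : ℤ) := by
    rw [hφ, hθ]
    push_cast
    field_simp
  have hbad : (1 : ℝ) ≤ 10 * Q * |φ| := by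
    have h1 := hg (2 * q) P (by omega) (by omega)
    have h2 : ((N : ℤ) : ℝ) ≤ 5 * (2 * q) * |(((2 * q) * g - P * N : ℤ) : ℝ)| := by
      rw [← Int.cast_abs]
      exact_mod_cast h1
    rw [← hφN, abs_mul, abs_of_pos hNpos] at h2
    have h3 : (q : ℝ) ≤ Q := by exact_mod_cast hq2
    have h4 : (1 : ℝ) ≤ 5 * (2 * q) * |φ| := by
      have : (N:ℝ) * 1 ≤ N * (5 * (2 * q) * |φ|) := by linarith
      exact le_of_mul_le_mul_left this hNpos
    have h5 : 0 ≤ |φ| := abs_nonneg _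
    nlinarith
  have hφ0 : φ ≠ 0 := by
    intro h
    rw [h] at hbad
    simp at hbad
    linarith
  have hφpos : 0 < |φ| := abs_pos.mpr hφ0
  -- the starting odd number
  set a0 : ℤ := 2 * ⌊x * N / 2⌋ + 1 with ha0
  have ha01 : |(a0 : ℝ) - x * N| ≤ 1 := by
    have h1 := Int.floor_le (x * N / 2)
    have h2 := Int.lt_floor_add_one (x * N / 2)
    rw [ha0, abs_le]
    push_cast
    constructor <;> linarith
  obtain ⟨j, t, hj, hjt⟩ := multiples φ (y - g * a0 / N) hφ0
  -- the pair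
  set a : ℤ := a0 + 2 * (j * q) with ha
  set t' : ℤ := -(j * P) - t with ht'
  have hcop : IsCoprime a N := by
    rw [hN]
    apply IsCoprime.pow_right
    have : IsCoprime a 2 := by
      rw [ha, ha0]
      exact ⟨1, -(⌊x * N / 2⌋ + j * q), by ring⟩
    have h8 : (8 : ℤ) = 2 ^ 3 := by norm_num
    rw [h8]
    exact this.pow_right
  refine ⟨N, a, g * a + t' * N, hN2'', by exact_mod_cast hN1.le, good_of_mult N g a t' hN2'' hg hcop, ?_, ?_⟩
  · have hjq : (j : ℝ) * q ≤ S := by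
      have h1 : 1 / |φ| ≤ 10 * Q := by
        rw [div_le_iff₀ hφpos]
        linarith
      have h3 : (q : ℝ) ≤ Q := by exact_mod_cast hq2
      have h4 : (0 : ℝ) < q := by exact_mod_cast hq1
      have h5 : (0 : ℝ) ≤ j := by positivity
      rw [hS]
      exact mul_le_mul (by linarith) h3 h4.le (by positivity)
    have hjq0 : (0 : ℝ) ≤ (j : ℝ) * q := by
      have h4 : (0 : ℝ) < q := by exact_mod_cast hq1
      positivity
    have e : (a : ℝ) / N - x = ((a0 : ℝ) - x * N + 2 * (j * q)) / N := by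
      rw [ha]
      push_cast
      field_simp
      ring
    rw [e, abs_div, abs_of_pos hNpos, div_lt_iff₀ hNpos]
    rw [div_lt_iff₀ hδ] at hN3
    refine lt_of_le_of_lt (abs_add_le _ _) ?_
    rw [abs_of_nonneg (by linarith : (0:ℝ) ≤ 2 * (j * q))]
    nlinarith
  · have e : ((g * a + t' * N : ℤ) : ℝ) / N - y = (j : ℝ) * φ - (y - g * a0 / N) - t := by
      rw [ha, ht', hφ, hθ]
      push_cast
      field_simp
      ring
    rw [e]
    refine lt_of_le_of_lt hjt (lt_of_le_of_lt hPq ?_)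
    rw [div_lt_iff₀ hδ] at hQ
    rw [div_lt_iff₀ (by positivity)]
    nlinarith

end H372R3.MW
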