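import Pool.Agent.H372R3.MW2

open Topology Filter Set

namespace H372R3.MW

/-- radius used around a good pair -/
noncomputable def rad (ψ : ℝ → ℝ) (n : ℕ) (N : ℤ) : ℝ :=
  min (1 / (4 * (N:ℝ) ^ 2 * (n + 1))) (ψ N / N ^ 2)

/-- the open sets of the Baire argument -/
def U (ψ : ℝ → ℝ) (n : ℕ) : Set (ℝ × ℝ) :=
  ⋃ (c : ℤ × ℤ × ℤ) (_ : 2 ≤ c.1 ∧ (n : ℤ) ≤ c.1 ∧ Good c.1 c.2.1 c.2.2),
    {x : ℝ × ℝ | |x.1 - c.2.1 / c.1| < rad ψ n c.1 ∧ |x.2 - c.2.2 / c.1| < rad ψ n c.1}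

theorem rad_pos (ψ : ℝ → ℝ) (hψ : ∀ x, 0 < ψ x) (n : ℕ) (N : ℤ) (hN : 2 ≤ N) : 0 < rad ψ n N := by
  have h : (2:ℝ) ≤ N := by exact_mod_cast hN
  have h1 := hψ N
  unfold rad
  apply lt_min <;> positivity

theorem U_open (ψ : ℝ → ℝ) (n : ℕ) : IsOpen (U ψ n) := by
  unfold U
  refine isOpen_iUnion fun c => isOpen_iUnion fun _ => ?_
  have h1 : IsOpen {x : ℝ × ℝ | |x.1 - c.2.1 / c.1| < rad ψ n c.1} :=
    isOpen_lt (f := fun x : ℝ × ℝ => |x.1 - c.2.1 / c.1|) (by fun_prop) continuous_const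
  have h2 : IsOpen {x : ℝ × ℝ | |x.2 - c.2.2 / c.1| < rad ψ n c.1} :=
    isOpen_lt (f := fun x : ℝ × ℝ => |x.2 - c.2.2 / c.1|) (by fun_prop) continuous_const
  exact h1.inter h2

theorem U_dense (ψ : ℝ → ℝ) (hψ : ∀ x, 0 < ψ x) (n : ℕ) : Dense (U ψ n) := by
  rw [Metric.dense_iff]
  intro x δ hδ
  obtain ⟨N, a, b, h1, h2, h3, h4, h5⟩ := good_dense x.1 x.2 δ hδ n
  refine ⟨((a:ℝ)/N, (b:ℝ)/N), ?_, ?_⟩
  · rw [Metric.mem_ball, Prod.dist_eq, max_lt_iff, Real.dist_eq, Real.dist_eq]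
    exact ⟨h4, h5⟩
  · unfold U
    simp only [mem_iUnion]
    refine ⟨(N, a, b), ⟨h1, h2, h3⟩, ?_⟩
    simp [rad_pos ψ hψ n N h1]

/-- Points close to a good pair: no solution at `T = N - 1` with `ε = 1/20`. -/
theorem no_sol (N a b : ℤ) (hN : 2 ≤ N) (hg : Good N a b) (α β η : ℝ)
    (hη : η ≤ 1 / (4 * (N:ℝ) ^ 2)) (hα : |α - a / N| < η) (hβ : |β - b / N| < η)
    (p r q : ℤ) (hq1 : 1 ≤ q) (hq2 : q < N) :
    (1 / 20 : ℝ) / ((N:ℝ) - 1) ≤ |p + q * α| * |r + q * β| := by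
  have hNR : (2:ℝ) ≤ N := by exact_mod_cast hN
  have hNpos : (0:ℝ) < N := by linarith
  have hG := hg q p r hq1 hq2
  have hX : 1 ≤ |p * N + q * a| := by
    by_contra h
    have : |p * N + q * a| = 0 := le_antisymm (by omega) (abs_nonneg _)
    rw [this] at hG
    omega
  have hY : 1 ≤ |r * N + q * b| := by
    by_contra h
    have : |r * N + q * b| = 0 := le_antisymm (by omega) (abs_nonneg _)
    rw [this] at hG
    omega
  have hGR : (N:ℝ) ≤ 5 * ((|p * N + q * a| : ℤ) * (|r * N + q * b| : ℤ)) := by exact_mod_cast hG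
  have hXR : (1:ℝ) ≤ (|p * N + q * a| : ℤ) := by exact_mod_cast hX
  have hYR : (1:ℝ) ≤ (|r * N + q * b| : ℤ) := by exact_mod_cast hY
  have low : ∀ (p a : ℤ) (α : ℝ), |α - a / N| < η → (1:ℝ) ≤ (|p * N + q * a| : ℤ) →
      (3 / 4) * (((|p * N + q * a| : ℤ) : ℝ) / N) ≤ |p + q * α| := by
    intro p a α hα hX
    have e : (p:ℝ) + q * α = ((p * N + q * a : ℤ) : ℝ) / N + q * (α - a / N) := by
      push_cast
      field_simp
      ring
    have h1 : |((p * N + q * a : ℤ) : ℝ) / N| - |q * (α - a / N)| ≤ |(p:ℝ) + q * α| := by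
      rw [e]
      have := abs_sub_abs_le_abs_sub (((p * N + q * a : ℤ) : ℝ) / N) (-(q * (α - a / N)))
      rw [abs_neg, sub_neg_eq_add] at this
      exact this
    have h2 : |((p * N + q * a : ℤ) : ℝ) / N| = (((|p * N + q * a| : ℤ) : ℝ) / N) := by
      rw [abs_div, abs_of_pos hNpos, Int.cast_abs]
    have h3 : |q * (α - a / N)| ≤ 1 / (4 * N) := by
      rw [abs_mul]
      have hqR : |(q:ℝ)| ≤ N := by
        rw [abs_of_pos (by exact_mod_cast hq1)]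
        exact_mod_cast hq2.le
      calc |(q:ℝ)| * |α - a / N| ≤ N * (1 / (4 * (N:ℝ) ^ 2)) :=
            mul_le_mul hqR (hα.le.trans hη) (abs_nonneg _) hNpos.le
        _ = 1 / (4 * N) := by field_simp
    have h4 : 1 / (4 * (N:ℝ)) ≤ (1 / 4) * (((|p * N + q * a| : ℤ) : ℝ) / N) := by
      rw [show 1 / (4 * (N:ℝ)) = (1 / 4) * (1 / N) by field_simp]
      gcongr
    rw [h2] at h1
    linarith
  have l1 := low p a α hα hXR
  have l2 := low r b β hβ hYR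
  have l3 : (3 / 4) * (((|p * N + q * a| : ℤ) : ℝ) / N) * ((3 / 4) * (((|r * N + q * b| : ℤ) : ℝ) / N))
      ≤ |p + q * α| * |r + q * β| :=
    mul_le_mul l1 l2 (by positivity) (abs_nonneg _)
  refine le_trans ?_ l3
  have e : (3 / 4) * (((|p * N + q * a| : ℤ) : ℝ) / N) * ((3 / 4) * (((|r * N + q * b| : ℤ) : ℝ) / N))
      = (9 / 16) * (((|p * N + q * a| : ℤ) : ℝ) * ((|r * N + q * b| : ℤ) : ℝ)) / N ^ 2 := by
    field_simp
    ring
  rw [e, div_le_div_iff₀ (by linarith) (by positivity)]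
  nlinarith [mul_le_mul_of_nonneg_right hGR (by linarith : (0:ℝ) ≤ (N:ℝ) - 1)]

/-- Points close to a good pair: a very good solution at `T = N`. -/
theorem sol (N a b : ℤ) (hN : 2 ≤ N) (α β η : ℝ)
    (hα : |α - a / N| < η) (hβ : |β - b / N| < η) :
    |((-a : ℤ) : ℝ) + N * α| * |((-b : ℤ) : ℝ) + N * β| < N ^ 2 * η ^ 2 := by
  have hNR : (2:ℝ) ≤ N := by exact_mod_cast hN
  have hNpos : (0:ℝ) < N := by linarith
  have e : ∀ (a : ℤ) (α : ℝ), |((-a : ℤ) : ℝ) + N * α| = N * |α - a / N| := by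
    intro a α
    rw [← abs_of_pos hNpos, ← abs_mul, abs_of_pos hNpos]
    congr 1
    push_cast
    field_simp
    ring
  rw [e, e]
  have : |α - a / N| * |β - b / N| < η * η :=
    mul_lt_mul'' hα hβ (abs_nonneg _) (abs_nonneg _)
  have h2 : (0:ℝ) < N ^ 2 := by positivity
  calc N * |α - a / N| * (N * |β - b / N|) = N ^ 2 * (|α - a / N| * |β - b / N|) := by ring
    _ < N ^ 2 * (η * η) := mul_lt_mul_of_pos_left this h2
    _ = N ^ 2 * η ^ 2 := by ring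

end H372R3.MW
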