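import Mathlib

/-! Flag complexes, pseudomanifolds, joins of cycles: definitions. -/

set_option autoImplicit false

namespace Pool.Agent.H372R3

open Finset

/-- The number of `i`-dimensional faces (faces with `i + 1` vertices). -/
noncomputable def faceNum {V : Type*} (K : AbstractSimplicialComplex V) (i : ℕ) : ℕ :=
  Set.ncard {s : Finset V | s ∈ K.faces ∧ s.card = i + 1}

/-- A complex is flag if every nonempty finite set of vertices that are pairwise joined by edges is a
face. -/
def IsFlag {V : Type*} (K : AbstractSimplicialComplex V) : Prop :=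
  ∀ s : Finset V, s.Nonempty →
    (∀ x ∈ s, ∀ y ∈ s, x ≠ y → ∃ e ∈ K.faces, x ∈ e ∧ y ∈ e) → s ∈ K.faces

/-- `K` is a `d`-dimensional pseudomanifold (`d ≥ 1`): there is at least one vertex, every face lies in
a face of dimension `d` and no face has larger dimension, and every `(d-1)`-dimensional face lies in
exactly two `d`-dimensional faces. -/
def IsPseudomanifold {V : Type*} (d : ℕ) (K : AbstractSimplicialComplex V) : Prop :=
  Nonempty V ∧
  (∀ s ∈ K.faces, s.card ≤ d + 1 ∧ ∃ t ∈ K.faces, s ⊆ t ∧ t.card = d + 1) ∧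
  ∀ s ∈ K.faces, s.card = d → Set.ncard {t : Finset V | t ∈ K.faces ∧ s ⊆ t ∧ t.card = d + 1} = 2

/-- The join of `m` cycles (triangulated circles), the `i`-th one with `a i` vertices (`a i ≥ 3`): the
vertex set is the disjoint union of the `ZMod (a i)`, and a nonempty finite set is a face iff, for every
`i`, its part in the `i`-th cycle is contained in an edge `{x, x + 1}` of that cycle. -/
def joinOfCycles {m : ℕ} (a : Fin m → ℕ) : AbstractSimplicialComplex (Σ i : Fin m, ZMod (a i)) where
  faces := {s | s.Nonempty ∧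
    ∀ i, ∃ x : ZMod (a i), ∀ y : ZMod (a i), (⟨i, y⟩ : Σ i : Fin m, ZMod (a i)) ∈ s → y = x ∨ y = x + 1}
  isRelLowerSet_faces := by
    rintro s ⟨hs, h⟩
    refine ⟨hs, fun t hts ht => ⟨ht, fun i => ?_⟩⟩
    obtain ⟨x, hx⟩ := h i
    exact ⟨x, fun y hy => hx y (hts hy)⟩
  singleton_mem := by
    rintro ⟨i, v⟩
    refine ⟨Finset.singleton_nonempty _, fun j => ?_⟩
    by_cases hij : j = i
    · subst hij
      refine ⟨v, fun y hy => Or.inl ?_⟩
      simpa using hy
    · refine ⟨0, fun y hy => ?_⟩
      rw [Finset.mem_singleton, Sigma.mk.injEq] at hy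
      exact (hij hy.1).elim

/-- The cycle lengths `a` are balanced: each is `⌊n/m⌋` or `⌈n/m⌉`, and they add up to `n`. -/
def IsBalanced (m n : ℕ) (a : Fin m → ℕ) : Prop :=
  (∀ i, a i = ⌊(n : ℚ) / m⌋₊ ∨ a i = ⌈(n : ℚ) / m⌉₊) ∧ ∑ i, a i = n

end Pool.Agent.H372R3
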