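import Pool.Agent.H372R3.PM1

/-! Graph level lemmas: clique complexes and pseudomanifolds. -/

set_option autoImplicit false

namespace Pool.Agent.H372R3

open Finset

variable {V W : Type*}

/-- The clique complex of a graph. -/
def cliqueCx (G : SimpleGraph V) : AbstractSimplicialComplex V where
  faces := {s | s.Nonempty ∧ G.IsClique (s : Set V)}
  isRelLowerSet_faces := by
    rintro s ⟨hs, h⟩
    refine ⟨hs, fun t hts ht => ⟨ht, h.subset (by exact_mod_cast hts)⟩⟩
  singleton_mem := by
    intro v
    exact ⟨Finset.singleton_nonempty _, by simp⟩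

theorem mem_cliqueCx {G : SimpleGraph V} {s : Finset V} :
    s ∈ (cliqueCx G).faces ↔ s.Nonempty ∧ G.IsClique (s : Set V) := Iff.rfl

theorem isFlag_cliqueCx (G : SimpleGraph V) : IsFlag (cliqueCx G) := by
  intro s hs h
  refine ⟨hs, fun x hx y hy hxy => ?_⟩
  obtain ⟨e, he, hxe, hye⟩ := h x hx y hy hxy
  exact he.2 (by exact_mod_cast hxe) (by exact_mod_cast hye) hxy

/-- Graph-level pseudomanifold condition with `D` vertices in each facet. -/
structure PM [DecidableEq V] (D : ℕ) (G : SimpleGraph V) : Prop where
  ext : ∀ s : Finset V, G.IsClique (s : Set V) → s.card < D →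
    ∃ v, v ∉ s ∧ G.IsClique ((insert v s : Finset V) : Set V)
  top : ∀ s : Finset V, G.IsClique (s : Set V) → s.card ≤ D
  two : ∀ s : Finset V, G.IsClique (s : Set V) → s.card + 1 = D →
    ∃ v w, v ≠ w ∧ ∀ x, (x ∉ s ∧ G.IsClique ((insert x s : Finset V) : Set V)) ↔ (x = v ∨ x = w)

theorem PM.exists_facet [DecidableEq V] {D : ℕ} {G : SimpleGraph V} (h : PM D G) :
    ∀ (j : ℕ) (s : Finset V), G.IsClique (s : Set V) → s.card + j = D →
      ∃ t : Finset V, s ⊆ t ∧ G.IsClique (t : Set V) ∧ t.card = D := by
  intro j
  induction j with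
  | zero => intro s hs hc; exact ⟨s, Finset.Subset.refl _, hs, by omega⟩
  | succ j ih =>
    intro s hs hc
    obtain ⟨v, hv, hcl⟩ := h.ext s hs (by omega)
    obtain ⟨t, ht, ht2, ht3⟩ := ih (insert v s) hcl (by rw [Finset.card_insert_of_notMem hv]; omega)
    exact ⟨t, (Finset.subset_insert _ _).trans ht, ht2, ht3⟩

theorem isPseudomanifold_cliqueCx [DecidableEq V] [Nonempty V] {d : ℕ} (hd : 1 ≤ d)
    {G : SimpleGraph V} (h : PM (d + 1) G) : IsPseudomanifold d (cliqueCx G) := by
  refine ⟨inferInstance, ?_, ?_⟩
  · rintro s ⟨hs, hcl⟩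
    have h1 := h.top s hcl
    refine ⟨h1, ?_⟩
    obtain ⟨t, ht, ht2, ht3⟩ := h.exists_facet (d + 1 - s.card) s hcl (by omega)
    exact ⟨t, ⟨hs.mono ht, ht2⟩, ht, ht3⟩
  · rintro s ⟨hs, hcl⟩ hcard
    obtain ⟨v, w, hvw, hx⟩ := h.two s hcl (by omega)
    have hv := (hx v).2 (Or.inl rfl)
    have hw := (hx w).2 (Or.inr rfl)
    have : {t : Finset V | t ∈ (cliqueCx G).faces ∧ s ⊆ t ∧ t.card = d + 1} =
        {insert v s, insert w s} := by
      ext t
      simp only [Set.mem_setOf_eq, Set.mem_insert_iff, Set.mem_singleton_iff, mem_cliqueCx]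
      constructor
      · rintro ⟨⟨_, ht⟩, hst, htc⟩
        have h1 : (t \ s).card = 1 := by
          rw [Finset.card_sdiff_of_subset hst]; omega
        obtain ⟨x, hx1⟩ := Finset.card_eq_one.1 h1
        have hxt : x ∈ t \ s := by rw [hx1]; exact Finset.mem_singleton_self _
        rw [Finset.mem_sdiff] at hxt
        have ht3 : t = insert x s := by
          ext y
          rw [Finset.mem_insert]
          constructor
          · intro hy
            by_cases hys : y ∈ s
            · exact Or.inr hys
            · left
              have : y ∈ t \ s := Finset.mem_sdiff.2 ⟨hy, hys⟩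
              rw [hx1, Finset.mem_singleton] at this
              exact this
          · rintro (rfl | hy)
            · exact hxt.1
            · exact hst hy
        rcases (hx x).1 ⟨hxt.2, ht3 ▸ ht⟩ with rfl | rfl
        · exact Or.inl ht3
        · exact Or.inr ht3
      · rintro (rfl | rfl)
        · exact ⟨⟨Finset.insert_nonempty _ _, hv.2⟩, Finset.subset_insert _ _, by
            rw [Finset.card_insert_of_notMem hv.1, hcard]⟩
        · exact ⟨⟨Finset.insert_nonempty _ _, hw.2⟩, Finset.subset_insert _ _, by
            rw [Finset.card_insert_of_notMem hw.1, hcard]⟩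
    rw [this]
    apply Set.ncard_pair
    intro heq
    have : v ∈ insert w s := heq ▸ Finset.mem_insert_self v s
    rcases Finset.mem_insert.1 this with h1 | h1
    · exact hvw h1
    · exact hv.1 h1

/-- Disjoint unions of pseudomanifold graphs. -/
theorem PM.sum [DecidableEq V] [DecidableEq W] [Nonempty V] [Nonempty W] {D : ℕ} (hD : 2 ≤ D)
    {G : SimpleGraph V} {H : SimpleGraph W} (hG : PM D G) (hH : PM D H) : PM D (G ⊕g H) := by
  -- every clique comes from one side
  have key : ∀ s : Finset (V ⊕ W), (G ⊕g H).IsClique (s : Set (V ⊕ W)) →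
      (∃ a : Finset V, s = a.map Function.Embedding.inl ∧ G.IsClique (a : Set V)) ∨
      (∃ b : Finset W, s = b.map Function.Embedding.inr ∧ H.IsClique (b : Set W)) := by
    intro s hs
    by_cases hl : ∃ v, Sum.inl v ∈ s
    · left
      obtain ⟨v0, hv0⟩ := hl
      refine ⟨s.preimage Sum.inl (Sum.inl_injective.injOn), ?_, ?_⟩
      · ext x
        rw [Finset.mem_map]
        constructor
        · intro hx
          rcases x with v | w
          · exact ⟨v, by simpa using hx, rfl⟩
          · exfalso
            have := hs hv0 hx (by simp)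
            simp at this
        · rintro ⟨v, hv, rfl⟩
          simpa using hv
      · intro x hx y hy hxy
        have hx' : Sum.inl x ∈ s := by simpa using hx
        have hy' : Sum.inl y ∈ s := by simpa using hy
        have := hs hx' hy' (by simpa using hxy)
        simpa using this
    · right
      refine ⟨s.preimage Sum.inr (Sum.inr_injective.injOn), ?_, ?_⟩
      · ext x
        rw [Finset.mem_map]
        constructor
        · intro hx
          rcases x with v | w
          · exact (hl ⟨v, hx⟩).elim
          · exact ⟨w, by simpa using hx, rfl⟩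
        · rintro ⟨v, hv, rfl⟩
          simpa using hv
      · intro x hx y hy hxy
        have hx' : Sum.inr x ∈ s := by simpa using hx
        have hy' : Sum.inr y ∈ s := by simpa using hy
        have := hs hx' hy' (by simpa using hxy)
        simpa using this
  have cl1 : ∀ a : Finset V, (G ⊕g H).IsClique ((a.map Function.Embedding.inl : Finset (V ⊕ W)) : Set (V ⊕ W))
      ↔ G.IsClique (a : Set V) := by
    intro a
    constructor
    · intro h x hx y hy hxy
      have := h (x := Sum.inl x) (by simpa using hx) (y := Sum.inl y) (by simpa using hy)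
        (by simpa using hxy)
      simpa using this
    · intro h x hx y hy hxy
      simp only [Finset.coe_map, Function.Embedding.inl_apply, Set.mem_image] at hx hy
      obtain ⟨x, hx, rfl⟩ := hx
      obtain ⟨y, hy, rfl⟩ := hy
      simpa using h hx hy (by simpa using hxy)
  have cl2 : ∀ a : Finset W, (G ⊕g H).IsClique ((a.map Function.Embedding.inr : Finset (V ⊕ W)) : Set (V ⊕ W))
      ↔ H.IsClique (a : Set W) := by
    intro a
    constructor
    · intro h x hx y hy hxy
      have := h (x := Sum.inr x) (by simpa using hx) (y := Sum.inr y) (by simpa using hy)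
        (by simpa using hxy)
      simpa using this
    · intro h x hx y hy hxy
      simp only [Finset.coe_map, Function.Embedding.inr_apply, Set.mem_image] at hx hy
      obtain ⟨x, hx, rfl⟩ := hx
      obtain ⟨y, hy, rfl⟩ := hy
      simpa using h hx hy (by simpa using hxy)
  have ins1 : ∀ (a : Finset V) (v : V), insert (Sum.inl v) (a.map Function.Embedding.inl : Finset (V ⊕ W))
      = (insert v a).map Function.Embedding.inl := by
    intro a v
    rw [Finset.map_insert]; rfl
  have ins2 : ∀ (a : Finset W) (v : W), insert (Sum.inr v) (a.map Function.Embedding.inr : Finset (V ⊕ W))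
      = (insert v a).map Function.Embedding.inr := by
    intro a v
    rw [Finset.map_insert]; rfl
  refine ⟨?_, ?_, ?_⟩
  · intro s hs hc
    rcases key s hs with ⟨a, rfl, ha⟩ | ⟨b, rfl, hb⟩
    · rw [Finset.card_map] at hc
      obtain ⟨v, hv, hv2⟩ := hG.ext a ha hc
      exact ⟨Sum.inl v, by simpa using hv, by rw [ins1, cl1]; exact hv2⟩
    · rw [Finset.card_map] at hc
      obtain ⟨v, hv, hv2⟩ := hH.ext b hb hc
      exact ⟨Sum.inr v, by simpa using hv, by rw [ins2, cl2]; exact hv2⟩
  · intro s hs
    rcases key s hs with ⟨a, rfl, ha⟩ | ⟨b, rfl, hb⟩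
    · rw [Finset.card_map]; exact hG.top a ha
    · rw [Finset.card_map]; exact hH.top b hb
  · intro s hs hc
    rcases key s hs with ⟨a, rfl, ha⟩ | ⟨b, rfl, hb⟩
    · rw [Finset.card_map] at hc
      obtain ⟨v, w, hvw, hx⟩ := hG.two a ha hc
      have hne : a.Nonempty := by rw [← Finset.card_pos]; omega
      refine ⟨Sum.inl v, Sum.inl w, by simpa using hvw, ?_⟩
      rintro (x | x)
      · rw [ins1, cl1]
        have := hx x
        simpa using this
      · simp only [reduceCtorEq, or_self, iff_false, not_and]
        intro _ hcl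
        obtain ⟨y, hy⟩ := hne
        have := hcl (x := Sum.inl y) (by simp [hy]) (y := Sum.inr x) (by simp) (by simp)
        simp at this
    · rw [Finset.card_map] at hc
      obtain ⟨v, w, hvw, hx⟩ := hH.two b hb hc
      have hne : b.Nonempty := by rw [← Finset.card_pos]; omega
      refine ⟨Sum.inr v, Sum.inr w, by simpa using hvw, ?_⟩
      rintro (x | x)
      · simp only [reduceCtorEq, or_self, iff_false, not_and]
        intro _ hcl
        obtain ⟨y, hy⟩ := hne
        have := hcl (x := Sum.inr y) (by simp [hy]) (y := Sum.inl x) (by simp) (by simp)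
        simp at this
      · rw [ins2, cl2]
        have := hx x
        simpa using this

end Pool.Agent.H372R3
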