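import Pool.Agent.H372R3.PM2

/-! The generalised chessboard graphs. -/

set_option autoImplicit false

namespace Pool.Agent.H372R3

open Finset

/-- The board graph: rows `Fin D`, `k` column coordinates in `Fin D`, a sign. Two vertices are
adjacent iff they differ in the row and in every column coordinate. -/
def board (D k : ℕ) : SimpleGraph (Fin D × (Fin k → Fin D) × Bool) where
  Adj v w := v.1 ≠ w.1 ∧ ∀ t, v.2.1 t ≠ w.2.1 t
  symm := ⟨fun v w h => ⟨h.1.symm, fun t => (h.2 t).symm⟩⟩
  loopless := ⟨fun v h => h.1 rfl⟩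

theorem board_adj {D k : ℕ} (v w : Fin D × (Fin k → Fin D) × Bool) :
    (board D k).Adj v w ↔ v.1 ≠ w.1 ∧ ∀ t, v.2.1 t ≠ w.2.1 t := Iff.rfl

theorem exists_notMem_image {D : ℕ} {α : Type*} (s : Finset α) (f : α → Fin D) (h : s.card < D) :
    ∃ i, i ∉ s.image f := by
  by_contra hcon
  push Not at hcon
  have h1 : (Finset.univ : Finset (Fin D)) ⊆ s.image f := fun i _ => hcon i
  have h2 := Finset.card_le_card h1
  have h3 := Finset.card_image_le (s := s) (f := f)
  simp at h2
  omega

theorem unique_notMem_image {D : ℕ} {α : Type*} (s : Finset α) (f : α → Fin D)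
    (hinj : Set.InjOn f s) (h : s.card + 1 = D) :
    ∃ i, ∀ j, j ∉ s.image f ↔ j = i := by
  have h1 : (Finset.univ \ s.image f).card = 1 := by
    rw [Finset.card_sdiff_of_subset (Finset.subset_univ _), Finset.card_image_of_injOn hinj]
    simp
    omega
  obtain ⟨i, hi⟩ := Finset.card_eq_one.1 h1
  refine ⟨i, fun j => ?_⟩
  rw [← Finset.mem_singleton, ← hi]
  simp

theorem board_PM (D k : ℕ) : PM D (board D k) := by
  have injrow : ∀ s : Finset (Fin D × (Fin k → Fin D) × Bool), (board D k).IsClique (s : Set _) →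
      Set.InjOn (fun v => v.1) (s : Set (Fin D × (Fin k → Fin D) × Bool)) := by
    intro s hs v hv w hw h
    by_contra hne
    exact (hs hv hw hne).1 h
  have injcol : ∀ (t : Fin k) (s : Finset (Fin D × (Fin k → Fin D) × Bool)),
      (board D k).IsClique (s : Set _) →
      Set.InjOn (fun v => v.2.1 t) (s : Set (Fin D × (Fin k → Fin D) × Bool)) := by
    intro t s hs v hv w hw h
    by_contra hne
    exact (hs hv hw hne).2 t h
  have insclique : ∀ (s : Finset (Fin D × (Fin k → Fin D) × Bool)) (x : Fin D × (Fin k → Fin D) × Bool),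
      (board D k).IsClique (s : Set _) →
      ((x ∉ s ∧ (board D k).IsClique ((insert x s : Finset _) : Set _)) ↔
        (x.1 ∉ s.image (fun v => v.1) ∧ ∀ t, x.2.1 t ∉ s.image (fun v => v.2.1 t))) := by
    intro s x hs
    constructor
    · rintro ⟨hx, hcl⟩
      constructor
      · intro h
        obtain ⟨y, hy, hyx⟩ := Finset.mem_image.1 h
        have hne : x ≠ y := fun h => hx (h ▸ hy)
        exact (hcl (by simp) (by simp [hy]) hne).1 hyx.symm
      · intro t h
        obtain ⟨y, hy, hyx⟩ := Finset.mem_image.1 h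
        have hne : x ≠ y := fun h => hx (h ▸ hy)
        exact (hcl (by simp) (by simp [hy]) hne).2 t hyx.symm
    · rintro ⟨h1, h2⟩
      have hx : x ∉ s := fun h => h1 (Finset.mem_image_of_mem _ h)
      refine ⟨hx, ?_⟩
      rw [Finset.coe_insert, SimpleGraph.isClique_insert]
      refine ⟨hs, fun y hy _ => ⟨fun h => h1 (Finset.mem_image.2 ⟨y, by exact_mod_cast hy, h.symm⟩),
        fun t h => h2 t (Finset.mem_image.2 ⟨y, by exact_mod_cast hy, h.symm⟩)⟩⟩
  refine ⟨?_, ?_, ?_⟩
  · intro s hs hc
    obtain ⟨i, hi⟩ := exists_notMem_image s (fun v => v.1) hc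
    choose c hc2 using fun t : Fin k => exists_notMem_image s (fun v => v.2.1 t) hc
    exact ⟨(i, c, true), (insclique s _ hs).2 ⟨hi, hc2⟩⟩
  · intro s hs
    have := Finset.card_le_univ (s.image (fun v => v.1))
    rw [Finset.card_image_of_injOn (injrow s hs)] at this
    simpa using this
  · intro s hs hc
    obtain ⟨i, hi⟩ := unique_notMem_image s (fun v => v.1) (injrow s hs) hc
    choose c hc2 using fun t : Fin k => unique_notMem_image s (fun v => v.2.1 t) (injcol t s hs) hc
    refine ⟨(i, c, true), (i, c, false), by simp, ?_⟩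
    rintro ⟨j, d, b⟩
    rw [insclique s _ hs]
    simp only [hi, hc2, Prod.mk.injEq]
    constructor
    · rintro ⟨h1, h2⟩
      have : d = c := funext h2
      rcases b with _ | _
      · exact Or.inr ⟨h1, this, rfl⟩
      · exact Or.inl ⟨h1, this, rfl⟩
    · rintro (⟨h1, h2, -⟩ | ⟨h1, h2, -⟩)
      · exact ⟨h1, fun t => by rw [h2]⟩
      · exact ⟨h1, fun t => by rw [h2]⟩

/-- The facet given by permutations and signs. -/
def boardFacet {D k : ℕ} (p : (Fin k → Equiv.Perm (Fin D)) × (Fin D → Bool)) :
    Finset (Fin D × (Fin k → Fin D) × Bool) :=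
  Finset.univ.image (fun i : Fin D => (i, fun t => p.1 t i, p.2 i))

theorem boardFacet_card {D k : ℕ} (p : (Fin k → Equiv.Perm (Fin D)) × (Fin D → Bool)) :
    (boardFacet p).card = D := by
  unfold boardFacet
  rw [Finset.card_image_of_injective]
  · simp
  · intro i j h
    exact (Prod.mk.inj h).1

theorem boardFacet_clique {D k : ℕ} (p : (Fin k → Equiv.Perm (Fin D)) × (Fin D → Bool)) :
    (board D k).IsClique ((boardFacet p : Finset _) : Set (Fin D × (Fin k → Fin D) × Bool)) := by
  intro v hv w hw hvw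
  simp only [boardFacet, Finset.coe_image, Finset.coe_univ, Set.image_univ, Set.mem_range] at hv hw
  obtain ⟨i, rfl⟩ := hv
  obtain ⟨j, rfl⟩ := hw
  have hij : i ≠ j := fun h => hvw (by rw [h])
  exact ⟨hij, fun t h => hij ((p.1 t).injective h)⟩

theorem boardFacet_injective {D k : ℕ} :
    Function.Injective (boardFacet (D := D) (k := k)) := by
  intro p q h
  have key : ∀ i : Fin D, (fun t => p.1 t i) = (fun t => q.1 t i) ∧ p.2 i = q.2 i := by
    intro i
    have hi : (i, (fun t => p.1 t i), p.2 i) ∈ boardFacet q := by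
      rw [← h]
      exact Finset.mem_image_of_mem _ (Finset.mem_univ i)
    obtain ⟨j, -, hj⟩ := Finset.mem_image.1 hi
    have h1 := (Prod.mk.inj hj).1
    have h2 := (Prod.mk.inj (Prod.mk.inj hj).2)
    subst h1
    exact ⟨h2.1.symm, h2.2.symm⟩
  refine Prod.ext ?_ ?_
  · funext t
    ext i
    exact congrArg Fin.val (congrFun (key i).1 t)
  · funext i
    exact (key i).2

/-- The number of facets of the disjoint union of the board complex with another complex is at least
`(D !) ^ k * 2 ^ D`. -/
theorem board_facets {D k : ℕ} (hD : 1 ≤ D) {W : Type*} [Fintype W] [DecidableEq W]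
    (H : SimpleGraph W) :
    (D.factorial) ^ k * 2 ^ D ≤ faceNum (cliqueCx (board D k ⊕g H)) (D - 1) := by
  classical
  unfold faceNum
  have hfin : {s : Finset ((Fin D × (Fin k → Fin D) × Bool) ⊕ W) |
      s ∈ (cliqueCx (board D k ⊕g H)).faces ∧ s.card = D - 1 + 1}.Finite := Set.toFinite _
  let g : (Fin k → Equiv.Perm (Fin D)) × (Fin D → Bool) →
      Finset ((Fin D × (Fin k → Fin D) × Bool) ⊕ W) :=
    fun p => (boardFacet p).map Function.Embedding.inl
  have hg : Function.Injective g := by
    intro p q h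
    exact boardFacet_injective (Finset.map_injective _ h)
  have h1 : Set.range g ⊆ {s : Finset ((Fin D × (Fin k → Fin D) × Bool) ⊕ W) |
      s ∈ (cliqueCx (board D k ⊕g H)).faces ∧ s.card = D - 1 + 1} := by
    rintro _ ⟨p, rfl⟩
    refine ⟨⟨?_, ?_⟩, ?_⟩
    · rw [← Finset.card_pos, Finset.card_map, boardFacet_card]; omega
    · intro x hx y hy hxy
      simp only [g, Finset.coe_map, Function.Embedding.inl_apply, Set.mem_image] at hx hy
      obtain ⟨x, hx, rfl⟩ := hx
      obtain ⟨y, hy, rfl⟩ := hy
      simpa using boardFacet_clique p hx hy (by simpa using hxy)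
    · rw [Finset.card_map, boardFacet_card]; omega
  have h2 := Set.ncard_le_ncard h1 hfin
  have h3 : (Set.range g).ncard = Nat.card ((Fin k → Equiv.Perm (Fin D)) × (Fin D → Bool)) := by
    rw [← Set.image_univ, Set.ncard_image_of_injective _ hg, Set.ncard_univ]
  rw [h3] at h2
  refine le_trans (le_of_eq ?_) h2
  simp [Nat.card_eq_fintype_card, Fintype.card_perm]

end Pool.Agent.H372R3
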