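import Pool.Agent.H372R3.PM3

/-! Joins and cycles. -/

set_option autoImplicit false

namespace Pool.Agent.H372R3

open Finset

variable {V W : Type*}

/-- The join of two graphs. -/
def joinG (G : SimpleGraph V) (H : SimpleGraph W) : SimpleGraph (V ⊕ W) where
  Adj
    | Sum.inl u, Sum.inl v => G.Adj u v
    | Sum.inr u, Sum.inr v => H.Adj u v
    | Sum.inl _, Sum.inr _ => True
    | Sum.inr _, Sum.inl _ => True
  symm := ⟨fun u v => match u, v with
    | Sum.inl u, Sum.inl v => fun h => G.adj_symm h
    | Sum.inr u, Sum.inr v => fun h => H.adj_symm h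
    | Sum.inl _, Sum.inr _ => fun h => h
    | Sum.inr _, Sum.inl _ => fun h => h⟩
  loopless := ⟨fun u => match u with
    | Sum.inl u => G.irrefl
    | Sum.inr u => H.irrefl⟩

theorem joinG_clique [DecidableEq V] [DecidableEq W] (G : SimpleGraph V) (H : SimpleGraph W)
    (s : Finset (V ⊕ W)) :
    (joinG G H).IsClique (s : Set (V ⊕ W)) ↔
      G.IsClique (s.toLeft : Set V) ∧ H.IsClique (s.toRight : Set W) := by
  constructor
  · intro h
    constructor
    · intro x hx y hy hxy
      exact h (x := Sum.inl x) (by simpa using hx) (y := Sum.inl y) (by simpa using hy)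
        (by simpa using hxy)
    · intro x hx y hy hxy
      exact h (x := Sum.inr x) (by simpa using hx) (y := Sum.inr y) (by simpa using hy)
        (by simpa using hxy)
  · rintro ⟨h1, h2⟩ x hx y hy hxy
    rcases x with x | x <;> rcases y with y | y
    · exact h1 (x := x) (by simpa using hx) (y := y) (by simpa using hy) (by simpa using hxy)
    · trivial
    · trivial
    · exact h2 (x := x) (by simpa using hx) (y := y) (by simpa using hy) (by simpa using hxy)

theorem toLeft_insert_inl [DecidableEq V] [DecidableEq W] (s : Finset (V ⊕ W)) (v : V) :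
    (insert (Sum.inl v) s).toLeft = insert v s.toLeft := by
  ext x; simp

theorem toRight_insert_inl [DecidableEq V] [DecidableEq W] (s : Finset (V ⊕ W)) (v : V) :
    (insert (Sum.inl v) s).toRight = s.toRight := by
  ext x; simp

theorem toLeft_insert_inr [DecidableEq V] [DecidableEq W] (s : Finset (V ⊕ W)) (v : W) :
    (insert (Sum.inr v) s).toLeft = s.toLeft := by
  ext x; simp

theorem toRight_insert_inr [DecidableEq V] [DecidableEq W] (s : Finset (V ⊕ W)) (v : W) :
    (insert (Sum.inr v) s).toRight = insert v s.toRight := by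
  ext x; simp

theorem PM.join [DecidableEq V] [DecidableEq W] {D E : ℕ} {G : SimpleGraph V} {H : SimpleGraph W}
    (hG : PM D G) (hH : PM E H) : PM (D + E) (joinG G H) := by
  refine ⟨?_, ?_, ?_⟩
  · intro s hs hc
    rw [joinG_clique] at hs
    have hcard := Finset.card_toLeft_add_card_toRight (u := s)
    by_cases h : s.toLeft.card < D
    · obtain ⟨v, hv, hv2⟩ := hG.ext _ hs.1 h
      refine ⟨Sum.inl v, by simpa using hv, ?_⟩
      rw [joinG_clique, toLeft_insert_inl, toRight_insert_inl]
      exact ⟨hv2, hs.2⟩
    · obtain ⟨v, hv, hv2⟩ := hH.ext _ hs.2 (by omega)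
      refine ⟨Sum.inr v, by simpa using hv, ?_⟩
      rw [joinG_clique, toLeft_insert_inr, toRight_insert_inr]
      exact ⟨hs.1, hv2⟩
  · intro s hs
    rw [joinG_clique] at hs
    have hcard := Finset.card_toLeft_add_card_toRight (u := s)
    have h1 := hG.top _ hs.1
    have h2 := hH.top _ hs.2
    omega
  · intro s hs hc
    rw [joinG_clique] at hs
    have hcard := Finset.card_toLeft_add_card_toRight (u := s)
    have h1 := hG.top _ hs.1
    have h2 := hH.top _ hs.2
    by_cases h : s.toLeft.card = D
    · -- then the right side is a ridge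
      obtain ⟨v, w, hvw, hx⟩ := hH.two _ hs.2 (by omega)
      refine ⟨Sum.inr v, Sum.inr w, by simpa using hvw, ?_⟩
      rintro (x | x)
      · rw [joinG_clique, toLeft_insert_inl, toRight_insert_inl]
        simp only [reduceCtorEq, or_self, iff_false, not_and]
        intro hx1 hx2
        have h3 := hG.top _ hx2
        rw [Finset.card_insert_of_notMem (by simpa using hx1)] at h3
        omega
      · rw [joinG_clique, toLeft_insert_inr, toRight_insert_inr]
        have := hx x
        simp only [Finset.mem_toRight, Finset.coe_insert] at this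
        simp only [Sum.inr.injEq, Finset.coe_insert]
        rw [← this]
        tauto
    · obtain ⟨v, w, hvw, hx⟩ := hG.two _ hs.1 (by omega)
      refine ⟨Sum.inl v, Sum.inl w, by simpa using hvw, ?_⟩
      rintro (x | x)
      · rw [joinG_clique, toLeft_insert_inl, toRight_insert_inl]
        have := hx x
        simp only [Finset.mem_toLeft, Finset.coe_insert] at this
        simp only [Sum.inl.injEq, Finset.coe_insert]
        rw [← this]
        tauto
      · rw [joinG_clique, toLeft_insert_inr, toRight_insert_inr]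
        simp only [reduceCtorEq, or_self, iff_false, not_and]
        intro hx1 hx2 hx3
        have h3 := hH.top _ hx3
        rw [Finset.card_insert_of_notMem (by simpa using hx1)] at h3
        omega

/-- The cycle graph on `ZMod r`. -/
def cyc (r : ℕ) : SimpleGraph (ZMod r) where
  Adj x y := x ≠ y ∧ (y = x + 1 ∨ x = y + 1)
  symm := ⟨fun _ _ h => ⟨h.1.symm, h.2.symm⟩⟩
  loopless := ⟨fun _ h => h.1 rfl⟩

theorem zmod_natCast_ne {r : ℕ} (j : ℕ) (hj : 0 < j) (hr : j < r) : (j : ZMod r) ≠ 0 := by
  intro h
  rw [ZMod.natCast_eq_zero_iff] at h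
  exact absurd (Nat.le_of_dvd hj h) (by omega)

theorem cyc_PM {r : ℕ} (hr : 4 ≤ r) : PM 2 (cyc r) := by
  have n1 : (1 : ZMod r) ≠ 0 := by simpa using zmod_natCast_ne (r := r) 1 (by norm_num) (by omega)
  have n2 : (2 : ZMod r) ≠ 0 := by simpa using zmod_natCast_ne (r := r) 2 (by norm_num) (by omega)
  have n3 : (3 : ZMod r) ≠ 0 := by simpa using zmod_natCast_ne (r := r) 3 (by norm_num) (by omega)
  have tri : ∀ x y z : ZMod r, (cyc r).Adj x y → (cyc r).Adj x z → ¬ (cyc r).Adj y z := by
    rintro x y z ⟨h1, h2⟩ ⟨h3, h4⟩ ⟨h5, h6⟩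
    rcases h2 with h2 | h2 <;> rcases h4 with h4 | h4 <;> rcases h6 with h6 | h6
    · exact h5 (by rw [h2, h4])
    · exact h5 (by rw [h2, h4])
    · apply n3
      linear_combination -h2 - h6 - h4
    · apply n1
      linear_combination h6 - h2 - h4
    · apply n1
      linear_combination h6 - h2 - h4
    · apply n3
      linear_combination -h4 - h6 - h2
    · exact h5 (by linear_combination h4 - h2)
    · exact h5 (by linear_combination h4 - h2)
  refine ⟨?_, ?_, ?_⟩
  · intro s hs hc
    have hc2 : s.card = 0 ∨ s.card = 1 := by omega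
    rcases hc2 with hc2 | hc2
    · rw [Finset.card_eq_zero] at hc2
      subst hc2
      exact ⟨0, by simp, by simp⟩
    · obtain ⟨x, rfl⟩ := Finset.card_eq_one.1 hc2
      have hne : x + 1 ≠ x := by
        intro h
        exact n1 (by linear_combination h)
      refine ⟨x + 1, by simpa using n1, ?_⟩
      rw [Finset.coe_insert, SimpleGraph.isClique_insert]
      refine ⟨hs, ?_⟩
      intro y hy _
      rw [Finset.coe_singleton, Set.mem_singleton_iff] at hy
      subst hy
      exact ⟨hne, Or.inr rfl⟩
  · intro s hs
    by_contra hcon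
    push Not at hcon
    obtain ⟨x, hx, y, hy, z, hz, hxy, hxz, hyz⟩ := Finset.two_lt_card.1 hcon
    exact tri x y z (hs hx hy hxy) (hs hx hz hxz) (hs hy hz hyz)
  · intro s hs hc
    obtain ⟨x, rfl⟩ := Finset.card_eq_one.1 (show s.card = 1 by omega)
    refine ⟨x + 1, x - 1, ?_, ?_⟩
    · intro h
      exact n2 (by linear_combination h)
    · intro y
      rw [Finset.coe_insert, SimpleGraph.isClique_insert]
      simp only [Finset.mem_singleton, Finset.coe_singleton, Set.mem_singleton_iff,
        SimpleGraph.isClique_singleton, true_and, forall_eq]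
      constructor
      · rintro ⟨h1, h2⟩
        rcases h2 h1 with ⟨-, h3 | h3⟩
        · right; linear_combination -h3
        · left; exact h3
      · rintro (rfl | rfl)
        · refine ⟨fun h => n1 (by linear_combination h), fun _ => ⟨fun h => n1 (by linear_combination h), Or.inr rfl⟩⟩
        · refine ⟨fun h => n1 (by linear_combination -h), fun _ => ⟨fun h => n1 (by linear_combination -h), Or.inl (by ring)⟩⟩

/-- Upper bound for the number of facets of a join of cycles. -/
theorem faceNum_joinOfCycles_le {m : ℕ} (hm : 1 ≤ m) (a : Fin m → ℕ) (ha : ∀ i, a i ≠ 0) :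
    faceNum (joinOfCycles a) (2 * m - 1) ≤ ∏ i, a i := by
  classical
  have : ∀ i, NeZero (a i) := fun i => ⟨ha i⟩
  unfold faceNum
  let U : ((i : Fin m) → ZMod (a i)) → Finset (Σ i : Fin m, ZMod (a i)) :=
    fun x => (Finset.univ : Finset (Fin m)).biUnion (fun i => {⟨i, x i⟩, ⟨i, x i + 1⟩})
  have hU : ∀ x, (U x).card ≤ 2 * m := by
    intro x
    refine (Finset.card_biUnion_le).trans ?_
    calc ∑ i : Fin m, ({⟨i, x i⟩, ⟨i, x i + 1⟩} : Finset (Σ i : Fin m, ZMod (a i))).card
        ≤ ∑ i : Fin m, 2 := Finset.sum_le_sum (fun i _ => Finset.card_le_two)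
      _ = 2 * m := by simp [mul_comm]
  have hsub : {s : Finset (Σ i : Fin m, ZMod (a i)) |
      s ∈ (joinOfCycles a).faces ∧ s.card = 2 * m - 1 + 1} ⊆ Set.range U := by
    rintro s ⟨⟨_, hs⟩, hc⟩
    choose x hx using hs
    refine ⟨x, ?_⟩
    symm
    apply Finset.eq_of_subset_of_card_le
    · rintro ⟨i, y⟩ hy
      simp only [U, Finset.mem_biUnion, Finset.mem_univ, true_and, Finset.mem_insert,
        Finset.mem_singleton]
      refine ⟨i, ?_⟩
      rcases hx i y hy with h | h
      · left; rw [h]
      · right; rw [h]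
    · have := hU x
      omega
  refine (Set.ncard_le_ncard hsub (Set.finite_range U)).trans ?_
  rw [← Set.image_univ]
  refine (Set.ncard_image_le (Set.toFinite _)).trans ?_
  rw [Set.ncard_univ, Nat.card_eq_fintype_card, Fintype.card_pi]
  simp

end Pool.Agent.H372R3
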